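import Mathlib

/-!
# Linear algebra of commuting symmetric matrices
-/

set_option autoImplicit false

namespace Pool.Agent.SubRiem

open scoped Matrix

variable {ι : Type*} [Fintype ι] [DecidableEq ι]

theorem aeval_symm {S : Matrix ι ι ℝ} (hS : Sᵀ = S) (f : Polynomial ℝ) :
    (Polynomial.aeval S f)ᵀ = Polynomial.aeval S f := by
  induction f using Polynomial.induction_on' with
  | add p q hp hq => rw [map_add, Matrix.transpose_add, hp, hq]
  | monomial n a =>
    rw [Polynomial.aeval_monomial, ← Algebra.smul_def, Matrix.transpose_smul,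
      Matrix.transpose_pow, hS]

omit [DecidableEq ι] in
theorem mulVec_eq_zero_of_sq {A : Matrix ι ι ℝ} (hA : Aᵀ = A) {v : ι → ℝ}
    (h : v ⬝ᵥ ((A * A) *ᵥ v) = 0) : A *ᵥ v = 0 := by
  rw [← Matrix.mulVec_mulVec, Matrix.dotProduct_mulVec, ← Matrix.mulVec_transpose, hA] at h
  exact dotProduct_self_eq_zero.1 h

theorem eq_zero_of_mul_self {A : Matrix ι ι ℝ} (hA : Aᵀ = A) (h : A * A = 0) : A = 0 := by
  apply Matrix.mulVec_injective
  funext v
  rw [mulVec_eq_zero_of_sq hA (by rw [h]; simp), Matrix.zero_mulVec]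

/-- The algebraic heart of the constancy of the spectrum. -/
theorem cubic_algebra {S : Matrix ι ι ℝ} (hS : Sᵀ = S) (C : (ι → ℝ) →ₗ[ℝ] Matrix ι ι ℝ)
    (hC : ∀ u, ∃ h : Polynomial ℝ, C u = Polynomial.aeval S h)
    (h : ∀ u, ∀ g : Polynomial ℝ, u ⬝ᵥ ((C u * Polynomial.aeval S g) *ᵥ u) = 0) (v : ι → ℝ) :
    C v = 0 := by
  have hsym : ∀ u, (C u)ᵀ = C u := by
    intro u
    obtain ⟨f, hf⟩ := hC u
    rw [hf, aeval_symm hS]
  have hcomm : ∀ u w, C u * C w = C w * C u := by
    intro u w
    obtain ⟨f, hf⟩ := hC u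
    obtain ⟨g, hg⟩ := hC w
    rw [hf, hg, ← map_mul, ← map_mul, mul_comm]
  have h1 : ∀ u, C u *ᵥ u = 0 := by
    intro u
    obtain ⟨f, hf⟩ := hC u
    apply mulVec_eq_zero_of_sq (hsym u)
    have := h u f
    rw [← hf] at this
    exact this
  have h2 : ∀ u w, C u *ᵥ w = - (C w *ᵥ u) := by
    intro u w
    have := h1 (u + w)
    rw [map_add, Matrix.add_mulVec, Matrix.mulVec_add, Matrix.mulVec_add, h1 u, h1 w] at this
    rw [zero_add, add_zero] at this
    exact eq_neg_of_add_eq_zero_left this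
  have h3 : ∀ w v, C (C w *ᵥ v) = C w * C v := by
    intro w v
    apply Matrix.mulVec_injective
    funext u
    rw [h2, Matrix.mulVec_mulVec, hcomm u w, ← Matrix.mulVec_mulVec, h2 u v,
      Matrix.mulVec_neg, neg_neg, Matrix.mulVec_mulVec]
  have h4 : ∀ w v, C w * C v = 0 := by
    intro w v
    have h5 := h3 w v
    rw [h2 w v, map_neg, h3 v w, hcomm v w] at h5
    have h6 : (2 : ℝ) • (C w * C v) = 0 := by
      rw [two_smul]
      nth_rewrite 1 [← h5]
      exact neg_add_cancel _
    exact (smul_eq_zero.1 h6).resolve_left two_ne_zero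
  exact eq_zero_of_mul_self (hsym v) (h4 v v)

/-- A symmetric matrix has squarefree minimal polynomial. -/
theorem squarefree_minpoly {S : Matrix ι ι ℝ} (hS : Sᵀ = S) : Squarefree (minpoly ℝ S) := by
  intro q hq
  obtain ⟨r, hr⟩ := hq
  have hint : IsIntegral ℝ S := Algebra.IsIntegral.isIntegral S
  have hne := minpoly.ne_zero hint
  have hm : (Polynomial.aeval S) (q * r) = 0 := by
    apply eq_zero_of_mul_self (aeval_symm hS _)
    rw [← map_mul]
    have h1 : q * r * (q * r) = minpoly ℝ S * r := by rw [hr]; ring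
    rw [h1, map_mul, minpoly.aeval, zero_mul]
  have hdvd := minpoly.dvd ℝ S hm
  obtain ⟨s, hs⟩ := hdvd
  have hqr : q * r ≠ 0 := by
    intro h0
    apply hne
    rw [hr, mul_assoc, h0, mul_zero]
  have h2 : q * r * 1 = q * r * (q * s) := by
    rw [mul_one]
    conv_lhs => rw [hs, hr]
    ring
  have h3 := mul_left_cancel₀ hqr h2
  exact IsUnit.of_mul_eq_one _ h3.symm

theorem splits_minpoly {S : Matrix ι ι ℝ} (hS : Sᵀ = S) : (minpoly ℝ S).Splits := by
  have hH : S.IsHermitian := by
    rw [Matrix.IsHermitian, Matrix.conjTranspose_eq_transpose_of_trivial]; exact hS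
  apply Polynomial.Splits.of_dvd _ (Matrix.charpoly_monic S).ne_zero
    (Matrix.minpoly_dvd_charpoly S)
  rw [hH.charpoly_eq]
  apply Polynomial.Splits.prod
  intro i _
  exact Polynomial.Splits.X_sub_C _

/-- The minimal polynomial of a symmetric matrix is the product over its (finite) root set. -/
theorem minpoly_eq_prod {S : Matrix ι ι ℝ} (hS : Sᵀ = S) :
    ∃ Z : Finset ℝ, minpoly ℝ S = ∏ s ∈ Z, (Polynomial.X - Polynomial.C s) := by
  have hint : IsIntegral ℝ S := Algebra.IsIntegral.isIntegral S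
  have hsep : (minpoly ℝ S).Separable :=
    PerfectField.separable_iff_squarefree.2 (squarefree_minpoly hS)
  have hnd := Polynomial.nodup_roots hsep
  refine ⟨(minpoly ℝ S).roots.toFinset, ?_⟩
  have h1 := Polynomial.prod_multiset_X_sub_C_of_monic_of_roots_card_eq (minpoly.monic hint)
    (splits_minpoly hS).natDegree_eq_card_roots.symm
  rw [Finset.prod_eq_multiset_prod, Multiset.toFinset_val, hnd.dedup]
  exact h1.symm

end Pool.Agent.SubRiem
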