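import Mathlib

/-!
# Calculus of matrix-valued functions, in a form insensitive to instance paths
-/

set_option autoImplicit false
set_option linter.unusedSectionVars false

namespace Pool.Agent.SubRiem

open Set Filter Topology
open scoped ContDiff Matrix Matrix.Norms.Operator

variable {E : Type*} [NormedAddCommGroup E] [NormedSpace ℝ E] {ι : Type*} [Fintype ι]
  [DecidableEq ι]

theorem hasFDerivAt_matmul {A B : E → Matrix ι ι ℝ} {x : E} {A' B' : E →L[ℝ] Matrix ι ι ℝ}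
    (hA : HasFDerivAt A A' x) (hB : HasFDerivAt B B' x) :
    HasFDerivAt (fun x => A x * B x)
      ((LinearMap.toContinuousLinearMap (LinearMap.mulLeft ℝ (A x))).comp B' +
        (LinearMap.toContinuousLinearMap (LinearMap.mulRight ℝ (B x))).comp A') x := by
  have h := HasFDerivAt.fun_mul' hA hB
  exact h

theorem fderiv_matmul {A B : E → Matrix ι ι ℝ} {x : E}
    (hA : DifferentiableAt ℝ A x) (hB : DifferentiableAt ℝ B x) (v : E) :
    fderiv ℝ (fun x => A x * B x) x v = A x * fderiv ℝ B x v + fderiv ℝ A x v * B x := by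
  rw [(hasFDerivAt_matmul hA.hasFDerivAt hB.hasFDerivAt).fderiv]
  rfl

theorem hasFDerivAt_matadd {A B : E → Matrix ι ι ℝ} {x : E} {A' B' : E →L[ℝ] Matrix ι ι ℝ}
    (hA : HasFDerivAt A A' x) (hB : HasFDerivAt B B' x) :
    HasFDerivAt (fun x => A x + B x) (A' + B') x :=
  HasFDerivAt.fun_add hA hB

theorem fderiv_matadd {A B : E → Matrix ι ι ℝ} {x : E}
    (hA : DifferentiableAt ℝ A x) (hB : DifferentiableAt ℝ B x) (v : E) :
    fderiv ℝ (fun x => A x + B x) x v = fderiv ℝ A x v + fderiv ℝ B x v := by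
  rw [(hasFDerivAt_matadd hA.hasFDerivAt hB.hasFDerivAt).fderiv]
  rfl

theorem hasFDerivAt_matsmul {A : E → Matrix ι ι ℝ} {x : E} {A' : E →L[ℝ] Matrix ι ι ℝ}
    (hA : HasFDerivAt A A' x) (c : ℝ) : HasFDerivAt (fun x => c • A x) (c • A') x :=
  HasFDerivAt.fun_const_smul hA c

theorem fderiv_matsmul {A : E → Matrix ι ι ℝ} {x : E}
    (hA : DifferentiableAt ℝ A x) (c : ℝ) (v : E) :
    fderiv ℝ (fun x => c • A x) x v = c • fderiv ℝ A x v := by
  rw [(hasFDerivAt_matsmul hA.hasFDerivAt c).fderiv]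
  rfl

theorem hasFDerivAt_matsum {κ : Type*} (s : Finset κ) {A : κ → E → Matrix ι ι ℝ} {x : E}
    {A' : κ → E →L[ℝ] Matrix ι ι ℝ}
    (hA : ∀ k ∈ s, HasFDerivAt (A k) (A' k) x) :
    HasFDerivAt (fun x => ∑ k ∈ s, A k x) (∑ k ∈ s, A' k) x :=
  HasFDerivAt.fun_sum hA

theorem fderiv_matsum {κ : Type*} (s : Finset κ) {A : κ → E → Matrix ι ι ℝ} {x : E}
    (hA : ∀ k ∈ s, DifferentiableAt ℝ (A k) x) (v : E) :
    fderiv ℝ (fun x => ∑ k ∈ s, A k x) x v = ∑ k ∈ s, fderiv ℝ (A k) x v := by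
  rw [(hasFDerivAt_matsum s fun k hk => (hA k hk).hasFDerivAt).fderiv, sum_apply]

theorem hasFDerivAt_funsmul {f : E → ℝ} {A : E → Matrix ι ι ℝ} {x : E} {f' : E →L[ℝ] ℝ}
    {A' : E →L[ℝ] Matrix ι ι ℝ} (hf : HasFDerivAt f f' x)
    (hA : HasFDerivAt A A' x) :
    HasFDerivAt (fun x => f x • A x) (f x • A' + f'.smulRight (A x)) x :=
  HasFDerivAt.fun_smul hf hA

theorem fderiv_funsmul {f : E → ℝ} {A : E → Matrix ι ι ℝ} {x : E}
    (hf : DifferentiableAt ℝ f x) (hA : DifferentiableAt ℝ A x) (v : E) :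
    fderiv ℝ (fun x => f x • A x) x v = f x • fderiv ℝ A x v + fderiv ℝ f x v • A x := by
  rw [(hasFDerivAt_funsmul hf.hasFDerivAt hA.hasFDerivAt).fderiv]
  rfl

theorem contDiffOn_matmul {n : WithTop ℕ∞} {U : Set E} {A B : E → Matrix ι ι ℝ}
    (hA : ContDiffOn ℝ n A U) (hB : ContDiffOn ℝ n B U) :
    ContDiffOn ℝ n (fun x => A x * B x) U := ContDiffOn.mul hA hB

theorem contDiffOn_matadd {n : WithTop ℕ∞} {U : Set E} {A B : E → Matrix ι ι ℝ}
    (hA : ContDiffOn ℝ n A U) (hB : ContDiffOn ℝ n B U) :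
    ContDiffOn ℝ n (fun x => A x + B x) U := ContDiffOn.add hA hB

theorem contDiffOn_matsmul {n : WithTop ℕ∞} {U : Set E} {A : E → Matrix ι ι ℝ}
    (hA : ContDiffOn ℝ n A U) (c : ℝ) :
    ContDiffOn ℝ n (fun x => c • A x) U := ContDiffOn.const_smul c hA

theorem contDiffOn_matpow {n : WithTop ℕ∞} {U : Set E} {A : E → Matrix ι ι ℝ}
    (hA : ContDiffOn ℝ n A U) (k : ℕ) :
    ContDiffOn ℝ n (fun x => A x ^ k) U := ContDiffOn.pow hA k

/-- The trace as a continuous linear map. -/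
noncomputable def trL : Matrix ι ι ℝ →L[ℝ] ℝ :=
  LinearMap.toContinuousLinearMap (Matrix.traceLinearMap ι ℝ ℝ)

omit [DecidableEq ι] in
theorem fderiv_trace {A : E → Matrix ι ι ℝ} {x : E} (hA : DifferentiableAt ℝ A x) (v : E) :
    fderiv ℝ (fun x => (A x).trace) x v = (fderiv ℝ A x v).trace := by
  have h0 : HasFDerivAt (fun M : Matrix ι ι ℝ => M.trace) trL (A x) :=
    (trL (ι := ι)).hasFDerivAt
  have h : HasFDerivAt (fun x => (A x).trace) (trL.comp (fderiv ℝ A x)) x :=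
    HasFDerivAt.comp x h0 hA.hasFDerivAt
  rw [h.fderiv]
  rfl

end Pool.Agent.SubRiem
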