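import Mathlib

/-!
# The canonical symplectic form on `E × E'`
-/

set_option autoImplicit false

namespace Pool.Agent.SubRiem

open Set Filter Topology
open scoped ContDiff

/-- The dual space (covectors). -/
abbrev Co (E : Type*) [NormedAddCommGroup E] [NormedSpace ℝ E] : Type _ := E →L[ℝ] ℝ

/-- The cotangent space of `E`, i.e. the phase space `E × E'`. -/
abbrev Ph (E : Type*) [NormedAddCommGroup E] [NormedSpace ℝ E] : Type _ := E × (E →L[ℝ] ℝ)

variable {E : Type*} [NormedAddCommGroup E] [NormedSpace ℝ E]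

/-- The canonical symplectic form `ω(a,b) = a₂(b₁) - b₂(a₁)`. -/
noncomputable def om : Ph E →L[ℝ] Ph E →L[ℝ] ℝ :=
  ((ContinuousLinearMap.compL ℝ (Ph E) E ℝ).flip (ContinuousLinearMap.fst ℝ E (Co E))).comp
      (ContinuousLinearMap.snd ℝ E (Co E)) -
    ((ContinuousLinearMap.compL ℝ (Ph E) (Co E) ℝ).flip (ContinuousLinearMap.snd ℝ E (Co E))).comp
      ((ContinuousLinearMap.apply ℝ ℝ).comp (ContinuousLinearMap.fst ℝ E (Co E)))

theorem om_apply (a b : Ph E) : om a b = a.2 b.1 - b.2 a.1 := rfl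

theorem om_swap (a b : Ph E) : om a b = - om b a := by
  simp [om_apply]

theorem om_self (a : Ph E) : om a a = 0 := by
  simp [om_apply]

theorem om_vert_vert (y y' : Co E) : om ((0 : E), y) ((0 : E), y') = 0 := by
  simp [om_apply]

theorem om_vert_left (y : Co E) (b : Ph E) : om ((0 : E), y) b = y b.1 := by
  simp [om_apply]

theorem om_vert_right (a : Ph E) (y : Co E) : om a ((0 : E), y) = - y a.1 := by
  simp [om_apply]

/-- Covectors separate points. -/
theorem eq_zero_of_forall_co {v : E} (h : ∀ y : Co E, y v = 0) : v = 0 := by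
  by_contra hv
  obtain ⟨g, _, hg⟩ := exists_dual_vector ℝ v (norm_ne_zero_iff.2 hv)
  rw [h g] at hg
  have : ‖v‖ = 0 := by
    have := hg.symm
    simpa using this
  exact hv (norm_eq_zero.1 this)

theorem fderiv_om {G : Type*} [NormedAddCommGroup G] [NormedSpace ℝ G] {a b : G → Ph E}
    {z : G} (ha : DifferentiableAt ℝ a z) (hb : DifferentiableAt ℝ b z) (c : G) :
    fderiv ℝ (fun w => om (a w) (b w)) z c = om (fderiv ℝ a z c) (b z) +
      om (a z) (fderiv ℝ b z c) := by
  rw [(om.hasFDerivAt_of_bilinear ha.hasFDerivAt hb.hasFDerivAt).fderiv, add_comm]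
  rfl

theorem differentiableAt_om {G : Type*} [NormedAddCommGroup G] [NormedSpace ℝ G]
    {a b : G → Ph E} {z : G} (ha : DifferentiableAt ℝ a z) (hb : DifferentiableAt ℝ b z) :
    DifferentiableAt ℝ (fun w => om (a w) (b w)) z :=
  (om.hasFDerivAt_of_bilinear ha.hasFDerivAt hb.hasFDerivAt).differentiableAt

theorem om_nondegenerate {a : Ph E} (h : ∀ b, om a b = 0) : a = 0 := by
  have h1 : a.1 = 0 := by
    apply eq_zero_of_forall_co
    intro y
    have := h (0, y)
    rw [om_vert_right] at this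
    linarith
  have h2 : a.2 = 0 := by
    ext v
    have := h (v, 0)
    rw [om_apply] at this
    simpa using this
  exact Prod.ext h1 h2

variable [FiniteDimensional ℝ E]

/-- `om` as a linear map. -/
noncomputable def omL : Ph E →ₗ[ℝ] (Ph E →L[ℝ] ℝ) where
  toFun a := om a
  map_add' a b := map_add om a b
  map_smul' c a := map_smul om c a

omit [FiniteDimensional ℝ E] in
theorem omL_injective : Function.Injective (omL (E := E)) := by
  intro a b hab
  have h : a - b = 0 := by
    apply om_nondegenerate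
    intro c
    have h1 : om a = om b := hab
    rw [map_sub, h1, sub_self]; rfl
  exact sub_eq_zero.1 h

theorem finrank_dual_eq : Module.finrank ℝ (Ph E) = Module.finrank ℝ (Ph E →L[ℝ] ℝ) := by
  have h1 := (LinearMap.toContinuousLinearMap (𝕜 := ℝ) (E := Ph E) (F' := ℝ)).finrank_eq
  rw [← h1]
  exact (Subspace.dual_finrank_eq (K := ℝ) (V := Ph E)).symm

/-- The isomorphism `a ↦ ω(a, ·)`, as a linear equivalence. -/
noncomputable def Jl : Ph E ≃ₗ[ℝ] (Ph E →L[ℝ] ℝ) :=
  LinearEquiv.ofInjectiveOfFinrankEq (K := ℝ) (V := Ph E) (V' := (Ph E →L[ℝ] ℝ)) omL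
    omL_injective finrank_dual_eq

/-- The isomorphism `a ↦ ω(a, ·)`. -/
noncomputable def J : Ph E ≃L[ℝ] (Ph E →L[ℝ] ℝ) :=
  LinearEquiv.toContinuousLinearEquiv (𝕜 := ℝ) (E := Ph E) (F := (Ph E →L[ℝ] ℝ)) Jl

theorem J_apply (a b : Ph E) : J a b = om a b := rfl

theorem om_J_symm (l : Ph E →L[ℝ] ℝ) (b : Ph E) : om (J.symm l) b = l b := by
  rw [← J_apply, ContinuousLinearEquiv.apply_symm_apply]

end Pool.Agent.SubRiem
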