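import Mathlib
import Pool.Agent.SubRiem.Symp

/-!
# The Hamiltonian field of a family of vector fields
-/

set_option autoImplicit false
set_option linter.unusedSectionVars false
set_option linter.unusedVariables false

namespace Pool.Agent.SubRiem

open Set Filter Topology VectorField
open scoped ContDiff

variable {E : Type*} [NormedAddCommGroup E] [NormedSpace ℝ E] {ι : Type*} [Fintype ι]

/-- The part of the cotangent bundle over `U`. -/
def TU (U : Set E) : Set (Ph E) := {z | z.1 ∈ U}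

theorem isOpen_TU {U : Set E} (hU : IsOpen U) : IsOpen (TU U) :=
  hU.preimage continuous_fst

/-- The momentum function of the `i`-th field. -/
def mom (X : ι → E → E) (i : ι) (z : Ph E) : ℝ := z.2 (X i z.1)

/-- The Hamiltonian vector field of `½ ∑ uᵢ²`. -/
noncomputable def XH (X : ι → E → E) (z : Ph E) : Ph E :=
  (∑ i, mom X i z • X i z.1, -∑ i, mom X i z • z.2.comp (fderiv ℝ (X i) z.1))

/-- The Hamiltonian `½ ∑ uᵢ²`. -/
noncomputable def ham (X : ι → E → E) (z : Ph E) : ℝ := (1 / 2) * ∑ i, (mom X i z) ^ 2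

theorem hasFDerivAt_pair {Y : E → E} {z : Ph E} (hY : DifferentiableAt ℝ Y z.1) :
    HasFDerivAt (fun w : Ph E => w.2 (Y w.1))
      (z.2.comp ((fderiv ℝ Y z.1).comp (ContinuousLinearMap.fst ℝ E (Co E))) +
        (ContinuousLinearMap.snd ℝ E (Co E)).flip (Y z.1)) z := by
  have h1 : HasFDerivAt (fun w : Ph E => w.2) (ContinuousLinearMap.snd ℝ E (Co E)) z :=
    hasFDerivAt_snd
  have h2 : HasFDerivAt (fun w : Ph E => Y w.1)
      ((fderiv ℝ Y z.1).comp (ContinuousLinearMap.fst ℝ E (Co E))) z :=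
    hY.hasFDerivAt.comp z hasFDerivAt_fst
  exact h1.clm_apply h2

theorem fderiv_pair {Y : E → E} {z : Ph E} (hY : DifferentiableAt ℝ Y z.1) (b : Ph E) :
    fderiv ℝ (fun w : Ph E => w.2 (Y w.1)) z b = b.2 (Y z.1) + z.2 (fderiv ℝ Y z.1 b.1) := by
  rw [(hasFDerivAt_pair hY).fderiv]
  simp [add_comm]

theorem contDiffOn_mom {n : WithTop ℕ∞} {U : Set E} {X : ι → E → E} {i : ι}
    (hX : ContDiffOn ℝ n (X i) U) : ContDiffOn ℝ n (mom X i) (TU U) := by
  unfold mom
  apply ContDiffOn.clm_apply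
  · exact contDiff_snd.contDiffOn
  · exact hX.comp contDiff_fst.contDiffOn fun z hz => hz

theorem contDiffOn_basic {n : WithTop ℕ∞} {U : Set E} {G : Type*} [NormedAddCommGroup G]
    [NormedSpace ℝ G] {Y : E → G} (hY : ContDiffOn ℝ n Y U) :
    ContDiffOn ℝ n (fun z : Ph E => Y z.1) (TU U) :=
  hY.comp contDiff_fst.contDiffOn fun z hz => hz

theorem contDiffOn_fderiv_of_smooth {F G : Type*} [NormedAddCommGroup F]
    [NormedSpace ℝ F] [NormedAddCommGroup G] [NormedSpace ℝ G] {U : Set F} (hU : IsOpen U)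
    {Y : F → G} (hY : ContDiffOn ℝ ∞ Y U) : ContDiffOn ℝ ∞ (fderiv ℝ Y) U :=
  hY.fderiv_of_isOpen hU (by simp)

theorem contDiffOn_XH {U : Set E} (hU : IsOpen U) {X : ι → E → E}
    (hX : ∀ i, ContDiffOn ℝ ∞ (X i) U) : ContDiffOn ℝ ∞ (XH X) (TU U) := by
  unfold XH
  apply ContDiffOn.prodMk
  · apply ContDiffOn.sum
    intro i _
    exact (contDiffOn_mom (hX i)).smul (contDiffOn_basic (hX i))
  · apply ContDiffOn.neg
    apply ContDiffOn.sum
    intro i _
    apply (contDiffOn_mom (hX i)).smul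
    apply ContDiffOn.clm_comp
    · exact contDiff_snd.contDiffOn
    · exact contDiffOn_basic (contDiffOn_fderiv_of_smooth hU (hX i))

theorem contDiffOn_ham {U : Set E} {X : ι → E → E}
    (hX : ∀ i, ContDiffOn ℝ ∞ (X i) U) : ContDiffOn ℝ ∞ (ham X) (TU U) := by
  unfold ham
  apply ContDiffOn.mul contDiffOn_const
  apply ContDiffOn.sum
  intro i _
  exact (contDiffOn_mom (hX i)).pow 2

theorem fderiv_mom {X : ι → E → E} {i : ι} {z : Ph E} (hX : DifferentiableAt ℝ (X i) z.1)
    (b : Ph E) : fderiv ℝ (mom X i) z b = b.2 (X i z.1) + z.2 (fderiv ℝ (X i) z.1 b.1) :=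
  fderiv_pair hX b

theorem differentiableAt_mom {X : ι → E → E} {i : ι} {z : Ph E}
    (hX : DifferentiableAt ℝ (X i) z.1) : DifferentiableAt ℝ (mom X i) z :=
  (hasFDerivAt_pair hX).differentiableAt

theorem fderiv_ham {X : ι → E → E} {z : Ph E} (hX : ∀ i, DifferentiableAt ℝ (X i) z.1)
    (b : Ph E) : fderiv ℝ (ham X) z b =
      ∑ i, mom X i z * (b.2 (X i z.1) + z.2 (fderiv ℝ (X i) z.1 b.1)) := by
  have h : HasFDerivAt (ham X)
      ((1 / 2 : ℝ) • ∑ i, ((2 : ℕ) • mom X i z ^ 1) • fderiv ℝ (mom X i) z) z := by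
    unfold ham
    apply HasFDerivAt.const_mul
    apply HasFDerivAt.fun_sum
    intro i _
    exact (differentiableAt_mom (hX i)).hasFDerivAt.pow 2
  rw [h.fderiv]
  simp only [smul_apply, sum_apply, smul_eq_mul, nsmul_eq_mul, Finset.mul_sum]
  apply Finset.sum_congr rfl
  intro i _
  rw [fderiv_mom (hX i)]
  push_cast
  ring

theorem om_XH {X : ι → E → E} {z : Ph E} (hX : ∀ i, DifferentiableAt ℝ (X i) z.1)
    (b : Ph E) : om (XH X z) b = - fderiv ℝ (ham X) z b := by
  rw [fderiv_ham hX, om_apply]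
  simp only [XH, neg_apply, sum_apply, smul_apply, ContinuousLinearMap.comp_apply, smul_eq_mul,
    map_sum, map_smul, mul_add, Finset.sum_add_distrib]
  ring

section smooth

variable {U : Set E} {X : ι → E → E} (hU : IsOpen U) (hX : ∀ i, ContDiffOn ℝ ∞ (X i) U)

include hU hX

theorem differentiableAt_field {x : E} (hx : x ∈ U) (i : ι) : DifferentiableAt ℝ (X i) x :=
  ((hX i).contDiffAt (hU.mem_nhds hx)).differentiableAt (by simp)

theorem differentiableAt_XH {z : Ph E} (hz : z ∈ TU U) : DifferentiableAt ℝ (XH X) z :=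
  ((contDiffOn_XH hU hX).contDiffAt ((isOpen_TU hU).mem_nhds hz)).differentiableAt (by simp)

/-- The linearisation of a Hamiltonian field is `ω`-skew. -/
theorem om_fderiv_XH {z : Ph E} (hz : z ∈ TU U) (a b : Ph E) :
    om (fderiv ℝ (XH X) z a) b + om a (fderiv ℝ (XH X) z b) = 0 := by
  have hO := isOpen_TU hU
  have hH : ContDiffAt ℝ ∞ (ham X) z := (contDiffOn_ham hX).contDiffAt (hO.mem_nhds hz)
  have hH1 : ContDiffAt ℝ ∞ (fderiv ℝ (ham X)) z :=
    (contDiffOn_fderiv_of_smooth hO (contDiffOn_ham hX)).contDiffAt (hO.mem_nhds hz)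
  have hd : DifferentiableAt ℝ (fderiv ℝ (ham X)) z := hH1.differentiableAt (by simp)
  have key : ∀ a b, om (fderiv ℝ (XH X) z a) b = - (fderiv ℝ (fderiv ℝ (ham X)) z a) b := by
    intro a b
    have h1 : (fun w => om (XH X w) b) =ᶠ[𝓝 z] fun w => - fderiv ℝ (ham X) w b := by
      filter_upwards [hO.mem_nhds hz] with w hw
      exact om_XH (fun i => differentiableAt_field hU hX hw i) b
    have h2 : fderiv ℝ (fun w => om (XH X w) b) z a = om (fderiv ℝ (XH X) z a) b := by
      rw [fderiv_om (differentiableAt_XH hU hX hz) (differentiableAt_const b)]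
      simp
    have h3 : HasFDerivAt (fun w => - fderiv ℝ (ham X) w b)
        (-((fderiv ℝ (fderiv ℝ (ham X)) z).flip b)) z := by
      have := hd.hasFDerivAt.clm_apply (hasFDerivAt_const b z)
      refine this.fun_neg.congr_fderiv ?_
      rw [ContinuousLinearMap.comp_zero, zero_add]
    rw [← h2, h1.fderiv_eq, h3.fderiv]
    rfl
  have hsymm : IsSymmSndFDerivAt ℝ (ham X) z := hH.isSymmSndFDerivAt
    (by rw [minSmoothness_of_isRCLikeNormedField]; exact ENat.LEInfty.out)
  rw [om_swap a, key a b, key b a, hsymm a b]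
  ring

/-- First component of the linearisation in a vertical direction. -/
theorem fderiv_XH_vert_fst {z : Ph E} (hz : z ∈ TU U) (y : Co E) :
    (fderiv ℝ (XH X) z ((0 : E), y)).1 = ∑ i, y (X i z.1) • X i z.1 := by
  have h0 : HasFDerivAt (fun w => (XH X w).1)
      ((ContinuousLinearMap.fst ℝ E (Co E)).comp (fderiv ℝ (XH X) z)) z :=
    (ContinuousLinearMap.fst ℝ E (Co E)).hasFDerivAt.comp z
      (differentiableAt_XH hU hX hz).hasFDerivAt
  have h1 : HasFDerivAt (fun w : Ph E => ∑ i, mom X i w • X i w.1)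
      (∑ i, (mom X i z • ((fderiv ℝ (X i) z.1).comp (ContinuousLinearMap.fst ℝ E (Co E))) +
        (fderiv ℝ (mom X i) z).smulRight (X i z.1))) z := by
    apply HasFDerivAt.fun_sum
    intro i _
    apply HasFDerivAt.fun_smul
    · exact (differentiableAt_mom (differentiableAt_field hU hX hz i)).hasFDerivAt
    · exact (differentiableAt_field hU hX hz i).hasFDerivAt.comp z hasFDerivAt_fst
  have h2 := congrArg (fun l : Ph E →L[ℝ] E => l ((0 : E), y)) (h0.unique h1)
  simp only [ContinuousLinearMap.comp_apply, ContinuousLinearMap.coe_fst', sum_apply, add_apply,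
    smul_apply, ContinuousLinearMap.smulRight_apply, map_zero, smul_zero, zero_add] at h2
  rw [h2]
  apply Finset.sum_congr rfl
  intro i _
  rw [fderiv_mom (differentiableAt_field hU hX hz i)]
  simp

/-- Second component of the linearisation in a vertical direction. -/
theorem fderiv_XH_vert_snd {z : Ph E} (hz : z ∈ TU U) (y : Co E) (v : E) :
    (fderiv ℝ (XH X) z ((0 : E), y)).2 v =
      - ∑ i, (y (X i z.1) * z.2 (fderiv ℝ (X i) z.1 v) +
        mom X i z * y (fderiv ℝ (X i) z.1 v)) := by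
  have hO := isOpen_TU hU
  have h0 : HasFDerivAt (fun w => (XH X w).2 v)
      (((ContinuousLinearMap.apply ℝ ℝ v).comp (ContinuousLinearMap.snd ℝ E (Co E))).comp
        (fderiv ℝ (XH X) z)) z :=
    ((ContinuousLinearMap.apply ℝ ℝ v).comp (ContinuousLinearMap.snd ℝ E (Co E))).hasFDerivAt.comp z
      (differentiableAt_XH hU hX hz).hasFDerivAt
  have hfd : ∀ i, DifferentiableAt ℝ (fun x => fderiv ℝ (X i) x v) z.1 := fun i =>
    (((contDiffOn_fderiv_of_smooth hU (hX i)).contDiffAt
      (hU.mem_nhds hz)).differentiableAt (by simp)).clm_apply (differentiableAt_const v)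
  have h1 : HasFDerivAt (fun w : Ph E => -∑ i, mom X i w * w.2 (fderiv ℝ (X i) w.1 v))
      (-∑ i, (mom X i z • fderiv ℝ (fun w : Ph E => w.2 (fderiv ℝ (X i) w.1 v)) z +
        z.2 (fderiv ℝ (X i) z.1 v) • fderiv ℝ (mom X i) z)) z := by
    apply HasFDerivAt.fun_neg
    apply HasFDerivAt.fun_sum
    intro i _
    apply HasFDerivAt.mul
    · exact (differentiableAt_mom (differentiableAt_field hU hX hz i)).hasFDerivAt
    · exact (hasFDerivAt_pair (hfd i)).differentiableAt.hasFDerivAt
  have h3 : (fun w => (XH X w).2 v) =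
      fun w : Ph E => -∑ i, mom X i w * w.2 (fderiv ℝ (X i) w.1 v) := by
    funext w
    simp [XH]
  rw [h3] at h0
  have h2 := congrArg (fun l : Ph E →L[ℝ] ℝ => l ((0 : E), y)) (h0.unique h1)
  simp only [ContinuousLinearMap.comp_apply, ContinuousLinearMap.coe_snd', sum_apply, add_apply,
    smul_apply, neg_apply, ContinuousLinearMap.apply_apply, smul_eq_mul] at h2
  rw [h2]
  congr 1
  apply Finset.sum_congr rfl
  intro i _
  rw [fderiv_mom (differentiableAt_field hU hX hz i), fderiv_pair (hfd i)]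
  simp
  ring

end smooth

end Pool.Agent.SubRiem
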