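import Mathlib
import Pool.Agent.SubRiem.Frame

/-!
# Lie derivative along the Hamiltonian field and the Jacobi curve
-/

set_option autoImplicit false
set_option linter.unusedSectionVars false
set_option linter.unusedVariables false

namespace Pool.Agent.SubRiem

open Set Filter Topology VectorField
open scoped ContDiff

variable {E : Type*} [NormedAddCommGroup E] [NormedSpace ℝ E] {ι : Type*} [Fintype ι]

/-- The Lie derivative of a field on phase space along the Hamiltonian field. -/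
noncomputable def nab (X : ι → E → E) (a : Ph E → Ph E) : Ph E → Ph E :=
  lieBracket ℝ (XH X) a

theorem nab_apply (X : ι → E → E) (a : Ph E → Ph E) (z : Ph E) :
    nab X a z = fderiv ℝ a z (XH X z) - fderiv ℝ (XH X) z (a z) := rfl

/-- The derivatives of the vertical constant fields. -/
noncomputable def T (X : ι → E → E) : ℕ → Co E → Ph E → Ph E
  | 0, y => fun _ => ((0 : E), y)
  | j + 1, y => nab X (T X j y)

theorem T_zero (X : ι → E → E) (y : Co E) : T X 0 y = fun _ => ((0 : E), y) := rfl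

theorem T_succ (X : ι → E → E) (j : ℕ) (y : Co E) : T X (j + 1) y = nab X (T X j y) := rfl

section

variable {U : Set E} {X : ι → E → E} {N : Set (Ph E)}
  (hU : IsOpen U) (hX : ∀ i, ContDiffOn ℝ ∞ (X i) U) (hN : IsOpen N) (hNU : N ⊆ TU U)

include hN

theorem diffAt {G : Type*} [NormedAddCommGroup G] [NormedSpace ℝ G] {a : Ph E → G}
    (ha : ContDiffOn ℝ ∞ a N) {z : Ph E} (hz : z ∈ N) : DifferentiableAt ℝ a z :=
  (ha.contDiffAt (hN.mem_nhds hz)).differentiableAt (by simp)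

theorem eventually_eq_of_eqOn {G : Type*} {a b : Ph E → G}
    (h : ∀ z ∈ N, a z = b z) {z : Ph E} (hz : z ∈ N) : a =ᶠ[𝓝 z] b := by
  filter_upwards [hN.mem_nhds hz] with w hw
  exact h w hw

theorem nab_congr {a b : Ph E → Ph E} (h : ∀ z ∈ N, a z = b z) :
    ∀ z ∈ N, nab X a z = nab X b z := by
  intro z hz
  rw [nab_apply, nab_apply, (eventually_eq_of_eqOn hN h hz).fderiv_eq, h z hz]

theorem nab_add {a b : Ph E → Ph E} (ha : ContDiffOn ℝ ∞ a N) (hb : ContDiffOn ℝ ∞ b N) :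
    ∀ z ∈ N, nab X (fun w => a w + b w) z = nab X a z + nab X b z := by
  intro z hz
  rw [nab_apply, nab_apply, nab_apply, fderiv_fun_add (diffAt hN ha hz) (diffAt hN hb hz)]
  simp only [add_apply, map_add]
  abel

theorem nab_smul {f : Ph E → ℝ} {a : Ph E → Ph E} (hf : ContDiffOn ℝ ∞ f N)
    (ha : ContDiffOn ℝ ∞ a N) :
    ∀ z ∈ N, nab X (fun w => f w • a w) z =
      fderiv ℝ f z (XH X z) • a z + f z • nab X a z := by
  intro z hz
  rw [nab_apply, nab_apply, fderiv_fun_smul (diffAt hN hf hz) (diffAt hN ha hz)]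
  simp only [add_apply, smul_apply, ContinuousLinearMap.smulRight_apply, map_smul, smul_sub]
  abel

include hU hX hNU

theorem contDiffOn_XH' : ContDiffOn ℝ ∞ (XH X) N := (contDiffOn_XH hU hX).mono hNU

theorem contDiffOn_nab {a : Ph E → Ph E} (ha : ContDiffOn ℝ ∞ a N) :
    ContDiffOn ℝ ∞ (nab X a) N := by
  have h1 : ContDiffOn ℝ ∞ (fun z => fderiv ℝ a z (XH X z)) N :=
    (contDiffOn_fderiv_of_smooth hN ha).clm_apply (contDiffOn_XH' hU hX hN hNU)
  have h2 : ContDiffOn ℝ ∞ (fun z => fderiv ℝ (XH X) z (a z)) N :=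
    (contDiffOn_fderiv_of_smooth hN (contDiffOn_XH' hU hX hN hNU)).clm_apply ha
  exact h1.sub h2

theorem contDiffOn_T (j : ℕ) (y : Co E) : ContDiffOn ℝ ∞ (T X j y) N := by
  induction j with
  | zero => exact contDiffOn_const
  | succ j ih => exact contDiffOn_nab hU hX hN hNU ih

theorem om_nab {a b : Ph E → Ph E} (ha : ContDiffOn ℝ ∞ a N) (hb : ContDiffOn ℝ ∞ b N)
    {z : Ph E} (hz : z ∈ N) : fderiv ℝ (fun w => om (a w) (b w)) z (XH X z) =
      om (nab X a z) (b z) + om (a z) (nab X b z) := by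
  rw [fderiv_om (diffAt hN ha hz) (diffAt hN hb hz), nab_apply, nab_apply]
  have := om_fderiv_XH hU hX (hNU hz) (a z) (b z)
  simp only [map_sub, sub_apply]
  linarith

theorem nab_vert_fst {a : Ph E → Ph E} (ha : ContDiffOn ℝ ∞ a N) (h0 : ∀ z ∈ N, (a z).1 = 0)
    {z : Ph E} (hz : z ∈ N) :
    (nab X a z).1 = -∑ i, (a z).2 (X i z.1) • X i z.1 := by
  have h1 : (fderiv ℝ a z (XH X z)).1 = 0 := by
    have h2 : fderiv ℝ (fun w => (a w).1) z = 0 := by
      have : (fun w => (a w).1) =ᶠ[𝓝 z] fun _ => (0 : E) :=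
        eventually_eq_of_eqOn hN h0 hz
      rw [this.fderiv_eq]
      simp
    have h3 : HasFDerivAt (fun w => (a w).1)
        ((ContinuousLinearMap.fst ℝ E (Co E)).comp (fderiv ℝ a z)) z :=
      (ContinuousLinearMap.fst ℝ E (Co E)).hasFDerivAt.comp z (diffAt hN ha hz).hasFDerivAt
    rw [h3.fderiv] at h2
    exact congrArg (fun l : Ph E →L[ℝ] E => l (XH X z)) h2
  have h2 : a z = ((0 : E), (a z).2) := Prod.ext (h0 z hz) rfl
  rw [nab_apply, Prod.fst_sub, h1, zero_sub]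
  congr 1
  conv_lhs => rw [h2]
  exact fderiv_XH_vert_fst hU hX (hNU hz) (a z).2

/-- `ω(∇a, a) = ∑ᵢ a(Xᵢ)²` for vertical `a`. -/
theorem om_nab_self {a : Ph E → Ph E} (ha : ContDiffOn ℝ ∞ a N) (h0 : ∀ z ∈ N, (a z).1 = 0)
    {z : Ph E} (hz : z ∈ N) : om (nab X a z) (a z) = ∑ i, ((a z).2 (X i z.1)) ^ 2 := by
  rw [om_apply, h0 z hz, nab_vert_fst hU hX hN hNU ha h0 hz]
  simp only [map_zero, map_neg, map_sum, map_smul, smul_eq_mul]
  rw [zero_sub, neg_neg]
  apply Finset.sum_congr rfl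
  intro i _
  ring

theorem nab_vert_of_annihilates {a : Ph E → Ph E} (ha : ContDiffOn ℝ ∞ a N)
    (h0 : ∀ z ∈ N, (a z).1 = 0) (h1 : ∀ z ∈ N, ∀ i, (a z).2 (X i z.1) = 0) :
    ∀ z ∈ N, (nab X a z).1 = 0 := by
  intro z hz
  rw [nab_vert_fst hU hX hN hNU ha h0 hz]
  simp [h1 z hz]

/-- The Lie derivative of an endomorphism field. -/
theorem nab_op {K : Ph E → (Ph E →L[ℝ] Ph E)} (hK : ContDiffOn ℝ ∞ K N) {a : Ph E → Ph E}
    (ha : ContDiffOn ℝ ∞ a N) {z : Ph E} (hz : z ∈ N) :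
    nab X (fun w => K w (a w)) z = K z (nab X a z) +
      (fderiv ℝ K z (XH X z) (a z) + K z (fderiv ℝ (XH X) z (a z)) -
        fderiv ℝ (XH X) z (K z (a z))) := by
  rw [nab_apply, nab_apply, fderiv_clm_apply (diffAt hN hK hz) (diffAt hN ha hz)]
  simp only [add_apply, ContinuousLinearMap.comp_apply, ContinuousLinearMap.flip_apply, map_sub]
  abel

theorem nab_XH {z : Ph E} (hz : z ∈ N) : nab X (XH X) z = 0 := by
  rw [nab_apply, sub_self]

end

end Pool.Agent.SubRiem
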