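import Mathlib
import Pool.Agent.SubRiem.Nabla

/-!
# The exact two-form of a fibre-preserving map and its operator
-/

set_option autoImplicit false
set_option linter.unusedSectionVars false
set_option linter.unusedVariables false

namespace Pool.Agent.SubRiem

open Set Filter Topology VectorField
open scoped ContDiff

variable {E : Type*} [NormedAddCommGroup E] [NormedSpace ℝ E]

/-- The exterior derivative of the one-form `b ↦ Φ(z)(b₁)`. -/
noncomputable def dform (Φ : Ph E → Co E) (z a b : Ph E) : ℝ :=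
  (fderiv ℝ Φ z a) b.1 - (fderiv ℝ Φ z b) a.1

theorem dform_swap (Φ : Ph E → Co E) (z a b : Ph E) : dform Φ z a b = - dform Φ z b a := by
  unfold dform; ring

variable [FiniteDimensional ℝ E]

/-- The vectors dual to a basis with respect to `ω`. -/
noncomputable def cvec (k : Fin (Module.finrank ℝ (Ph E))) : Ph E :=
  (J (E := E)).symm (LinearMap.toContinuousLinearMap (𝕜 := ℝ) (E := Ph E) (F' := ℝ)
    ((Module.finBasis ℝ (Ph E)).coord k))

theorem om_cvec (k : Fin (Module.finrank ℝ (Ph E))) (b : Ph E) :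
    om (cvec k) b = (Module.finBasis ℝ (Ph E)).coord k b := by
  unfold cvec
  rw [om_J_symm]
  rfl

/-- The operator `R` with `ω(R a, b) = dform(a, b)`. -/
noncomputable def opOf (Φ : Ph E → Co E) (z : Ph E) : Ph E →L[ℝ] Ph E :=
  ∑ k, (((ContinuousLinearMap.apply ℝ ℝ (Module.finBasis ℝ (Ph E) k).1).comp (fderiv ℝ Φ z) -
    (fderiv ℝ Φ z (Module.finBasis ℝ (Ph E) k)).comp
      (ContinuousLinearMap.fst ℝ E (Co E)) : Ph E →L[ℝ] ℝ)).smulRight (cvec k)

theorem opOf_apply (Φ : Ph E → Co E) (z a : Ph E) :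
    opOf Φ z a = ∑ k, dform Φ z a (Module.finBasis ℝ (Ph E) k) • cvec k := by
  unfold opOf
  rw [sum_apply]
  rfl

theorem dform_add_right (Φ : Ph E → Co E) (z a b c : Ph E) :
    dform Φ z a (b + c) = dform Φ z a b + dform Φ z a c := by
  simp only [dform, Prod.fst_add, map_add, add_apply]; ring

theorem dform_smul_right (Φ : Ph E → Co E) (z a b : Ph E) (r : ℝ) :
    dform Φ z a (r • b) = r * dform Φ z a b := by
  simp only [dform, Prod.smul_fst, map_smul, smul_apply, smul_eq_mul]; ring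

theorem om_opOf (Φ : Ph E → Co E) (z a b : Ph E) : om (opOf Φ z a) b = dform Φ z a b := by
  rw [opOf_apply, map_sum, sum_apply]
  let l : Ph E →ₗ[ℝ] ℝ := { toFun := fun b => dform Φ z a b, map_add' := dform_add_right Φ z a,
                            map_smul' := fun r b => dform_smul_right Φ z a b r }
  have h1 : l b = l (∑ k, (Module.finBasis ℝ (Ph E)).coord k b • Module.finBasis ℝ (Ph E) k) := by
    congr 1
    exact ((Module.finBasis ℝ (Ph E)).sum_repr b).symm
  have h2 : dform Φ z a b = l b := rfl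
  rw [h2, h1, map_sum]
  apply Finset.sum_congr rfl
  intro k _
  rw [map_smul, map_smul, smul_apply, om_cvec, smul_eq_mul, smul_eq_mul, mul_comm]
  rfl

theorem contDiffOn_opOf {Φ : Ph E → Co E} {N : Set (Ph E)} (hN : IsOpen N)
    (hΦ : ContDiffOn ℝ ∞ Φ N) : ContDiffOn ℝ ∞ (opOf Φ) N := by
  have h1 : ContDiffOn ℝ ∞ (fderiv ℝ Φ) N := hΦ.fderiv_of_isOpen hN (by simp)
  unfold opOf
  apply ContDiffOn.sum
  intro k _
  apply ContDiffOn.smulRight _ contDiffOn_const
  apply ContDiffOn.sub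
  · exact ContDiffOn.clm_comp contDiffOn_const h1
  · exact ContDiffOn.clm_comp (h1.clm_apply contDiffOn_const) contDiffOn_const

theorem opOf_adj (Φ : Ph E → Co E) (z a b : Ph E) : om (opOf Φ z a) b = om a (opOf Φ z b) := by
  rw [om_swap a, om_opOf, om_opOf, dform_swap]

theorem eq_of_om {a b : Ph E} (h : ∀ c, om a c = om b c) : a = b := by
  have : a - b = 0 := by
    apply om_nondegenerate
    intro c
    rw [map_sub, sub_apply, h c, sub_self]
  exact sub_eq_zero.1 this

theorem opOf_vert (Φ : Ph E → Co E) (z : Ph E) (y : Co E) :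
    opOf Φ z ((0 : E), y) = ((0 : E), fderiv ℝ Φ z ((0 : E), y)) := by
  apply eq_of_om
  intro c
  rw [om_opOf, om_vert_left]
  simp [dform]

variable {ι : Type*} [Fintype ι] {U : Set E} {X : ι → E → E} {N : Set (Ph E)}
  (hU : IsOpen U) (hX : ∀ i, ContDiffOn ℝ ∞ (X i) U) (hN : IsOpen N) (hNU : N ⊆ TU U)

include hN

omit [FiniteDimensional ℝ E] in
theorem fderiv_dform {Φ : Ph E → Co E} (hΦ : ContDiffOn ℝ ∞ Φ N) {V W : Ph E → Ph E}
    (hV : ContDiffOn ℝ ∞ V N) (hW : ContDiffOn ℝ ∞ W N) {z : Ph E} (hz : z ∈ N) (c : Ph E) :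
    fderiv ℝ (fun w => dform Φ w (V w) (W w)) z c =
      (fderiv ℝ (fderiv ℝ Φ) z c (V z)) (W z).1 - (fderiv ℝ (fderiv ℝ Φ) z c (W z)) (V z).1 +
      (dform Φ z (fderiv ℝ V z c) (W z) + dform Φ z (V z) (fderiv ℝ W z c)) := by
  have hd : DifferentiableAt ℝ (fderiv ℝ Φ) z :=
    diffAt hN (contDiffOn_fderiv_of_smooth hN hΦ) hz
  have hVd := (diffAt hN hV hz)
  have hWd := (diffAt hN hW hz)
  have h1 : ∀ {V W : Ph E → Ph E}, DifferentiableAt ℝ V z → DifferentiableAt ℝ W z →
      HasFDerivAt (fun w => (fderiv ℝ Φ w (V w)) (W w).1)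
      (((fderiv ℝ Φ z (V z)).comp ((ContinuousLinearMap.fst ℝ E (Co E)).comp (fderiv ℝ W z))) +
        ((fderiv ℝ Φ z).comp (fderiv ℝ V z) +
          (fderiv ℝ (fderiv ℝ Φ) z).flip (V z)).flip (W z).1) z := by
    intro V W hV hW
    have h2 : HasFDerivAt (fun w => fderiv ℝ Φ w (V w))
        ((fderiv ℝ Φ z).comp (fderiv ℝ V z) + (fderiv ℝ (fderiv ℝ Φ) z).flip (V z)) z :=
      hd.hasFDerivAt.clm_apply hV.hasFDerivAt
    have h3 : HasFDerivAt (fun w => (W w).1)
        ((ContinuousLinearMap.fst ℝ E (Co E)).comp (fderiv ℝ W z)) z :=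
      (ContinuousLinearMap.fst ℝ E (Co E)).hasFDerivAt.comp z hW.hasFDerivAt
    exact h2.clm_apply h3
  have h4 := (h1 hVd hWd).fun_sub (h1 hWd hVd)
  have h5 : (fun w => dform Φ w (V w) (W w)) =
      fun w => (fderiv ℝ Φ w (V w)) (W w).1 - (fderiv ℝ Φ w (W w)) (V w).1 := rfl
  rw [h5, h4.fderiv]
  simp only [sub_apply, add_apply, ContinuousLinearMap.comp_apply, ContinuousLinearMap.flip_apply,
    ContinuousLinearMap.coe_fst', dform]
  ring

omit [FiniteDimensional ℝ E] in
theorem second_symm {Φ : Ph E → Co E} (hΦ : ContDiffOn ℝ ∞ Φ N) {z : Ph E} (hz : z ∈ N)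
    (a b : Ph E) : fderiv ℝ (fderiv ℝ Φ) z a b = fderiv ℝ (fderiv ℝ Φ) z b a := by
  have h : IsSymmSndFDerivAt ℝ Φ z := (hΦ.contDiffAt (hN.mem_nhds hz)).isSymmSndFDerivAt
    (by rw [minSmoothness_of_isRCLikeNormedField]; exact ENat.LEInfty.out)
  exact h a b

omit [FiniteDimensional ℝ E] in
theorem second_symm_real {f : Ph E → ℝ} (hf : ContDiffOn ℝ ∞ f N) {z : Ph E} (hz : z ∈ N)
    (a b : Ph E) : fderiv ℝ (fderiv ℝ f) z a b = fderiv ℝ (fderiv ℝ f) z b a := by
  have h : IsSymmSndFDerivAt ℝ f z := (hf.contDiffAt (hN.mem_nhds hz)).isSymmSndFDerivAt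
    (by rw [minSmoothness_of_isRCLikeNormedField]; exact ENat.LEInfty.out)
  exact h a b

include hU hX hNU

omit [FiniteDimensional ℝ E] in
/-- Cartan's formula for constant arguments. -/
theorem cartan_const {Φ : Ph E → Co E} (hΦ : ContDiffOn ℝ ∞ Φ N) {z : Ph E} (hz : z ∈ N)
    (a b : Ph E) : fderiv ℝ (fun w => dform Φ w a b) z (XH X z) +
      dform Φ z (fderiv ℝ (XH X) z a) b + dform Φ z a (fderiv ℝ (XH X) z b) =
      fderiv ℝ (fun w => dform Φ w (XH X w) b) z a -
        fderiv ℝ (fun w => dform Φ w (XH X w) a) z b := by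
  have hXH := contDiffOn_XH' hU hX hN hNU
  have hc : ∀ c : Ph E, ContDiffOn ℝ ∞ (fun _ : Ph E => c) N := fun c => contDiffOn_const
  rw [fderiv_dform hN hΦ (hc a) (hc b) hz, fderiv_dform hN hΦ hXH (hc b) hz,
    fderiv_dform hN hΦ hXH (hc a) hz]
  rw [second_symm hN hΦ hz (XH X z) a, second_symm hN hΦ hz (XH X z) b,
    second_symm hN hΦ hz b a, dform_swap Φ z a (fderiv ℝ (XH X) z b)]
  simp only [fderiv_fun_const, Pi.zero_apply, zero_apply, dform, map_zero,
    Prod.fst_zero, zero_apply]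
  ring

/-- The Lie derivative of the operator along the Hamiltonian field. -/
theorem om_opOf_deriv {Φ : Ph E → Co E} (hΦ : ContDiffOn ℝ ∞ Φ N) {z : Ph E} (hz : z ∈ N)
    (a b : Ph E) : om (fderiv ℝ (opOf Φ) z (XH X z) a + opOf Φ z (fderiv ℝ (XH X) z a) -
      fderiv ℝ (XH X) z (opOf Φ z a)) b =
      fderiv ℝ (fun w => dform Φ w (XH X w) b) z a -
        fderiv ℝ (fun w => dform Φ w (XH X w) a) z b := by
  rw [← cartan_const hU hX hN hNU hΦ hz a b]
  have hop := contDiffOn_opOf hN hΦ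
  have h1 : fderiv ℝ (fun w => dform Φ w a b) z (XH X z) =
      om (fderiv ℝ (opOf Φ) z (XH X z) a) b := by
    have h2 : (fun w => dform Φ w a b) = fun w => om (opOf Φ w a) b := by
      funext w; rw [om_opOf]
    have h3 : HasFDerivAt (fun w => opOf Φ w a) ((fderiv ℝ (opOf Φ) z).flip a) z := by
      have := (diffAt hN hop hz).hasFDerivAt.clm_apply (hasFDerivAt_const a z)
      rw [ContinuousLinearMap.comp_zero, zero_add] at this
      exact this
    rw [h2, fderiv_om h3.differentiableAt (differentiableAt_const b), h3.fderiv]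
    simp
  have h4 := om_fderiv_XH hU hX (hNU hz) (opOf Φ z a) b
  rw [om_opOf] at h4
  rw [map_sub, map_add, sub_apply, add_apply, om_opOf, h1]
  linarith [h4]

end Pool.Agent.SubRiem
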