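import Mathlib
import Pool.Agent.SubRiem.Nabla

/-!
# The positivity lemma
-/

set_option autoImplicit false
set_option linter.unusedSectionVars false
set_option linter.unusedVariables false

namespace Pool.Agent.SubRiem

open Set Filter Topology VectorField
open scoped ContDiff

variable {E : Type*} [NormedAddCommGroup E] [NormedSpace ℝ E] {ι : Type*} [Fintype ι]

/-- `K` maps vertical vectors into the `ω`-orthogonal of all `T X j y`. -/
def Small (X : ι → E → E) (N : Set (Ph E)) (K : Ph E → (Ph E →L[ℝ] Ph E)) : Prop :=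
  ∀ z ∈ N, ∀ (y : Co E) (j : ℕ) (y' : Co E), om (K z ((0 : E), y)) (T X j y' z) = 0

/-- Graded classes of endomorphism fields closed under derivative, adjoint and product. -/
structure OpAlg (X : ι → E → E) (N : Set (Ph E))
    (A : ℕ → (Ph E → (Ph E →L[ℝ] Ph E)) → Prop) : Prop where
  smooth : ∀ k K, A k K → ContDiffOn ℝ ∞ K N
  vert : ∀ k K, A k K → ∀ z ∈ N, ∀ y : Co E, (K z ((0 : E), y)).1 = 0
  deriv : ∀ k K, A k K → ∃ K', A k K' ∧ ∀ z ∈ N, ∀ a,
    fderiv ℝ K z (XH X z) a + K z (fderiv ℝ (XH X) z a) - fderiv ℝ (XH X) z (K z a) = K' z a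
  adj : ∀ k K, A k K → ∃ K', A k K' ∧ ∀ z ∈ N, ∀ a b, om (K z a) b = om a (K' z b)
  mul : ∀ k l K L, A k K → A l L → A (k + l) (fun z => (K z).comp (L z))

section

variable {U : Set E} {X : ι → E → E} {N : Set (Ph E)}
  (hU : IsOpen U) (hX : ∀ i, ContDiffOn ℝ ∞ (X i) U) (hN : IsOpen N) (hNU : N ⊆ TU U)
  {A : ℕ → (Ph E → (Ph E →L[ℝ] Ph E)) → Prop} (hA : OpAlg X N A)

include hU hX hN hNU

theorem fderiv_eq_zero_of_zero {f : Ph E → ℝ} (hf : ∀ z ∈ N, f z = 0) {z : Ph E} (hz : z ∈ N)
    (c : Ph E) : fderiv ℝ f z c = 0 := by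
  have h : f =ᶠ[𝓝 z] fun _ => (0 : ℝ) := eventually_eq_of_eqOn hN hf hz
  rw [h.fderiv_eq]
  simp

include hA

theorem OpAlg.ext_T {k : ℕ} (hk : ∀ K, A k K → Small X N K) (j : ℕ) :
    ∀ K, A k K → ∀ z ∈ N, ∀ (y : Co E) (j' : ℕ) (y' : Co E),
      om (K z (T X j y z)) (T X j' y' z) = 0 := by
  induction j with
  | zero => intro K hK z hz y j' y'; exact hk K hK z hz y j' y'
  | succ j ih =>
    intro K hK z hz y j' y'
    obtain ⟨K', hK', hder⟩ := hA.deriv k K hK
    have hs := hA.smooth k K hK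
    have hT := contDiffOn_T hU hX hN hNU j y
    have hT' := contDiffOn_T hU hX hN hNU j' y'
    have hKT : ContDiffOn ℝ ∞ (fun w => K w (T X j y w)) N := hs.clm_apply hT
    have h1 := fderiv_eq_zero_of_zero hU hX hN hNU
      (f := fun w => om (K w (T X j y w)) (T X j' y' w))
      (fun w hw => ih K hK w hw y j' y') hz (XH X z)
    rw [om_nab hU hX hN hNU hKT hT' hz, nab_op hU hX hN hNU hs hT hz, hder z hz,
      ← T_succ, ← T_succ, ih K hK z hz y (j' + 1) y', map_add, add_apply,
      ih K' hK' z hz y j' y'] at h1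
    linarith

/-- Finite sums of `K (T X j y)` with `K` in the class. -/
inductive Comb (X : ι → E → E) (B : (Ph E → (Ph E →L[ℝ] Ph E)) → Prop) : (Ph E → Ph E) → Prop
  | base (K : Ph E → (Ph E →L[ℝ] Ph E)) (j : ℕ) (y : Co E) (hK : B K) :
      Comb X B (fun z => K z (T X j y z))
  | add (a b : Ph E → Ph E) (ha : Comb X B a) (hb : Comb X B b) : Comb X B (fun z => a z + b z)

theorem Comb.smooth {k : ℕ} {a : Ph E → Ph E} (ha : Comb X (A k) a) : ContDiffOn ℝ ∞ a N := by
  induction ha with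
  | base K j y hK => exact (hA.smooth k K hK).clm_apply (contDiffOn_T hU hX hN hNU j y)
  | add a b _ _ iha ihb => exact iha.add ihb

theorem Comb.nab {k : ℕ} {a : Ph E → Ph E} (ha : Comb X (A k) a) :
    ∃ b, Comb X (A k) b ∧ ∀ z ∈ N, nab X a z = b z := by
  induction ha with
  | base K j y hK =>
    obtain ⟨K', hK', hder⟩ := hA.deriv k K hK
    refine ⟨_, Comb.add _ _ (Comb.base K (j + 1) y hK) (Comb.base K' j y hK'), ?_⟩
    intro z hz
    rw [nab_op hU hX hN hNU (hA.smooth k K hK) (contDiffOn_T hU hX hN hNU j y) hz, hder z hz]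
    rfl
  | add a b ha hb iha ihb =>
    obtain ⟨a', ha', ha''⟩ := iha
    obtain ⟨b', hb', hb''⟩ := ihb
    refine ⟨_, Comb.add _ _ ha' hb', ?_⟩
    intro z hz
    rw [nab_add hN (Comb.smooth hU hX hN hNU hA ha) (Comb.smooth hU hX hN hNU hA hb) z hz,
      ha'' z hz, hb'' z hz]

theorem Comb.pair {k : ℕ} (h2 : ∀ K, A (k + k) K → Small X N K) {a b : Ph E → Ph E}
    (ha : Comb X (A k) a) (hb : Comb X (A k) b) : ∀ z ∈ N, om (a z) (b z) = 0 := by
  induction ha with
  | base K j y hK =>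
    obtain ⟨K', hK', hadj⟩ := hA.adj k K hK
    induction hb with
    | base L j' y' hL =>
      intro z hz
      simp only
      rw [hadj z hz, om_swap]
      have := hA.ext_T hU hX hN hNU h2 j' _ (hA.mul k k K' L hK' hL) z hz y' j y
      simp only [ContinuousLinearMap.comp_apply] at this
      rw [this, neg_zero]
    | add a b _ _ iha ihb =>
      intro z hz
      simp only [map_add]
      rw [iha z hz, ihb z hz, add_zero]
  | add a b _ _ iha ihb =>
    intro z hz
    simp only [map_add, add_apply]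
    rw [iha z hz, ihb z hz, add_zero]

/-- **Positivity lemma**, halving step. -/
theorem OpAlg.halve {k : ℕ} (h2 : ∀ K, A (k + k) K → Small X N K) :
    ∀ K, A k K → Small X N K := by
  intro K hK z₀ hz₀ y j₀ y₀
  set u : ℕ → Ph E → Ph E := fun r => (nab X)^[r] (fun z => K z ((0 : E), y)) with hu
  have hsucc : ∀ r, u (r + 1) = nab X (u r) := fun r => by
    simp only [hu]
    rw [Function.iterate_succ_apply']
  have hcomb : ∀ r, ∃ b, Comb X (A k) b ∧ ∀ z ∈ N, u r z = b z := by
    intro r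
    induction r with
    | zero => exact ⟨_, Comb.base K 0 y hK, fun z hz => rfl⟩
    | succ r ih =>
      obtain ⟨b, hb, hbe⟩ := ih
      obtain ⟨c, hc, hce⟩ := Comb.nab hU hX hN hNU hA hb
      refine ⟨c, hc, fun z hz => ?_⟩
      rw [hsucc, nab_congr hN hbe z hz, hce z hz]
  have hsm : ∀ r, ContDiffOn ℝ ∞ (u r) N := by
    intro r
    obtain ⟨b, hb, hbe⟩ := hcomb r
    exact (Comb.smooth hU hX hN hNU hA hb).congr hbe
  have hpair : ∀ r s, ∀ z ∈ N, om (u r z) (u s z) = 0 := by
    intro r s z hz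
    obtain ⟨b, hb, hbe⟩ := hcomb r
    obtain ⟨c, hc, hce⟩ := hcomb s
    rw [hbe z hz, hce z hz]
    exact Comb.pair hU hX hN hNU hA h2 hb hc z hz
  have hvert : ∀ r, ∀ z ∈ N, (u r z).1 = 0 := by
    intro r
    induction r with
    | zero => intro z hz; exact hA.vert k K hK z hz y
    | succ r ih =>
      have hann : ∀ z ∈ N, ∀ i, (u r z).2 (X i z.1) = 0 := by
        intro z hz i
        have h1 := om_nab_self hU hX hN hNU (hsm r) ih hz
        rw [← hsucc, hpair (r + 1) r z hz] at h1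
        have h2 := (Finset.sum_eq_zero_iff_of_nonneg (fun i _ => sq_nonneg
          ((u r z).2 (X i z.1)))).1 h1.symm i (Finset.mem_univ i)
        exact pow_eq_zero_iff (two_ne_zero) |>.1 h2
      intro z hz
      rw [hsucc]
      exact nab_vert_of_annihilates hU hX hN hNU (hsm r) ih hann z hz
  have hfin : ∀ j r y', ∀ z ∈ N, om (u r z) (T X j y' z) = 0 := by
    intro j
    induction j with
    | zero =>
      intro r y' z hz
      rw [T_zero, om_vert_right, hvert r z hz, map_zero, neg_zero]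
    | succ j ih =>
      intro r y' z hz
      have h1 := fderiv_eq_zero_of_zero hU hX hN hNU
        (f := fun w => om (u r w) (T X j y' w)) (fun w hw => ih r y' w hw) hz (XH X z)
      rw [om_nab hU hX hN hNU (hsm r) (contDiffOn_T hU hX hN hNU j y') hz, ← hsucc,
        ← T_succ, ih (r + 1) y' z hz, zero_add] at h1
      exact h1
  exact hfin j₀ 0 y₀ z₀ hz₀

end

end Pool.Agent.SubRiem
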