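import Mathlib
import Pool.Agent.SubRiem.Positivity

/-!
# Nilpotency of operators annihilating the horizontal part, and the main positivity theorem
-/

set_option autoImplicit false
set_option linter.unusedSectionVars false
set_option linter.unusedVariables false

namespace Pool.Agent.SubRiem

open Set Filter Topology VectorField
open scoped ContDiff

variable {E : Type*} [NormedAddCommGroup E] [NormedSpace ℝ E] {ι : Type*} [Fintype ι]

/-- Smooth combinations of the fields `T X i y` with `i ≤ j`. -/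
inductive Gen (X : ι → E → E) (N : Set (Ph E)) (j : ℕ) : (Ph E → Ph E) → Prop
  | base (i : ℕ) (y : Co E) (h : i ≤ j) : Gen X N j (T X i y)
  | add (a b : Ph E → Ph E) (ha : Gen X N j a) (hb : Gen X N j b) :
      Gen X N j (fun z => a z + b z)
  | smul (f : Ph E → ℝ) (a : Ph E → Ph E) (hf : ContDiffOn ℝ ∞ f N) (ha : Gen X N j a) :
      Gen X N j (fun z => f z • a z)

/-- The same, up to equality on `N`. -/
def GenN (X : ι → E → E) (N : Set (Ph E)) (j : ℕ) (a : Ph E → Ph E) : Prop :=
  ∃ b, Gen X N j b ∧ ∀ z ∈ N, a z = b z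

/-- The span of `T X i y z`, `i ≤ j`. -/
def Sp (X : ι → E → E) (j : ℕ) (z : Ph E) : Submodule ℝ (Ph E) :=
  Submodule.span ℝ {a | ∃ i ≤ j, ∃ y, a = T X i y z}

theorem T_mem_Sp (X : ι → E → E) {i j : ℕ} (h : i ≤ j) (y : Co E) (z : Ph E) :
    T X i y z ∈ Sp X j z :=
  Submodule.subset_span ⟨i, h, y, rfl⟩

theorem Sp_mono (X : ι → E → E) {j j' : ℕ} (h : j ≤ j') (z : Ph E) : Sp X j z ≤ Sp X j' z := by
  apply Submodule.span_mono
  rintro a ⟨i, hi, y, rfl⟩
  exact ⟨i, hi.trans h, y, rfl⟩

section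

variable {U : Set E} {X : ι → E → E} {N : Set (Ph E)}

theorem Gen.mono {j j' : ℕ} (h : j ≤ j') {a : Ph E → Ph E} (ha : Gen X N j a) :
    Gen X N j' a := by
  induction ha with
  | base i y hi => exact Gen.base i y (hi.trans h)
  | add a b _ _ iha ihb => exact Gen.add _ _ iha ihb
  | smul f a hf _ ih => exact Gen.smul _ _ hf ih

theorem GenN.mono {j j' : ℕ} (h : j ≤ j') {a : Ph E → Ph E} (ha : GenN X N j a) :
    GenN X N j' a := by
  obtain ⟨b, hb, he⟩ := ha
  exact ⟨b, hb.mono h, he⟩

theorem GenN.congr {j : ℕ} {a b : Ph E → Ph E} (ha : GenN X N j a) (h : ∀ z ∈ N, b z = a z) :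
    GenN X N j b := by
  obtain ⟨c, hc, he⟩ := ha
  exact ⟨c, hc, fun z hz => (h z hz).trans (he z hz)⟩

theorem GenN.add {j : ℕ} {a b : Ph E → Ph E} (ha : GenN X N j a) (hb : GenN X N j b) :
    GenN X N j (fun z => a z + b z) := by
  obtain ⟨a', ha', hae⟩ := ha
  obtain ⟨b', hb', hbe⟩ := hb
  exact ⟨_, Gen.add _ _ ha' hb', fun z hz => by simp only [hae z hz, hbe z hz]⟩

theorem GenN.smul {j : ℕ} {f : Ph E → ℝ} {a : Ph E → Ph E} (hf : ContDiffOn ℝ ∞ f N)
    (ha : GenN X N j a) : GenN X N j (fun z => f z • a z) := by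
  obtain ⟨a', ha', hae⟩ := ha
  exact ⟨_, Gen.smul _ _ hf ha', fun z hz => by simp only [hae z hz]⟩

theorem GenN.zero {j : ℕ} : GenN X N j (fun _ => 0) := by
  refine ⟨_, Gen.smul (fun _ => 0) _ contDiffOn_const (Gen.base 0 0 (Nat.zero_le j)), ?_⟩
  intro z _
  simp

theorem GenN.sum {j : ℕ} {κ : Type*} (s : Finset κ) {a : κ → Ph E → Ph E}
    (ha : ∀ k ∈ s, GenN X N j (a k)) : GenN X N j (fun z => ∑ k ∈ s, a k z) := by
  classical
  induction s using Finset.induction_on with
  | empty => simpa using GenN.zero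
  | insert k s hk ih =>
    have h1 := ha k (Finset.mem_insert_self k s)
    have h2 := ih fun k' hk' => ha k' (Finset.mem_insert_of_mem hk')
    refine (h1.add h2).congr fun z _ => ?_
    rw [Finset.sum_insert hk]

theorem GenN.sub {j : ℕ} {a b : Ph E → Ph E} (ha : GenN X N j a) (hb : GenN X N j b) :
    GenN X N j (fun z => a z - b z) := by
  refine (ha.add (hb.smul (f := fun _ => (-1 : ℝ)) contDiffOn_const)).congr fun z _ => ?_
  have h : (-1 : ℝ) • b z = - b z := by
    ext <;> simp
  rw [h, sub_eq_add_neg]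

theorem GenN.mem_Sp {j : ℕ} {a : Ph E → Ph E} (ha : GenN X N j a) {z : Ph E} (hz : z ∈ N) :
    a z ∈ Sp X j z := by
  obtain ⟨b, hb, he⟩ := ha
  rw [he z hz]
  clear he
  induction hb with
  | base i y hi => exact T_mem_Sp X hi y z
  | add a b _ _ iha ihb => exact Submodule.add_mem _ iha ihb
  | smul f a hf _ ih => exact Submodule.smul_mem _ _ ih

theorem fst_eq_zero_of_mem_Sp_zero {z a : Ph E} (ha : a ∈ Sp X 0 z) : a.1 = 0 := by
  unfold Sp at ha
  induction ha using Submodule.span_induction with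
  | mem a ha =>
    obtain ⟨i, hi, y, rfl⟩ := ha
    obtain rfl : i = 0 := by omega
    rfl
  | zero => rfl
  | add a b _ _ iha ihb => rw [Prod.fst_add, iha, ihb, add_zero]
  | smul c a _ ih => rw [Prod.smul_fst, ih, smul_zero]

section findim

variable [FiniteDimensional ℝ E]

/-- Smooth vertical fields are smooth combinations of constant vertical fields. -/
theorem GenN.of_vertical {a : Ph E → Ph E} (ha : ContDiffOn ℝ ∞ a N)
    (h0 : ∀ z ∈ N, (a z).1 = 0) (j : ℕ) : GenN X N j a := by
  set b := Module.finBasis ℝ (Co E) with hb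
  have hsum : GenN X N j (fun z => ∑ i, (b.equivFunL (a z).2) i • T X 0 (b i) z) := by
    apply GenN.sum
    intro i _
    apply GenN.smul
    · have h1 : ContDiffOn ℝ ∞ (fun z => (a z).2) N := contDiff_snd.comp_contDiffOn ha
      have h2 : ContDiffOn ℝ ∞ (fun z => b.equivFunL (a z).2) N :=
        b.equivFunL.contDiff.comp_contDiffOn h1
      exact contDiffOn_pi.1 h2 i
    · exact ⟨_, Gen.base 0 (b i) (Nat.zero_le j), fun z _ => rfl⟩
  refine hsum.congr fun z hz => ?_
  have h1 : (a z).2 = ∑ i, (b.equivFunL (a z).2) i • b i := by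
    have := b.sum_equivFun (a z).2
    exact this.symm
  apply Prod.ext
  · rw [h0 z hz]
    simp [T_zero, Prod.fst_sum]
  · conv_lhs => rw [h1]
    simp [T_zero, Prod.snd_sum]

end findim

variable (hU : IsOpen U) (hX : ∀ i, ContDiffOn ℝ ∞ (X i) U) (hN : IsOpen N) (hNU : N ⊆ TU U)

include hU hX hN hNU

theorem Gen.smooth {j : ℕ} {a : Ph E → Ph E} (ha : Gen X N j a) : ContDiffOn ℝ ∞ a N := by
  induction ha with
  | base i y hi => exact contDiffOn_T hU hX hN hNU i y
  | add a b _ _ iha ihb => exact iha.add ihb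
  | smul f a hf _ ih => exact hf.smul ih

theorem GenN.smooth {j : ℕ} {a : Ph E → Ph E} (ha : GenN X N j a) : ContDiffOn ℝ ∞ a N := by
  obtain ⟨b, hb, he⟩ := ha
  exact (Gen.smooth hU hX hN hNU hb).congr he

theorem GenN.nab {j : ℕ} {a : Ph E → Ph E} (ha : GenN X N j a) :
    GenN X N (j + 1) (nab X a) := by
  obtain ⟨b, hb, he⟩ := ha
  refine GenN.congr ?_ (nab_congr hN he)
  clear he
  induction hb with
  | base i y hi =>
    exact ⟨_, Gen.base (i + 1) y (by omega), fun z _ => rfl⟩
  | add a b ha hb iha ihb =>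
    exact (iha.add ihb).congr
      (nab_add hN (Gen.smooth hU hX hN hNU ha) (Gen.smooth hU hX hN hNU hb))
  | smul f a hf ha ih =>
    have h1 : ContDiffOn ℝ ∞ (fun z => fderiv ℝ f z (XH X z)) N :=
      (contDiffOn_fderiv_of_smooth hN hf).clm_apply (contDiffOn_XH' hU hX hN hNU)
    have h2 : GenN X N (j + 1) a := ⟨a, ha.mono (Nat.le_succ j), fun z _ => rfl⟩
    exact ((h2.smul h1).add (ih.smul hf)).congr
      (nab_smul hN hf (Gen.smooth hU hX hN hNU ha))

end

/-- Generating classes of operators: they kill the horizontal part of vertical vectors. -/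
structure GenOps (X : ι → E → E) (N : Set (Ph E)) (B : (Ph E → (Ph E →L[ℝ] Ph E)) → Prop) :
    Prop where
  smooth : ∀ K, B K → ContDiffOn ℝ ∞ K N
  vert : ∀ K, B K → ∀ z ∈ N, ∀ y : Co E, (K z ((0 : E), y)).1 = 0
  ann : ∀ K, B K → ∀ z ∈ N, ∀ (y : Co E) (i : ι), (K z ((0 : E), y)).2 (X i z.1) = 0
  deriv : ∀ K, B K → ∃ K', B K' ∧ ∀ z ∈ N, ∀ a,
    fderiv ℝ K z (XH X z) a + K z (fderiv ℝ (XH X) z a) - fderiv ℝ (XH X) z (K z a) = K' z a
  adj : ∀ K, B K → ∃ K', B K' ∧ ∀ z ∈ N, ∀ a b, om (K z a) b = om a (K' z b)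

/-- The graded algebra generated by a class of operators. -/
inductive AlgB (B : (Ph E → (Ph E →L[ℝ] Ph E)) → Prop) :
    ℕ → (Ph E → (Ph E →L[ℝ] Ph E)) → Prop
  | one (K : Ph E → (Ph E →L[ℝ] Ph E)) (hK : B K) : AlgB B 1 K
  | add (k : ℕ) (K L : Ph E → (Ph E →L[ℝ] Ph E)) (hK : AlgB B k K) (hL : AlgB B k L) :
      AlgB B k (fun z => K z + L z)
  | mul (k l : ℕ) (K L : Ph E → (Ph E →L[ℝ] Ph E)) (hK : AlgB B k K) (hL : AlgB B l L) :
      AlgB B (k + l) (fun z => (K z).comp (L z))

section

variable {U : Set E} {X : ι → E → E} {N : Set (Ph E)}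
  (hU : IsOpen U) (hX : ∀ i, ContDiffOn ℝ ∞ (X i) U) (hN : IsOpen N) (hNU : N ⊆ TU U)
  {B : (Ph E → (Ph E →L[ℝ] Ph E)) → Prop} (hB : GenOps X N B)

include hB

theorem AlgB.smooth {k : ℕ} {K : Ph E → (Ph E →L[ℝ] Ph E)} (hK : AlgB B k K) :
    ContDiffOn ℝ ∞ K N := by
  induction hK with
  | one K hK => exact hB.smooth K hK
  | add k K L _ _ ihK ihL => exact ihK.add ihL
  | mul k l K L _ _ ihK ihL => exact ihK.clm_comp ihL

include hN

theorem AlgB.opAlg : OpAlg X N (AlgB B) := by
  refine ⟨fun k K hK => AlgB.smooth hB hK, ?_, ?_, ?_, fun k l K L hK hL => AlgB.mul k l K L hK hL⟩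
  · intro k K hK
    induction hK with
    | one K hK => exact hB.vert K hK
    | add k K L _ _ ihK ihL =>
      intro z hz y
      rw [add_apply, Prod.fst_add, ihK z hz y, ihL z hz y, add_zero]
    | mul k l K L _ _ ihK ihL =>
      intro z hz y
      have h1 : L z ((0 : E), y) = ((0 : E), (L z ((0 : E), y)).2) :=
        Prod.ext (ihL z hz y) rfl
      rw [ContinuousLinearMap.comp_apply, h1]
      exact ihK z hz _
  · intro k K hK
    induction hK with
    | one K hK =>
      obtain ⟨K', hK', h⟩ := hB.deriv K hK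
      exact ⟨K', AlgB.one K' hK', h⟩
    | add k K L hK hL ihK ihL =>
      obtain ⟨K', hK', hk⟩ := ihK
      obtain ⟨L', hL', hl⟩ := ihL
      refine ⟨_, AlgB.add k K' L' hK' hL', ?_⟩
      intro z hz a
      rw [fderiv_fun_add (diffAt hN (AlgB.smooth hB hK) hz) (diffAt hN (AlgB.smooth hB hL) hz)]
      simp only [add_apply, map_add]
      rw [← hk z hz a, ← hl z hz a]
      abel
    | mul k l K L hK hL ihK ihL =>
      obtain ⟨K', hK', hk⟩ := ihK
      obtain ⟨L', hL', hl⟩ := ihL
      refine ⟨_, AlgB.add _ _ _ (AlgB.mul k l K' L hK' hL) (AlgB.mul k l K L' hK hL'), ?_⟩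
      intro z hz a
      rw [fderiv_clm_comp (diffAt hN (AlgB.smooth hB hK) hz)
        (diffAt hN (AlgB.smooth hB hL) hz)]
      simp only [add_apply, ContinuousLinearMap.comp_apply, ContinuousLinearMap.compL_apply,
        ContinuousLinearMap.flip_apply]
      rw [← hk z hz (L z a), ← hl z hz a]
      simp only [map_add, map_sub]
      abel
  · intro k K hK
    induction hK with
    | one K hK =>
      obtain ⟨K', hK', h⟩ := hB.adj K hK
      exact ⟨K', AlgB.one K' hK', h⟩
    | add k K L hK hL ihK ihL =>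
      obtain ⟨K', hK', hk⟩ := ihK
      obtain ⟨L', hL', hl⟩ := ihL
      refine ⟨_, AlgB.add k K' L' hK' hL', ?_⟩
      intro z hz a b
      simp only [add_apply, map_add]
      rw [hk z hz, hl z hz]
    | mul k l K L hK hL ihK ihL =>
      obtain ⟨K', hK', hk⟩ := ihK
      obtain ⟨L', hL', hl⟩ := ihL
      refine ⟨_, Nat.add_comm l k ▸ AlgB.mul l k L' K' hL' hK', ?_⟩
      intro z hz a b
      simp only [ContinuousLinearMap.comp_apply]
      rw [hk z hz, hl z hz]

variable [FiniteDimensional ℝ E]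

include hU hX hNU

theorem GenOps.T_lower (i : ℕ) : ∀ K, B K → ∀ y, GenN X N (i - 1) (fun z => K z (T X i y z)) := by
  induction i with
  | zero =>
    intro K hK y
    apply GenN.of_vertical
    · exact (hB.smooth K hK).clm_apply contDiffOn_const
    · intro z hz; exact hB.vert K hK z hz y
  | succ i ih =>
    intro K hK y
    obtain ⟨K', hK', hder⟩ := hB.deriv K hK
    have hs := hB.smooth K hK
    have hT := contDiffOn_T hU hX hN hNU i y
    have hKT : ContDiffOn ℝ ∞ (fun w => K w (T X i y w)) N := hs.clm_apply hT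
    have hexp : ∀ z ∈ N, K z (T X (i + 1) y z) =
        nab X (fun w => K w (T X i y w)) z - K' z (T X i y z) := by
      intro z hz
      rw [nab_op hU hX hN hNU hs hT hz, hder z hz, T_succ]
      abel
    have h1 : GenN X N (i + 1 - 1) (nab X (fun w => K w (T X i y w))) := by
      rcases Nat.eq_zero_or_pos i with h0 | hpos
      · subst h0
        apply GenN.of_vertical
        · exact contDiffOn_nab hU hX hN hNU hKT
        · apply nab_vert_of_annihilates hU hX hN hNU hKT
          · intro z hz; exact hB.vert K hK z hz y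
          · intro z hz i; exact hB.ann K hK z hz y i
      · have := GenN.nab hU hX hN hNU (ih K hK y)
        exact this.mono (by omega)
    have h2 : GenN X N (i + 1 - 1) (fun z => K' z (T X i y z)) :=
      (ih K' hK' y).mono (by omega)
    exact (h1.sub h2).congr hexp

theorem GenOps.lower {j : ℕ} {a : Ph E → Ph E} (ha : GenN X N j a) :
    ∀ K, B K → GenN X N (j - 1) (fun z => K z (a z)) := by
  intro K hK
  obtain ⟨b, hb, he⟩ := ha
  have : GenN X N (j - 1) (fun z => K z (b z)) := by
    clear he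
    induction hb with
    | base i y hi =>
      exact (GenOps.T_lower hU hX hN hNU hB i K hK y).mono (by omega)
    | add a b _ _ iha ihb =>
      exact (iha.add ihb).congr fun z _ => map_add _ _ _
    | smul f a hf _ ih =>
      exact (ih.smul hf).congr fun z _ => map_smul _ _ _
  exact this.congr fun z hz => by rw [he z hz]

theorem AlgB.lower {k : ℕ} {K : Ph E → (Ph E →L[ℝ] Ph E)} (hK : AlgB B k K) :
    ∀ {j : ℕ} {a : Ph E → Ph E}, GenN X N j a → GenN X N (j - k) (fun z => K z (a z)) := by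
  induction hK with
  | one K hK => intro j a ha; exact GenOps.lower hU hX hN hNU hB ha K hK
  | add k K L _ _ ihK ihL =>
    intro j a ha
    exact ((ihK ha).add (ihL ha)).congr fun z _ => rfl
  | mul k l K L _ _ ihK ihL =>
    intro j a ha
    have := ihK (ihL ha)
    exact (this.mono (by omega)).congr fun z _ => rfl

/-- **Main positivity theorem**: operators in a generating class map vertical vectors into the
`ω`-orthogonal of the Jacobi fields, as soon as the flag of Jacobi fields stabilises. -/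
theorem GenOps.small {k₀ : ℕ} (hstab : ∀ z ∈ N, ∀ j y, T X j y z ∈ Sp X k₀ z) :
    ∀ K, B K → Small X N K := by
  have hlarge : ∀ k, k₀ ≤ k → ∀ K, AlgB B k K → Small X N K := by
    intro k hk K hK z hz y j y'
    obtain ⟨K', hK', hadj⟩ := (AlgB.opAlg hN hB).adj k K hK
    have key : ∀ a ∈ Sp X k₀ z, om (K z ((0 : E), y)) a = 0 := by
      intro a ha
      unfold Sp at ha
      induction ha using Submodule.span_induction with
      | mem a ha =>
        obtain ⟨i, hi, y'', rfl⟩ := ha
        rw [hadj z hz]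
        have h1 : GenN X N (i - k) (fun z => K' z (T X i y'' z)) :=
          AlgB.lower hU hX hN hNU hB hK' ⟨_, Gen.base i y'' le_rfl, fun z _ => rfl⟩
        have h2 : i - k = 0 := by omega
        rw [h2] at h1
        have h3 := fst_eq_zero_of_mem_Sp_zero (h1.mem_Sp hz)
        rw [om_vert_left, h3, map_zero]
      | zero => exact map_zero _
      | add a b _ _ iha ihb => rw [map_add, iha, ihb, add_zero]
      | smul c a _ ih => rw [map_smul, ih, smul_zero]
    exact key _ (hstab z hz j y')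
  have hdown : ∀ n : ℕ, (∀ K, AlgB B (2 ^ n) K → Small X N K) →
      ∀ K, AlgB B 1 K → Small X N K := by
    intro n
    induction n with
    | zero => intro h; simpa using h
    | succ n ih =>
      intro h
      apply ih
      apply OpAlg.halve hU hX hN hNU (AlgB.opAlg hN hB)
      have : 2 ^ n + 2 ^ n = 2 ^ (n + 1) := by ring
      rw [this]
      exact h
  intro K hK
  exact hdown k₀ (hlarge _ (Nat.lt_two_pow_self).le) K (AlgB.one K hK)

end

end Pool.Agent.SubRiem
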