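import Mathlib

/-!
# Smooth dual functionals of a smooth family of independent vectors
-/

set_option autoImplicit false

namespace Pool.Agent.SubRiem

open Set Filter Topology
open scoped ContDiff

/-- A smooth family of vectors, independent at a point, has smooth dual functionals near it. -/
theorem exists_smooth_dual {P V : Type*} [NormedAddCommGroup P] [NormedSpace ℝ P]
    [NormedAddCommGroup V] [NormedSpace ℝ V] [FiniteDimensional ℝ V] {κ : Type*} [Fintype κ]
    [DecidableEq κ] {e : κ → P → V} {N : Set P} (hN : IsOpen N)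
    (he : ∀ k, ContDiffOn ℝ ∞ (e k) N) {x₀ : P} (hx₀ : x₀ ∈ N)
    (hli : LinearIndependent ℝ (fun k => e k x₀)) :
    ∃ N' ⊆ N, IsOpen N' ∧ x₀ ∈ N' ∧ ∃ L : κ → P → (V →L[ℝ] ℝ),
      (∀ k, ContDiffOn ℝ ∞ (L k) N') ∧ ∀ x ∈ N', ∀ k j, L k x (e j x) = if k = j then 1 else 0 := by
  -- left inverse at `x₀`
  have hinj : Function.Injective (Fintype.linearCombination ℝ (fun k => e k x₀)) :=
    linearIndependent_iff_injective_fintypeLinearCombination.1 hli
  obtain ⟨g, hg⟩ := LinearMap.exists_leftInverse_of_injective _ (LinearMap.ker_eq_bot.2 hinj)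
  set G : V →L[ℝ] (κ → ℝ) := LinearMap.toContinuousLinearMap g with hG
  set M : P → ((κ → ℝ) →L[ℝ] (κ → ℝ)) := fun x =>
    ∑ j, (ContinuousLinearMap.proj (R := ℝ) (φ := fun _ : κ => ℝ) j).smulRight (G (e j x)) with hM
  have hMapply : ∀ x j, M x (Pi.single j 1) = G (e j x) := by
    intro x j
    simp only [hM, sum_apply, ContinuousLinearMap.smulRight_apply,
      ContinuousLinearMap.proj_apply]
    rw [Finset.sum_eq_single j]
    · simp
    · intro b _ hb
      rw [Pi.single_eq_of_ne hb, zero_smul]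
    · simp
  have hG0 : ∀ j, G (e j x₀) = Pi.single j 1 := by
    intro j
    have h1 : (Fintype.linearCombination ℝ (fun k => e k x₀)) (Pi.single j 1) = e j x₀ := by
      simp
    have h2 := congrArg (fun l : (κ → ℝ) →ₗ[ℝ] (κ → ℝ) => l (Pi.single j 1)) hg
    simp only [LinearMap.comp_apply, LinearMap.id_apply] at h2
    rw [h1] at h2
    exact h2
  have hM0 : M x₀ = 1 := by
    ext c i
    have : M x₀ c = c := by
      simp only [hM, sum_apply, ContinuousLinearMap.smulRight_apply,
        ContinuousLinearMap.proj_apply, hG0]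
      ext i
      simp [Finset.sum_apply, Pi.single_apply]
    rw [this]; rfl
  have hMsmooth : ContDiffOn ℝ ∞ M N := by
    apply ContDiffOn.sum
    intro j _
    have h1 : ContDiffOn ℝ ∞ (fun x => G (e j x)) N := G.contDiff.comp_contDiffOn (he j)
    exact ContDiffOn.smulRight contDiffOn_const h1
  refine ⟨N ∩ M ⁻¹' {A | IsUnit A}, inter_subset_left,
    hMsmooth.continuousOn.isOpen_inter_preimage hN Units.isOpen, ⟨hx₀, ?_⟩, ?_⟩
  · show IsUnit (M x₀)
    rw [hM0]; exact isUnit_one
  refine ⟨fun k x => (ContinuousLinearMap.proj (R := ℝ) (φ := fun _ : κ => ℝ) k).comp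
    ((Ring.inverse (M x)).comp G), ?_, ?_⟩
  · intro k x hx
    obtain ⟨hxN, u, hu⟩ := hx
    have h1 : ContDiffAt ℝ ∞ M x := hMsmooth.contDiffAt (hN.mem_nhds hxN)
    have h2 : ContDiffAt ℝ ∞ (fun x => Ring.inverse (M x)) x := by
      have h3 : ContDiffAt ℝ ∞ Ring.inverse (M x) := hu ▸ contDiffAt_ringInverse ℝ u
      exact h3.comp x h1
    exact (contDiffAt_const.clm_comp (h2.clm_comp contDiffAt_const)).contDiffWithinAt
  · intro x hx k j
    obtain ⟨hxN, hu⟩ := hx
    have h1 : Ring.inverse (M x) (G (e j x)) = Pi.single j 1 := by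
      rw [← hMapply x j]
      have h2 := Ring.inverse_mul_cancel (M x) hu
      exact congrArg (fun A : (κ → ℝ) →L[ℝ] (κ → ℝ) => A (Pi.single j 1)) h2
    simp only [ContinuousLinearMap.comp_apply, h1, ContinuousLinearMap.proj_apply]
    rw [Pi.single_apply]

theorem linearIndependent_of_dual {V : Type*} [AddCommGroup V] [Module ℝ V] {κ : Type*}
    [Fintype κ] [DecidableEq κ] {e : κ → V} (L : κ → V → ℝ)
    (hadd : ∀ k a b, L k (a + b) = L k a + L k b) (hsmul : ∀ k (c : ℝ) a, L k (c • a) = c * L k a)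
    (h : ∀ k j, L k (e j) = if k = j then 1 else 0) : LinearIndependent ℝ e := by
  rw [Fintype.linearIndependent_iff]
  intro c hc k
  let Lk : V →ₗ[ℝ] ℝ := { toFun := L k, map_add' := hadd k, map_smul' := hsmul k }
  have h1 : Lk (∑ i, c i • e i) = 0 := by rw [hc, map_zero]
  rw [map_sum] at h1
  have h2 : ∀ i, Lk (c i • e i) = if k = i then c i else 0 := by
    intro i
    show L k (c i • e i) = _
    rw [hsmul, h]
    split_ifs <;> simp
  simp only [h2, Finset.sum_ite_eq, Finset.mem_univ, if_true] at h1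
  exact h1

theorem linearIndependent_of_dual' {V : Type*} [NormedAddCommGroup V] [NormedSpace ℝ V]
    {κ : Type*} [Fintype κ] [DecidableEq κ] {e : κ → V} (L : κ → V →L[ℝ] ℝ)
    (h : ∀ k j, L k (e j) = if k = j then 1 else 0) : LinearIndependent ℝ e :=
  linearIndependent_of_dual (fun k v => L k v) (fun k a b => map_add (L k) a b)
    (fun k c a => by simp) h

end Pool.Agent.SubRiem
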