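import Mathlib
import Pool.Agent.SubRiem.Nilpotent
import Pool.Agent.SubRiem.Form
import Pool.Agent.SubRiem.SmoothDual

/-!
# Ample covectors exist over every open set
-/

set_option autoImplicit false
set_option linter.unusedSectionVars false
set_option linter.unusedVariables false

namespace Pool.Agent.SubRiem

open Set Filter Topology VectorField
open scoped ContDiff

variable {E : Type*} [NormedAddCommGroup E] [NormedSpace ℝ E] {ι : Type*} [Fintype ι]

/-- Left-normed iterated brackets of the family. -/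
inductive Br (X : ι → E → E) : (E → E) → Prop
  | base (i : ι) : Br X (X i)
  | step (i : ι) (B : E → E) (hB : Br X B) : Br X (lieBracket ℝ (X i) B)

/-- The span of all Jacobi fields. -/
def Sinf (X : ι → E → E) (z : Ph E) : Submodule ℝ (Ph E) :=
  Submodule.span ℝ {a | ∃ j y, a = T X j y z}

theorem T_mem_Sinf (X : ι → E → E) (j : ℕ) (y : Co E) (z : Ph E) : T X j y z ∈ Sinf X z :=
  Submodule.subset_span ⟨j, y, rfl⟩

theorem contDiffOn_lieBracket {U : Set E} (hU : IsOpen U) {V W : E → E}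
    (hV : ContDiffOn ℝ ∞ V U) (hW : ContDiffOn ℝ ∞ W U) :
    ContDiffOn ℝ ∞ (lieBracket ℝ V W) U := by
  have h1 : ContDiffOn ℝ ∞ (fun x => fderiv ℝ W x (V x)) U :=
    (contDiffOn_fderiv_of_smooth hU hW).clm_apply hV
  have h2 : ContDiffOn ℝ ∞ (fun x => fderiv ℝ V x (W x)) U :=
    (contDiffOn_fderiv_of_smooth hU hV).clm_apply hW
  exact h1.sub h2

theorem Br.smooth {U : Set E} (hU : IsOpen U) {X : ι → E → E}
    (hX : ∀ i, ContDiffOn ℝ ∞ (X i) U) {B : E → E} (hB : Br X B) : ContDiffOn ℝ ∞ B U := by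
  induction hB with
  | base i => exact hX i
  | step i B _ ih => exact contDiffOn_lieBracket hU (hX i) ih

/-- Dual covector of an independent family. -/
theorem exists_dual_co [FiniteDimensional ℝ E] [DecidableEq ι] {v : ι → E}
    (hv : LinearIndependent ℝ v) (c : ι → ℝ) : ∃ y : Co E, ∀ i, y (v i) = c i := by
  obtain ⟨N', _, _, hx, L, _, hL⟩ := exists_smooth_dual (P := E) (e := fun k _ => v k) isOpen_univ
    (fun k => contDiffOn_const) (mem_univ (0 : E)) hv
  refine ⟨∑ k, c k • L k 0, fun i => ?_⟩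
  rw [sum_apply]
  simp only [smul_apply, smul_eq_mul, hL 0 hx]
  simp

variable [FiniteDimensional ℝ E]

/-- The vector representing a functional with respect to `ω`. -/
noncomputable def sharp (l : Ph E →L[ℝ] ℝ) : Ph E :=
  ∑ k, l (Module.finBasis ℝ (Ph E) k) • cvec k

theorem om_sharp (l : Ph E →L[ℝ] ℝ) (b : Ph E) : om (sharp l) b = l b := by
  unfold sharp
  rw [map_sum, sum_apply]
  have h1 : l b = l (∑ k, (Module.finBasis ℝ (Ph E)).coord k b • Module.finBasis ℝ (Ph E) k) := by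
    congr 1
    exact ((Module.finBasis ℝ (Ph E)).sum_repr b).symm
  rw [h1, map_sum]
  apply Finset.sum_congr rfl
  intro k _
  rw [map_smul, map_smul, smul_apply, om_cvec, smul_eq_mul, smul_eq_mul, mul_comm]

theorem contDiffOn_sharp {N : Set (Ph E)} {l : Ph E → (Ph E →L[ℝ] ℝ)}
    (hl : ContDiffOn ℝ ∞ l N) : ContDiffOn ℝ ∞ (fun z => sharp (l z)) N := by
  unfold sharp
  apply ContDiffOn.sum
  intro k _
  exact (hl.clm_apply contDiffOn_const).smul contDiffOn_const

theorem exists_om_orth {S : Submodule ℝ (Ph E)} (hS : S ≠ ⊤) :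
    ∃ w : Ph E, w ≠ 0 ∧ ∀ a ∈ S, om w a = 0 := by
  obtain ⟨f, hf, hfS⟩ := S.exists_le_ker_of_lt_top (lt_top_iff_ne_top.2 hS)
  refine ⟨sharp (LinearMap.toContinuousLinearMap (𝕜 := ℝ) (E := Ph E) (F' := ℝ) f), ?_, ?_⟩
  · intro h0
    apply hf
    ext b
    · have := om_sharp (LinearMap.toContinuousLinearMap (𝕜 := ℝ) (E := Ph E) (F' := ℝ) f) (b, 0)
      rw [h0] at this
      simpa using this.symm
    · have := om_sharp (LinearMap.toContinuousLinearMap (𝕜 := ℝ) (E := Ph E) (F' := ℝ) f) (0, b)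
      rw [h0] at this
      simpa using this.symm
  · intro a ha
    rw [om_sharp]
    exact hfS ha

section

variable {U : Set E} {X : ι → E → E} (hU : IsOpen U) (hX : ∀ i, ContDiffOn ℝ ∞ (X i) U)
  (hli : ∀ x ∈ U, LinearIndependent ℝ (fun i => X i x))
  {N : Set (Ph E)} (hN : IsOpen N) (hNU : N ⊆ TU U)

/-- Smooth sections (over `N`) of the `ω`-orthogonal of the Jacobi fields. -/
def Sec (X : ι → E → E) (N : Set (Ph E)) (w : Ph E → Co E) : Prop :=
  ContDiffOn ℝ ∞ w N ∧ ∀ z ∈ N, ∀ j y, om ((0 : E), w z) (T X j y z) = 0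

include hU hX hN hNU

theorem fderiv_apply_field {w : Ph E → Co E} (hw : ContDiffOn ℝ ∞ w N) {B : E → E}
    (hB : ContDiffOn ℝ ∞ B U) {z : Ph E} (hz : z ∈ N) (b : Ph E) :
    fderiv ℝ (fun z => w z (B z.1)) z b =
      (fderiv ℝ w z b) (B z.1) + w z (fderiv ℝ B z.1 b.1) := by
  have hBd : DifferentiableAt ℝ B z.1 :=
    (hB.contDiffAt (hU.mem_nhds (hNU hz))).differentiableAt (by simp)
  have h1 : HasFDerivAt (fun z : Ph E => B z.1)
      ((fderiv ℝ B z.1).comp (ContinuousLinearMap.fst ℝ E (Co E))) z :=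
    hBd.hasFDerivAt.comp z hasFDerivAt_fst
  rw [((diffAt hN hw hz).hasFDerivAt.clm_apply h1).fderiv]
  simp [add_comm]

include hli

theorem Sec.ann {w : Ph E → Co E} (hw : Sec X N w) {z : Ph E} (hz : z ∈ N) (i : ι) :
    w z (X i z.1) = 0 := by
  classical
  obtain ⟨y, hy⟩ := exists_dual_co (hli z.1 (hNU hz)) (Pi.single i 1)
  have h1 := hw.2 z hz 1 y
  have h2 : (T X 1 y z).1 = -∑ j, y (X j z.1) • X j z.1 :=
    nab_vert_fst hU hX hN hNU (contDiffOn_T hU hX hN hNU 0 y) (fun z hz => rfl) hz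
  rw [om_vert_left, h2] at h1
  simp only [hy, map_neg, map_sum, map_smul, smul_eq_mul] at h1
  rw [Finset.sum_eq_single i] at h1
  · simpa using h1
  · intro b _ hb
    rw [Pi.single_eq_of_ne hb, zero_mul]
  · simp

theorem Sec.fderiv_ann {w : Ph E → Co E} (hw : Sec X N w) {z : Ph E} (hz : z ∈ N) (i : ι)
    (b : Ph E) : (fderiv ℝ w z b) (X i z.1) = - w z (fderiv ℝ (X i) z.1 b.1) := by
  have h1 := fderiv_eq_zero_of_zero hU hX hN hNU (f := fun z => w z (X i z.1))
    (fun z hz => Sec.ann hU hX hli hN hNU hw hz i) hz b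
  rw [fderiv_apply_field hU hX hN hNU hw.1 (hX i) hz] at h1
  linarith

/-- The Lie derivative of a section, as a section. -/
noncomputable def dsec (X : ι → E → E) (w : Ph E → Co E) : Ph E → Co E :=
  fun z => (nab X (fun z => ((0 : E), w z)) z).2

omit hU hX hN hNU hli in
theorem smooth_vert {w : Ph E → Co E} (hw : ContDiffOn ℝ ∞ w N) :
    ContDiffOn ℝ ∞ (fun z => ((0 : E), w z)) N := contDiffOn_const.prodMk hw

theorem Sec.nab_eq {w : Ph E → Co E} (hw : Sec X N w) {z : Ph E} (hz : z ∈ N) :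
    nab X (fun z => ((0 : E), w z)) z = ((0 : E), SubRiem.dsec X w z) := by
  refine Prod.ext ?_ rfl
  exact nab_vert_of_annihilates hU hX hN hNU (smooth_vert hw.1) (fun z hz => rfl)
    (fun z hz i => Sec.ann hU hX hli hN hNU hw hz i) z hz

theorem Sec.dsec {w : Ph E → Co E} (hw : Sec X N w) : Sec X N (dsec X w) := by
  refine ⟨contDiff_snd.comp_contDiffOn (contDiffOn_nab hU hX hN hNU (smooth_vert hw.1)), ?_⟩
  intro z hz j y
  have h1 := fderiv_eq_zero_of_zero hU hX hN hNU
    (f := fun z => om ((0 : E), w z) (T X j y z)) (fun z hz => hw.2 z hz j y) hz (XH X z)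
  rw [om_nab hU hX hN hNU (smooth_vert hw.1) (contDiffOn_T hU hX hN hNU j y) hz, ← T_succ,
    hw.2 z hz (j + 1) y, add_zero, Sec.nab_eq hU hX hli hN hNU hw hz] at h1
  exact h1

theorem Sec.dsec_apply {w : Ph E → Co E} (hw : Sec X N w) {z : Ph E} (hz : z ∈ N) (v : E) :
    SubRiem.dsec X w z v = (fderiv ℝ w z (XH X z)) v +
      ∑ i, mom X i z * w z (fderiv ℝ (X i) z.1 v) := by
  have h1 : (fderiv ℝ (fun z => ((0 : E), w z)) z (XH X z)).2 = fderiv ℝ w z (XH X z) := by
    have h2 : HasFDerivAt (fun z => ((0 : E), w z))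
        ((0 : Ph E →L[ℝ] E).prod (fderiv ℝ w z)) z :=
      (hasFDerivAt_const (0 : E) z).prodMk (diffAt hN hw.1 hz).hasFDerivAt
    rw [h2.fderiv]
    rfl
  unfold SubRiem.dsec
  rw [nab_apply, Prod.snd_sub, sub_apply, h1, fderiv_XH_vert_snd hU hX (hNU hz)]
  simp only [Sec.ann hU hX hli hN hNU hw hz, zero_mul, zero_add]
  ring

theorem Sec.dform_XH {w : Ph E → Co E} (hw : Sec X N w) {z : Ph E} (hz : z ∈ N) (b : Ph E) :
    dform w z (XH X z) b = SubRiem.dsec X w z b.1 := by
  rw [Sec.dsec_apply hU hX hli hN hNU hw hz]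
  unfold dform
  have h1 : (fderiv ℝ w z b) (XH X z).1 = -∑ i, mom X i z * w z (fderiv ℝ (X i) z.1 b.1) := by
    simp only [XH, map_sum, map_smul, smul_eq_mul]
    rw [← Finset.sum_neg_distrib]
    apply Finset.sum_congr rfl
    intro i _
    rw [Sec.fderiv_ann hU hX hli hN hNU hw hz i b]
    ring
  rw [h1]
  ring

theorem Sec.genOps : GenOps X N (fun K => ∃ w, Sec X N w ∧ K = opOf w) := by
  refine ⟨?_, ?_, ?_, ?_, ?_⟩
  · rintro K ⟨w, hw, rfl⟩
    exact contDiffOn_opOf hN hw.1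
  · rintro K ⟨w, hw, rfl⟩ z hz y
    rw [opOf_vert]
  · rintro K ⟨w, hw, rfl⟩ z hz y i
    rw [opOf_vert]
    simp only
    rw [Sec.fderiv_ann hU hX hli hN hNU hw hz i]
    simp
  · rintro K ⟨w, hw, rfl⟩
    have hd := Sec.dsec hU hX hli hN hNU hw
    refine ⟨opOf (SubRiem.dsec X w), ⟨_, hd, rfl⟩, ?_⟩
    intro z hz a
    apply eq_of_om
    intro b
    rw [om_opOf_deriv hU hX hN hNU hw.1 hz, om_opOf]
    have key : ∀ a b : Ph E, fderiv ℝ (fun v => dform w v (XH X v) b) z a =
        (fderiv ℝ (SubRiem.dsec X w) z a) b.1 := by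
      intro a b
      have h1 : (fun v => dform w v (XH X v) b) =ᶠ[𝓝 z] fun v => SubRiem.dsec X w v b.1 :=
        eventually_eq_of_eqOn hN (fun v hv => Sec.dform_XH hU hX hli hN hNU hw hv b) hz
      have h2 := (diffAt hN hd.1 hz).hasFDerivAt.clm_apply (hasFDerivAt_const b.1 z)
      rw [h1.fderiv_eq, h2.fderiv]
      simp
    rw [key a b, key b a]
    rfl
  · rintro K ⟨w, hw, rfl⟩
    exact ⟨opOf w, ⟨w, hw, rfl⟩, fun z hz a b => opOf_adj w z a b⟩

variable {k₀ : ℕ} (hstab : ∀ z ∈ N, ∀ j y, T X j y z ∈ Sp X k₀ z)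

include hstab

/-- Vertical derivatives of sections are sections (the positivity theorem). -/
theorem Sec.vderiv {w : Ph E → Co E} (hw : Sec X N w) (y : Co E) :
    Sec X N (fun z => fderiv ℝ w z ((0 : E), y)) := by
  refine ⟨(contDiffOn_fderiv_of_smooth hN hw.1).clm_apply contDiffOn_const, ?_⟩
  intro z hz j y'
  have h1 := GenOps.small hU hX hN hNU (Sec.genOps hU hX hli hN hNU) hstab (opOf w)
    ⟨w, hw, rfl⟩ z hz y j y'
  rw [opOf_vert] at h1
  exact h1

theorem Sec.sum_bracket {B : E → E} (hB : ContDiffOn ℝ ∞ B U)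
    (hann : ∀ w, Sec X N w → ∀ z ∈ N, w z (B z.1) = 0) {w : Ph E → Co E} (hw : Sec X N w)
    {z : Ph E} (hz : z ∈ N) : ∑ i, mom X i z * w z (lieBracket ℝ (X i) B z.1) = 0 := by
  have h1 := hann _ (Sec.dsec hU hX hli hN hNU hw) z hz
  rw [Sec.dsec_apply hU hX hli hN hNU hw hz] at h1
  have h2 := fderiv_eq_zero_of_zero hU hX hN hNU (f := fun z => w z (B z.1))
    (fun z hz => hann w hw z hz) hz (XH X z)
  rw [fderiv_apply_field hU hX hN hNU hw.1 hB hz] at h2
  have h3 : w z (fderiv ℝ B z.1 (XH X z).1) = ∑ i, mom X i z * w z (fderiv ℝ B z.1 (X i z.1)) := by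
    simp only [XH, map_sum, map_smul, smul_eq_mul]
  have h4 : ∑ i, mom X i z * w z (lieBracket ℝ (X i) B z.1) =
      ∑ i, mom X i z * w z (fderiv ℝ B z.1 (X i z.1)) -
        ∑ i, mom X i z * w z (fderiv ℝ (X i) z.1 (B z.1)) := by
    rw [← Finset.sum_sub_distrib]
    apply Finset.sum_congr rfl
    intro i _
    unfold lieBracket
    rw [map_sub]
    ring
  rw [h4, ← h3]
  linarith

theorem Sec.ann_bracket {B : E → E} (hB : ContDiffOn ℝ ∞ B U)
    (hann : ∀ w, Sec X N w → ∀ z ∈ N, w z (B z.1) = 0) {w : Ph E → Co E} (hw : Sec X N w)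
    {z : Ph E} (hz : z ∈ N) (i : ι) : w z (lieBracket ℝ (X i) B z.1) = 0 := by
  classical
  have hLB : ∀ i, ContDiffOn ℝ ∞ (lieBracket ℝ (X i) B) U :=
    fun i => contDiffOn_lieBracket hU (hX i) hB
  have key : ∀ y : Co E, ∑ i, y (X i z.1) * w z (lieBracket ℝ (X i) B z.1) = 0 := by
    intro y
    have h1 := fderiv_eq_zero_of_zero hU hX hN hNU
      (f := fun z => ∑ i, mom X i z * w z (lieBracket ℝ (X i) B z.1))
      (fun z hz => Sec.sum_bracket hU hX hli hN hNU hstab hB hann hw hz) hz ((0 : E), y)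
    have hd : ∀ i, DifferentiableAt ℝ (fun z => w z (lieBracket ℝ (X i) B z.1)) z := by
      intro i
      apply diffAt hN _ hz
      exact hw.1.clm_apply ((contDiffOn_basic (hLB i)).mono hNU)
    have hm : ∀ i, DifferentiableAt ℝ (mom X i) z := fun i =>
      differentiableAt_mom (differentiableAt_field hU hX (hNU hz) i)
    have h2 : fderiv ℝ (fun z => ∑ i, mom X i z * w z (lieBracket ℝ (X i) B z.1)) z ((0 : E), y) =
        ∑ i, (mom X i z * (fderiv ℝ w z ((0 : E), y)) (lieBracket ℝ (X i) B z.1) +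
          y (X i z.1) * w z (lieBracket ℝ (X i) B z.1)) := by
      rw [fderiv_fun_sum fun i _ => (hm i).fun_mul (hd i), sum_apply]
      apply Finset.sum_congr rfl
      intro i _
      rw [fderiv_fun_mul (hm i) (hd i)]
      simp only [add_apply, smul_apply, smul_eq_mul]
      rw [fderiv_mom (differentiableAt_field hU hX (hNU hz) i),
        fderiv_apply_field hU hX hN hNU hw.1 (hLB i) hz]
      simp
      ring
    rw [h2, Finset.sum_add_distrib,
      Sec.sum_bracket hU hX hli hN hNU hstab hB hann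
        (Sec.vderiv hU hX hli hN hNU hstab hw y) hz, zero_add] at h1
    exact h1
  obtain ⟨y, hy⟩ := exists_dual_co (hli z.1 (hNU hz)) (Pi.single i 1)
  have h1 := key y
  simp only [hy] at h1
  rw [Finset.sum_eq_single i] at h1
  · simpa using h1
  · intro b _ hb
    rw [Pi.single_eq_of_ne hb, zero_mul]
  · simp

theorem Sec.ann_Br {B : E → E} (hB : Br X B) :
    ∀ w, Sec X N w → ∀ z ∈ N, w z (B z.1) = 0 := by
  induction hB with
  | base i => intro w hw z hz; exact Sec.ann hU hX hli hN hNU hw hz i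
  | step i B hB ih =>
    intro w hw z hz
    exact Sec.ann_bracket hU hX hli hN hNU hstab (hB.smooth hU hX) ih hw hz i

end

/-- **Ample covectors exist over every nonempty open set.** -/
theorem exists_ample {U : Set E} {X : ι → E → E} (hU : IsOpen U)
    (hX : ∀ i, ContDiffOn ℝ ∞ (X i) U)
    (hli : ∀ x ∈ U, LinearIndependent ℝ (fun i => X i x))
    (hgen : ∀ x ∈ U, Submodule.span ℝ {v | ∃ B, Br X B ∧ v = B x} = ⊤)
    {O : Set (Ph E)} (hO : IsOpen O) (hOU : O ⊆ TU U) (hne : O.Nonempty) :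
    ∃ z ∈ O, Sinf X z = ⊤ := by
  classical
  by_contra hcon
  push Not at hcon
  -- maximal rank
  set R : Set ℕ := (fun z => Module.finrank ℝ (Sinf X z)) '' O with hR
  have hRb : BddAbove R := ⟨Module.finrank ℝ (Ph E), by
    rintro _ ⟨z, _, rfl⟩
    exact Submodule.finrank_le _⟩
  obtain ⟨z₀, hz₀, hmax0⟩ := Nat.sSup_mem (hne.image _) hRb
  have hmax : ∀ z ∈ O, Module.finrank ℝ (Sinf X z) ≤ Module.finrank ℝ (Sinf X z₀) := by
    intro z hz
    have h1 := le_csSup hRb ⟨z, hz, rfl⟩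
    rw [← hmax0] at h1
    exact h1
  -- independent family
  obtain ⟨f, hfmem, hfspan, hfli⟩ := Submodule.exists_fun_fin_finrank_span_eq ℝ
    {a | ∃ j y, a = T X j y z₀}
  choose j y hjy using hfmem
  have hli0 : LinearIndependent ℝ (fun k => T X (j k) (y k) z₀) := by
    have : (fun k => T X (j k) (y k) z₀) = f := funext fun k => (hjy k).symm
    rw [this]; exact hfli
  obtain ⟨N, hNO, hN, hz₀N, L, hLs, hL⟩ := exists_smooth_dual
    (e := fun k z => T X (j k) (y k) z) hO
    (fun k => contDiffOn_T hU hX hO hOU (j k) (y k)) hz₀ hli0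
  have hNU : N ⊆ TU U := hNO.trans hOU
  -- constancy of the span
  have hspan : ∀ z ∈ N, Submodule.span ℝ (range fun k => T X (j k) (y k) z) = Sinf X z := by
    intro z hz
    apply Submodule.eq_of_le_of_finrank_le
    · rw [Submodule.span_le]
      rintro _ ⟨k, rfl⟩
      exact T_mem_Sinf X _ _ z
    · have h1 : LinearIndependent ℝ (fun k => T X (j k) (y k) z) :=
        linearIndependent_of_dual' (fun k => L k z) (hL z hz)
      rw [finrank_span_eq_card h1, Fintype.card_fin]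
      exact hmax z (hNO hz)
  set k₀ : ℕ := Finset.univ.sup j with hk₀
  have hstab : ∀ z ∈ N, ∀ j y, T X j y z ∈ Sp X k₀ z := by
    intro z hz j' y'
    have h1 : T X j' y' z ∈ Sinf X z := T_mem_Sinf X _ _ z
    rw [← hspan z hz] at h1
    refine (Submodule.span_le.2 ?_) h1
    rintro _ ⟨k, rfl⟩
    exact T_mem_Sp X (Finset.le_sup (f := j) (Finset.mem_univ k)) (y k) z
  -- an orthogonal vector
  obtain ⟨w₀, hw₀, hw₀S⟩ := exists_om_orth (hcon z₀ hz₀)
  set W : Ph E → Ph E := fun z => w₀ - ∑ k, om w₀ (T X (j k) (y k) z) • sharp (L k z) with hW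
  have hWs : ContDiffOn ℝ ∞ W N := by
    apply contDiffOn_const.sub
    apply ContDiffOn.sum
    intro k _
    exact ((om w₀).contDiff.comp_contDiffOn (contDiffOn_T hU hX hN hNU (j k) (y k))).smul
      (contDiffOn_sharp (hLs k))
  have hWorth : ∀ z ∈ N, ∀ a ∈ Sinf X z, om (W z) a = 0 := by
    intro z hz a ha
    rw [← hspan z hz] at ha
    induction ha using Submodule.span_induction with
    | mem a ha =>
      obtain ⟨k, rfl⟩ := ha
      simp only [hW, map_sub, map_sum, map_smul, sub_apply, sum_apply, smul_apply, om_sharp,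
        smul_eq_mul, hL z hz]
      simp
    | zero => exact map_zero _
    | add a b _ _ iha ihb => rw [map_add, iha, ihb, add_zero]
    | smul c a _ ih => rw [map_smul, ih, smul_zero]
  have hW1 : ∀ z ∈ N, (W z).1 = 0 := by
    intro z hz
    apply eq_zero_of_forall_co
    intro y'
    have := hWorth z hz _ (T_mem_Sinf X 0 y' z)
    rw [T_zero, om_vert_right] at this
    linarith
  have hW0 : W z₀ = w₀ := by
    simp only [hW]
    rw [Finset.sum_eq_zero, sub_zero]
    intro k _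
    rw [hw₀S _ (T_mem_Sinf X _ _ z₀), zero_smul]
  have hsec : Sec X N (fun z => (W z).2) := by
    refine ⟨contDiff_snd.comp_contDiffOn hWs, ?_⟩
    intro z hz j' y'
    have h1 : ((0 : E), (W z).2) = W z := Prod.ext (hW1 z hz).symm rfl
    rw [h1]
    exact hWorth z hz _ (T_mem_Sinf X _ _ z)
  have hker : ∀ v : E, w₀.2 v = 0 := by
    intro v
    have hv : v ∈ Submodule.span ℝ {v | ∃ B, Br X B ∧ v = B z₀.1} := by
      rw [hgen z₀.1 (hOU hz₀)]; trivial
    induction hv using Submodule.span_induction with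
    | mem a ha =>
      obtain ⟨B, hB, rfl⟩ := ha
      have := Sec.ann_Br hU hX hli hN hNU hstab hB _ hsec z₀ hz₀N
      simp only [hW0] at this
      exact this
    | zero => exact map_zero _
    | add a b _ _ iha ihb => rw [map_add, iha, ihb, add_zero]
    | smul c a _ ih => rw [map_smul, ih, smul_zero]
  apply hw₀
  have h1 := hW1 z₀ hz₀N
  rw [hW0] at h1
  apply Prod.ext h1
  ext v
  exact hker v

end Pool.Agent.SubRiem
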