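import Mathlib
import Pool.Agent.SubRiem.Ample

/-!
# Quadratic Hamiltonians with matrix coefficients
-/

set_option autoImplicit false
set_option linter.unusedSectionVars false
set_option linter.unusedVariables false

namespace Pool.Agent.SubRiem

open Set Filter Topology VectorField
open scoped ContDiff Matrix Matrix.Norms.Operator

variable {E : Type*} [NormedAddCommGroup E] [NormedSpace ℝ E] {ι : Type*} [Fintype ι]
  [DecidableEq ι]

/-- Entry evaluation as a continuous linear map. -/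
noncomputable def ent (i j : ι) : Matrix ι ι ℝ →L[ℝ] ℝ :=
  LinearMap.toContinuousLinearMap (Matrix.entryLinearMap ℝ ℝ i j)

theorem ent_apply (i j : ι) (M : Matrix ι ι ℝ) : ent i j M = M i j := rfl

theorem hasFDerivAt_entry {G : Type*} [NormedAddCommGroup G] [NormedSpace ℝ G]
    {M : G → Matrix ι ι ℝ} {x : G} (hM : DifferentiableAt ℝ M x) (i j : ι) :
    HasFDerivAt (fun x => M x i j) ((ent i j).comp (fderiv ℝ M x)) x :=
  (ent i j).hasFDerivAt.comp x hM.hasFDerivAt

theorem contDiffOn_entry {G : Type*} [NormedAddCommGroup G] [NormedSpace ℝ G]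
    {n : WithTop ℕ∞} {M : G → Matrix ι ι ℝ} {U : Set G} (hM : ContDiffOn ℝ n M U) (i j : ι) :
    ContDiffOn ℝ n (fun x => M x i j) U :=
  (ent i j).contDiff.comp_contDiffOn hM

/-- The momentum vector. -/
def momv (X : ι → E → E) (z : Ph E) : ι → ℝ := fun i => mom X i z

/-- The quadratic Hamiltonian with coefficient matrix `M`. -/
noncomputable def quad (X : ι → E → E) (M : E → Matrix ι ι ℝ) (z : Ph E) : ℝ :=
  (1 / 2) * ∑ i, ∑ j, M z.1 i j * (mom X i z * mom X j z)

theorem quad_eq (X : ι → E → E) (M : E → Matrix ι ι ℝ) (z : Ph E) :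
    quad X M z = (1 / 2) * (momv X z ⬝ᵥ (M z.1 *ᵥ momv X z)) := by
  unfold quad momv Matrix.mulVec dotProduct
  congr 1
  apply Finset.sum_congr rfl
  intro i _
  rw [Finset.mul_sum]
  apply Finset.sum_congr rfl
  intro j _
  ring

theorem contDiffOn_quad {n : WithTop ℕ∞} {U : Set E} {X : ι → E → E}
    (hX : ∀ i, ContDiffOn ℝ n (X i) U) {M : E → Matrix ι ι ℝ} (hM : ContDiffOn ℝ n M U) :
    ContDiffOn ℝ n (quad X M) (TU U) := by
  unfold quad
  apply ContDiffOn.mul contDiffOn_const
  apply ContDiffOn.sum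
  intro i _
  apply ContDiffOn.sum
  intro j _
  apply ContDiffOn.mul
  · exact contDiffOn_basic (contDiffOn_entry hM i j)
  · exact (contDiffOn_mom (hX i)).mul (contDiffOn_mom (hX j))

theorem fderiv_quad {X : ι → E → E} {M : E → Matrix ι ι ℝ} {z : Ph E}
    (hX : ∀ i, DifferentiableAt ℝ (X i) z.1) (hM : DifferentiableAt ℝ M z.1)
    (hs : ∀ i j, M z.1 i j = M z.1 j i) (b : Ph E) :
    fderiv ℝ (quad X M) z b =
      (1 / 2) * ∑ i, ∑ j, (fderiv ℝ M z.1 b.1) i j * (mom X i z * mom X j z) +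
        ∑ i, ∑ j, M z.1 i j * (mom X i z * fderiv ℝ (mom X j) z b) := by
  have hm : ∀ i, HasFDerivAt (mom X i) (fderiv ℝ (mom X i) z) z := fun i =>
    (differentiableAt_mom (hX i)).hasFDerivAt
  have he : ∀ i j, HasFDerivAt (fun w : Ph E => M w.1 i j)
      (((ent i j).comp (fderiv ℝ M z.1)).comp (ContinuousLinearMap.fst ℝ E (Co E))) z :=
    fun i j => (hasFDerivAt_entry hM i j).comp z hasFDerivAt_fst
  have h : HasFDerivAt (quad X M)
      ((1 / 2 : ℝ) • ∑ i, ∑ j, (M z.1 i j • (mom X i z • fderiv ℝ (mom X j) z +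
        mom X j z • fderiv ℝ (mom X i) z) + (mom X i z * mom X j z) •
        (((ent i j).comp (fderiv ℝ M z.1)).comp (ContinuousLinearMap.fst ℝ E (Co E))))) z := by
    unfold quad
    apply HasFDerivAt.const_mul
    apply HasFDerivAt.fun_sum
    intro i _
    apply HasFDerivAt.fun_sum
    intro j _
    exact (he i j).fun_mul ((hm i).fun_mul (hm j))
  rw [h.fderiv]
  simp only [smul_apply, sum_apply, add_apply, smul_eq_mul, ContinuousLinearMap.comp_apply,
    ContinuousLinearMap.coe_fst', ent_apply]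
  have hsw : ∑ i, ∑ j, M z.1 i j * (mom X j z * fderiv ℝ (mom X i) z b) =
      ∑ i, ∑ j, M z.1 i j * (mom X i z * fderiv ℝ (mom X j) z b) := by
    rw [Finset.sum_comm]
    apply Finset.sum_congr rfl
    intro i _
    apply Finset.sum_congr rfl
    intro j _
    rw [hs j i]
  have h1 : ∑ i, ∑ j, (M z.1 i j * (mom X i z * fderiv ℝ (mom X j) z b +
      mom X j z * fderiv ℝ (mom X i) z b) +
      mom X i z * mom X j z * (fderiv ℝ M z.1 b.1) i j) =
      ∑ i, ∑ j, M z.1 i j * (mom X i z * fderiv ℝ (mom X j) z b) +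
      ∑ i, ∑ j, M z.1 i j * (mom X j z * fderiv ℝ (mom X i) z b) +
      ∑ i, ∑ j, (fderiv ℝ M z.1 b.1) i j * (mom X i z * mom X j z) := by
    simp only [← Finset.sum_add_distrib]
    apply Finset.sum_congr rfl
    intro i _
    apply Finset.sum_congr rfl
    intro j _
    ring
  rw [h1, hsw]
  ring

/-- The field of the canonical Euler vectors. -/
def eul (z : Ph E) : Ph E := ((0 : E), z.2)

theorem contDiff_eul : ContDiff ℝ ∞ (eul (E := E)) := contDiff_const.prodMk contDiff_snd

theorem fderiv_eul (z a : Ph E) : fderiv ℝ (eul (E := E)) z a = ((0 : E), a.2) := by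
  have h : HasFDerivAt (eul (E := E))
      ((0 : Ph E →L[ℝ] E).prod (ContinuousLinearMap.snd ℝ E (Co E))) z :=
    (hasFDerivAt_const (0 : E) z).prodMk hasFDerivAt_snd
  rw [h.fderiv]
  rfl

section

variable {U : Set E} {X : ι → E → E} (hU : IsOpen U) (hX : ∀ i, ContDiffOn ℝ ∞ (X i) U)

include hU hX

theorem nab_eul {z : Ph E} (hz : z ∈ TU U) : nab X eul z = - XH X z := by
  rw [nab_apply, fderiv_eul]
  apply Prod.ext
  · rw [Prod.fst_sub]
    have := fderiv_XH_vert_fst hU hX hz z.2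
    show (0 : E) - (fderiv ℝ (XH X) z ((0 : E), z.2)).1 = _
    rw [this, zero_sub]
    rfl
  · ext v
    rw [Prod.snd_sub, sub_apply]
    show (XH X z).2 v - (fderiv ℝ (XH X) z ((0 : E), z.2)).2 v = (-XH X z).2 v
    rw [fderiv_XH_vert_snd hU hX hz z.2 v]
    simp only [XH, Prod.snd_neg, neg_apply, sum_apply, smul_apply,
      ContinuousLinearMap.comp_apply, smul_eq_mul, Finset.sum_add_distrib, mom, neg_neg]
    ring

end

end Pool.Agent.SubRiem
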