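import Mathlib
import Pool.Agent.SubRiem.Quad

/-!
# Orbital maps and their recursion operator
-/

set_option autoImplicit false
set_option linter.unusedSectionVars false
set_option linter.unusedVariables false

namespace Pool.Agent.SubRiem

open Set Filter Topology VectorField
open scoped ContDiff Matrix Matrix.Norms.Operator

variable {E : Type*} [NormedAddCommGroup E] [NormedSpace ℝ E] {ι : Type*} [Fintype ι]
  [DecidableEq ι]

/-- An orbital map on `N` with horizontal symbol `S`. -/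
structure Orb (X : ι → E → E) (S : E → Matrix ι ι ℝ) (N : Set (Ph E)) (Φ : Ph E → Co E) :
    Prop where
  smooth : ContDiffOn ℝ ∞ Φ N
  hor : ∀ z ∈ N, ∀ i, Φ z (X i z.1) = ∑ j, S z.1 i j * mom X j z
  der : ∀ z ∈ N, ∀ e, (fderiv ℝ Φ z (XH X z)) e =
    (1 / 2) * ∑ i, ∑ j, (fderiv ℝ S z.1 e) i j * (mom X i z * mom X j z) -
      ∑ i, mom X i z * Φ z (fderiv ℝ (X i) z.1 e)

/-- `K` is an `ω`-symmetric invariant operator field with horizontal symbol `M`. -/
structure Symb (X : ι → E → E) (N : Set (Ph E)) (K : Ph E → (Ph E →L[ℝ] Ph E))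
    (M : E → Matrix ι ι ℝ) : Prop where
  smooth : ContDiffOn ℝ ∞ K N
  inv : ∀ z ∈ N, ∀ a, fderiv ℝ K z (XH X z) a + K z (fderiv ℝ (XH X) z a) -
    fderiv ℝ (XH X) z (K z a) = 0
  adj : ∀ z ∈ N, ∀ a b, om (K z a) b = om a (K z b)
  vert : ∀ z ∈ N, ∀ y : Co E, (K z ((0 : E), y)).1 = 0
  hor : ∀ z ∈ N, ∀ (y : Co E) i, (K z ((0 : E), y)).2 (X i z.1) = ∑ j, M z.1 i j * y (X j z.1)

section

variable {U : Set E} {X : ι → E → E} (hU : IsOpen U) (hX : ∀ i, ContDiffOn ℝ ∞ (X i) U)
  {S : E → Matrix ι ι ℝ} (hS : ContDiffOn ℝ ∞ S U) (hSs : ∀ x ∈ U, ∀ i j, S x i j = S x j i)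
  {N : Set (Ph E)} (hN : IsOpen N) (hNU : N ⊆ TU U)

include hU hX hN hNU

theorem Symb.add {K L : Ph E → (Ph E →L[ℝ] Ph E)} {M M' : E → Matrix ι ι ℝ}
    (hK : Symb X N K M) (hL : Symb X N L M') :
    Symb X N (fun z => K z + L z) (fun x => M x + M' x) := by
  refine ⟨hK.smooth.add hL.smooth, ?_, ?_, ?_, ?_⟩
  · intro z hz a
    rw [fderiv_fun_add (diffAt hN hK.smooth hz) (diffAt hN hL.smooth hz)]
    have h1 := hK.inv z hz a
    have h2 := hL.inv z hz a
    simp only [add_apply, map_add]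
    have : fderiv ℝ K z (XH X z) a + fderiv ℝ L z (XH X z) a +
        (K z (fderiv ℝ (XH X) z a) + L z (fderiv ℝ (XH X) z a)) -
        (fderiv ℝ (XH X) z (K z a) + fderiv ℝ (XH X) z (L z a)) =
        (fderiv ℝ K z (XH X z) a + K z (fderiv ℝ (XH X) z a) - fderiv ℝ (XH X) z (K z a)) +
        (fderiv ℝ L z (XH X z) a + L z (fderiv ℝ (XH X) z a) - fderiv ℝ (XH X) z (L z a)) := by
      abel
    rw [this, h1, h2, add_zero]
  · intro z hz a b
    simp only [add_apply, map_add]
    rw [hK.adj z hz, hL.adj z hz]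
  · intro z hz y
    simp only [add_apply, Prod.fst_add]
    rw [hK.vert z hz, hL.vert z hz, add_zero]
  · intro z hz y i
    simp only [add_apply, Prod.snd_add, Matrix.add_apply, add_mul, Finset.sum_add_distrib]
    rw [hK.hor z hz, hL.hor z hz]

theorem Symb.smul {K : Ph E → (Ph E →L[ℝ] Ph E)} {M : E → Matrix ι ι ℝ}
    (hK : Symb X N K M) (c : ℝ) : Symb X N (fun z => c • K z) (fun x => c • M x) := by
  refine ⟨hK.smooth.const_smul c, ?_, ?_, ?_, ?_⟩
  · intro z hz a
    rw [fderiv_fun_const_smul (diffAt hN hK.smooth hz)]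
    have h1 := hK.inv z hz a
    simp only [smul_apply, map_smul]
    rw [← smul_add, ← smul_sub, h1, smul_zero]
  · intro z hz a b
    simp only [smul_apply, map_smul]
    rw [hK.adj z hz]
  · intro z hz y
    simp only [smul_apply, Prod.smul_fst]
    rw [hK.vert z hz, smul_zero]
  · intro z hz y i
    simp only [smul_apply, Prod.smul_snd, Matrix.smul_apply, smul_eq_mul, mul_assoc]
    rw [hK.hor z hz, Finset.mul_sum]

theorem Symb.one : Symb X N (fun z => (1 : Ph E →L[ℝ] Ph E)) (fun x => (1 : Matrix ι ι ℝ)) := by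
  refine ⟨contDiffOn_const, ?_, ?_, ?_, ?_⟩
  · intro z hz a
    rw [fderiv_fun_const]
    simp
  · intro z hz a b; rfl
  · intro z hz y; rfl
  · intro z hz y i
    simp [Matrix.one_apply]

theorem Symb.mul {K L : Ph E → (Ph E →L[ℝ] Ph E)} {M M' : E → Matrix ι ι ℝ}
    (hK : Symb X N K M) (hL : Symb X N L M') (hc : ∀ z ∈ N, K z * L z = L z * K z) :
    Symb X N (fun z => K z * L z) (fun x => M x * M' x) := by
  refine ⟨hK.smooth.clm_comp hL.smooth, ?_, ?_, ?_, ?_⟩
  · intro z hz a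
    have h0 : fderiv ℝ (fun z => K z * L z) z =
        fderiv ℝ (fun z => (K z).comp (L z)) z := rfl
    rw [h0, fderiv_clm_comp (diffAt hN hK.smooth hz) (diffAt hN hL.smooth hz)]
    simp only [add_apply, ContinuousLinearMap.comp_apply, ContinuousLinearMap.compL_apply,
      ContinuousLinearMap.flip_apply, mul_apply_eq_comp]
    have h1 := hK.inv z hz (L z a)
    have h2 := hL.inv z hz a
    have : K z (fderiv ℝ L z (XH X z) a) + fderiv ℝ K z (XH X z) (L z a) +
        K z (L z (fderiv ℝ (XH X) z a)) - fderiv ℝ (XH X) z (K z (L z a)) =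
        (fderiv ℝ K z (XH X z) (L z a) + K z (fderiv ℝ (XH X) z (L z a)) -
          fderiv ℝ (XH X) z (K z (L z a))) +
        K z (fderiv ℝ L z (XH X z) a + L z (fderiv ℝ (XH X) z a) -
          fderiv ℝ (XH X) z (L z a)) := by
      simp only [map_add, map_sub]; abel
    rw [this, h1, h2, map_zero, add_zero]
  · intro z hz a b
    show om ((K z * L z) a) b = om a ((K z * L z) b)
    conv_rhs => rw [hc z hz]
    simp only [mul_apply_eq_comp]
    rw [hK.adj z hz, hL.adj z hz]
  · intro z hz y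
    have h1 : L z ((0 : E), y) = ((0 : E), (L z ((0 : E), y)).2) :=
      Prod.ext (hL.vert z hz y) rfl
    rw [mul_apply_eq_comp, h1]
    exact hK.vert z hz _
  · intro z hz y i
    have h1 : L z ((0 : E), y) = ((0 : E), (L z ((0 : E), y)).2) :=
      Prod.ext (hL.vert z hz y) rfl
    rw [mul_apply_eq_comp, h1, hK.hor z hz]
    simp only [hL.hor z hz, Matrix.mul_apply, Finset.mul_sum, Finset.sum_mul]
    rw [Finset.sum_comm]
    apply Finset.sum_congr rfl
    intro j _
    apply Finset.sum_congr rfl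
    intro k _
    ring

theorem Symb.pow {K : Ph E → (Ph E →L[ℝ] Ph E)} {M : E → Matrix ι ι ℝ}
    (hK : Symb X N K M) (n : ℕ) : Symb X N (fun z => K z ^ n) (fun x => M x ^ n) := by
  induction n with
  | zero => simpa using Symb.one hU hX hN hNU
  | succ n ih =>
    have := Symb.mul hU hX hN hNU ih hK (fun z _ => (Commute.refl (K z)).pow_left n)
    simpa only [pow_succ] using this

theorem Symb.aeval {K : Ph E → (Ph E →L[ℝ] Ph E)} {M : E → Matrix ι ι ℝ}
    (hK : Symb X N K M) (f : Polynomial ℝ) :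
    Symb X N (fun z => Polynomial.aeval (K z) f) (fun x => Polynomial.aeval (M x) f) := by
  induction f using Polynomial.induction_on' with
  | add p q hp hq =>
    have := Symb.add hU hX hN hNU hp hq
    simpa only [map_add] using this
  | monomial n a =>
    have := Symb.smul hU hX hN hNU (Symb.pow hU hX hN hNU hK n) a
    simpa only [Polynomial.aeval_monomial, ← Algebra.smul_def] using this

/-- Invariant operators commute with the Lie derivative. -/
theorem Symb.nab {K : Ph E → (Ph E →L[ℝ] Ph E)} {M : E → Matrix ι ι ℝ}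
    (hK : Symb X N K M) {a : Ph E → Ph E} (ha : ContDiffOn ℝ ∞ a N) {z : Ph E} (hz : z ∈ N) :
    nab X (fun w => K w (a w)) z = K z (nab X a z) := by
  rw [nab_op hU hX hN hNU hK.smooth ha hz, hK.inv z hz, add_zero]

theorem Symb.om_XH_self {K : Ph E → (Ph E →L[ℝ] Ph E)} {M : E → Matrix ι ι ℝ}
    (hK : Symb X N K M) {z : Ph E} (hz : z ∈ N) (a : Ph E) : om (K z a) a = 0 := by
  have h1 := hK.adj z hz a a
  rw [om_swap a] at h1
  linarith

/-- First key formula. -/
theorem Symb.om_eul {K : Ph E → (Ph E →L[ℝ] Ph E)} {M : E → Matrix ι ι ℝ}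
    (hK : Symb X N K M) {z : Ph E} (hz : z ∈ N) :
    om (K z (eul z)) (XH X z) = 2 * quad X M z := by
  have h1 : K z (eul z) = ((0 : E), (K z ((0 : E), z.2)).2) := Prod.ext (hK.vert z hz z.2) rfl
  rw [h1, om_vert_left]
  simp only [XH, map_sum, map_smul, hK.hor z hz, smul_eq_mul, quad, Finset.mul_sum]
  apply Finset.sum_congr rfl
  intro i _
  apply Finset.sum_congr rfl
  intro j _
  show mom X i z * (M z.1 i j * mom X j z) = _
  ring

/-- The quadratic Hamiltonians are first integrals. -/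
theorem Symb.fderiv_quad_XH {K : Ph E → (Ph E →L[ℝ] Ph E)} {M : E → Matrix ι ι ℝ}
    (hK : Symb X N K M) {z : Ph E} (hz : z ∈ N) : fderiv ℝ (quad X M) z (XH X z) = 0 := by
  have hXH := contDiffOn_XH' hU hX hN hNU
  have he : ContDiffOn ℝ ∞ (eul (E := E)) N := contDiff_eul.contDiffOn
  have hKe : ContDiffOn ℝ ∞ (fun w => K w (eul w)) N := hK.smooth.clm_apply he
  have h1 : quad X M =ᶠ[𝓝 z] fun w => (1 / 2 : ℝ) * om (K w (eul w)) (XH X w) :=
    eventually_eq_of_eqOn hN (fun w hw => by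
      rw [Symb.om_eul hU hX hN hNU hK hw]; ring) hz
  have h2 : DifferentiableAt ℝ (fun w => om (K w (eul w)) (XH X w)) z :=
    differentiableAt_om (diffAt hN hKe hz) (diffAt hN hXH hz)
  rw [h1.fderiv_eq, fderiv_const_mul h2, smul_apply, om_nab hU hX hN hNU hKe hXH hz,
    nab_XH hU hX hN hNU hz, map_zero, add_zero, Symb.nab hU hX hN hNU hK he hz,
    nab_eul hU hX (hNU hz), map_neg, map_neg, neg_apply,
    Symb.om_XH_self hU hX hN hNU hK hz, neg_zero, smul_zero]

/-- Second key formula: `K XH` is the Hamiltonian field of the quadratic Hamiltonian, at ample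
points. -/
theorem Symb.om_XH {K : Ph E → (Ph E →L[ℝ] Ph E)} {M : E → Matrix ι ι ℝ}
    (hK : Symb X N K M) (hM : ContDiffOn ℝ ∞ M U) (hMs : ∀ x ∈ U, ∀ i j, M x i j = M x j i)
    {z : Ph E} (hz : z ∈ N) (hample : Sinf X z = ⊤) (b : Ph E) :
    om (K z (XH X z)) b = - fderiv ℝ (quad X M) z b := by
  have hXH := contDiffOn_XH' hU hX hN hNU
  have hKX : ContDiffOn ℝ ∞ (fun w => K w (XH X w)) N := hK.smooth.clm_apply hXH
  have hQ : ContDiffOn ℝ ∞ (quad X M) N := (contDiffOn_quad hX hM).mono hNU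
  have hdQ : ContDiffOn ℝ ∞ (fderiv ℝ (quad X M)) N := contDiffOn_fderiv_of_smooth hN hQ
  have hMd : ∀ w ∈ N, DifferentiableAt ℝ M w.1 := fun w hw =>
    (hM.contDiffAt (hU.mem_nhds (hNU hw))).differentiableAt (by simp)
  have key : ∀ j y, ∀ w ∈ N,
      om (K w (XH X w)) (T X j y w) + fderiv ℝ (quad X M) w (T X j y w) = 0 := by
    intro j
    induction j with
    | zero =>
      intro y w hw
      rw [T_zero, fderiv_quad (fun i => differentiableAt_field hU hX (hNU hw) i) (hMd w hw)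
        (hMs w.1 (hNU hw)), hK.adj w hw]
      have h1 : K w ((0 : E), y) = ((0 : E), (K w ((0 : E), y)).2) :=
        Prod.ext (hK.vert w hw y) rfl
      rw [h1, om_vert_right]
      simp only [XH, map_sum, map_smul, hK.hor w hw, smul_eq_mul, map_zero,
        Matrix.zero_apply, zero_mul, Finset.sum_const_zero, mul_zero, zero_add]
      simp only [fderiv_mom (differentiableAt_field hU hX (hNU hw) _), map_zero, add_zero,
        Finset.mul_sum]
      rw [neg_add_eq_zero]
      apply Finset.sum_congr rfl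
      intro i _
      apply Finset.sum_congr rfl
      intro j _
      ring
    | succ j ih =>
      intro y w hw
      have hT := contDiffOn_T hU hX hN hNU j y
      have h1 := fderiv_eq_zero_of_zero hU hX hN hNU
        (f := fun w => om (K w (XH X w)) (T X j y w) + fderiv ℝ (quad X M) w (T X j y w))
        (ih y) hw (XH X w)
      have hd1 : DifferentiableAt ℝ (fun w => om (K w (XH X w)) (T X j y w)) w :=
        differentiableAt_om (diffAt hN hKX hw) (diffAt hN hT hw)
      have hd2 := (diffAt hN hdQ hw).hasFDerivAt.clm_apply (diffAt hN hT hw).hasFDerivAt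
      have hd3 := (diffAt hN hdQ hw).hasFDerivAt.clm_apply (diffAt hN hXH hw).hasFDerivAt
      have h2 := fderiv_eq_zero_of_zero hU hX hN hNU
        (f := fun w => fderiv ℝ (quad X M) w (XH X w))
        (fun w hw => Symb.fderiv_quad_XH hU hX hN hNU hK hw) hw (T X j y w)
      rw [hd3.fderiv] at h2
      rw [fderiv_fun_add hd1 hd2.differentiableAt, add_apply,
        om_nab hU hX hN hNU hKX hT hw, Symb.nab hU hX hN hNU hK hXH hw,
        nab_XH hU hX hN hNU hw, map_zero, map_zero, zero_apply, zero_add, hd2.fderiv] at h1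
      simp only [add_apply, ContinuousLinearMap.comp_apply, ContinuousLinearMap.flip_apply]
        at h1 h2
      rw [second_symm_real hN hQ hw] at h2
      have h3 : T X (j + 1) y w = fderiv ℝ (T X j y) w (XH X w) -
        fderiv ℝ (XH X) w (T X j y w) := rfl
      have h4 : fderiv ℝ (quad X M) w (T X (j + 1) y w) =
          fderiv ℝ (quad X M) w (fderiv ℝ (T X j y) w (XH X w)) -
          fderiv ℝ (quad X M) w (fderiv ℝ (XH X) w (T X j y w)) := by
        rw [h3, map_sub]
      rw [h4]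
      have h5 : SubRiem.nab X (T X j y) w = T X (j + 1) y w := rfl
      rw [h5] at h1
      linarith
  have hb : b ∈ Sinf X z := by rw [hample]; trivial
  have h0 : om (K z (XH X z)) b + fderiv ℝ (quad X M) z b = 0 := by
    unfold Sinf at hb
    induction hb using Submodule.span_induction with
    | mem a ha =>
      obtain ⟨j, y, rfl⟩ := ha
      exact key j y z hz
    | zero => rw [map_zero, map_zero, add_zero]
    | add a b _ _ iha ihb =>
      rw [map_add, map_add]
      linarith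
    | smul c a _ ih =>
      rw [map_smul, map_smul, ← smul_add, ih, smul_zero]
  linarith

theorem Symb.XH_eq {K : Ph E → (Ph E →L[ℝ] Ph E)} {M : E → Matrix ι ι ℝ}
    (hK : Symb X N K M) (hM : ContDiffOn ℝ ∞ M U) (hMs : ∀ x ∈ U, ∀ i j, M x i j = M x j i)
    {Y : ι → E → E} (hY : ∀ i, ContDiffOn ℝ ∞ (Y i) U)
    (hYM : ∀ z ∈ TU U, ham Y z = quad X M z)
    {z : Ph E} (hz : z ∈ N) (hample : Sinf X z = ⊤) : K z (XH X z) = XH Y z := by
  have : K z (XH X z) - XH Y z = 0 := by
    apply om_nondegenerate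
    intro b
    rw [map_sub, sub_apply, Symb.om_XH hU hX hN hNU hK hM hMs hz hample,
      SubRiem.om_XH (fun i => differentiableAt_field hU hY (hNU hz) i)]
    have h1 : ham Y =ᶠ[𝓝 z] quad X M :=
      eventually_eq_of_eqOn (isOpen_TU hU) hYM (hNU hz)
    rw [h1.fderiv_eq, sub_self]
  exact sub_eq_zero.1 this

/-- Commuting symbols give Poisson-commuting Hamiltonians. -/
theorem Symb.poisson {K L : Ph E → (Ph E →L[ℝ] Ph E)} {M M' : E → Matrix ι ι ℝ}
    (hK : Symb X N K M) (hL : Symb X N L M') (hc : ∀ z ∈ N, K z * L z = L z * K z)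
    (hM : ContDiffOn ℝ ∞ M U) (hMs : ∀ x ∈ U, ∀ i j, M x i j = M x j i)
    (hM' : ContDiffOn ℝ ∞ M' U) (hMs' : ∀ x ∈ U, ∀ i j, M' x i j = M' x j i)
    {Y Y' : ι → E → E} (hY : ∀ i, ContDiffOn ℝ ∞ (Y i) U) (hY' : ∀ i, ContDiffOn ℝ ∞ (Y' i) U)
    (hYM : ∀ z ∈ TU U, ham Y z = quad X M z) (hYM' : ∀ z ∈ TU U, ham Y' z = quad X M' z)
    {z : Ph E} (hz : z ∈ N) (hample : Sinf X z = ⊤) :
    ∑ i, ∑ j, mom Y i z * mom Y' j z * z.2 (lieBracket ℝ (Y i) (Y' j) z.1) = 0 := by
  have hd : ∀ i, DifferentiableAt ℝ (Y i) z.1 := fun i => differentiableAt_field hU hY (hNU hz) i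
  have hd' : ∀ i, DifferentiableAt ℝ (Y' i) z.1 :=
    fun i => differentiableAt_field hU hY' (hNU hz) i
  have h1 : om (XH Y z) (XH Y' z) = 0 := by
    rw [← Symb.XH_eq hU hX hN hNU hK hM hMs hY hYM hz hample,
      ← Symb.XH_eq hU hX hN hNU hL hM' hMs' hY' hYM' hz hample, hK.adj z hz, om_swap]
    have := Symb.om_XH_self hU hX hN hNU (Symb.mul hU hX hN hNU hK hL hc) hz (XH X z)
    rw [mul_apply_eq_comp] at this
    rw [this, neg_zero]
  rw [om_apply] at h1
  simp only [XH, neg_apply, sum_apply, smul_apply, ContinuousLinearMap.comp_apply, smul_eq_mul,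
    map_sum, map_smul, mul_neg, Finset.sum_neg_distrib] at h1
  have h2 : ∑ i, ∑ j, mom Y i z * mom Y' j z * z.2 (lieBracket ℝ (Y i) (Y' j) z.1) =
      (∑ i, mom Y i z * ∑ j, mom Y' j z * z.2 (fderiv ℝ (Y' j) z.1 (Y i z.1))) -
      ∑ j, mom Y' j z * ∑ i, mom Y i z * z.2 (fderiv ℝ (Y i) z.1 (Y' j z.1)) := by
    simp only [Finset.mul_sum]
    rw [Finset.sum_comm (f := fun j i => mom Y' j z * (mom Y i z *
      z.2 (fderiv ℝ (Y i) z.1 (Y' j z.1)))), ← Finset.sum_sub_distrib]
    apply Finset.sum_congr rfl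
    intro i _
    rw [← Finset.sum_sub_distrib]
    apply Finset.sum_congr rfl
    intro j _
    unfold lieBracket
    rw [map_sub]
    ring
  rw [h2]
  linarith

end

section

variable [FiniteDimensional ℝ E]
variable {U : Set E} {X : ι → E → E} (hU : IsOpen U) (hX : ∀ i, ContDiffOn ℝ ∞ (X i) U)
  {S : E → Matrix ι ι ℝ} (hS : ContDiffOn ℝ ∞ S U) (hSs : ∀ x ∈ U, ∀ i j, S x i j = S x j i)
  {N : Set (Ph E)} (hN : IsOpen N) (hNU : N ⊆ TU U)
  {Φ : Ph E → Co E} (hΦ : Orb X S N Φ)

include hU hX hS hSs hN hNU hΦ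

theorem Orb.fderiv_hor {z : Ph E} (hz : z ∈ N) (b : Ph E) (i : ι) :
    (fderiv ℝ Φ z b) (X i z.1) + Φ z (fderiv ℝ (X i) z.1 b.1) =
      ∑ j, ((fderiv ℝ S z.1 b.1) i j * mom X j z + S z.1 i j * fderiv ℝ (mom X j) z b) := by
  have hXd : ∀ i, DifferentiableAt ℝ (X i) z.1 :=
    fun i => differentiableAt_field hU hX (hNU hz) i
  have hSd : DifferentiableAt ℝ S z.1 :=
    (hS.contDiffAt (hU.mem_nhds (hNU hz))).differentiableAt (by simp)
  have h1 : (fun w : Ph E => Φ w (X i w.1)) =ᶠ[𝓝 z] fun w => ∑ j, S w.1 i j * mom X j w :=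
    eventually_eq_of_eqOn hN (fun w hw => hΦ.hor w hw i) hz
  have h2 : HasFDerivAt (fun w : Ph E => Φ w (X i w.1))
      ((Φ z).comp ((fderiv ℝ (X i) z.1).comp (ContinuousLinearMap.fst ℝ E (Co E))) +
        (fderiv ℝ Φ z).flip (X i z.1)) z :=
    (diffAt hN hΦ.smooth hz).hasFDerivAt.clm_apply
      ((hXd i).hasFDerivAt.comp z hasFDerivAt_fst)
  have h3 : HasFDerivAt (fun w : Ph E => ∑ j, S w.1 i j * mom X j w)
      (∑ j, (S z.1 i j • fderiv ℝ (mom X j) z + mom X j z •
        (((ent i j).comp (fderiv ℝ S z.1)).comp (ContinuousLinearMap.fst ℝ E (Co E)) :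
          Ph E →L[ℝ] ℝ))) z := by
    apply HasFDerivAt.fun_sum
    intro j _
    have he : HasFDerivAt (fun w : Ph E => S w.1 i j)
        (((ent i j).comp (fderiv ℝ S z.1)).comp (ContinuousLinearMap.fst ℝ E (Co E))) z :=
      (hasFDerivAt_entry hSd i j).comp z hasFDerivAt_fst
    exact he.fun_mul (differentiableAt_mom (hXd j)).hasFDerivAt
  have h4 := h1.fderiv_eq (𝕜 := ℝ)
  rw [h2.fderiv, h3.fderiv] at h4
  have h5 := congrArg (fun l : Ph E →L[ℝ] ℝ => l b) h4
  simp only [add_apply, ContinuousLinearMap.comp_apply, ContinuousLinearMap.flip_apply,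
    sum_apply, smul_apply, smul_eq_mul, ContinuousLinearMap.coe_fst', ent_apply] at h5
  rw [add_comm, h5]
  apply Finset.sum_congr rfl
  intro j _
  ring

theorem Orb.dform_XH {z : Ph E} (hz : z ∈ N) (b : Ph E) :
    dform Φ z (XH X z) b = - fderiv ℝ (quad X S) z b := by
  have hXd : ∀ i, DifferentiableAt ℝ (X i) z.1 :=
    fun i => differentiableAt_field hU hX (hNU hz) i
  have hSd : DifferentiableAt ℝ S z.1 :=
    (hS.contDiffAt (hU.mem_nhds (hNU hz))).differentiableAt (by simp)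
  unfold dform
  rw [hΦ.der z hz, fderiv_quad hXd hSd (hSs z.1 (hNU hz))]
  have h1 : (fderiv ℝ Φ z b) (XH X z).1 = ∑ i, mom X i z *
      (∑ j, ((fderiv ℝ S z.1 b.1) i j * mom X j z + S z.1 i j * fderiv ℝ (mom X j) z b) -
        Φ z (fderiv ℝ (X i) z.1 b.1)) := by
    simp only [XH, map_sum, map_smul, smul_eq_mul]
    apply Finset.sum_congr rfl
    intro i _
    rw [← Orb.fderiv_hor hU hX hS hSs hN hNU hΦ hz b i]
    ring
  rw [h1]
  have h2 : ∑ i, mom X i z *
      (∑ j, ((fderiv ℝ S z.1 b.1) i j * mom X j z + S z.1 i j * fderiv ℝ (mom X j) z b) -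
        Φ z (fderiv ℝ (X i) z.1 b.1)) =
      ∑ i, ∑ j, (fderiv ℝ S z.1 b.1) i j * (mom X i z * mom X j z) +
      ∑ i, ∑ j, S z.1 i j * (mom X i z * fderiv ℝ (mom X j) z b) -
      ∑ i, mom X i z * Φ z (fderiv ℝ (X i) z.1 b.1) := by
    rw [← Finset.sum_add_distrib, ← Finset.sum_sub_distrib]
    apply Finset.sum_congr rfl
    intro i _
    rw [← Finset.sum_add_distrib, mul_sub, Finset.mul_sum]
    congr 1
    apply Finset.sum_congr rfl
    intro j _
    ring
  rw [h2]
  ring

/-- The recursion operator of an orbital map. -/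
theorem Orb.symb : Symb X N (opOf Φ) S := by
  have hQ : ContDiffOn ℝ ∞ (quad X S) N := (contDiffOn_quad hX hS).mono hNU
  refine ⟨contDiffOn_opOf hN hΦ.smooth, ?_, fun z _ a b => opOf_adj Φ z a b, ?_, ?_⟩
  · intro z hz a
    apply om_nondegenerate
    intro b
    rw [om_opOf_deriv hU hX hN hNU hΦ.smooth hz]
    have key : ∀ a b : Ph E, fderiv ℝ (fun v => dform Φ v (XH X v) b) z a =
        - (fderiv ℝ (fderiv ℝ (quad X S)) z a) b := by
      intro a b
      have h1 : (fun v => dform Φ v (XH X v) b) =ᶠ[𝓝 z] fun v => - fderiv ℝ (quad X S) v b :=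
        eventually_eq_of_eqOn hN
          (fun v hv => Orb.dform_XH hU hX hS hSs hN hNU hΦ hv b) hz
      have h2 := ((diffAt hN (contDiffOn_fderiv_of_smooth hN hQ) hz).hasFDerivAt.clm_apply
        (hasFDerivAt_const b z)).fun_neg
      rw [h1.fderiv_eq, h2.fderiv]
      simp
    rw [key a b, key b a, second_symm_real hN hQ hz]
    ring
  · intro z hz y
    rw [opOf_vert]
  · intro z hz y i
    rw [opOf_vert]
    have := Orb.fderiv_hor hU hX hS hSs hN hNU hΦ hz ((0 : E), y) i
    simp only [map_zero, add_zero, Matrix.zero_apply, zero_mul, zero_add] at this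
    rw [this]
    apply Finset.sum_congr rfl
    intro j _
    rw [fderiv_mom (differentiableAt_field hU hX (hNU hz) j)]
    simp

end

end Pool.Agent.SubRiem
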