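import Mathlib
import Pool.Agent.SubRiem.Orbital
import Pool.Agent.SubRiem.MatAlg
import Pool.Agent.SubRiem.MatCalc

/-!
# Constancy of the spectrum
-/

set_option autoImplicit false
set_option linter.unusedSectionVars false
set_option linter.unusedVariables false

namespace Pool.Agent.SubRiem

open Set Filter Topology VectorField
open scoped ContDiff Matrix Matrix.Norms.Operator

variable {E : Type*} [NormedAddCommGroup E] [NormedSpace ℝ E] {ι : Type*} [Fintype ι]
  [DecidableEq ι]

section calculus

variable {U : Set E} (hU : IsOpen U) {S : E → Matrix ι ι ℝ} (hS : ContDiffOn ℝ ∞ S U)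

include hS

theorem contDiffOn_aeval (f : Polynomial ℝ) :
    ContDiffOn ℝ ∞ (fun x => Polynomial.aeval (S x) f) U := by
  induction f using Polynomial.induction_on' with
  | add p q hp hq => simpa only [map_add] using contDiffOn_matadd hp hq
  | monomial n a =>
    have : ContDiffOn ℝ ∞ (fun x => a • S x ^ n) U :=
      contDiffOn_matsmul (contDiffOn_matpow hS n) a
    simpa only [Polynomial.aeval_monomial, ← Algebra.smul_def] using this

include hU

theorem diffAt_aeval (f : Polynomial ℝ) {x : E} (hx : x ∈ U) :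
    DifferentiableAt ℝ (fun x => Polynomial.aeval (S x) f) x :=
  ((contDiffOn_aeval hS f).contDiffAt (hU.mem_nhds hx)).differentiableAt (by simp)

theorem diffAt_S {x : E} (hx : x ∈ U) : DifferentiableAt ℝ S x :=
  (hS.contDiffAt (hU.mem_nhds hx)).differentiableAt (by simp)

theorem trace_pow_deriv (n : ℕ) : ∀ (h : Polynomial ℝ) {x : E} (hx : x ∈ U) (v : E),
    (Polynomial.aeval (S x) h * fderiv ℝ (fun x => S x ^ n) x v).trace =
      n * (Polynomial.aeval (S x) h * S x ^ (n - 1) * fderiv ℝ S x v).trace := by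
  induction n with
  | zero =>
    intro h x hx v
    simp
  | succ n ih =>
    intro h x hx v
    have hd : DifferentiableAt ℝ S x := diffAt_S hU hS hx
    have hdn : DifferentiableAt ℝ (fun x => S x ^ n) x :=
      ((contDiffOn_matpow hS n).contDiffAt (hU.mem_nhds hx)).differentiableAt (by simp)
    have h2 : (fun x => S x ^ (n + 1)) = fun x => S x ^ n * S x := by
      funext x; rw [pow_succ]
    rw [h2, fderiv_matmul hdn hd, mul_add, Matrix.trace_add]
    have h4 : (Polynomial.aeval (S x) h * (fderiv ℝ (fun x => S x ^ n) x v * S x)).trace =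
        (Polynomial.aeval (S x) (Polynomial.X * h) * fderiv ℝ (fun x => S x ^ n) x v).trace := by
      rw [← mul_assoc, Matrix.trace_mul_comm, ← mul_assoc, map_mul, Polynomial.aeval_X]
    rw [h4, ih _ hx]
    have h5 : (n : ℝ) * (Polynomial.aeval (S x) (Polynomial.X * h) * S x ^ (n - 1) *
        fderiv ℝ S x v).trace =
        n * (Polynomial.aeval (S x) h * S x ^ n * fderiv ℝ S x v).trace := by
      rcases Nat.eq_zero_or_pos n with h0 | hpos
      · subst h0; simp
      · have h6 : Polynomial.aeval (S x) (Polynomial.X * h) * S x ^ (n - 1) =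
            Polynomial.aeval (S x) h * S x ^ n := by
          rw [mul_comm Polynomial.X h, map_mul, Polynomial.aeval_X, mul_assoc, ← pow_succ']
          congr 2
          omega
        rw [h6]
    rw [h5, ← mul_assoc, Nat.add_sub_cancel]
    push_cast
    ring

theorem trace_deriv (h f : Polynomial ℝ) {x : E} (hx : x ∈ U) (v : E) :
    (Polynomial.aeval (S x) h * fderiv ℝ (fun x => Polynomial.aeval (S x) f) x v).trace =
      (Polynomial.aeval (S x) h * Polynomial.aeval (S x) f.derivative * fderiv ℝ S x v).trace := by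
  induction f using Polynomial.induction_on' with
  | add p q hp hq =>
    have h1 : (fun x => Polynomial.aeval (S x) (p + q)) =
        fun x => Polynomial.aeval (S x) p + Polynomial.aeval (S x) q := by
      funext x; rw [map_add]
    rw [h1, fderiv_matadd (diffAt_aeval hU hS p hx) (diffAt_aeval hU hS q hx),
      mul_add, Matrix.trace_add, hp, hq, Polynomial.derivative_add, map_add, mul_add, add_mul,
      Matrix.trace_add]
  | monomial n a =>
    have hdn : DifferentiableAt ℝ (fun x => S x ^ n) x :=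
      ((contDiffOn_matpow hS n).contDiffAt (hU.mem_nhds hx)).differentiableAt (by simp)
    have h1 : (fun x => Polynomial.aeval (S x) (Polynomial.monomial n a)) =
        fun x => a • S x ^ n := by
      funext x; rw [Polynomial.aeval_monomial, ← Algebra.smul_def]
    rw [h1, fderiv_matsmul hdn, Matrix.mul_smul, Matrix.trace_smul,
      trace_pow_deriv hU hS n h hx, Polynomial.derivative_monomial, Polynomial.aeval_monomial,
      ← Algebra.smul_def, Matrix.mul_smul, Matrix.smul_mul, Matrix.trace_smul, smul_eq_mul,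
      smul_eq_mul]
    ring

end calculus

section

variable {U : Set E} {X : ι → E → E} (hU : IsOpen U) (hX : ∀ i, ContDiffOn ℝ ∞ (X i) U)
  (hli : ∀ x ∈ U, LinearIndependent ℝ (fun i => X i x))
  {S : E → Matrix ι ι ℝ} (hS : ContDiffOn ℝ ∞ S U) (hSs : ∀ x ∈ U, ∀ i j, S x i j = S x j i)

include hU hX

/-- Functions killed by the fields are killed by all brackets. -/
theorem fderiv_Br_eq_zero {W : Set E} (hW : IsOpen W) (hWU : W ⊆ U) {G : Type*}
    [NormedAddCommGroup G] [NormedSpace ℝ G] {a : E → G}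
    (ha : ContDiffOn ℝ ∞ a W) (hk : ∀ x ∈ W, ∀ l, fderiv ℝ a x (X l x) = 0) {B : E → E}
    (hB : Br X B) : ∀ x ∈ W, fderiv ℝ a x (B x) = 0 := by
  induction hB with
  | base i => intro x hx; exact hk x hx i
  | step i B hB ih =>
    intro x hx
    have hBs : ContDiffOn ℝ ∞ B U := hB.smooth hU hX
    have hda : DifferentiableAt ℝ (fderiv ℝ a) x :=
      ((contDiffOn_fderiv_of_smooth hW ha).contDiffAt (hW.mem_nhds hx)).differentiableAt (by simp)
    have hdX : DifferentiableAt ℝ (X i) x := differentiableAt_field hU hX (hWU hx) i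
    have hdB : DifferentiableAt ℝ B x :=
      (hBs.contDiffAt (hU.mem_nhds (hWU hx))).differentiableAt (by simp)
    have h1 : fderiv ℝ (fun y => fderiv ℝ a y (X i y)) x (B x) = 0 := by
      have h : (fun y => fderiv ℝ a y (X i y)) =ᶠ[𝓝 x] fun _ => (0 : G) := by
        filter_upwards [hW.mem_nhds hx] with y hy
        exact hk y hy i
      rw [h.fderiv_eq]; simp
    have h2 : fderiv ℝ (fun y => fderiv ℝ a y (B y)) x (X i x) = 0 := by
      have h : (fun y => fderiv ℝ a y (B y)) =ᶠ[𝓝 x] fun _ => (0 : G) := by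
        filter_upwards [hW.mem_nhds hx] with y hy
        exact ih y hy
      rw [h.fderiv_eq]; simp
    rw [fderiv_clm_apply hda hdX] at h1
    rw [fderiv_clm_apply hda hdB] at h2
    simp only [add_apply, ContinuousLinearMap.comp_apply, ContinuousLinearMap.flip_apply]
      at h1 h2
    have hsym : fderiv ℝ (fderiv ℝ a) x (B x) (X i x) = fderiv ℝ (fderiv ℝ a) x (X i x) (B x) := by
      have h : IsSymmSndFDerivAt ℝ a x := (ha.contDiffAt (hW.mem_nhds hx)).isSymmSndFDerivAt
        (by rw [minSmoothness_of_isRCLikeNormedField]; exact ENat.LEInfty.out)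
      exact h _ _
    unfold lieBracket
    rw [map_sub]
    rw [hsym] at h1
    have h3 : fderiv ℝ a x (fderiv ℝ B x (X i x)) - fderiv ℝ a x (fderiv ℝ (X i) x (B x)) =
        (fderiv ℝ a x (fderiv ℝ B x (X i x)) + fderiv ℝ (fderiv ℝ a) x (X i x) (B x)) -
        (fderiv ℝ a x (fderiv ℝ (X i) x (B x)) + fderiv ℝ (fderiv ℝ a) x (X i x) (B x)) := by
      abel
    rw [h3, h1, h2, sub_zero]

variable [FiniteDimensional ℝ E]

/-- All momentum vectors occur. -/
theorem exists_momv {x : E} (hlx : LinearIndependent ℝ (fun i => X i x)) (u : ι → ℝ) :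
    ∃ y : Co E, momv X (x, y) = u := by
  obtain ⟨y, hy⟩ := exists_dual_co hlx u
  exact ⟨y, funext hy⟩

include hli hS hSs

/-- The cubic identity. -/
theorem cubic_identity
    (hQ : ∀ f : Polynomial ℝ, ∀ z ∈ TU U,
      fderiv ℝ (quad X fun x => Polynomial.aeval (S x) f) z (XH X z) = 0)
    {f : Polynomial ℝ} {x : E} (hx : x ∈ U) (hf : Polynomial.aeval (S x) f = 0) (u : ι → ℝ) :
    u ⬝ᵥ ((∑ l, u l • fderiv ℝ (fun x => Polynomial.aeval (S x) f) x (X l x)) *ᵥ u) = 0 := by
  obtain ⟨y, hy⟩ := exists_momv hU hX (hli x hx) u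
  have hm : ∀ i, mom X i (x, y) = u i := fun i => congrFun hy i
  have h1 := hQ f (x, y) hx
  rw [fderiv_quad (fun i => differentiableAt_field hU hX hx i) (diffAt_aeval hU hS f hx)
    (fun i j => by simp [hf])] at h1
  simp only [hf, Matrix.zero_apply, zero_mul, Finset.sum_const_zero, add_zero, XH, hm, map_sum,
    map_smul] at h1
  have h2 : ∑ i, ∑ j, (∑ l, u l • fderiv ℝ (fun x => Polynomial.aeval (S x) f) x (X l x)) i j *
      (u i * u j) = 0 := by
    rcases mul_eq_zero.1 h1 with h | h
    · norm_num at h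
    · exact h
  rw [← h2]
  simp only [dotProduct, Matrix.mulVec]
  apply Finset.sum_congr rfl
  intro i _
  rw [Finset.mul_sum]
  apply Finset.sum_congr rfl
  intro j _
  ring

/-- Local form of the constancy of the spectrum: the derivative of `tr f(S)` vanishes densely. -/
theorem exists_trace_deriv_eq_zero
    (hgen : ∀ x ∈ U, Submodule.span ℝ {v | ∃ B, Br X B ∧ v = B x} = ⊤)
    (hQ : ∀ f : Polynomial ℝ, ∀ z ∈ TU U,
      fderiv ℝ (quad X fun x => Polynomial.aeval (S x) f) z (XH X z) = 0)
    {W : Set E} (hW : IsOpen W) (hWU : W ⊆ U) (hne : W.Nonempty) (f : Polynomial ℝ) :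
    ∃ x ∈ W, fderiv ℝ (fun x => (Polynomial.aeval (S x) f).trace) x = 0 := by
  classical
  -- a point with maximal degree
  set R : Set ℕ := (fun x => (minpoly ℝ (S x)).natDegree) '' W with hR
  have hRb : BddAbove R := ⟨Module.finrank ℝ (Matrix ι ι ℝ), by
    rintro _ ⟨x, _, rfl⟩
    exact minpoly.natDegree_le (S x)⟩
  obtain ⟨x₀, hx₀, hmax0⟩ := Nat.sSup_mem (hne.image _) hRb
  set r := (minpoly ℝ (S x₀)).natDegree with hr
  have hmax : ∀ x ∈ W, (minpoly ℝ (S x)).natDegree ≤ r := by
    intro x hx
    have h1 := le_csSup hRb ⟨x, hx, rfl⟩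
    rw [← hmax0] at h1
    exact h1
  have hSW := hS.mono hWU
  obtain ⟨W', hW'W, hW', hx₀', L, hLs, hL⟩ := exists_smooth_dual
    (e := fun (k : Fin r) x => S x ^ (k : ℕ)) hW (fun k => contDiffOn_matpow hSW k) hx₀
    (linearIndependent_pow (K := ℝ) (S x₀))
  have hW'U : W' ⊆ U := hW'W.trans hWU
  set a : Fin r → E → ℝ := fun k x => L k x (S x ^ r) with ha
  have has : ∀ k, ContDiffOn ℝ ∞ (a k) W' := fun k =>
    (hLs k).clm_apply (contDiffOn_matpow (hSW.mono hW'W) r)
  have hindep : ∀ x ∈ W', LinearIndependent ℝ (fun k : Fin r => S x ^ (k : ℕ)) := fun x hx =>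
    linearIndependent_of_dual' (fun k => L k x) (hL x hx)
  have hdeg : ∀ x ∈ W', (minpoly ℝ (S x)).natDegree = r := by
    intro x hx
    apply le_antisymm (hmax x (hW'W hx))
    by_contra hlt
    push Not at hlt
    -- the minimal polynomial gives a dependence relation
    have hint : IsIntegral ℝ (S x) := Algebra.IsIntegral.isIntegral (S x)
    have h1 := minpoly.aeval ℝ (S x)
    rw [Polynomial.aeval_eq_sum_range' hlt] at h1
    have h2 : ∑ k : Fin r, (minpoly ℝ (S x)).coeff k • S x ^ (k : ℕ) = 0 := by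
      rw [← h1, Finset.sum_range]
    have h3 := (Fintype.linearIndependent_iff.1 (hindep x hx)) _ h2 ⟨_, hlt⟩
    have h4 := (minpoly.monic hint).coeff_natDegree
    rw [h3] at h4
    exact zero_ne_one h4
  have hrel : ∀ x ∈ W', S x ^ r = ∑ k : Fin r, a k x • S x ^ (k : ℕ) := by
    intro x hx
    have hint : IsIntegral ℝ (S x) := Algebra.IsIntegral.isIntegral (S x)
    have h1 := minpoly.aeval ℝ (S x)
    rw [Polynomial.aeval_eq_sum_range, hdeg x hx, Finset.sum_range_succ, ← hdeg x hx,
      (minpoly.monic hint).coeff_natDegree, hdeg x hx, one_smul, Finset.sum_range] at h1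
    have h2 : S x ^ r = ∑ k : Fin r, (-(minpoly ℝ (S x)).coeff k) • S x ^ (k : ℕ) := by
      simp only [neg_smul, Finset.sum_neg_distrib]
      exact eq_neg_of_add_eq_zero_right h1
    have h3 : ∀ k, a k x = -(minpoly ℝ (S x)).coeff k := by
      intro k
      simp only [ha]
      rw [h2, map_sum]
      simp only [map_smul, hL x hx, smul_eq_mul]
      simp
    rw [h2]
    apply Finset.sum_congr rfl
    intro k _
    rw [h3 k]
  -- the annihilating polynomial at a point
  set P : E → Polynomial ℝ := fun x =>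
    Polynomial.X ^ r - ∑ k : Fin r, Polynomial.C (a k x) * Polynomial.X ^ (k : ℕ) with hP
  have hPe : ∀ x y, Polynomial.aeval (S y) (P x) =
      S y ^ r - ∑ k : Fin r, a k x • S y ^ (k : ℕ) := by
    intro x y
    simp only [hP, map_sub, map_pow, Polynomial.aeval_X, map_sum, map_mul, Polynomial.aeval_C,
      ← Algebra.smul_def]
  have hP0 : ∀ x ∈ W', Polynomial.aeval (S x) (P x) = 0 := by
    intro x hx
    rw [hPe, hrel x hx, sub_self]
  have hPd : ∀ x ∈ W', ∀ v, fderiv ℝ (fun y => Polynomial.aeval (S y) (P x)) x v =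
      ∑ k : Fin r, fderiv ℝ (a k) x v • S x ^ (k : ℕ) := by
    intro x hx v
    have h1 : (fun y => Polynomial.aeval (S y) (P x)) =ᶠ[𝓝 x]
        fun y => ∑ k : Fin r, (a k y - a k x) • S y ^ (k : ℕ) := by
      filter_upwards [hW'.mem_nhds hx] with y hy
      rw [hPe, hrel y hy, ← Finset.sum_sub_distrib]
      apply Finset.sum_congr rfl
      intro k _
      rw [sub_smul]
    have h4 : ∀ k, DifferentiableAt ℝ (fun y => a k y - a k x) x := fun k =>
      (((has k).contDiffAt (hW'.mem_nhds hx)).differentiableAt (by simp)).sub_const _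
    have h5 : ∀ k : Fin r, DifferentiableAt ℝ (fun y => S y ^ (k : ℕ)) x := fun k =>
      ((contDiffOn_matpow hS k).contDiffAt (hU.mem_nhds (hW'U hx))).differentiableAt (by simp)
    have h6 : ∀ k : Fin r, DifferentiableAt ℝ (fun y => (a k y - a k x) • S y ^ (k : ℕ)) x :=
      fun k => (hasFDerivAt_funsmul (h4 k).hasFDerivAt (h5 k).hasFDerivAt).differentiableAt
    rw [h1.fderiv_eq, fderiv_matsum _ (fun k _ => h6 k)]
    apply Finset.sum_congr rfl
    intro k _
    rw [fderiv_funsmul (h4 k) (h5 k), sub_self, zero_smul, zero_add, fderiv_sub_const]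
  -- the derivatives of the coefficients vanish
  have hak : ∀ x ∈ W', ∀ k l, fderiv ℝ (a k) x (X l x) = 0 := by
    intro x hx
    have hSx : (S x)ᵀ = S x := by
      ext i j
      rw [Matrix.transpose_apply]
      exact (hSs x (hW'U hx) i j).symm
    set C : (ι → ℝ) →ₗ[ℝ] Matrix ι ι ℝ :=
      Fintype.linearCombination ℝ
        (fun l => ∑ k : Fin r, fderiv ℝ (a k) x (X l x) • S x ^ (k : ℕ)) with hC
    have hCu : ∀ u, C u = ∑ l, u l • ∑ k : Fin r, fderiv ℝ (a k) x (X l x) • S x ^ (k : ℕ) := by
      intro u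
      rw [hC, Fintype.linearCombination_apply]
    have hCp : ∀ u, ∃ h : Polynomial ℝ, C u = Polynomial.aeval (S x) h := by
      intro u
      refine ⟨∑ l, Polynomial.C (u l) * ∑ k : Fin r,
        Polynomial.C (fderiv ℝ (a k) x (X l x)) * Polynomial.X ^ (k : ℕ), ?_⟩
      rw [hCu]
      simp only [map_sum, map_mul, Polynomial.aeval_C, map_pow, Polynomial.aeval_X,
        ← Algebra.smul_def]
    have hC0 := cubic_algebra hSx C hCp (fun u g => by
      have h1 := cubic_identity hU hX hli hS hSs hQ (f := P x * g) (hW'U hx)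
        (by rw [map_mul, hP0 x hx, zero_mul]) u
      have h2 : ∀ v, fderiv ℝ (fun y => Polynomial.aeval (S y) (P x * g)) x v =
          fderiv ℝ (fun y => Polynomial.aeval (S y) (P x)) x v * Polynomial.aeval (S x) g := by
        intro v
        have h3 : (fun y => Polynomial.aeval (S y) (P x * g)) =
            fun y => Polynomial.aeval (S y) (P x) * Polynomial.aeval (S y) g := by
          funext y; rw [map_mul]
        rw [h3, fderiv_matmul (diffAt_aeval hU hS (P x) (hW'U hx))
          (diffAt_aeval hU hS g (hW'U hx)), hP0 x hx, zero_mul, zero_add]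
      have h5 : ∑ l, u l • fderiv ℝ (fun y => Polynomial.aeval (S y) (P x * g)) x (X l x) =
          C u * Polynomial.aeval (S x) g := by
        rw [hCu, Finset.sum_mul]
        apply Finset.sum_congr rfl
        intro l _
        rw [h2, hPd x hx, smul_mul_assoc]
      rw [h5] at h1
      exact h1)
    intro k l
    have h1 := hC0 (Pi.single l 1)
    rw [hCu] at h1
    rw [Finset.sum_eq_single l] at h1
    · rw [Pi.single_eq_same, one_smul] at h1
      exact (Fintype.linearIndependent_iff.1 (hindep x hx)) _ h1 k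
    · intro b _ hb
      rw [Pi.single_eq_of_ne hb, zero_smul]
    · simp
  have hak0 : ∀ k, fderiv ℝ (a k) x₀ = 0 := by
    intro k
    ext v
    have hv : v ∈ Submodule.span ℝ {v | ∃ B, Br X B ∧ v = B x₀} := by
      rw [hgen x₀ (hWU hx₀)]; trivial
    induction hv using Submodule.span_induction with
    | mem v hv =>
      obtain ⟨B, hB, rfl⟩ := hv
      exact fderiv_Br_eq_zero hU hX hW' hW'U (has k) (fun x hx l => hak x hx k l) hB x₀ hx₀'
    | zero => simp
    | add v w _ _ ihv ihw => rw [map_add, ihv, ihw, map_add]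
    | smul c v _ ih => rw [map_smul, ih, map_smul]
  -- conclusion
  have hSx : (S x₀)ᵀ = S x₀ := by
    ext i j
    rw [Matrix.transpose_apply]
    exact (hSs x₀ (hWU hx₀) i j).symm
  have hmu : P x₀ = minpoly ℝ (S x₀) := by
    have hint : IsIntegral ℝ (S x₀) := Algebra.IsIntegral.isIntegral (S x₀)
    have hdl : (∑ k : Fin r, Polynomial.C (a k x₀) * Polynomial.X ^ (k : ℕ)).degree <
        ((r : ℕ) : WithBot ℕ) :=
      Polynomial.degree_sum_fin_lt (fun k => a k x₀)
    have h2 : (P x₀).Monic := Polynomial.monic_X_pow_sub hdl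
    have h3 : (P x₀).natDegree = r := by
      have h4 : (P x₀).degree = ((r : ℕ) : WithBot ℕ) := by
        simp only [hP]
        rw [Polynomial.degree_sub_eq_left_of_degree_lt, Polynomial.degree_X_pow]
        rw [Polynomial.degree_X_pow]
        exact hdl
      exact Polynomial.natDegree_eq_of_degree_eq_some h4
    exact Polynomial.eq_of_monic_of_dvd_of_natDegree_le (minpoly.monic hint) h2
      (minpoly.dvd ℝ _ (hP0 x₀ hx₀')) h3.le
  have hsep : (P x₀).Separable := by
    rw [hmu]
    exact PerfectField.separable_iff_squarefree.2 (squarefree_minpoly hSx)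
  obtain ⟨p, q, hpq⟩ := hsep
  refine ⟨x₀, hx₀, ?_⟩
  ext v
  rw [fderiv_trace (diffAt_aeval hU hS f (hWU hx₀))]
  have h1 := trace_deriv hU hS 1 f (hWU hx₀) v
  rw [map_one, one_mul, one_mul] at h1
  have h2 : Polynomial.aeval (S x₀) f.derivative =
      Polynomial.aeval (S x₀) (f.derivative * q) *
        Polynomial.aeval (S x₀) (P x₀).derivative := by
    have h3 : f.derivative = f.derivative * p * P x₀ + f.derivative * q * (P x₀).derivative := by
      rw [mul_assoc, mul_assoc, ← mul_add, hpq, mul_one]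
    conv_lhs => rw [h3]
    rw [map_add, map_mul _ (f.derivative * p), hP0 x₀ hx₀', mul_zero, zero_add, map_mul]
  rw [h1, h2, ← trace_deriv hU hS (f.derivative * q) (P x₀) (hWU hx₀) v, hPd x₀ hx₀' v]
  simp [hak0]

/-- The traces of polynomials in `S` are constant. -/
theorem trace_const
    (hgen : ∀ x ∈ U, Submodule.span ℝ {v | ∃ B, Br X B ∧ v = B x} = ⊤)
    (hQ : ∀ f : Polynomial ℝ, ∀ z ∈ TU U,
      fderiv ℝ (quad X fun x => Polynomial.aeval (S x) f) z (XH X z) = 0)
    (hconn : IsPreconnected U) (f : Polynomial ℝ) {x y : E} (hx : x ∈ U) (hy : y ∈ U) :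
    (Polynomial.aeval (S x) f).trace = (Polynomial.aeval (S y) f).trace := by
  have hs : ContDiffOn ℝ ∞ (fun x => (Polynomial.aeval (S x) f).trace) U :=
    (trL (ι := ι)).contDiff.comp_contDiffOn (contDiffOn_aeval hS f)
  have hd := contDiffOn_fderiv_of_smooth hU hs
  apply IsOpen.is_const_of_fderiv_eq_zero (𝕜 := ℝ) hU hconn (hs.differentiableOn (by simp)) _ hx hy
  intro w hw
  by_contra hne
  set W := U ∩ (fderiv ℝ fun x => (Polynomial.aeval (S x) f).trace) ⁻¹' {0}ᶜ with hW
  have hWo : IsOpen W := hd.continuousOn.isOpen_inter_preimage hU isOpen_compl_singleton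
  obtain ⟨x₁, hx₁, h0⟩ := exists_trace_deriv_eq_zero hU hX hli hS hSs hgen hQ hWo
    inter_subset_left ⟨w, hw, hne⟩ f
  exact hx₁.2 h0

/-- A fixed squarefree polynomial annihilates `S`. -/
theorem aeval_minpoly_eq_zero
    (hgen : ∀ x ∈ U, Submodule.span ℝ {v | ∃ B, Br X B ∧ v = B x} = ⊤)
    (hQ : ∀ f : Polynomial ℝ, ∀ z ∈ TU U,
      fderiv ℝ (quad X fun x => Polynomial.aeval (S x) f) z (XH X z) = 0)
    (hconn : IsPreconnected U) {q : E} (hq : q ∈ U) {x : E} (hx : x ∈ U) :
    Polynomial.aeval (S x) (minpoly ℝ (S q)) = 0 := by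
  have hSx : (S x)ᵀ = S x := by
    ext i j
    rw [Matrix.transpose_apply]
    exact (hSs x hx i j).symm
  set A := Polynomial.aeval (S x) (minpoly ℝ (S q)) with hA
  have hAs : Aᵀ = A := aeval_symm hSx _
  have h1 := trace_const hU hX hli hS hSs hgen hQ hconn
    (minpoly ℝ (S q) * minpoly ℝ (S q)) hx hq
  rw [map_mul, map_mul, minpoly.aeval, mul_zero, Matrix.trace_zero, ← hA] at h1
  have h2 : (Aᵀ * A).trace = 0 := by rw [hAs, h1]
  have h3 : ∑ j, ∑ i, A i j * A i j = 0 := by
    rw [← h2]
    simp only [Matrix.trace, Matrix.diag_apply, Matrix.mul_apply, Matrix.transpose_apply]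
  ext i j
  have h4 := (Finset.sum_eq_zero_iff_of_nonneg (fun j _ => Finset.sum_nonneg
    fun i _ => mul_self_nonneg (A i j))).1 h3 j (Finset.mem_univ j)
  have h5 := (Finset.sum_eq_zero_iff_of_nonneg (fun i _ => mul_self_nonneg (A i j))).1 h4 i
    (Finset.mem_univ i)
  exact mul_self_eq_zero.1 h5

end

end Pool.Agent.SubRiem
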