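import Mathlib
import Pool.Agent.SubRiem.Spectrum

/-!
# Density of good covectors and first integrals
-/

set_option autoImplicit false
set_option linter.unusedSectionVars false
set_option linter.unusedVariables false

namespace Pool.Agent.SubRiem

open Set Filter Topology VectorField
open scoped ContDiff Matrix Matrix.Norms.Operator

variable {E : Type*} [NormedAddCommGroup E] [NormedSpace ℝ E] [FiniteDimensional ℝ E]
  {ι : Type*} [Fintype ι] [DecidableEq ι]

/-- Good covectors: ample and with nonzero energy. -/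
def Good (X : ι → E → E) (z : Ph E) : Prop := Sinf X z = ⊤ ∧ ham X z ≠ 0

section

variable {U : Set E} {X : ι → E → E} (hU : IsOpen U) (hX : ∀ i, ContDiffOn ℝ ∞ (X i) U)
  (hli : ∀ x ∈ U, LinearIndependent ℝ (fun i => X i x))
  (hgen : ∀ x ∈ U, Submodule.span ℝ {v | ∃ B, Br X B ∧ v = B x} = ⊤)

include hU hX hli

/-- Covectors of nonzero energy are dense. -/
theorem exists_ham_ne [Nonempty ι] {O : Set (Ph E)} (hO : IsOpen O) (hOU : O ⊆ TU U)
    (hne : O.Nonempty) : ∃ z ∈ O, ham X z ≠ 0 := by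
  obtain ⟨z, hz⟩ := hne
  by_cases h0 : ham X z = 0
  · obtain ⟨y, hy⟩ := exists_momv hU hX (hli z.1 (hOU hz)) (fun _ => (1 : ℝ))
    have hm : ∀ i, mom X i z = 0 := by
      intro i
      unfold ham at h0
      have h1 : ∑ i, mom X i z ^ 2 = 0 := by linarith
      have h2 := (Finset.sum_eq_zero_iff_of_nonneg fun i _ => sq_nonneg (mom X i z)).1 h1 i
        (Finset.mem_univ i)
      exact pow_eq_zero_iff two_ne_zero |>.1 h2
    have hc : Continuous fun t : ℝ => ((z.1, z.2 + t • y) : Ph E) := by fun_prop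
    have h3 : ∀ᶠ t : ℝ in 𝓝 0, ((z.1, z.2 + t • y) : Ph E) ∈ O := by
      apply hc.continuousAt.preimage_mem_nhds
      simp only [zero_smul, add_zero]
      exact hO.mem_nhds hz
    have h4 : ∀ᶠ t : ℝ in 𝓝[≠] 0, ((z.1, z.2 + t • y) : Ph E) ∈ O :=
      h3.filter_mono nhdsWithin_le_nhds
    obtain ⟨t, ht, htne⟩ := (h4.and self_mem_nhdsWithin).exists
    refine ⟨_, ht, ?_⟩
    have h5 : ∀ i, mom X i ((z.1, z.2 + t • y) : Ph E) = t := by
      intro i
      have h6 : mom X i ((z.1, z.2 + t • y) : Ph E) = mom X i z + t * momv X (z.1, y) i := by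
        simp [mom, momv]
      rw [h6, hm i, hy]; simp
    unfold ham
    simp only [h5, Finset.sum_const, Finset.card_univ, nsmul_eq_mul]
    have h7 : (Fintype.card ι : ℝ) ≠ 0 := by
      exact_mod_cast Fintype.card_ne_zero
    have h8 : t ≠ 0 := htne
    positivity
  · exact ⟨z, hz, h0⟩

include hgen

theorem exists_good [Nonempty ι] {O : Set (Ph E)} (hO : IsOpen O) (hOU : O ⊆ TU U)
    (hne : O.Nonempty) : ∃ z ∈ O, Good X z := by
  obtain ⟨z, hz, h0⟩ := exists_ham_ne hU hX hli hO hOU hne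
  have hc : ContinuousOn (ham X) O := ((contDiffOn_ham hX).continuousOn).mono hOU
  have hO' : IsOpen (O ∩ ham X ⁻¹' {0}ᶜ) := hc.isOpen_inter_preimage hO isOpen_compl_singleton
  obtain ⟨w, hw, hamp⟩ := exists_ample hU hX hli hgen hO' (inter_subset_left.trans hOU)
    ⟨z, hz, h0⟩
  exact ⟨w, hw.1, hamp, hw.2⟩

/-- A continuous function vanishing at good covectors vanishes. -/
theorem eq_zero_of_good [Nonempty ι] {F : Ph E → ℝ} (hF : ContinuousOn F (TU U))
    (h0 : ∀ z ∈ TU U, Good X z → F z = 0) : ∀ z ∈ TU U, F z = 0 := by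
  intro z hz
  by_contra hne
  have hO : IsOpen (TU U ∩ F ⁻¹' {0}ᶜ) :=
    hF.isOpen_inter_preimage (isOpen_TU hU) isOpen_compl_singleton
  obtain ⟨w, hw, hg⟩ := exists_good hU hX hli hgen hO inter_subset_left ⟨z, hz, hne⟩
  exact hw.2 (h0 w hw.1 hg)

end

/-- Orbital maps exist near every good covector. -/
def OrbNear (U : Set E) (X : ι → E → E) (S : E → Matrix ι ι ℝ) : Prop :=
  ∀ z ∈ TU U, Good X z → ∃ N ⊆ TU U, IsOpen N ∧ z ∈ N ∧ ∃ Φ, Orb X S N Φ

section

variable {U : Set E} {X : ι → E → E} (hU : IsOpen U) (hX : ∀ i, ContDiffOn ℝ ∞ (X i) U)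
  (hli : ∀ x ∈ U, LinearIndependent ℝ (fun i => X i x))
  (hgen : ∀ x ∈ U, Submodule.span ℝ {v | ∃ B, Br X B ∧ v = B x} = ⊤)
  {S : E → Matrix ι ι ℝ} (hS : ContDiffOn ℝ ∞ S U) (hSs : ∀ x ∈ U, ∀ i j, S x i j = S x j i)
  (hOrb : OrbNear U X S)

include hU hX hli hgen hS hSs hOrb

/-- The quadratic Hamiltonians of polynomials in `S` are first integrals. -/
theorem quad_firstIntegral [Nonempty ι] (f : Polynomial ℝ) : ∀ z ∈ TU U,
    fderiv ℝ (quad X fun x => Polynomial.aeval (S x) f) z (XH X z) = 0 := by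
  apply eq_zero_of_good hU hX hli hgen
  · have hq : ContDiffOn ℝ ∞ (quad X fun x => Polynomial.aeval (S x) f) (TU U) :=
      contDiffOn_quad hX (contDiffOn_aeval hS f)
    exact ((contDiffOn_fderiv_of_smooth (isOpen_TU hU) hq).clm_apply
      (contDiffOn_XH hU hX)).continuousOn
  · intro z hz hg
    obtain ⟨N, hNU, hN, hzN, Φ, hΦ⟩ := hOrb z hz hg
    exact Symb.fderiv_quad_XH hU hX hN hNU
      (Symb.aeval hU hX hN hNU (Orb.symb hU hX hS hSs hN hNU hΦ) f) hzN

end

end Pool.Agent.SubRiem
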