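import Mathlib
import Pool.Agent.SubRiem.Dense

/-!
# Covectors transported along integral curves of the Hamiltonian field
-/

set_option autoImplicit false
set_option linter.unusedSectionVars false
set_option linter.unusedVariables false

namespace Pool.Agent.SubRiem

open Set Filter Topology VectorField MeasureTheory
open scoped ContDiff Matrix Matrix.Norms.Operator

variable {E : Type*} [NormedAddCommGroup E] [NormedSpace ℝ E]
  {ι : Type*} [Fintype ι] [DecidableEq ι]

/-- The values of the orbital map on the Jacobi fields `T X j y`. -/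
noncomputable def rho (X : ι → E → E) (S : E → Matrix ι ι ℝ) : ℕ → Co E → Ph E → ℝ
  | 0, _ => fun _ => 0
  | j + 1, y => fun z => fderiv ℝ (rho X S j y) z (XH X z) - fderiv ℝ (quad X S) z (T X j y z)

theorem rho_zero_symbol (X : ι → E → E) (j : ℕ) (y : Co E) :
    rho X (fun _ => (0 : Matrix ι ι ℝ)) j y = fun _ => 0 := by
  induction j with
  | zero => rfl
  | succ j ih =>
    have hq : quad X (fun _ => (0 : Matrix ι ι ℝ)) = fun _ => (0 : ℝ) := by
      funext z
      simp [quad]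
    funext z
    show fderiv ℝ (rho X (fun _ => 0) j y) z (XH X z) -
      fderiv ℝ (quad X fun _ => (0 : Matrix ι ι ℝ)) z (T X j y z) = 0
    rw [ih, hq, fderiv_fun_const]
    simp

section

variable {U : Set E} {X : ι → E → E} (hU : IsOpen U) (hX : ∀ i, ContDiffOn ℝ ∞ (X i) U)
  {S : E → Matrix ι ι ℝ} (hS : ContDiffOn ℝ ∞ S U) (hSs : ∀ x ∈ U, ∀ i j, S x i j = S x j i)
  {N : Set (Ph E)} (hN : IsOpen N) (hNU : N ⊆ TU U)

include hU hX hS hN hNU

theorem contDiffOn_rho (j : ℕ) (y : Co E) : ContDiffOn ℝ ∞ (rho X S j y) N := by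
  induction j with
  | zero => exact contDiffOn_const
  | succ j ih =>
    have h1 : ContDiffOn ℝ ∞ (fun z => fderiv ℝ (rho X S j y) z (XH X z)) N :=
      (contDiffOn_fderiv_of_smooth hN ih).clm_apply (contDiffOn_XH' hU hX hN hNU)
    have hq : ContDiffOn ℝ ∞ (quad X S) N := (contDiffOn_quad hX hS).mono hNU
    have h2 : ContDiffOn ℝ ∞ (fun z => fderiv ℝ (quad X S) z (T X j y z)) N :=
      (contDiffOn_fderiv_of_smooth hN hq).clm_apply (contDiffOn_T hU hX hN hNU j y)
    exact h1.sub h2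

omit hS hN hNU in
theorem fderiv_XH_fst {z : Ph E} (hz : z ∈ TU U) (b : Ph E) :
    (fderiv ℝ (XH X) z b).1 = ∑ i, (mom X i z • fderiv ℝ (X i) z.1 b.1 +
      fderiv ℝ (mom X i) z b • X i z.1) := by
  have h0 : HasFDerivAt (fun w => (XH X w).1)
      ((ContinuousLinearMap.fst ℝ E (Co E)).comp (fderiv ℝ (XH X) z)) z :=
    (ContinuousLinearMap.fst ℝ E (Co E)).hasFDerivAt.comp z
      (differentiableAt_XH hU hX hz).hasFDerivAt
  have h1 : HasFDerivAt (fun w : Ph E => ∑ i, mom X i w • X i w.1)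
      (∑ i, (mom X i z • ((fderiv ℝ (X i) z.1).comp (ContinuousLinearMap.fst ℝ E (Co E))) +
        (fderiv ℝ (mom X i) z).smulRight (X i z.1))) z := by
    apply HasFDerivAt.fun_sum
    intro i _
    apply HasFDerivAt.fun_smul
    · exact (differentiableAt_mom (differentiableAt_field hU hX hz i)).hasFDerivAt
    · exact (differentiableAt_field hU hX hz i).hasFDerivAt.comp z hasFDerivAt_fst
  have h2 := congrArg (fun l : Ph E →L[ℝ] E => l b) (h0.unique h1)
  simp only [ContinuousLinearMap.comp_apply, ContinuousLinearMap.coe_fst', sum_apply, add_apply,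
    smul_apply, ContinuousLinearMap.smulRight_apply] at h2
  exact h2

include hSs

/-- Derivative of the pairing of a transported covector with a field along the curve. -/
theorem hasDerivAt_pairing {κ : ℝ} {ζ : ℝ → Ph E} {μ : ℝ → Co E} {s : ℝ} (hz : ζ s ∈ N)
    (hζ : HasDerivAt ζ (κ • XH X (ζ s)) s)
    (hhor : ∀ i, μ s (X i (ζ s).1) = ∑ j, S (ζ s).1 i j * mom X j (ζ s)) {μ' : Co E}
    (hμ : HasDerivAt μ μ' s)
    (hder : ∀ e, μ' e = κ * ((1 / 2) * ∑ i, ∑ j, (fderiv ℝ S (ζ s).1 e) i j *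
      (mom X i (ζ s) * mom X j (ζ s)) - ∑ i, mom X i (ζ s) * μ s (fderiv ℝ (X i) (ζ s).1 e)))
    {a : Ph E → Ph E} (ha : ContDiffOn ℝ ∞ a N) :
    HasDerivAt (fun s => μ s (a (ζ s)).1)
      (κ * (μ s (nab X a (ζ s)).1 + fderiv ℝ (quad X S) (ζ s) (a (ζ s)))) s := by
  have hzU := hNU hz
  have hXd : ∀ i, DifferentiableAt ℝ (X i) (ζ s).1 :=
    fun i => differentiableAt_field hU hX hzU i
  have hSd : DifferentiableAt ℝ S (ζ s).1 :=
    (hS.contDiffAt (hU.mem_nhds hzU)).differentiableAt (by simp)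
  have h1 : HasDerivAt (fun s => (a (ζ s)).1)
      ((fderiv ℝ a (ζ s) (κ • XH X (ζ s))).1) s := by
    have h2 : HasDerivAt (fun s => a (ζ s)) (fderiv ℝ a (ζ s) (κ • XH X (ζ s))) s :=
      (diffAt hN ha hz).hasFDerivAt.comp_hasDerivAt s hζ
    exact (ContinuousLinearMap.fst ℝ E (Co E)).hasFDerivAt.comp_hasDerivAt s h2
  have h3 := hμ.clm_apply h1
  refine h3.congr_deriv ?_
  have h4 : fderiv ℝ a (ζ s) (κ • XH X (ζ s)) =
      κ • (nab X a (ζ s) + fderiv ℝ (XH X) (ζ s) (a (ζ s))) := by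
    rw [nab_apply, sub_add_cancel, map_smul]
  rw [h4, Prod.smul_fst, Prod.fst_add, map_smul, map_add, fderiv_XH_fst hU hX hzU, hder,
    fderiv_quad hXd hSd (hSs _ hzU)]
  have h5 : ∑ i, ∑ j, S (ζ s).1 i j * (mom X i (ζ s) * fderiv ℝ (mom X j) (ζ s) (a (ζ s))) =
      ∑ i, fderiv ℝ (mom X i) (ζ s) (a (ζ s)) * μ s (X i (ζ s).1) := by
    rw [Finset.sum_comm]
    apply Finset.sum_congr rfl
    intro i _
    rw [hhor i, Finset.mul_sum]
    apply Finset.sum_congr rfl
    intro j _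
    rw [hSs _ hzU j i]
    ring
  rw [h5]
  simp only [map_sum, map_add, map_smul, smul_eq_mul, Finset.sum_add_distrib]
  ring

/-- The pairing of the transported covector with the Jacobi fields. -/
theorem curve_main {J : Set ℝ} (hJ : IsOpen J) {κ : ℝ} (hκ : κ ≠ 0) {ζ : ℝ → Ph E}
    (hζN : ∀ s ∈ J, ζ s ∈ N) (hζ : ∀ s ∈ J, HasDerivAt ζ (κ • XH X (ζ s)) s) {μ : ℝ → Co E}
    (hμc : ContinuousOn μ J)
    (hhor : ∀ s ∈ J, ∀ i, μ s (X i (ζ s).1) = ∑ j, S (ζ s).1 i j * mom X j (ζ s))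
    (hder : ∀ᵐ s, s ∈ J → ∃ μ', HasDerivAt μ μ' s ∧ ∀ e, μ' e =
      κ * ((1 / 2) * ∑ i, ∑ j, (fderiv ℝ S (ζ s).1 e) i j *
      (mom X i (ζ s) * mom X j (ζ s)) - ∑ i, mom X i (ζ s) * μ s (fderiv ℝ (X i) (ζ s).1 e))) :
    ∀ j y, ∀ s ∈ J, μ s (T X j y (ζ s)).1 = rho X S j y (ζ s) := by
  have hζc : ContinuousOn ζ J := fun s hs => (hζ s hs).continuousAt.continuousWithinAt
  intro j y
  induction j with
  | zero =>
    intro s hs
    show μ s 0 = 0
    exact map_zero _
  | succ j ih =>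
    have hT := contDiffOn_T hU hX hN hNU j y
    have hT' := contDiffOn_T hU hX hN hNU (j + 1) y
    have hr := contDiffOn_rho hU hX hS hN hNU j y
    have hr' := contDiffOn_rho hU hX hS hN hNU (j + 1) y
    have hc1 : ContinuousOn (fun s => μ s (T X (j + 1) y (ζ s)).1) J := by
      apply hμc.clm_apply
      exact continuous_fst.comp_continuousOn (hT'.continuousOn.comp hζc hζN)
    have hc2 : ContinuousOn (fun s => rho X S (j + 1) y (ζ s)) J :=
      hr'.continuousOn.comp hζc hζN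
    have hae : (fun s => μ s (T X (j + 1) y (ζ s)).1) =ᵐ[volume.restrict J]
        fun s => rho X S (j + 1) y (ζ s) := by
      rw [Filter.EventuallyEq, ae_restrict_iff' hJ.measurableSet]
      filter_upwards [hder] with s hs hsJ
      obtain ⟨μ', hμ', hμe⟩ := hs hsJ
      have h1 := hasDerivAt_pairing hU hX hS hSs hN hNU (hζN s hsJ) (hζ s hsJ) (hhor s hsJ) hμ'
        hμe hT
      have h2 : HasDerivAt (fun s => rho X S j y (ζ s))
          (fderiv ℝ (rho X S j y) (ζ s) (κ • XH X (ζ s))) s :=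
        (diffAt hN hr (hζN s hsJ)).hasFDerivAt.comp_hasDerivAt s (hζ s hsJ)
      have h3 : (fun s => μ s (T X j y (ζ s)).1) =ᶠ[𝓝 s] fun s => rho X S j y (ζ s) := by
        filter_upwards [hJ.mem_nhds hsJ] with t ht
        exact ih t ht
      have h4 := (h1.congr_of_eventuallyEq h3.symm).unique h2
      rw [map_smul, smul_eq_mul] at h4
      have h5 := mul_left_cancel₀ hκ h4
      show μ s (T X (j + 1) y (ζ s)).1 = fderiv ℝ (rho X S j y) (ζ s) (XH X (ζ s)) -
        fderiv ℝ (quad X S) (ζ s) (T X j y (ζ s))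
      rw [← h5, T_succ]
      ring
    exact Measure.eqOn_open_of_ae_eq hae hJ hc1 hc2

end

end Pool.Agent.SubRiem
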