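import Mathlib

/-!
# Sub-Riemannian structures on open subsets of a finite-dimensional vector space

Definitions used in the statement of the sub-Riemannian Eisenhart theorem (MP_134ef0_gt).
-/

set_option autoImplicit false

namespace Pool.Agent.SubRiem

open Set Filter Topology VectorField MeasureTheory
open scoped ContDiff

variable {E : Type*} [NormedAddCommGroup E] [NormedSpace ℝ E]

/-- `D` is a smooth distribution on `Ω`: near every point of `Ω` it is spanned by smooth,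
pointwise linearly independent vector fields. -/
def IsSmoothDistribution (Ω : Set E) (D : E → Submodule ℝ E) : Prop :=
  ∀ q ∈ Ω, ∃ U ⊆ Ω, IsOpen U ∧ q ∈ U ∧ ∃ (m : ℕ) (X : Fin m → E → E),
    (∀ i, ContDiffOn ℝ ∞ (X i) U) ∧ (∀ x ∈ U, LinearIndependent ℝ fun i => X i x) ∧
      ∀ x ∈ U, D x = Submodule.span ℝ (range fun i => X i x)

/-- The smooth vector fields on `U` tangent to `D`. -/
def secs (D : E → Submodule ℝ E) (U : Set E) : Submodule ℝ (E → E) where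
  carrier := {X | ContDiffOn ℝ ∞ X U ∧ ∀ x ∈ U, X x ∈ D x}
  add_mem' := fun ha hb =>
    ⟨ha.1.add hb.1, fun x hx => (D x).add_mem (ha.2 x hx) (hb.2 x hx)⟩
  zero_mem' := ⟨contDiffOn_const, fun x _ => (D x).zero_mem⟩
  smul_mem' := fun c _ ha => ⟨ha.1.const_smul c, fun x hx => (D x).smul_mem c (ha.2 x hx)⟩

/-- The vector fields over `U` in `D^{j+1}`, where `D^1 = D` and
`D^{j+1} = D^j + [D, D^j]`. -/
def flag (D : E → Submodule ℝ E) (U : Set E) : ℕ → Submodule ℝ (E → E)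
  | 0 => secs D U
  | j + 1 => flag D U j ⊔
      Submodule.span ℝ {V | ∃ X ∈ secs D U, ∃ Y ∈ flag D U j, V = lieBracket ℝ X Y}

/-- `D` is bracket-generating on `Ω`: for every `q` some `D^j(q)` is the whole tangent space. -/
def IsBracketGenerating (Ω : Set E) (D : E → Submodule ℝ E) : Prop :=
  ∀ q ∈ Ω, ∃ U ⊆ Ω, IsOpen U ∧ q ∈ U ∧ ∃ j, ∀ v : E, ∃ V ∈ flag D U j, V q = v

/-- `g` is a smooth field of inner products on `D` over `Ω`.  Only the values `g x v w` with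
`x ∈ Ω` and `v, w ∈ D x` matter. -/
structure IsMetricOn (Ω : Set E) (D : E → Submodule ℝ E) (g : E → E → E → ℝ) : Prop where
  add_left : ∀ x ∈ Ω, ∀ u ∈ D x, ∀ v ∈ D x, ∀ w ∈ D x, g x (u + v) w = g x u w + g x v w
  smul_left : ∀ x ∈ Ω, ∀ c : ℝ, ∀ v ∈ D x, ∀ w ∈ D x, g x (c • v) w = c * g x v w
  symm : ∀ x ∈ Ω, ∀ v ∈ D x, ∀ w ∈ D x, g x v w = g x w v
  pos : ∀ x ∈ Ω, ∀ v ∈ D x, v ≠ 0 → 0 < g x v v
  smooth : ∀ U ⊆ Ω, IsOpen U → ∀ X ∈ secs D U, ∀ Y ∈ secs D U,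
    ContDiffOn ℝ ∞ (fun x => g x (X x) (Y x)) U

/-- `(Ω, D, g)` is a sub-Riemannian structure. -/
structure IsSubRiemannian (Ω : Set E) (D : E → Submodule ℝ E) (g : E → E → E → ℝ) : Prop where
  isOpen : IsOpen Ω
  distribution : IsSmoothDistribution Ω D
  bracketGenerating : IsBracketGenerating Ω D
  metric : IsMetricOn Ω D g

/-- The norm of the restriction of the covector `p` to `D x` with respect to `g x`, at the point
`z = (x, p)` of the cotangent bundle. -/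
noncomputable def coNorm (D : E → Submodule ℝ E) (g : E → E → E → ℝ) (z : E × (E →L[ℝ] ℝ)) : ℝ :=
  sSup {r | ∃ v ∈ D z.1, g z.1 v v ≤ 1 ∧ r = |z.2 v|}

/-- The Hamiltonian `h(x,p) = ‖p|_{D x}‖²`. -/
noncomputable def hamD (D : E → Submodule ℝ E) (g : E → E → E → ℝ) (z : E × (E →L[ℝ] ℝ)) : ℝ :=
  coNorm D g z ^ 2

/-- `a` is the value at `z` of the Hamiltonian vector field of `H` on `T^*E = E × E'` (with
its canonical symplectic form): `a₁ = ∂H/∂p` and `a₂ = -∂H/∂x`. -/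
def IsHamVec (H : E × (E →L[ℝ] ℝ) → ℝ) (z a : E × (E →L[ℝ] ℝ)) : Prop :=
  DifferentiableAt ℝ H z ∧ ∀ (v : E) (y : E →L[ℝ] ℝ), fderiv ℝ H z (v, y) = y a.1 - a.2 v

/-- Normal extremals over `U`, defined on `I`: integral curves of the Hamiltonian field of
`h = ‖p|_D‖²` on a nonzero level set. -/
def IsNormalExtremal (D : E → Submodule ℝ E) (g : E → E → E → ℝ) (U : Set E) (I : Set ℝ)
    (z : ℝ → E × (E →L[ℝ] ℝ)) : Prop :=
  (∀ t ∈ I, (z t).1 ∈ U) ∧ (∃ c : ℝ, c ≠ 0 ∧ ∀ t ∈ I, hamD D g (z t) = c) ∧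
    ∀ t ∈ I, ∃ a, IsHamVec (hamD D g) (z t) a ∧ HasDerivAt z a t

/-- The Hamiltonian vectors `H⃗_X` at `z`, `X` tangent to `D`, `H_X(x,p) = p(X(x))`. -/
def horizontalHamVecs (D : E → Submodule ℝ E) (z : E × (E →L[ℝ] ℝ)) :
    Set (E × (E →L[ℝ] ℝ)) :=
  {a | ∃ (V : Set E) (X : E → E), IsOpen V ∧ z.1 ∈ V ∧ X ∈ secs D V ∧
    IsHamVec (fun w => w.2 (X w.1)) z a}

/-- Abnormal extremals over `U`, defined on `I`: absolutely continuous curves of nonzero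
covectors annihilating `D`, with non-constant projection, tangent almost everywhere to the span
of the `H⃗_X`. -/
def IsAbnormalExtremal (D : E → Submodule ℝ E) (U : Set E) (I : Set ℝ)
    (z : ℝ → E × (E →L[ℝ] ℝ)) : Prop :=
  (∀ t ∈ I, (z t).1 ∈ U ∧ (z t).2 ≠ 0 ∧ ∀ v ∈ D (z t).1, (z t).2 v = 0) ∧
    (¬ ∃ x, ∀ t ∈ I, (z t).1 = x) ∧
    (∀ a ∈ I, ∀ b ∈ I, AbsolutelyContinuousOnInterval z a b) ∧
    ∀ᵐ t, t ∈ I → ∃ a ∈ Submodule.span ℝ (horizontalHamVecs D (z t)), HasDerivAt z a t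

/-- The geodesics of `g` in `U` defined on the open interval `I`: projections of normal and
abnormal extremals. -/
def IsGeodesic (D : E → Submodule ℝ E) (g : E → E → E → ℝ) (U : Set E) (I : Set ℝ)
    (γ : ℝ → E) : Prop :=
  IsOpen I ∧ I.OrdConnected ∧ I.Nonempty ∧ ∃ z : ℝ → E × (E →L[ℝ] ℝ),
    (∀ t ∈ I, γ t = (z t).1) ∧ (IsNormalExtremal D g U I z ∨ IsAbnormalExtremal D U I z)

/-- Every geodesic of `g₁` in `U` is, after an affine change of parameter, a geodesic of `g₂`. -/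
def GeodesicsAffineSubset (D : E → Submodule ℝ E) (g₁ g₂ : E → E → E → ℝ) (U : Set E) : Prop :=
  ∀ (I : Set ℝ) (γ : ℝ → E), IsGeodesic D g₁ U I γ → ∃ α β : ℝ, α ≠ 0 ∧
    IsGeodesic D g₂ U ((fun t => α * t + β) ⁻¹' I) (fun t => γ (α * t + β))

/-- `g₁` and `g₂` have the same geodesics in `U` up to affine reparametrisation. -/
def AffinelyEquivalentOn (D : E → Submodule ℝ E) (g₁ g₂ : E → E → E → ℝ) (U : Set E) : Prop :=
  GeodesicsAffineSubset D g₁ g₂ U ∧ GeodesicsAffineSubset D g₂ g₁ U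

/-- `g₂` is a constant multiple of `g₁` on `D` over `U`. -/
def ConstantlyProportionalOn (D : E → Submodule ℝ E) (g₁ g₂ : E → E → E → ℝ) (U : Set E) :
    Prop :=
  ∃ c : ℝ, 0 < c ∧ ∀ x ∈ U, ∀ v ∈ D x, ∀ w ∈ D x, g₂ x v w = c * g₁ x v w

/-- The conditions on the two factors of a direct product: `(Ω, D, g)` is a sub-Riemannian
structure of positive rank on a connected open set `Ω ⊆ ℝⁿ`, `n > 0`. -/
structure IsFactor (n : ℕ) (Ω : Set (EuclideanSpace ℝ (Fin n)))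
    (D : EuclideanSpace ℝ (Fin n) → Submodule ℝ (EuclideanSpace ℝ (Fin n)))
    (g : EuclideanSpace ℝ (Fin n) → EuclideanSpace ℝ (Fin n) → EuclideanSpace ℝ (Fin n) → ℝ) :
    Prop where
  dim_pos : 0 < n
  isConnected : IsConnected Ω
  isSubRiemannian : IsSubRiemannian Ω D g
  rank_pos : ∀ x ∈ Ω, D x ≠ ⊥

/-- `ψ` is a smooth diffeomorphism from the open set `ψ.source ⊆ Ω` onto `Ω₁ × Ω₂`. -/
def IsDiffeoOnto {F₁ F₂ : Type*} [NormedAddCommGroup F₁] [NormedSpace ℝ F₁]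
    [NormedAddCommGroup F₂] [NormedSpace ℝ F₂] (ψ : OpenPartialHomeomorph E (F₁ × F₂))
    (Ω : Set E) (Ω₁ : Set F₁) (Ω₂ : Set F₂) : Prop :=
  ψ.source ⊆ Ω ∧ ψ.target = Ω₁ ×ˢ Ω₂ ∧ ContDiffOn ℝ ∞ ψ ψ.source ∧
    ContDiffOn ℝ ∞ ψ.symm ψ.target

/-- `dψ_x(v) = (v₁, v₂)`. -/
def HasComponents {F₁ F₂ : Type*} [NormedAddCommGroup F₁] [NormedSpace ℝ F₁]
    [NormedAddCommGroup F₂] [NormedSpace ℝ F₂] (ψ : OpenPartialHomeomorph E (F₁ × F₂))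
    (x v : E) (v₁ : F₁) (v₂ : F₂) : Prop :=
  fderiv ℝ ψ x v = (v₁, v₂)

/-- `ψ` takes `(D, g)` over `ψ.source` to the direct product of `(D₁, g₁)` and `(D₂, g₂)`: for
`dψ_x(v) = (v₁, v₂)` and `ψ(x) = (x₁, x₂)`, `v ∈ D x` exactly when `v₁ ∈ D₁ x₁` and `v₂ ∈ D₂ x₂`,
and then `g(v,v) = g₁(v₁,v₁) + g₂(v₂,v₂)`. -/
def IsProductChart {F₁ F₂ : Type*} [NormedAddCommGroup F₁] [NormedSpace ℝ F₁]
    [NormedAddCommGroup F₂] [NormedSpace ℝ F₂] (ψ : OpenPartialHomeomorph E (F₁ × F₂))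
    (D : E → Submodule ℝ E) (g : E → E → E → ℝ)
    (D₁ : F₁ → Submodule ℝ F₁) (g₁ : F₁ → F₁ → F₁ → ℝ)
    (D₂ : F₂ → Submodule ℝ F₂) (g₂ : F₂ → F₂ → F₂ → ℝ) : Prop :=
  ∀ x ∈ ψ.source, ∀ (v : E) (v₁ : F₁) (v₂ : F₂), HasComponents ψ x v v₁ v₂ →
    (v ∈ D x ↔ v₁ ∈ D₁ (ψ x).1 ∧ v₂ ∈ D₂ (ψ x).2) ∧
      (v ∈ D x → g x v v = g₁ (ψ x).1 v₁ v₁ + g₂ (ψ x).2 v₂ v₂)

/-- `(Ω, D, g)` is near `q₀` isomorphic to the direct product of two sub-Riemannian structures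
of positive dimension and positive rank on connected open sets `Ω₁ ⊆ ℝ^{n₁}`, `Ω₂ ⊆ ℝ^{n₂}`. -/
def IsProductNear (Ω : Set E) (D : E → Submodule ℝ E) (g : E → E → E → ℝ) (q₀ : E) : Prop :=
  ∃ (n₁ n₂ : ℕ) (Ω₁ : Set (EuclideanSpace ℝ (Fin n₁))) (Ω₂ : Set (EuclideanSpace ℝ (Fin n₂)))
    (D₁ : EuclideanSpace ℝ (Fin n₁) → Submodule ℝ (EuclideanSpace ℝ (Fin n₁)))
    (D₂ : EuclideanSpace ℝ (Fin n₂) → Submodule ℝ (EuclideanSpace ℝ (Fin n₂)))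
    (g₁ : EuclideanSpace ℝ (Fin n₁) → EuclideanSpace ℝ (Fin n₁) → EuclideanSpace ℝ (Fin n₁) → ℝ)
    (g₂ : EuclideanSpace ℝ (Fin n₂) → EuclideanSpace ℝ (Fin n₂) → EuclideanSpace ℝ (Fin n₂) → ℝ)
    (ψ : OpenPartialHomeomorph E (EuclideanSpace ℝ (Fin n₁) × EuclideanSpace ℝ (Fin n₂))),
    IsFactor n₁ Ω₁ D₁ g₁ ∧ IsFactor n₂ Ω₂ D₂ g₂ ∧ q₀ ∈ ψ.source ∧ IsDiffeoOnto ψ Ω Ω₁ Ω₂ ∧
      IsProductChart ψ D g D₁ g₁ D₂ g₂

end Pool.Agent.SubRiem
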