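import Mathlib
import Pool.Agent.SubRiem.Defs
import Pool.Agent.SubRiem.Frame

/-!
# The sub-Riemannian Hamiltonian: Riesz representation and bounds
-/

set_option autoImplicit false
set_option linter.unusedSectionVars false
set_option linter.unusedVariables false

namespace Pool.Agent.SubRiem

open Set Filter Topology VectorField
open scoped ContDiff

variable {E : Type*} [NormedAddCommGroup E] [NormedSpace ℝ E]

section metric

variable {U : Set E} {D : E → Submodule ℝ E} {g : E → E → E → ℝ} (hg : IsMetricOn U D g)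
  {x : E} (hx : x ∈ U)

include hg hx

/-- The inner product at `x`, as a bilinear map on `D x`. -/
def IsMetricOn.bil : D x →ₗ[ℝ] D x →ₗ[ℝ] ℝ :=
  LinearMap.mk₂ ℝ (fun v w => g x v w)
    (fun u v w => hg.add_left x hx u u.2 v v.2 w w.2)
    (fun c v w => hg.smul_left x hx c v v.2 w w.2)
    (fun u v w => by
      show g x u (v + w : E) = _
      rw [hg.symm x hx u u.2 _ ((D x).add_mem v.2 w.2), hg.add_left x hx v v.2 w w.2 u u.2,
        hg.symm x hx v v.2 u u.2, hg.symm x hx w w.2 u u.2])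
    (fun c v w => by
      show g x v (c • w : E) = _
      rw [hg.symm x hx v v.2 _ ((D x).smul_mem c w.2), hg.smul_left x hx c w w.2 v v.2,
        hg.symm x hx w w.2 v v.2]
      rfl)

theorem IsMetricOn.bil_apply (v w : D x) : hg.bil hx v w = g x v w := rfl

theorem IsMetricOn.sum_sum {ι : Type*} [Fintype ι] (Y : ι → E) (hY : ∀ i, Y i ∈ D x)
    (c d : ι → ℝ) : g x (∑ i, c i • Y i) (∑ i, d i • Y i) =
      ∑ i, ∑ j, c i * d j * g x (Y i) (Y j) := by
  have h1 : ∀ c : ι → ℝ, ((∑ i, c i • (⟨Y i, hY i⟩ : D x) : D x) : E) = ∑ i, c i • Y i := by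
    intro c
    rw [Submodule.coe_sum]
    rfl
  rw [← h1 c, ← h1 d, ← hg.bil_apply hx]
  simp only [map_sum, map_smul, LinearMap.sum_apply, LinearMap.smul_apply, smul_eq_mul,
    hg.bil_apply hx, Finset.mul_sum]
  rw [Finset.sum_comm]
  apply Finset.sum_congr rfl
  intro i _
  apply Finset.sum_congr rfl
  intro j _
  ring

theorem IsMetricOn.sub_sub {v w : E} (hv : v ∈ D x) (hw : w ∈ D x) :
    g x (v - w) (v - w) = g x v v - 2 * g x v w + g x w w := by
  have h := hg.bil_apply hx (⟨v, hv⟩ - ⟨w, hw⟩) (⟨v, hv⟩ - ⟨w, hw⟩)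
  simp only [map_sub, LinearMap.sub_apply, hg.bil_apply hx] at h
  have h2 := hg.symm x hx v hv w hw
  have h3 : g x (v - w) (v - w) = g x v v - g x w v - (g x v w - g x w w) := by
    exact h.symm
  rw [h3, ← h2]
  ring

theorem IsMetricOn.nonneg {v : E} (hv : v ∈ D x) : 0 ≤ g x v v := by
  rcases eq_or_ne v 0 with rfl | h
  · have := (hg.bil hx).map_zero
    have h2 := LinearMap.congr_fun this (0 : D x)
    rw [hg.bil_apply hx] at h2
    exact h2.ge
  · exact (hg.pos x hx v hv h).le

theorem IsMetricOn.zero_left {w : E} (hw : w ∈ D x) : g x 0 w = 0 := by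
  have := (hg.bil hx).map_zero
  have h2 := LinearMap.congr_fun this (⟨w, hw⟩ : D x)
  rw [hg.bil_apply hx] at h2
  exact h2

theorem IsMetricOn.cauchy {v w : E} (hv : v ∈ D x) (hw : w ∈ D x) :
    (g x v w) ^ 2 ≤ g x v v * g x w w := by
  rcases eq_or_ne w 0 with rfl | h
  · have h1 : g x v 0 = 0 := by
      rw [hg.symm x hx v hv 0 (D x).zero_mem, hg.zero_left hx hv]
    rw [h1, hg.zero_left hx (D x).zero_mem]
    simp
  · have hpos := hg.pos x hx w hw h
    have h1 := hg.nonneg hx ((D x).sub_mem hv ((D x).smul_mem (g x v w / g x w w) hw))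
    rw [hg.sub_sub hx hv ((D x).smul_mem _ hw)] at h1
    have h2 : g x v ((g x v w / g x w w) • w) = (g x v w / g x w w) * g x v w := by
      rw [hg.symm x hx v hv _ ((D x).smul_mem _ hw), hg.smul_left x hx _ w hw v hv,
        hg.symm x hx w hw v hv]
    have h3 : g x ((g x v w / g x w w) • w) ((g x v w / g x w w) • w) =
        (g x v w / g x w w) * ((g x v w / g x w w) * g x w w) := by
      rw [hg.smul_left x hx _ w hw _ ((D x).smul_mem _ hw),
        hg.symm x hx w hw _ ((D x).smul_mem _ hw), hg.smul_left x hx _ w hw w hw]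
    rw [h2, h3] at h1
    have h4 : g x v v - 2 * ((g x v w / g x w w) * g x v w) +
        (g x v w / g x w w) * ((g x v w / g x w w) * g x w w) =
        (g x v v * g x w w - (g x v w) ^ 2) / g x w w := by
      field_simp
      ring
    rw [h4] at h1
    have h5 := mul_nonneg h1 hpos.le
    rw [div_mul_cancel₀ _ hpos.ne'] at h5
    linarith

/-- Riesz representation on `D x`. -/
theorem IsMetricOn.riesz [FiniteDimensional ℝ E] (p : Co E) :
    ∃ v ∈ D x, ∀ w ∈ D x, g x v w = p w := by
  have hinj : Function.Injective (hg.bil hx) := by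
    rw [injective_iff_map_eq_zero]
    intro v hv
    by_contra hne
    have h1 := hg.pos x hx v v.2 (fun h => hne (Subtype.ext h))
    have h2 := LinearMap.congr_fun hv v
    rw [hg.bil_apply hx] at h2
    have h3 : g x v v = 0 := h2
    linarith
  have hsurj : Function.Surjective (hg.bil hx) :=
    (LinearMap.injective_iff_surjective_of_finrank_eq_finrank
      (Subspace.dual_finrank_eq (K := ℝ) (V := D x)).symm).1 hinj
  obtain ⟨v, hv⟩ := hsurj ((p : E →ₗ[ℝ] ℝ).comp (D x).subtype)
  refine ⟨v, v.2, fun w hw => ?_⟩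
  have := LinearMap.congr_fun hv ⟨w, hw⟩
  exact this

theorem IsMetricOn.hamD_eq {p : Co E} {v : E} (hv : v ∈ D x) (h : ∀ w ∈ D x, g x v w = p w) :
    hamD D g (x, p) = g x v v := by
  have hnn := hg.nonneg hx hv
  have hgr : IsGreatest {r | ∃ w ∈ D x, g x w w ≤ 1 ∧ r = |p w|} (Real.sqrt (g x v v)) := by
    constructor
    · rcases eq_or_ne v 0 with h0 | h0
      · refine ⟨0, (D x).zero_mem, ?_, ?_⟩
        · rw [hg.zero_left hx (D x).zero_mem]; norm_num
        · rw [h0, hg.zero_left hx (D x).zero_mem]; simp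
      · have hpos := hg.pos x hx v hv h0
        have hs := Real.sqrt_pos.2 hpos
        refine ⟨(Real.sqrt (g x v v))⁻¹ • v, (D x).smul_mem _ hv, ?_, ?_⟩
        · rw [hg.smul_left x hx _ v hv _ ((D x).smul_mem _ hv),
            hg.symm x hx v hv _ ((D x).smul_mem _ hv), hg.smul_left x hx _ v hv v hv]
          apply le_of_eq
          rw [← mul_assoc, ← mul_inv, Real.mul_self_sqrt hnn]
          exact inv_mul_cancel₀ hpos.ne'
        · rw [map_smul, ← h v hv, smul_eq_mul, abs_of_nonneg (by positivity)]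
          rw [eq_comm, inv_mul_eq_iff_eq_mul₀ hs.ne', Real.mul_self_sqrt hnn]
    · rintro r ⟨w, hw, hw1, rfl⟩
      rw [← h w hw]
      apply Real.abs_le_sqrt
      calc (g x v w) ^ 2 ≤ g x v v * g x w w := hg.cauchy hx hv hw
        _ ≤ g x v v * 1 := by gcongr
        _ = g x v v := mul_one _
  unfold hamD coNorm
  show (sSup {r | ∃ w ∈ D x, g x w w ≤ 1 ∧ r = |p w|}) ^ 2 = _
  rw [hgr.csSup_eq, Real.sq_sqrt hnn]

theorem IsMetricOn.le_hamD [FiniteDimensional ℝ E] (p : Co E) {w : E} (hw : w ∈ D x) :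
    2 * p w - g x w w ≤ hamD D g (x, p) := by
  obtain ⟨v, hv, h⟩ := hg.riesz hx p
  rw [hg.hamD_eq hx hv h, ← h w hw]
  have h1 := hg.nonneg hx ((D x).sub_mem hv hw)
  rw [hg.sub_sub hx hv hw] at h1
  linarith

end metric

end Pool.Agent.SubRiem
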