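import Mathlib
import Pool.Agent.SubRiem.GeoMetric
import Pool.Agent.SubRiem.Quad
import Pool.Agent.SubRiem.SmoothDual

/-!
# Hamiltonian vectors of the sub-Riemannian Hamiltonian in a frame
-/

set_option autoImplicit false
set_option linter.unusedSectionVars false
set_option linter.unusedVariables false

namespace Pool.Agent.SubRiem

open Set Filter Topology VectorField
open scoped ContDiff Matrix Matrix.Norms.Operator

variable {E : Type*} [NormedAddCommGroup E] [NormedSpace ℝ E] [FiniteDimensional ℝ E]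
  {m : ℕ} {U : Set E} {X : Fin m → E → E} {D : E → Submodule ℝ E}
  (hU : IsOpen U) (hX : ∀ i, ContDiffOn ℝ ∞ (X i) U)
  (hli : ∀ x ∈ U, LinearIndependent ℝ fun i => X i x)
  (hD : ∀ x ∈ U, D x = Submodule.span ℝ (range fun i => X i x))

include hD in
theorem mem_dist {x : E} (hx : x ∈ U) (i : Fin m) : X i x ∈ D x := by
  rw [hD x hx]
  exact Submodule.subset_span ⟨i, rfl⟩

include hD in
theorem exists_coeff {x : E} (hx : x ∈ U) {v : E} (hv : v ∈ D x) :
    ∃ c : Fin m → ℝ, ∑ i, c i • X i x = v := by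
  rw [hD x hx] at hv
  exact (Submodule.mem_span_range_iff_exists_fun ℝ).1 hv

include hD in
theorem sum_mem_dist {x : E} (hx : x ∈ U) (c : Fin m → ℝ) : ∑ i, c i • X i x ∈ D x :=
  Submodule.sum_mem _ fun i _ => (D x).smul_mem _ (mem_dist hD hx i)

include hD in
theorem hamD_orth {g₁ : E → E → E → ℝ} (hg₁ : IsMetricOn U D g₁)
    (horth : ∀ x ∈ U, ∀ i j, g₁ x (X i x) (X j x) = if i = j then 1 else 0)
    {z : Ph E} (hz : z ∈ TU U) : hamD D g₁ z = 2 * ham X z := by
  have hx : z.1 ∈ U := hz
  have h1 : ∀ c d : Fin m → ℝ, g₁ z.1 (∑ i, c i • X i z.1) (∑ i, d i • X i z.1) =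
      ∑ i, c i * d i := by
    intro c d
    rw [hg₁.sum_sum hx (fun i => X i z.1) (fun i => mem_dist hD hx i) c d]
    apply Finset.sum_congr rfl
    intro i _
    simp [horth z.1 hx]
  have h2 : hamD D g₁ (z.1, z.2) = _ :=
    hg₁.hamD_eq hx (p := z.2) (v := ∑ i, mom X i z • X i z.1)
      (sum_mem_dist hD hx _) (by
        intro w hw
        obtain ⟨d, rfl⟩ := exists_coeff hD hx hw
        rw [h1, map_sum]
        apply Finset.sum_congr rfl
        intro i _
        rw [map_smul, smul_eq_mul, mul_comm]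
        rfl)
  rw [h1] at h2
  have h3 : hamD D g₁ z = ∑ i, mom X i z * mom X i z := h2
  rw [h3]
  unfold ham
  rw [← mul_assoc]
  norm_num
  apply Finset.sum_congr rfl
  intro i _
  ring

include hU hX hD in
theorem isHamVec_orth {g₁ : E → E → E → ℝ} (hg₁ : IsMetricOn U D g₁)
    (horth : ∀ x ∈ U, ∀ i j, g₁ x (X i x) (X j x) = if i = j then 1 else 0)
    {z : Ph E} (hz : z ∈ TU U) : IsHamVec (hamD D g₁) z ((2 : ℝ) • XH X z) := by
  have hev : hamD D g₁ =ᶠ[𝓝 z] fun w => 2 * ham X w := by
    filter_upwards [(isOpen_TU hU).mem_nhds hz] with w hw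
    exact hamD_orth hD hg₁ horth hw
  have hd : DifferentiableAt ℝ (ham X) z :=
    ((contDiffOn_ham hX).contDiffAt ((isOpen_TU hU).mem_nhds hz)).differentiableAt (by simp)
  refine ⟨hev.differentiableAt_iff.2 (hd.const_mul 2), ?_⟩
  intro v y
  rw [hev.fderiv_eq, fderiv_const_mul hd, smul_apply, smul_eq_mul]
  have h1 := om_XH (X := X) (z := z) (fun i => differentiableAt_field hU hX hz i) (v, y)
  rw [om_apply] at h1
  simp only [Prod.smul_fst, Prod.smul_snd, map_smul, smul_apply, smul_eq_mul]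
  simp only at h1
  linarith

/-- Hamiltonian vectors of a sub-Riemannian Hamiltonian. -/
theorem isHamVec_form (hU : IsOpen U) (hX : ∀ i, ContDiffOn ℝ ∞ (X i) U)
    (hD : ∀ x ∈ U, D x = Submodule.span ℝ (range fun i => X i x))
    {g : E → E → E → ℝ} (hg : IsMetricOn U D g)
    {S : E → Matrix (Fin m) (Fin m) ℝ} (hS : ContDiffOn ℝ ∞ S U)
    (hSg : ∀ x ∈ U, ∀ i j, S x i j = g x (X i x) (X j x))
    {z a : Ph E} (hz : z ∈ TU U) (ha : IsHamVec (hamD D g) z a) :
    ∃ c : Fin m → ℝ, (∀ i, z.2 (X i z.1) = ∑ j, S z.1 i j * c j) ∧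
      a.1 = (2 : ℝ) • ∑ i, c i • X i z.1 ∧
      ∀ e, a.2 e = ∑ i, ∑ j, (fderiv ℝ S z.1 e) i j * (c i * c j) -
        2 * ∑ i, c i * z.2 (fderiv ℝ (X i) z.1 e) := by
  have hx : z.1 ∈ U := hz
  obtain ⟨v, hv, hvr⟩ := hg.riesz hx z.2
  obtain ⟨c, rfl⟩ := exists_coeff hD hx hv
  have hXd : ∀ i, DifferentiableAt ℝ (X i) z.1 := fun i => differentiableAt_field hU hX hz i
  have hSd : DifferentiableAt ℝ S z.1 :=
    (hS.contDiffAt (hU.mem_nhds hx)).differentiableAt (by simp)
  set F : Ph E → ℝ := fun w => 2 * ∑ i, c i * mom X i w - ∑ i, ∑ j, c i * c j * S w.1 i j with hF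
  have hFd : HasFDerivAt F ((2 : ℝ) • ∑ i, c i • fderiv ℝ (mom X i) z -
      ∑ i, ∑ j, (c i * c j) • (((ent i j).comp (fderiv ℝ S z.1)).comp
        (ContinuousLinearMap.fst ℝ E (Co E)))) z := by
    apply HasFDerivAt.fun_sub
    · apply HasFDerivAt.const_mul
      apply HasFDerivAt.fun_sum
      intro i _
      exact (differentiableAt_mom (hXd i)).hasFDerivAt.const_mul _
    · apply HasFDerivAt.fun_sum
      intro i _
      apply HasFDerivAt.fun_sum
      intro j _
      exact ((hasFDerivAt_entry hSd i j).comp z hasFDerivAt_fst).const_mul _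
  have hgsum : ∀ x ∈ U, g x (∑ i, c i • X i x) (∑ i, c i • X i x) =
      ∑ i, ∑ j, c i * c j * S x i j := by
    intro x hx
    rw [hg.sum_sum hx (fun i => X i x) (fun i => mem_dist hD hx i) c c]
    apply Finset.sum_congr rfl
    intro i _
    apply Finset.sum_congr rfl
    intro j _
    rw [hSg x hx]
  have hle : ∀ w ∈ TU U, F w ≤ hamD D g w := by
    intro w hw
    have h1 := hg.le_hamD (x := w.1) hw w.2 (sum_mem_dist (X := X) hD hw c)
    rw [hgsum w.1 hw, map_sum] at h1
    refine le_trans (le_of_eq ?_) h1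
    rw [hF]
    simp only [map_smul, smul_eq_mul]
    rfl
  have heq : F z = hamD D g z := by
    have h1 : hamD D g (z.1, z.2) = _ := hg.hamD_eq hx hv hvr
    have h2 := hvr _ hv
    have h3 : hamD D g z = g z.1 (∑ i, c i • X i z.1) (∑ i, c i • X i z.1) := h1
    have h4 : ∑ i, c i * mom X i z = g z.1 (∑ i, c i • X i z.1) (∑ i, c i • X i z.1) := by
      rw [h2, map_sum]
      simp only [map_smul, smul_eq_mul]
      rfl
    show 2 * ∑ i, c i * mom X i z - ∑ i, ∑ j, c i * c j * S z.1 i j = _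
    rw [h3, ← hgsum z.1 hx, h4]
    ring
  have hmin : IsLocalMin (fun w => hamD D g w - F w) z := by
    show ∀ᶠ w in 𝓝 z, hamD D g z - F z ≤ hamD D g w - F w
    filter_upwards [(isOpen_TU hU).mem_nhds hz] with w hw
    have := hle w hw
    rw [heq]
    linarith
  have hd0 := hmin.fderiv_eq_zero
  rw [(ha.1.hasFDerivAt.fun_sub hFd).fderiv, sub_eq_zero] at hd0
  have hfd : ∀ (v : E) (y : Co E), y a.1 - a.2 v =
      2 * ∑ i, c i * (y (X i z.1) + z.2 (fderiv ℝ (X i) z.1 v)) -
        ∑ i, ∑ j, c i * c j * (fderiv ℝ S z.1 v) i j := by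
    intro v y
    rw [← ha.2 v y, hd0]
    simp only [sub_apply, smul_apply, sum_apply, ContinuousLinearMap.comp_apply, smul_eq_mul,
      ContinuousLinearMap.coe_fst', ent_apply, fderiv_mom (hXd _)]
  refine ⟨c, ?_, ?_, ?_⟩
  · intro i
    rw [← hvr _ (mem_dist hD hx i)]
    have h1 := hg.sum_sum hx (fun i => X i z.1) (fun i => mem_dist hD hx i) c
      (fun k => if k = i then 1 else 0)
    have h2 : ∑ k, (if k = i then (1 : ℝ) else 0) • X k z.1 = X i z.1 := by simp
    rw [h2] at h1
    rw [h1]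
    apply Finset.sum_congr rfl
    intro j _
    rw [Finset.sum_eq_single i]
    · rw [hSg z.1 hx, hg.symm z.1 hx _ (mem_dist hD hx j) _ (mem_dist hD hx i)]
      simp
      ring
    · intro b _ hb
      rw [if_neg hb]; ring
    · simp
  · have h1 : a.1 - (2 : ℝ) • ∑ i, c i • X i z.1 = 0 := by
      apply eq_zero_of_forall_co
      intro y
      have h2 := hfd 0 y
      simp only [map_zero, Matrix.zero_apply, mul_zero, add_zero, Finset.sum_const_zero,
        sub_zero] at h2
      rw [map_sub, h2, map_smul, map_sum]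
      simp only [map_smul, smul_eq_mul]
      ring
    exact sub_eq_zero.1 h1
  · intro e
    have h2 := hfd e 0
    simp only [zero_apply, zero_add, zero_sub] at h2
    have h3 : ∑ i, ∑ j, (fderiv ℝ S z.1 e) i j * (c i * c j) =
        ∑ i, ∑ j, c i * c j * (fderiv ℝ S z.1 e) i j := by
      apply Finset.sum_congr rfl
      intro i _
      apply Finset.sum_congr rfl
      intro j _
      ring
    rw [h3]
    linarith

include hU hX hli hD in
/-- Horizontal Hamiltonian vectors at a covector annihilating `D`. -/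
theorem horizontal_form {z a : Ph E} (hz : z ∈ TU U) (hann : ∀ v ∈ D z.1, z.2 v = 0)
    (ha : a ∈ Submodule.span ℝ (horizontalHamVecs D z)) :
    ∃ c : Fin m → ℝ, a.1 = ∑ i, c i • X i z.1 ∧
      ∀ e, a.2 e = - ∑ i, c i * z.2 (fderiv ℝ (X i) z.1 e) := by
  have hx : z.1 ∈ U := hz
  obtain ⟨N', hN'U, hN', hxN', L, hLs, hL⟩ := exists_smooth_dual (e := X) hU hX hx (hli z.1 hx)
  induction ha using Submodule.span_induction with
  | mem a ha =>
    obtain ⟨V, Y, hV, hxV, hY, hYh⟩ := ha
    refine ⟨fun i => L i z.1 (Y z.1), ?_, ?_⟩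
    all_goals
      have hVN : V ∩ N' ∈ 𝓝 z.1 := inter_mem (hV.mem_nhds hxV) (hN'.mem_nhds hxN')
      have hYd : DifferentiableAt ℝ Y z.1 :=
        (hY.1.contDiffAt (hV.mem_nhds hxV)).differentiableAt (by simp)
      have hLd : ∀ i, DifferentiableAt ℝ (fun x => L i x (Y x)) z.1 := fun i =>
        (((hLs i).contDiffAt (hN'.mem_nhds hxN')).differentiableAt (by simp)).clm_apply hYd
      have hXd : ∀ i, DifferentiableAt ℝ (X i) z.1 := fun i => differentiableAt_field hU hX hz i
      have hYe : ∀ x ∈ V ∩ N', Y x = ∑ i, L i x (Y x) • X i x := by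
        intro x hx
        obtain ⟨c, hc⟩ := exists_coeff hD (hN'U hx.2) (hY.2 x hx.1)
        conv_lhs => rw [← hc]
        apply Finset.sum_congr rfl
        intro i _
        congr 1
        rw [← hc, map_sum]
        simp only [map_smul, hL x hx.2, smul_eq_mul, mul_ite, mul_one, mul_zero]
        simp
      have hfd : ∀ (v : E) (y : Co E), y a.1 - a.2 v = y (Y z.1) + z.2 (fderiv ℝ Y z.1 v) := by
        intro v y
        rw [← hYh.2 v y, fderiv_pair hYd]
    · have h1 : a.1 - Y z.1 = 0 := by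
        apply eq_zero_of_forall_co
        intro y
        have h2 := hfd 0 y
        simp only [map_zero, sub_zero, add_zero] at h2
        rw [map_sub, h2, sub_self]
      rw [sub_eq_zero.1 h1]
      exact hYe z.1 ⟨hxV, hxN'⟩
    · intro e
      have h2 := hfd e 0
      simp only [zero_apply, zero_add, zero_sub] at h2
      have hev : Y =ᶠ[𝓝 z.1] fun x => ∑ i, L i x (Y x) • X i x := by
        filter_upwards [hVN] with x hx
        exact hYe x hx
      have h3 : HasFDerivAt (fun x => ∑ i, L i x (Y x) • X i x)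
          (∑ i, (L i z.1 (Y z.1) • fderiv ℝ (X i) z.1 +
            (fderiv ℝ (fun x => L i x (Y x)) z.1).smulRight (X i z.1))) z.1 := by
        apply HasFDerivAt.fun_sum
        intro i _
        exact (hLd i).hasFDerivAt.fun_smul (hXd i).hasFDerivAt
      rw [hev.fderiv_eq, h3.fderiv, sum_apply, map_sum] at h2
      have h4 : ∀ i, z.2 ((L i z.1 (Y z.1) • fderiv ℝ (X i) z.1 +
            (fderiv ℝ (fun x => L i x (Y x)) z.1).smulRight (X i z.1)) e) =
            L i z.1 (Y z.1) * z.2 (fderiv ℝ (X i) z.1 e) := by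
        intro i
        rw [add_apply, smul_apply, ContinuousLinearMap.smulRight_apply, map_add, map_smul,
          map_smul, hann _ (mem_dist hD hx i), smul_zero, add_zero, smul_eq_mul]
      simp only [h4] at h2
      linarith
  | zero => exact ⟨fun _ => 0, by simp, by simp⟩
  | add a b _ _ iha ihb =>
    obtain ⟨c, hc1, hc2⟩ := iha
    obtain ⟨d, hd1, hd2⟩ := ihb
    refine ⟨fun i => c i + d i, ?_, ?_⟩
    · rw [Prod.fst_add, hc1, hd1, ← Finset.sum_add_distrib]
      apply Finset.sum_congr rfl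
      intro i _
      rw [add_smul]
    · intro e
      rw [Prod.snd_add, add_apply, hc2, hd2, ← neg_add, ← Finset.sum_add_distrib]
      congr 1
      apply Finset.sum_congr rfl
      intro i _
      ring
  | smul r a _ ih =>
    obtain ⟨c, hc1, hc2⟩ := ih
    refine ⟨fun i => r * c i, ?_, ?_⟩
    · rw [Prod.smul_fst, hc1, Finset.smul_sum]
      apply Finset.sum_congr rfl
      intro i _
      rw [smul_smul]
    · intro e
      rw [Prod.smul_snd, smul_apply, hc2, smul_eq_mul, mul_neg, Finset.mul_sum]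
      congr 1
      apply Finset.sum_congr rfl
      intro i _
      ring

end Pool.Agent.SubRiem
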