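import Mathlib
import Pool.Agent.SubRiem.Dense

/-!
# Spectral projections and the corresponding fields
-/

set_option autoImplicit false
set_option linter.unusedSectionVars false
set_option linter.unusedVariables false

namespace Pool.Agent.SubRiem

open Set Filter Topology VectorField
open scoped ContDiff Matrix Matrix.Norms.Operator

/-- The monic polynomial with root set `Z`. -/
noncomputable def muZ (Z : Finset ℝ) : Polynomial ℝ := ∏ s ∈ Z, (Polynomial.X - Polynomial.C s)

theorem muZ_dvd {Z : Finset ℝ} {f : Polynomial ℝ} (h : ∀ s ∈ Z, f.eval s = 0) : muZ Z ∣ f := by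
  apply Finset.prod_dvd_of_coprime
  · exact (Polynomial.pairwise_coprime_X_sub_C Function.injective_id).set_pairwise _
  · intro s hs
    exact Polynomial.dvd_iff_isRoot.2 (h s hs)

theorem aeval_congr {Z : Finset ℝ} {𝔸 : Type*} [Ring 𝔸] [Algebra ℝ 𝔸] {A : 𝔸}
    (hA : Polynomial.aeval A (muZ Z) = 0) {f g : Polynomial ℝ}
    (h : ∀ s ∈ Z, f.eval s = g.eval s) : Polynomial.aeval A f = Polynomial.aeval A g := by
  obtain ⟨q, hq⟩ := muZ_dvd (Z := Z) (f := f - g) (fun s hs => by
    rw [Polynomial.eval_sub, h s hs, sub_self])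
  have h1 : Polynomial.aeval A (f - g) = 0 := by rw [hq, map_mul, hA, zero_mul]
  rw [map_sub] at h1
  exact sub_eq_zero.1 h1

open Classical in
/-- The polynomial equal to `1` on `T` and to `0` on `Z \ T`. -/
noncomputable def ind (Z T : Finset ℝ) : Polynomial ℝ :=
  Lagrange.interpolate Z id (fun s => if s ∈ T then (1 : ℝ) else 0)

open Classical in
theorem ind_eval {Z T : Finset ℝ} {s : ℝ} (hs : s ∈ Z) :
    (ind Z T).eval s = if s ∈ T then 1 else 0 :=
  Lagrange.eval_interpolate_at_node _ (injOn_id _) hs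

section alg

variable {Z : Finset ℝ} {𝔸 : Type*} [Ring 𝔸] [Algebra ℝ 𝔸] {A : 𝔸}
  (hA : Polynomial.aeval A (muZ Z) = 0)

include hA

theorem ind_mul (T T' : Finset ℝ) : Polynomial.aeval A (ind Z T) * Polynomial.aeval A (ind Z T') =
    Polynomial.aeval A (ind Z (T ∩ T')) := by
  classical
  rw [← map_mul]
  apply aeval_congr hA
  intro s hs
  rw [Polynomial.eval_mul, ind_eval hs, ind_eval hs, ind_eval hs]
  by_cases h1 : s ∈ T <;> by_cases h2 : s ∈ T' <;> simp [h1, h2]

theorem ind_empty : Polynomial.aeval A (ind Z ∅) = 0 := by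
  classical
  have : Polynomial.aeval A (ind Z ∅) = Polynomial.aeval A (0 : Polynomial ℝ) := by
    apply aeval_congr hA
    intro s hs
    rw [ind_eval hs]; simp
  rw [this, map_zero]

theorem ind_univ : Polynomial.aeval A (ind Z Z) = 1 := by
  classical
  have : Polynomial.aeval A (ind Z Z) = Polynomial.aeval A (1 : Polynomial ℝ) := by
    apply aeval_congr hA
    intro s hs
    rw [ind_eval hs]; simp [hs]
  rw [this, map_one]

theorem ind_add {T T' : Finset ℝ} (h : Disjoint T T') :
    Polynomial.aeval A (ind Z T) + Polynomial.aeval A (ind Z T') =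
    Polynomial.aeval A (ind Z (T ∪ T')) := by
  classical
  rw [← map_add]
  apply aeval_congr hA
  intro s hs
  rw [Polynomial.eval_add, ind_eval hs, ind_eval hs, ind_eval hs]
  by_cases h1 : s ∈ T
  · have h2 : s ∉ T' := Finset.disjoint_left.1 h h1
    simp [h1, h2]
  · by_cases h2 : s ∈ T' <;> simp [h1, h2]

theorem ind_sum (T : Finset ℝ) : ∑ s ∈ T, Polynomial.aeval A (ind Z {s}) =
    Polynomial.aeval A (ind Z T) := by
  classical
  induction T using Finset.induction_on with
  | empty => rw [Finset.sum_empty, ind_empty hA]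
  | insert s T hs ih =>
    rw [Finset.sum_insert hs, ih, ind_add hA (Finset.disjoint_singleton_left.2 hs)]
    rfl

theorem ind_eigen (s : ℝ) : A * Polynomial.aeval A (ind Z {s}) =
    s • Polynomial.aeval A (ind Z {s}) := by
  classical
  have : Polynomial.aeval A (Polynomial.X * ind Z {s}) =
      Polynomial.aeval A (Polynomial.C s * ind Z {s}) := by
    apply aeval_congr hA
    intro t ht
    rw [Polynomial.eval_mul, Polynomial.eval_mul, Polynomial.eval_X, Polynomial.eval_C,
      ind_eval ht]
    by_cases h : t = s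
    · rw [h]
    · simp [h]
  rw [map_mul, map_mul, Polynomial.aeval_X, Polynomial.aeval_C, ← Algebra.smul_def] at this
  exact this

end alg

variable {E : Type*} [NormedAddCommGroup E] [NormedSpace ℝ E] [FiniteDimensional ℝ E]
  {ι : Type*} [Fintype ι] [DecidableEq ι]

/-- The fields obtained by applying a matrix to the frame. -/
noncomputable def YY (X : ι → E → E) (M : E → Matrix ι ι ℝ) (i : ι) (x : E) : E :=
  ∑ j, M x i j • X j x

theorem mom_YY (X : ι → E → E) (M : E → Matrix ι ι ℝ) (i : ι) (z : Ph E) :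
    mom (YY X M) i z = (M z.1 *ᵥ momv X z) i := by
  simp [mom, YY, Matrix.mulVec, dotProduct, momv]

theorem momv_YY (X : ι → E → E) (M : E → Matrix ι ι ℝ) (z : Ph E) :
    momv (YY X M) z = M z.1 *ᵥ momv X z := by
  funext i; exact mom_YY X M i z

theorem contDiffOn_YY {n : WithTop ℕ∞} {U : Set E} {X : ι → E → E}
    (hX : ∀ i, ContDiffOn ℝ n (X i) U) {M : E → Matrix ι ι ℝ} (hM : ContDiffOn ℝ n M U) (i : ι) :
    ContDiffOn ℝ n (YY X M i) U := by
  unfold YY
  apply ContDiffOn.sum
  intro j _
  exact (contDiffOn_entry hM i j).smul (hX j)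

/-- For symmetric idempotent `M`, the Hamiltonian of `YY X M` is `quad X M`. -/
theorem ham_YY {X : ι → E → E} {M : E → Matrix ι ι ℝ} {z : Ph E} (hs : (M z.1)ᵀ = M z.1)
    (hi : M z.1 * M z.1 = M z.1) : ham (YY X M) z = quad X M z := by
  rw [quad_eq]
  unfold ham
  congr 1
  have h1 : ∑ i, mom (YY X M) i z ^ 2 = (M z.1 *ᵥ momv X z) ⬝ᵥ (M z.1 *ᵥ momv X z) := by
    unfold dotProduct
    apply Finset.sum_congr rfl
    intro i _
    rw [mom_YY, sq]
  rw [h1, ← Matrix.dotProduct_transpose_mulVec, hs, Matrix.mulVec_mulVec, hi]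

/-- `YY` of an idempotent matrix reproduces itself. -/
theorem YY_idem {X : ι → E → E} {M : E → Matrix ι ι ℝ} {x : E} (hi : M x * M x = M x) (i : ι) :
    YY X M i x = ∑ k, M x i k • YY X M k x := by
  have h1 : ∑ k, M x i k • YY X M k x = ∑ j, (M x * M x) i j • X j x := by
    simp only [YY, Finset.smul_sum, Matrix.mul_apply, Finset.sum_smul, smul_smul]
    rw [Finset.sum_comm]
  rw [h1, hi]
  rfl

end Pool.Agent.SubRiem
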