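import Mathlib
import Pool.Agent.SubRiem.Proj

/-!
# Calculus of Lie brackets and modules of vector fields
-/

set_option autoImplicit false
set_option linter.unusedSectionVars false
set_option linter.unusedVariables false

namespace Pool.Agent.SubRiem

open Set Filter Topology VectorField
open scoped ContDiff Matrix Matrix.Norms.Operator

variable {E : Type*} [NormedAddCommGroup E] [NormedSpace ℝ E]

theorem lieBracket_sum_smul_right {κ : Type*} [Fintype κ] {V : E → E} {f : κ → E → ℝ}
    {W : κ → E → E} {x : E} (hf : ∀ k, DifferentiableAt ℝ (f k) x)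
    (hW : ∀ k, DifferentiableAt ℝ (W k) x) :
    lieBracket ℝ V (fun y => ∑ k, f k y • W k y) x =
      ∑ k, (f k x • lieBracket ℝ V (W k) x + fderiv ℝ (f k) x (V x) • W k x) := by
  have h1 : HasFDerivAt (fun y => ∑ k, f k y • W k y)
      (∑ k, (f k x • fderiv ℝ (W k) x + (fderiv ℝ (f k) x).smulRight (W k x))) x := by
    apply HasFDerivAt.fun_sum
    intro k _
    exact (hf k).hasFDerivAt.fun_smul (hW k).hasFDerivAt
  unfold lieBracket
  rw [h1.fderiv]
  simp only [sum_apply, add_apply, smul_apply, ContinuousLinearMap.smulRight_apply, map_sum,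
    map_smul, smul_sub, Finset.sum_add_distrib, Finset.sum_sub_distrib]
  abel

theorem lieBracket_sum_smul_left {κ : Type*} [Fintype κ] {V : E → E} {f : κ → E → ℝ}
    {W : κ → E → E} {x : E} (hf : ∀ k, DifferentiableAt ℝ (f k) x)
    (hW : ∀ k, DifferentiableAt ℝ (W k) x) :
    lieBracket ℝ (fun y => ∑ k, f k y • W k y) V x =
      ∑ k, (f k x • lieBracket ℝ (W k) V x - fderiv ℝ (f k) x (V x) • W k x) := by
  rw [lieBracket_swap, lieBracket_sum_smul_right hf hW, ← Finset.sum_neg_distrib]
  apply Finset.sum_congr rfl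
  intro k _
  rw [lieBracket_swap (V := W k)]
  simp only [smul_neg]
  abel

theorem lieBracket_congr_of_eqOn {U : Set E} (hU : IsOpen U) {V V' W W' : E → E}
    (hV : ∀ x ∈ U, V x = V' x) (hW : ∀ x ∈ U, W x = W' x) {x : E} (hx : x ∈ U) :
    lieBracket ℝ V W x = lieBracket ℝ V' W' x := by
  apply Filter.EventuallyEq.lieBracket_vectorField_eq
  · filter_upwards [hU.mem_nhds hx] with y hy using hV y hy
  · filter_upwards [hU.mem_nhds hx] with y hy using hW y hy

theorem jacobi {U : Set E} (hU : IsOpen U) {V W Y : E → E} (hV : ContDiffOn ℝ ∞ V U)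
    (hW : ContDiffOn ℝ ∞ W U) (hY : ContDiffOn ℝ ∞ Y U) {x : E} (hx : x ∈ U) :
    lieBracket ℝ V (lieBracket ℝ W Y) x = lieBracket ℝ (lieBracket ℝ V W) Y x +
      lieBracket ℝ W (lieBracket ℝ V Y) x := by
  have h2 : minSmoothness ℝ 2 ≤ (∞ : WithTop ℕ∞) := by
    rw [minSmoothness_of_isRCLikeNormedField]; exact ENat.LEInfty.out
  exact leibniz_identity_lieBracket (n := ∞) h2
    (hV.contDiffAt (hU.mem_nhds hx)) (hW.contDiffAt (hU.mem_nhds hx))
    (hY.contDiffAt (hU.mem_nhds hx))

/-- The module of smooth combinations (over `U`) of the fields satisfying `G`. -/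
inductive Md (U : Set E) (G : (E → E) → Prop) : (E → E) → Prop
  | base (B : E → E) (hB : G B) : Md U G B
  | add (V W : E → E) (hV : Md U G V) (hW : Md U G W) : Md U G (fun x => V x + W x)
  | smul (f : E → ℝ) (V : E → E) (hf : ContDiffOn ℝ ∞ f U) (hV : Md U G V) :
      Md U G (fun x => f x • V x)
  | zero : Md U G (fun _ => 0)
  | congr (V W : E → E) (h : ∀ x ∈ U, W x = V x) (hV : Md U G V) : Md U G W

section

variable {U : Set E} (hU : IsOpen U) {G : (E → E) → Prop}
  (hG : ∀ B, G B → ContDiffOn ℝ ∞ B U)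

include hG in
theorem Md.smooth {V : E → E} (hV : Md U G V) : ContDiffOn ℝ ∞ V U := by
  induction hV with
  | base B hB => exact hG B hB
  | add V W _ _ ihV ihW => exact ihV.add ihW
  | smul f V hf _ ih => exact hf.smul ih
  | zero => exact contDiffOn_const
  | congr V W h _ ih => exact ih.congr h

theorem Md.mem_span {V : E → E} (hV : Md U G V) {x : E} (hx : x ∈ U) :
    V x ∈ Submodule.span ℝ {v | ∃ B, G B ∧ v = B x} := by
  induction hV with
  | base B hB => exact Submodule.subset_span ⟨B, hB, rfl⟩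
  | add V W _ _ ihV ihW => exact Submodule.add_mem _ ihV ihW
  | smul f V hf _ ih => exact Submodule.smul_mem _ _ ih
  | zero => exact Submodule.zero_mem _
  | congr V W h _ ih => rw [h x hx]; exact ih

theorem Md.mono {G' : (E → E) → Prop} (h : ∀ B, G B → Md U G' B) {V : E → E} (hV : Md U G V) :
    Md U G' V := by
  induction hV with
  | base B hB => exact h B hB
  | add V W _ _ ihV ihW => exact Md.add _ _ ihV ihW
  | smul f V hf _ ih => exact Md.smul _ _ hf ih
  | zero => exact Md.zero
  | congr V W h _ ih => exact Md.congr _ _ h ih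

theorem Md.neg {V : E → E} (hV : Md U G V) : Md U G (fun x => - V x) :=
  Md.congr _ _ (fun x _ => by simp) (Md.smul (fun _ => (-1 : ℝ)) V contDiffOn_const hV)

theorem Md.sub {V W : E → E} (hV : Md U G V) (hW : Md U G W) : Md U G (fun x => V x - W x) :=
  Md.congr _ _ (fun x _ => by rw [sub_eq_add_neg]) (Md.add _ _ hV hW.neg)

theorem Md.sum {κ : Type*} (s : Finset κ) {V : κ → E → E} (hV : ∀ k ∈ s, Md U G (V k)) :
    Md U G (fun x => ∑ k ∈ s, V k x) := by
  classical
  induction s using Finset.induction_on with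
  | empty => simpa using Md.zero
  | insert k s hk ih =>
    have h1 := hV k (Finset.mem_insert_self k s)
    have h2 := ih fun k' hk' => hV k' (Finset.mem_insert_of_mem hk')
    exact Md.congr _ _ (fun x _ => by rw [Finset.sum_insert hk]) (Md.add _ _ h1 h2)

include hU hG

/-- A derivation property of the bracket: it suffices to check generators. -/
theorem Md.bracket' {G' : (E → E) → Prop} {Y : E → E} (hY : ContDiffOn ℝ ∞ Y U)
    (hGG : ∀ B, G B → Md U G' B)
    (h : ∀ B, G B → Md U G' (lieBracket ℝ Y B)) {V : E → E} (hV : Md U G V) :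
    Md U G' (lieBracket ℝ Y V) := by
  induction hV with
  | base B hB => exact h B hB
  | add V W hV hW ihV ihW =>
    refine Md.congr _ _ ?_ (Md.add _ _ ihV ihW)
    intro x hx
    have hdV : DifferentiableAt ℝ V x :=
      ((Md.smooth hG hV).contDiffAt (hU.mem_nhds hx)).differentiableAt (by simp)
    have hdW : DifferentiableAt ℝ W x :=
      ((Md.smooth hG hW).contDiffAt (hU.mem_nhds hx)).differentiableAt (by simp)
    exact lieBracket_add_right hdV hdW
  | smul f V hf hV ih =>
    have h1 : ContDiffOn ℝ ∞ (fun x => fderiv ℝ f x (Y x)) U :=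
      (contDiffOn_fderiv_of_smooth hU hf).clm_apply hY
    refine Md.congr _ _ ?_ (Md.add _ _ (Md.smul _ _ h1 (hV.mono hGG)) (Md.smul _ _ hf ih))
    intro x hx
    have hdV : DifferentiableAt ℝ V x :=
      ((Md.smooth hG hV).contDiffAt (hU.mem_nhds hx)).differentiableAt (by simp)
    have hdf : DifferentiableAt ℝ f x :=
      (hf.contDiffAt (hU.mem_nhds hx)).differentiableAt (by simp)
    exact lieBracket_smul_right hdf hdV
  | zero =>
    refine Md.congr _ _ ?_ Md.zero
    intro x hx
    have : lieBracket ℝ Y (fun _ => (0 : E)) = 0 := lieBracket_zero_right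
    rw [this]; rfl
  | congr V W hVW hV ih =>
    refine Md.congr _ _ ?_ ih
    intro x hx
    exact lieBracket_congr_of_eqOn hU (fun _ _ => rfl) hVW hx

theorem Md.bracket {Y : E → E} (hY : ContDiffOn ℝ ∞ Y U)
    (h : ∀ B, G B → Md U G (lieBracket ℝ Y B)) {V : E → E} (hV : Md U G V) :
    Md U G (lieBracket ℝ Y V) :=
  Md.bracket' hU hG hY (fun B hB => Md.base B hB) h hV

theorem Md.bracket_left' {G' : (E → E) → Prop} {Y : E → E} (hY : ContDiffOn ℝ ∞ Y U)
    (hGG : ∀ B, G B → Md U G' B)
    (h : ∀ B, G B → Md U G' (lieBracket ℝ B Y)) {V : E → E} (hV : Md U G V) :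
    Md U G' (lieBracket ℝ V Y) := by
  have h1 : Md U G' (lieBracket ℝ Y V) := by
    apply Md.bracket' hU hG hY hGG _ hV
    intro B hB
    exact Md.congr _ _ (fun x _ => by rw [lieBracket_swap]) (h B hB).neg
  exact Md.congr _ _ (fun x _ => by rw [lieBracket_swap]) h1.neg

end

end Pool.Agent.SubRiem
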