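import Mathlib
import Pool.Agent.SubRiem.BracketCalc

/-!
# Commuting Hamiltonians and the brackets of the spectral distributions
-/

set_option autoImplicit false
set_option linter.unusedSectionVars false
set_option linter.unusedVariables false

namespace Pool.Agent.SubRiem

open Set Filter Topology VectorField
open scoped ContDiff Matrix Matrix.Norms.Operator

variable {E : Type*} [NormedAddCommGroup E] [NormedSpace ℝ E] [FiniteDimensional ℝ E]
  {ι : Type*} [Fintype ι] [DecidableEq ι]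

/-- The spectral projection. -/
noncomputable def PT (S : E → Matrix ι ι ℝ) (Z T : Finset ℝ) (x : E) : Matrix ι ι ℝ :=
  Polynomial.aeval (S x) (ind Z T)

/-- The fields spanning the spectral distribution. -/
noncomputable def YT (X : ι → E → E) (S : E → Matrix ι ι ℝ) (Z T : Finset ℝ) : ι → E → E :=
  YY X (PT S Z T)

/-- The standing assumptions of the spectral analysis. -/
structure Setup (U : Set E) (X : ι → E → E) (S : E → Matrix ι ι ℝ) (Z : Finset ℝ) : Prop where
  hU : IsOpen U
  hX : ∀ i, ContDiffOn ℝ ∞ (X i) U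
  hli : ∀ x ∈ U, LinearIndependent ℝ (fun i => X i x)
  hgen : ∀ x ∈ U, Submodule.span ℝ {v | ∃ B, Br X B ∧ v = B x} = ⊤
  hS : ContDiffOn ℝ ∞ S U
  hSs : ∀ x ∈ U, ∀ i j, S x i j = S x j i
  hOrb : OrbNear U X S
  hμ : ∀ x ∈ U, Polynomial.aeval (S x) (muZ Z) = 0

section

variable {U : Set E} {X : ι → E → E} {S : E → Matrix ι ι ℝ} {Z : Finset ℝ}
  (h : Setup U X S Z)

include h

theorem Setup.transpose {x : E} (hx : x ∈ U) : (S x)ᵀ = S x := by
  ext i j
  rw [Matrix.transpose_apply]
  exact (h.hSs x hx i j).symm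

theorem Setup.PT_symm (T : Finset ℝ) {x : E} (hx : x ∈ U) : (PT S Z T x)ᵀ = PT S Z T x :=
  aeval_symm (h.transpose hx) _

theorem Setup.PT_symm' (T : Finset ℝ) {x : E} (hx : x ∈ U) (i j : ι) :
    PT S Z T x i j = PT S Z T x j i := by
  conv_lhs => rw [← h.PT_symm T hx]
  rfl

theorem Setup.PT_idem (T : Finset ℝ) {x : E} (hx : x ∈ U) :
    PT S Z T x * PT S Z T x = PT S Z T x := by
  unfold PT
  rw [ind_mul (h.hμ x hx), Finset.inter_self]

theorem Setup.PT_mul (T T' : Finset ℝ) {x : E} (hx : x ∈ U) :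
    PT S Z T x * PT S Z T' x = PT S Z (T ∩ T') x := ind_mul (h.hμ x hx) T T'

theorem Setup.PT_empty {x : E} (hx : x ∈ U) : PT S Z ∅ x = 0 := ind_empty (h.hμ x hx)

theorem Setup.PT_univ {x : E} (hx : x ∈ U) : PT S Z Z x = 1 := ind_univ (h.hμ x hx)

theorem Setup.PT_add {T T' : Finset ℝ} (hd : Disjoint T T') {x : E} (hx : x ∈ U) :
    PT S Z T x + PT S Z T' x = PT S Z (T ∪ T') x := ind_add (h.hμ x hx) hd

theorem Setup.PT_smooth (T : Finset ℝ) : ContDiffOn ℝ ∞ (PT S Z T) U := contDiffOn_aeval h.hS _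

theorem Setup.YT_smooth (T : Finset ℝ) (i : ι) : ContDiffOn ℝ ∞ (YT X S Z T i) U :=
  contDiffOn_YY h.hX (h.PT_smooth T) i

theorem Setup.YT_idem (T : Finset ℝ) (i : ι) {x : E} (hx : x ∈ U) :
    YT X S Z T i x = ∑ k, PT S Z T x i k • YT X S Z T k x :=
  YY_idem (h.PT_idem T hx) i

theorem Setup.YT_add {T T' : Finset ℝ} (hd : Disjoint T T') (i : ι) {x : E} (hx : x ∈ U) :
    YT X S Z (T ∪ T') i x = YT X S Z T i x + YT X S Z T' i x := by
  unfold YT YY
  rw [← Finset.sum_add_distrib]
  apply Finset.sum_congr rfl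
  intro j _
  rw [← h.PT_add hd hx, Matrix.add_apply, add_smul]

theorem Setup.YT_univ (i : ι) {x : E} (hx : x ∈ U) : YT X S Z Z i x = X i x := by
  unfold YT YY
  rw [h.PT_univ hx]
  simp [Matrix.one_apply]

/-- The Hamiltonians of the spectral distributions commute. -/
theorem Setup.poisson_zero [Nonempty ι] (T T' : Finset ℝ) : ∀ z ∈ TU U,
    ∑ i, ∑ j, mom (YT X S Z T) i z * mom (YT X S Z T') j z *
      z.2 (lieBracket ℝ (YT X S Z T i) (YT X S Z T' j) z.1) = 0 := by
  have hY := h.YT_smooth T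
  have hY' := h.YT_smooth T'
  apply eq_zero_of_good h.hU h.hX h.hli h.hgen
  · apply ContDiffOn.continuousOn (𝕜 := ℝ) (n := ∞)
    apply ContDiffOn.sum
    intro i _
    apply ContDiffOn.sum
    intro j _
    apply ContDiffOn.mul
    · exact (contDiffOn_mom (hY i)).mul (contDiffOn_mom (hY' j))
    · exact contDiff_snd.contDiffOn.clm_apply
        (contDiffOn_basic (contDiffOn_lieBracket h.hU (hY i) (hY' j)))
  · intro z hz hg
    obtain ⟨N, hNU, hN, hzN, Φ, hΦ⟩ := h.hOrb z hz hg
    have hsymb := Orb.symb h.hU h.hX h.hS h.hSs hN hNU hΦ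
    exact Symb.poisson h.hU h.hX hN hNU
      (Symb.aeval h.hU h.hX hN hNU hsymb (ind Z T))
      (Symb.aeval h.hU h.hX hN hNU hsymb (ind Z T'))
      (fun z _ => by
        rw [← map_mul, ← map_mul, mul_comm]) (h.PT_smooth T)
      (fun x hx i j => h.PT_symm' T hx i j) (h.PT_smooth T')
      (fun x hx i j => h.PT_symm' T' hx i j) hY hY'
      (fun z hz => ham_YY (h.PT_symm T hz) (h.PT_idem T hz))
      (fun z hz => ham_YY (h.PT_symm T' hz) (h.PT_idem T' hz)) hzN hg.1

theorem Setup.poisson' [Nonempty ι] (T T' : Finset ℝ) {x : E} (hx : x ∈ U) (p : Co E) :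
    ∑ i, ∑ j, p (YT X S Z T i x) * p (YT X S Z T' j x) *
      p (lieBracket ℝ (YT X S Z T i) (YT X S Z T' j) x) = 0 :=
  h.poisson_zero T T' (x, p) hx

theorem Setup.exists_co {x : E} (hx : x ∈ U) (w : ι → ℝ) : ∃ y : Co E, ∀ i, y (X i x) = w i :=
  exists_dual_co (h.hli x hx) w

theorem Setup.co_YT (T : Finset ℝ) {x : E} (y : Co E) (i : ι) :
    y (YT X S Z T i x) = (PT S Z T x *ᵥ fun j => y (X j x)) i := by
  simp [YT, YY, Matrix.mulVec, dotProduct]

/-- If `p` kills the fields `YT T'` then brackets are reproduced by the projection (right slot). -/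
theorem Setup.bracket_right (T T' : Finset ℝ) {x : E} (hx : x ∈ U) {p : Co E}
    (hp : ∀ j, p (YT X S Z T' j x) = 0) (V : E → E) (j : ι) :
    p (lieBracket ℝ V (YT X S Z T' j) x) =
      ∑ k, PT S Z T' x j k * p (lieBracket ℝ V (YT X S Z T' k) x) := by
  have hd : ∀ k, DifferentiableAt ℝ (fun y => PT S Z T' y j k) x := fun k =>
    ((contDiffOn_entry (h.PT_smooth T') j k).contDiffAt (h.hU.mem_nhds hx)).differentiableAt
      (by simp)
  have hY : ∀ k, DifferentiableAt ℝ (YT X S Z T' k) x := fun k =>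
    ((h.YT_smooth T' k).contDiffAt (h.hU.mem_nhds hx)).differentiableAt (by simp)
  rw [lieBracket_congr_of_eqOn h.hU (V' := V) (fun _ _ => rfl)
    (fun y hy => h.YT_idem T' j hy) hx, lieBracket_sum_smul_right hd hY, map_sum]
  apply Finset.sum_congr rfl
  intro k _
  rw [map_add, map_smul, map_smul, hp k, smul_zero, add_zero, smul_eq_mul]

theorem Setup.bracket_left (T T' : Finset ℝ) {x : E} (hx : x ∈ U) {p : Co E}
    (hp : ∀ j, p (YT X S Z T j x) = 0) (V : E → E) (j : ι) :
    p (lieBracket ℝ (YT X S Z T j) V x) =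
      ∑ k, PT S Z T x j k * p (lieBracket ℝ (YT X S Z T k) V x) := by
  rw [lieBracket_swap, map_neg, h.bracket_right T T hx hp V j, ← Finset.sum_neg_distrib]
  apply Finset.sum_congr rfl
  intro k _
  rw [lieBracket_swap (V := V), map_neg]
  ring

/-- First consequence of commutation. -/
theorem Setup.kill [Nonempty ι] (T T' : Finset ℝ) {x : E} (hx : x ∈ U) {p : Co E}
    (hp : ∀ j, p (YT X S Z T' j x) = 0) (j : ι) :
    ∑ i, p (YT X S Z T i x) * p (lieBracket ℝ (YT X S Z T i) (YT X S Z T' j) x) = 0 := by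
  set κ : ι → ℝ := fun j =>
    ∑ i, p (YT X S Z T i x) * p (lieBracket ℝ (YT X S Z T i) (YT X S Z T' j) x) with hκ
  -- the linearised identity
  have h1 : ∀ y : Co E, ∑ j, y (YT X S Z T' j x) * κ j = 0 := by
    intro y
    have key : ∀ ε : ℝ, ε * (∑ j, y (YT X S Z T' j x) * κ j) +
        ε ^ 2 * (∑ i, ∑ j, (p (YT X S Z T i x) * y (YT X S Z T' j x) *
          y (lieBracket ℝ (YT X S Z T i) (YT X S Z T' j) x) +
          y (YT X S Z T i x) * y (YT X S Z T' j x) *
          p (lieBracket ℝ (YT X S Z T i) (YT X S Z T' j) x))) +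
        ε ^ 3 * (∑ i, ∑ j, y (YT X S Z T i x) * y (YT X S Z T' j x) *
          y (lieBracket ℝ (YT X S Z T i) (YT X S Z T' j) x)) = 0 := by
      intro ε
      have h2 := h.poisson' T T' hx (p + ε • y)
      simp only [add_apply, smul_apply, smul_eq_mul, hp, zero_add] at h2
      rw [← h2]
      simp only [hκ, Finset.mul_sum]
      rw [Finset.sum_comm, ← Finset.sum_add_distrib, ← Finset.sum_add_distrib]
      apply Finset.sum_congr rfl
      intro i _
      rw [← Finset.sum_add_distrib, ← Finset.sum_add_distrib]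
      apply Finset.sum_congr rfl
      intro j _
      ring
    have e1 := key 1
    have e2 := key (-1)
    have e3 := key 2
    linarith
  have h2 : ∀ j, κ j = (PT S Z T' x *ᵥ κ) j := by
    intro j
    simp only [hκ, Matrix.mulVec, dotProduct, Finset.mul_sum]
    rw [Finset.sum_comm]
    apply Finset.sum_congr rfl
    intro i _
    rw [h.bracket_right T T' hx hp, Finset.mul_sum]
    apply Finset.sum_congr rfl
    intro k _
    ring
  obtain ⟨y, hy⟩ := h.exists_co hx κ
  have h3 := h1 y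
  simp only [h.co_YT T', hy] at h3
  have h4 : κ ⬝ᵥ κ = 0 := by
    rw [← h3]
    unfold dotProduct
    apply Finset.sum_congr rfl
    intro j _
    rw [← h2 j]
  have h5 := dotProduct_self_eq_zero.1 h4
  exact congrFun h5 j

/-- Second consequence: brackets of different spectral distributions lie in their sum. -/
theorem Setup.kill_bracket [Nonempty ι] {T T' : Finset ℝ} (hd : Disjoint T T') {x : E}
    (hx : x ∈ U) {p : Co E} (hp : ∀ j, p (YT X S Z T j x) = 0)
    (hp' : ∀ j, p (YT X S Z T' j x) = 0) (i j : ι) :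
    p (lieBracket ℝ (YT X S Z T i) (YT X S Z T' j) x) = 0 := by
  set l : ι → ℝ := fun i => p (lieBracket ℝ (YT X S Z T i) (YT X S Z T' j) x) with hl
  have h2 : ∀ i, l i = (PT S Z T x *ᵥ l) i := fun i => h.bracket_left T T' hx hp _ i
  obtain ⟨y, hy⟩ := h.exists_co hx (PT S Z T x *ᵥ l)
  have hyT : ∀ i, y (YT X S Z T i x) = l i := by
    intro i
    rw [h.co_YT T]
    simp only [hy]
    rw [show (fun j => (PT S Z T x *ᵥ l) j) = PT S Z T x *ᵥ l from rfl, Matrix.mulVec_mulVec,
      h.PT_idem T hx, ← h2 i]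
  have hyT' : ∀ i, y (YT X S Z T' i x) = 0 := by
    intro i
    rw [h.co_YT T']
    simp only [hy]
    rw [show (fun j => (PT S Z T x *ᵥ l) j) = PT S Z T x *ᵥ l from rfl, Matrix.mulVec_mulVec,
      h.PT_mul T' T hx, Finset.disjoint_iff_inter_eq_empty.1 hd.symm, h.PT_empty hx,
      Matrix.zero_mulVec]
    rfl
  have e1 := h.kill T T' hx (p := p + y) (fun j => by rw [add_apply, hp' j, hyT' j, add_zero]) j
  have e2 := h.kill T T' hx (p := y) hyT' j
  simp only [add_apply, hp, zero_add] at e1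
  have h3 : ∑ i, l i * l i = 0 := by
    have h4 : ∑ i, y (YT X S Z T i x) *
        (p (lieBracket ℝ (YT X S Z T i) (YT X S Z T' j) x) +
          y (lieBracket ℝ (YT X S Z T i) (YT X S Z T' j) x)) =
        ∑ i, l i * l i + ∑ i, y (YT X S Z T i x) *
          y (lieBracket ℝ (YT X S Z T i) (YT X S Z T' j) x) := by
      rw [← Finset.sum_add_distrib]
      apply Finset.sum_congr rfl
      intro i _
      rw [mul_add, hyT i]
    rw [h4, e2, add_zero] at e1
    exact e1
  have h5 := dotProduct_self_eq_zero.1 (show l ⬝ᵥ l = 0 from h3)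
  exact congrFun h5 i

end

end Pool.Agent.SubRiem
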