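import Mathlib
import Pool.Agent.SubRiem.Poisson

/-!
# The Lie hulls of the spectral distributions
-/

set_option autoImplicit false
set_option linter.unusedSectionVars false
set_option linter.unusedVariables false

namespace Pool.Agent.SubRiem

open Set Filter Topology VectorField
open scoped ContDiff Matrix Matrix.Norms.Operator

variable {E : Type*} [NormedAddCommGroup E] [NormedSpace ℝ E] [FiniteDimensional ℝ E]
  {ι : Type*} [Fintype ι] [DecidableEq ι]

theorem mem_of_forall_co {W : Submodule ℝ E} {v : E}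
    (h : ∀ p : Co E, (∀ w ∈ W, p w = 0) → p v = 0) : v ∈ W := by
  by_contra hv
  obtain ⟨f, hf, hfW⟩ := Submodule.exists_dual_map_eq_bot_of_notMem hv inferInstance
  apply hf
  exact h (LinearMap.toContinuousLinearMap f) (fun w hw => by
    have : f w ∈ W.map f := Submodule.mem_map_of_mem hw
    rw [hfW] at this
    exact this)

/-- Generators of the Lie hull of the spectral distribution of `T`. -/
def GT (X : ι → E → E) (S : E → Matrix ι ι ℝ) (Z T : Finset ℝ) (B : E → E) : Prop :=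
  ∃ t ∈ T, Br (YT X S Z {t}) B

/-- The Lie hull at a point. -/
def LT (X : ι → E → E) (S : E → Matrix ι ι ℝ) (Z T : Finset ℝ) (x : E) : Submodule ℝ E :=
  Submodule.span ℝ {v | ∃ B, GT X S Z T B ∧ v = B x}

section

variable {U : Set E} {X : ι → E → E} {S : E → Matrix ι ι ℝ} {Z : Finset ℝ}
  (h : Setup U X S Z) [Nonempty ι]

include h

theorem Setup.YT_sub {T T' : Finset ℝ} (hT : T ⊆ T') (k : ι) {x : E} (hx : x ∈ U) :
    YT X S Z T k x = ∑ l, PT S Z T x k l • YT X S Z T' l x := by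
  have h1 : ∑ l, PT S Z T x k l • YT X S Z T' l x =
      ∑ j, (PT S Z T x * PT S Z T' x) k j • X j x := by
    simp only [YT, YY, Finset.smul_sum, Matrix.mul_apply, Finset.sum_smul, smul_smul]
    rw [Finset.sum_comm]
  rw [h1, h.PT_mul T T' hx, Finset.inter_eq_left.2 hT]
  rfl

theorem Setup.bracket_mem {T T' : Finset ℝ} (hd : Disjoint T T') (i j : ι) {x : E}
    (hx : x ∈ U) : lieBracket ℝ (YT X S Z T i) (YT X S Z T' j) x ∈
      Submodule.span ℝ (range fun k => YT X S Z (T ∪ T') k x) := by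
  apply mem_of_forall_co
  intro p hp
  apply h.kill_bracket hd hx
  · intro k
    rw [h.YT_sub (Finset.subset_union_left (s₂ := T')) k hx, map_sum]
    apply Finset.sum_eq_zero
    intro l _
    rw [map_smul, hp _ (Submodule.subset_span ⟨l, rfl⟩), smul_zero]
  · intro k
    rw [h.YT_sub (Finset.subset_union_right (s₁ := T)) k hx, map_sum]
    apply Finset.sum_eq_zero
    intro l _
    rw [map_smul, hp _ (Submodule.subset_span ⟨l, rfl⟩), smul_zero]

variable {θ : ι → E → Co E} (hθ : ∀ k, ContDiffOn ℝ ∞ (θ k) U)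
  (hθX : ∀ x ∈ U, ∀ k j, θ k x (X j x) = if k = j then 1 else 0)

include hθ hθX

theorem Setup.coframe (T : Finset ℝ) {x : E} (hx : x ∈ U) {v : E}
    (hv : v ∈ Submodule.span ℝ (range fun k => YT X S Z T k x)) :
    v = ∑ k, θ k x v • YT X S Z T k x := by
  induction hv using Submodule.span_induction with
  | mem v hv =>
    obtain ⟨j, rfl⟩ := hv
    have h1 : ∀ k, θ k x (YT X S Z T j x) = PT S Z T x j k := by
      intro k
      simp [YT, YY, hθX x hx]
    simp only [h1]
    exact h.YT_idem T j hx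
  | zero => simp
  | add v w _ _ ihv ihw =>
    simp only [map_add, add_smul, Finset.sum_add_distrib]
    rw [← ihv, ← ihw]
  | smul c v _ ih =>
    simp only [map_smul, smul_assoc, ← Finset.smul_sum]
    rw [← ih]

theorem Setup.bracket_Md {T T' : Finset ℝ} (hd : Disjoint T T') (i j : ι) :
    Md U (fun B => (∃ k, B = YT X S Z T k) ∨ ∃ k, B = YT X S Z T' k)
      (lieBracket ℝ (YT X S Z T i) (YT X S Z T' j)) := by
  have hbr : ContDiffOn ℝ ∞ (lieBracket ℝ (YT X S Z T i) (YT X S Z T' j)) U :=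
    contDiffOn_lieBracket h.hU (h.YT_smooth T i) (h.YT_smooth T' j)
  have h1 : Md U (fun B => (∃ k, B = YT X S Z T k) ∨ ∃ k, B = YT X S Z T' k)
      (fun x => ∑ k, θ k x (lieBracket ℝ (YT X S Z T i) (YT X S Z T' j) x) •
        (YT X S Z T k x + YT X S Z T' k x)) := by
    apply Md.sum
    intro k _
    apply Md.smul (fun x => θ k x (lieBracket ℝ (YT X S Z T i) (YT X S Z T' j) x))
      (fun x => YT X S Z T k x + YT X S Z T' k x)
    · exact (hθ k).clm_apply hbr
    · exact Md.add _ _ (Md.base _ (Or.inl ⟨k, rfl⟩)) (Md.base _ (Or.inr ⟨k, rfl⟩))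
  refine Md.congr _ _ ?_ h1
  intro x hx
  have h2 := h.coframe hθ hθX (T ∪ T') hx (h.bracket_mem hd i j hx)
  conv_lhs => rw [h2]
  apply Finset.sum_congr rfl
  intro k _
  rw [h.YT_add hd k hx]

theorem Setup.claim {s t : ℝ} (hst : s ≠ t) {B : E → E} (hB : Br (YT X S Z {s}) B) :
    ∀ j, Md U (fun B' => Br (YT X S Z {s}) B' ∨ ∃ k, B' = YT X S Z {t} k)
      (lieBracket ℝ (YT X S Z {t} j) B) := by
  have hts : Disjoint ({t} : Finset ℝ) {s} := by simpa using hst.symm
  have hYs := h.YT_smooth {s}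
  have hYt := h.YT_smooth {t}
  have hH : ∀ B', (Br (YT X S Z {s}) B' ∨ ∃ k, B' = YT X S Z {t} k) → ContDiffOn ℝ ∞ B' U := by
    rintro B' (hB' | ⟨k, rfl⟩)
    · exact hB'.smooth h.hU hYs
    · exact hYt k
  have hbase : ∀ i j, Md U (fun B' => Br (YT X S Z {s}) B' ∨ ∃ k, B' = YT X S Z {t} k)
      (lieBracket ℝ (YT X S Z {t} j) (YT X S Z {s} i)) := by
    intro i j
    refine (h.bracket_Md hθ hθX hts j i).mono ?_
    rintro B' (⟨k, rfl⟩ | ⟨k, rfl⟩)
    · exact Md.base _ (Or.inr ⟨k, rfl⟩)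
    · exact Md.base _ (Or.inl (Br.base k))
  induction hB with
  | base i => intro j; exact hbase i j
  | step i B hB ih =>
    intro j
    have hBs : ContDiffOn ℝ ∞ B U := hB.smooth h.hU hYs
    refine Md.congr _ _ (fun x hx => jacobi h.hU (hYt j) (hYs i) hBs hx) (Md.add _ _ ?_ ?_)
    · apply Md.bracket_left' h.hU
        (G := fun B' => (∃ k, B' = YT X S Z {t} k) ∨ ∃ k, B' = YT X S Z {s} k) _ hBs _ _
        (h.bracket_Md hθ hθX hts j i)
      · rintro B' (⟨k, rfl⟩ | ⟨k, rfl⟩)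
        · exact hYt k
        · exact hYs k
      · rintro B' (⟨k, rfl⟩ | ⟨k, rfl⟩)
        · exact Md.base _ (Or.inr ⟨k, rfl⟩)
        · exact Md.base _ (Or.inl (Br.base k))
      · rintro B' (⟨k, rfl⟩ | ⟨k, rfl⟩)
        · exact ih k
        · exact Md.base _ (Or.inl (Br.step k B hB))
    · apply Md.bracket h.hU hH (hYs i) _ (ih j)
      rintro B' (hB' | ⟨k, rfl⟩)
      · exact Md.base _ (Or.inl (Br.step i B' hB'))
      · exact Md.congr _ _ (fun x _ => by rw [lieBracket_swap]) (hbase i k).neg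

omit hθ hθX in
theorem Setup.GT_smooth {T : Finset ℝ} {B : E → E} (hB : GT X S Z T B) :
    ContDiffOn ℝ ∞ B U := by
  obtain ⟨t, _, hB⟩ := hB
  exact hB.smooth h.hU (h.YT_smooth {t})

/-- The Lie hull is preserved by its generators. -/
theorem Setup.ad_YT {T : Finset ℝ} {t : ℝ} (ht : t ∈ T) (j : ι) {V : E → E}
    (hV : Md U (GT X S Z T) V) : Md U (GT X S Z T) (lieBracket ℝ (YT X S Z {t} j) V) := by
  apply Md.bracket h.hU (fun B hB => h.GT_smooth hB) (h.YT_smooth {t} j) _ hV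
  rintro B ⟨s, hs, hB⟩
  by_cases hst : s = t
  · subst hst
    exact Md.base _ ⟨s, hs, Br.step j B hB⟩
  · refine (h.claim hθ hθX hst hB j).mono ?_
    rintro B' (hB' | ⟨k, rfl⟩)
    · exact Md.base _ ⟨s, hs, hB'⟩
    · exact Md.base _ ⟨t, ht, Br.base k⟩

/-- The Lie hull is involutive. -/
theorem Setup.involutive {T : Finset ℝ} {B : E → E} (hB : GT X S Z T B) {V : E → E}
    (hV : Md U (GT X S Z T) V) : Md U (GT X S Z T) (lieBracket ℝ B V) := by
  obtain ⟨t, ht, hB⟩ := hB
  have hYs := h.YT_smooth {t}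
  induction hB generalizing V with
  | base i => exact h.ad_YT hθ hθX ht i hV
  | step i B hB ih =>
    have hVs := hV.smooth (fun B hB => h.GT_smooth hB)
    refine Md.congr _ _ ?_ (Md.sub (h.ad_YT hθ hθX ht i (ih hV))
      (ih (h.ad_YT hθ hθX ht i hV)))
    intro x hx
    have := jacobi h.hU (hYs i) (hB.smooth h.hU hYs) hVs hx
    rw [this]
    abel

/-- The Lie hulls of all spectral distributions together span everything. -/
theorem Setup.Br_Md {B : E → E} (hB : Br X B) : Md U (GT X S Z Z) B := by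
  have hXi : ∀ i, ∀ x ∈ U, X i x = ∑ t ∈ Z, YT X S Z {t} i x := by
    intro i x hx
    have h1 : ∑ t ∈ Z, YT X S Z {t} i x = ∑ j, (∑ t ∈ Z, PT S Z {t} x) i j • X j x := by
      simp only [YT, YY, Matrix.sum_apply, Finset.sum_smul]
      rw [Finset.sum_comm]
    have h2 : ∑ t ∈ Z, PT S Z {t} x = 1 := by
      unfold PT
      rw [ind_sum (h.hμ x hx), ind_univ (h.hμ x hx)]
    rw [h1, h2]
    simp [Matrix.one_apply]
  have hXM : ∀ i, Md U (GT X S Z Z) (X i) := fun i =>
    Md.congr _ _ (hXi i) (Md.sum _ fun t ht => Md.base _ ⟨t, ht, Br.base i⟩)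
  induction hB with
  | base i => exact hXM i
  | step i B hB ih =>
    have h1 : Md U (GT X S Z Z) (fun x => ∑ t ∈ Z, lieBracket ℝ (YT X S Z {t} i) B x) :=
      Md.sum _ fun t ht => h.ad_YT hθ hθX ht i ih
    refine Md.congr _ _ ?_ h1
    intro x hx
    have hBs : ContDiffOn ℝ ∞ B U := hB.smooth h.hU h.hX
    rw [lieBracket_congr_of_eqOn h.hU (hXi i) (fun _ _ => rfl) hx]
    have hd : ∀ t ∈ Z, HasFDerivAt (YT X S Z {t} i) (fderiv ℝ (YT X S Z {t} i) x) x := fun t _ =>
      (((h.YT_smooth {t} i).contDiffAt (h.hU.mem_nhds hx)).differentiableAt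
        (by simp)).hasFDerivAt
    unfold lieBracket
    rw [(HasFDerivAt.fun_sum hd).fderiv]
    simp only [map_sum, sum_apply, Finset.sum_sub_distrib]

theorem Setup.LT_univ {x : E} (hx : x ∈ U) : LT X S Z Z x = ⊤ := by
  rw [eq_top_iff, ← h.hgen x hx, Submodule.span_le]
  rintro _ ⟨B, hB, rfl⟩
  exact (h.Br_Md hθ hθX hB).mem_span hx

omit hθ hθX in
theorem Setup.LT_union (T T' : Finset ℝ) (x : E) :
    LT X S Z (T ∪ T') x ≤ LT X S Z T x ⊔ LT X S Z T' x := by
  unfold LT
  rw [Submodule.span_le]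
  rintro _ ⟨B, ⟨t, ht, hB⟩, rfl⟩
  rcases Finset.mem_union.1 ht with h1 | h1
  · exact Submodule.mem_sup_left (Submodule.subset_span ⟨B, ⟨t, h1, hB⟩, rfl⟩)
  · exact Submodule.mem_sup_right (Submodule.subset_span ⟨B, ⟨t, h1, hB⟩, rfl⟩)

end

end Pool.Agent.SubRiem
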