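import Mathlib
import Pool.Agent.SubRiem.Span

/-!
# Lifts to phase space and independence of the Lie hulls
-/

set_option autoImplicit false
set_option linter.unusedSectionVars false
set_option linter.unusedVariables false

namespace Pool.Agent.SubRiem

open Set Filter Topology VectorField
open scoped ContDiff Matrix Matrix.Norms.Operator

variable {E : Type*} [NormedAddCommGroup E] [NormedSpace ℝ E] [FiniteDimensional ℝ E]
  {ι : Type*} [Fintype ι] [DecidableEq ι]

section closed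

variable {N : Set (Ph E)} (hN : IsOpen N) {ν : Ph E → Co E} (hν : ContDiffOn ℝ ∞ ν N)
  {a b : Ph E → Ph E} (ha : ContDiffOn ℝ ∞ a N) (hb : ContDiffOn ℝ ∞ b N)
  (hka : ∀ z ∈ N, ∀ c, dform ν z (a z) c = 0) (hkb : ∀ z ∈ N, ∀ c, dform ν z (b z) c = 0)

include hN hν ha hb hka hkb

theorem ker_bracket {z : Ph E} (hz : z ∈ N) (c : Ph E) :
    dform ν z (lieBracket ℝ a b z) c = 0 := by
  have hc : ContDiffOn ℝ ∞ (fun _ : Ph E => c) N := contDiffOn_const
  have hzero : ∀ {f : Ph E → ℝ}, (∀ w ∈ N, f w = 0) → ∀ e, fderiv ℝ f z e = 0 := by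
    intro f hf e
    have h : f =ᶠ[𝓝 z] fun _ => (0 : ℝ) := eventually_eq_of_eqOn hN hf hz
    rw [h.fderiv_eq]; simp
  have e1 := hzero (f := fun w => dform ν w (b w) c) (fun w hw => hkb w hw c) (a z)
  have e2 := hzero (f := fun w => dform ν w (a w) c) (fun w hw => hka w hw c) (b z)
  have e3 := hzero (f := fun w => dform ν w (a w) (b w)) (fun w hw => hka w hw (b w)) c
  rw [fderiv_dform hN hν hb hc hz] at e1
  rw [fderiv_dform hN hν ha hc hz] at e2
  rw [fderiv_dform hN hν ha hb hz] at e3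
  have hconst : ∀ e : Ph E, fderiv ℝ (fun _ : Ph E => c) z e = 0 := by
    intro e; rw [fderiv_fun_const]; rfl
  have hzr : ∀ e : Ph E, dform ν z e 0 = 0 := by intro e; simp [dform]
  rw [hconst, hzr, add_zero] at e1 e2
  rw [hka z hz, dform_swap ν z _ (b z), hkb z hz, neg_zero, add_zero, add_zero] at e3
  have hs1 := second_symm hN hν hz (a z) (b z)
  have hs2 := second_symm hN hν hz (a z) c
  have hs3 := second_symm hN hν hz (b z) c
  rw [hs1, hs2] at e1
  rw [hs3] at e2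
  have h1 : dform ν z (lieBracket ℝ a b z) c =
      dform ν z (fderiv ℝ b z (a z)) c - dform ν z (fderiv ℝ a z (b z)) c := by
    unfold lieBracket dform
    simp only [map_sub, sub_apply, Prod.fst_sub]
    ring
  rw [h1]
  linarith

theorem nu_bracket (hna : ∀ z ∈ N, ν z (a z).1 = 0) (hnb : ∀ z ∈ N, ν z (b z).1 = 0)
    {z : Ph E} (hz : z ∈ N) : ν z (lieBracket ℝ a b z).1 = 0 := by
  have hzero : ∀ {f : Ph E → ℝ}, (∀ w ∈ N, f w = 0) → ∀ e, fderiv ℝ f z e = 0 := by
    intro f hf e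
    have h : f =ᶠ[𝓝 z] fun _ => (0 : ℝ) := eventually_eq_of_eqOn hN hf hz
    rw [h.fderiv_eq]; simp
  have hder : ∀ {w : Ph E → Ph E}, ContDiffOn ℝ ∞ w N → ∀ e,
      fderiv ℝ (fun z => ν z (w z).1) z e = (fderiv ℝ ν z e) (w z).1 +
        ν z (fderiv ℝ w z e).1 := by
    intro w hw e
    have h1 : HasFDerivAt (fun z => (w z).1)
        ((ContinuousLinearMap.fst ℝ E (Co E)).comp (fderiv ℝ w z)) z :=
      (ContinuousLinearMap.fst ℝ E (Co E)).hasFDerivAt.comp z (diffAt hN hw hz).hasFDerivAt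
    rw [((diffAt hN hν hz).hasFDerivAt.clm_apply h1).fderiv]
    simp [add_comm]
  have e1 := hzero hnb (a z)
  have e2 := hzero hna (b z)
  rw [hder hb] at e1
  rw [hder ha] at e2
  have e3 := hka z hz (b z)
  unfold dform at e3
  unfold lieBracket
  rw [Prod.fst_sub, map_sub]
  linarith

end closed

theorem lieBracket_fst {U : Set E} (hU : IsOpen U) {N : Set (Ph E)} (hN : IsOpen N)
    (hNU : N ⊆ TU U) {a b : Ph E → Ph E} (ha : ContDiffOn ℝ ∞ a N) (hb : ContDiffOn ℝ ∞ b N)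
    {A B : E → E} (hA : ContDiffOn ℝ ∞ A U) (hB : ContDiffOn ℝ ∞ B U)
    (haA : ∀ z ∈ N, (a z).1 = A z.1) (hbB : ∀ z ∈ N, (b z).1 = B z.1) {z : Ph E} (hz : z ∈ N) :
    (lieBracket ℝ a b z).1 = lieBracket ℝ A B z.1 := by
  have hder : ∀ {w : Ph E → Ph E} {C : E → E}, ContDiffOn ℝ ∞ w N → ContDiffOn ℝ ∞ C U →
      (∀ z ∈ N, (w z).1 = C z.1) → ∀ e, (fderiv ℝ w z e).1 = fderiv ℝ C z.1 e.1 := by
    intro w C hw hC hwC e
    have h1 : HasFDerivAt (fun z => (w z).1)
        ((ContinuousLinearMap.fst ℝ E (Co E)).comp (fderiv ℝ w z)) z :=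
      (ContinuousLinearMap.fst ℝ E (Co E)).hasFDerivAt.comp z (diffAt hN hw hz).hasFDerivAt
    have hCd : DifferentiableAt ℝ C z.1 :=
      (hC.contDiffAt (hU.mem_nhds (hNU hz))).differentiableAt (by simp)
    have h2 : HasFDerivAt (fun z : Ph E => C z.1)
        ((fderiv ℝ C z.1).comp (ContinuousLinearMap.fst ℝ E (Co E))) z :=
      hCd.hasFDerivAt.comp z hasFDerivAt_fst
    have h3 : (fun z => (w z).1) =ᶠ[𝓝 z] fun z : Ph E => C z.1 :=
      eventually_eq_of_eqOn hN hwC hz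
    have h4 := h3.fderiv_eq (𝕜 := ℝ)
    rw [h1.fderiv, h2.fderiv] at h4
    exact congrArg (fun l : Ph E →L[ℝ] E => l e) h4
  unfold lieBracket
  rw [Prod.fst_sub, hder hb hB hbB, hder ha hA haA, haA z hz, hbB z hz]

/-- The field `B` has a lift in the kernel of `dform ν`, and `ν` vanishes on it. -/
def HasLift (N : Set (Ph E)) (ν : Ph E → Co E) (B : E → E) : Prop :=
  ∃ W : Ph E → Ph E, ContDiffOn ℝ ∞ W N ∧ (∀ z ∈ N, (W z).1 = B z.1) ∧
    (∀ z ∈ N, ∀ c, dform ν z (W z) c = 0) ∧ ∀ z ∈ N, ν z (B z.1) = 0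

theorem HasLift.bracket {U : Set E} (hU : IsOpen U) {N : Set (Ph E)} (hN : IsOpen N)
    (hNU : N ⊆ TU U) {ν : Ph E → Co E} (hν : ContDiffOn ℝ ∞ ν N) {A B : E → E}
    (hA : ContDiffOn ℝ ∞ A U) (hB : ContDiffOn ℝ ∞ B U)
    (hlA : HasLift N ν A) (hlB : HasLift N ν B) : HasLift N ν (lieBracket ℝ A B) := by
  obtain ⟨a, ha, haA, hka, hna⟩ := hlA
  obtain ⟨b, hb, hbB, hkb, hnb⟩ := hlB
  have hfst : ∀ z ∈ N, (lieBracket ℝ a b z).1 = lieBracket ℝ A B z.1 := fun z hz =>
    lieBracket_fst hU hN hNU ha hb hA hB haA hbB hz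
  refine ⟨lieBracket ℝ a b, ?_, hfst, ?_, ?_⟩
  · have h1 : ContDiffOn ℝ ∞ (fun x => fderiv ℝ b x (a x)) N :=
      (contDiffOn_fderiv_of_smooth hN hb).clm_apply ha
    have h2 : ContDiffOn ℝ ∞ (fun x => fderiv ℝ a x (b x)) N :=
      (contDiffOn_fderiv_of_smooth hN ha).clm_apply hb
    exact h1.sub h2
  · intro z hz c
    exact ker_bracket hN hν ha hb hka hkb hz c
  · intro z hz
    rw [← hfst z hz]
    exact nu_bracket hN hν ha hb hka hkb (fun z hz => by rw [haA z hz]; exact hna z hz)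
      (fun z hz => by rw [hbB z hz]; exact hnb z hz) hz

theorem HasLift.Br {U : Set E} (hU : IsOpen U) {N : Set (Ph E)} (hN : IsOpen N)
    (hNU : N ⊆ TU U) {ν : Ph E → Co E} (hν : ContDiffOn ℝ ∞ ν N) {Y : ι → E → E}
    (hY : ∀ i, ContDiffOn ℝ ∞ (Y i) U) (hl : ∀ i, HasLift N ν (Y i)) {B : E → E}
    (hB : Br Y B) : HasLift N ν B := by
  induction hB with
  | base i => exact hl i
  | step i B hB ih => exact HasLift.bracket hU hN hNU hν (hY i) (hB.smooth hU hY) (hl i) ih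

/-- Ampleness is open, with a uniform order. -/
theorem ample_nhds {U : Set E} {X : ι → E → E} (hU : IsOpen U)
    (hX : ∀ i, ContDiffOn ℝ ∞ (X i) U) {N : Set (Ph E)} (hN : IsOpen N) (hNU : N ⊆ TU U)
    {z₀ : Ph E} (hz₀ : z₀ ∈ N) (hample : Sinf X z₀ = ⊤) :
    ∃ N' ⊆ N, IsOpen N' ∧ z₀ ∈ N' ∧ ∃ k₀, ∀ z ∈ N', Sp X k₀ z = ⊤ := by
  obtain ⟨f, hfmem, hfspan, hfli⟩ := Submodule.exists_fun_fin_finrank_span_eq ℝ
    {a | ∃ j y, a = T X j y z₀}
  choose j y hjy using hfmem
  have hli0 : LinearIndependent ℝ (fun k => T X (j k) (y k) z₀) := by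
    have : (fun k => T X (j k) (y k) z₀) = f := funext fun k => (hjy k).symm
    rw [this]; exact hfli
  obtain ⟨N', hN'N, hN', hz₀N', L, hLs, hL⟩ := exists_smooth_dual
    (e := fun k z => T X (j k) (y k) z) hN
    (fun k => contDiffOn_T hU hX hN hNU (j k) (y k)) hz₀ hli0
  refine ⟨N', hN'N, hN', hz₀N', Finset.univ.sup j, ?_⟩
  intro z hz
  have h1 : LinearIndependent ℝ (fun k => T X (j k) (y k) z) :=
    linearIndependent_of_dual' (fun k => L k z) (hL z hz)
  have h2 : Submodule.span ℝ (range fun k => T X (j k) (y k) z) = ⊤ := by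
    apply h1.span_eq_top_of_card_eq_finrank'
    rw [Fintype.card_fin]
    have h3 : Submodule.span ℝ {a | ∃ j y, a = T X j y z₀} = ⊤ := hample
    rw [h3, finrank_top]
  rw [eq_top_iff, ← h2, Submodule.span_le]
  rintro _ ⟨k, rfl⟩
  exact T_mem_Sp X (Finset.le_sup (f := j) (Finset.mem_univ k)) (y k) z

theorem Sinf_of_Sp {X : ι → E → E} {k₀ : ℕ} {z : Ph E} (h : Sp X k₀ z = ⊤) : Sinf X z = ⊤ := by
  rw [eq_top_iff, ← h]
  apply Submodule.span_mono
  rintro _ ⟨i, _, y, rfl⟩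
  exact ⟨i, y, rfl⟩

/-- An invariant symmetric operator with zero symbol vanishes (positivity). -/
theorem Symb.eq_zero {U : Set E} {X : ι → E → E} (hU : IsOpen U)
    (hX : ∀ i, ContDiffOn ℝ ∞ (X i) U) {N : Set (Ph E)} (hN : IsOpen N) (hNU : N ⊆ TU U)
    {k₀ : ℕ} (hk : ∀ z ∈ N, Sp X k₀ z = ⊤) {K : Ph E → (Ph E →L[ℝ] Ph E)}
    {M : E → Matrix ι ι ℝ} (hK : Symb X N K M) (hM : ∀ x ∈ U, M x = 0) {z : Ph E} (hz : z ∈ N) :
    K z = 0 := by
  have hgen : GenOps X N (fun L => L = K ∨ L = fun _ => 0) := by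
    refine ⟨?_, ?_, ?_, ?_, ?_⟩
    · rintro L (rfl | rfl)
      · exact hK.smooth
      · exact contDiffOn_const
    · rintro L (rfl | rfl) z hz y
      · exact hK.vert z hz y
      · rfl
    · rintro L (rfl | rfl) z hz y i
      · rw [hK.hor z hz, hM z.1 (hNU hz)]
        simp
      · simp
    · rintro L (rfl | rfl)
      · exact ⟨fun _ => 0, Or.inr rfl, fun z hz a => hK.inv z hz a⟩
      · exact ⟨fun _ => 0, Or.inr rfl, fun z hz a => by simp⟩
    · rintro L (rfl | rfl)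
      · exact ⟨L, Or.inl rfl, fun z hz a b => hK.adj z hz a b⟩
      · exact ⟨fun _ => 0, Or.inr rfl, fun z hz a b => by simp⟩
  have hstab : ∀ z ∈ N, ∀ j y, T X j y z ∈ Sp X k₀ z := by
    intro z hz j y; rw [hk z hz]; trivial
  have hsmall := GenOps.small hU hX hN hNU hgen hstab K (Or.inl rfl)
  have hvert : ∀ z ∈ N, ∀ y : Co E, K z ((0 : E), y) = 0 := by
    intro z hz y
    apply om_nondegenerate
    intro b
    have hb : b ∈ Sinf X z := by rw [Sinf_of_Sp (hk z hz)]; trivial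
    unfold Sinf at hb
    induction hb using Submodule.span_induction with
    | mem a ha =>
      obtain ⟨j, y', rfl⟩ := ha
      exact hsmall z hz y j y'
    | zero => exact map_zero _
    | add a b _ _ iha ihb => rw [map_add, iha, ihb, add_zero]
    | smul c a _ ih => rw [map_smul, ih, smul_zero]
  have hT : ∀ j y, ∀ z ∈ N, K z (T X j y z) = 0 := by
    intro j
    induction j with
    | zero => intro y z hz; exact hvert z hz y
    | succ j ih =>
      intro y z hz
      have h1 := Symb.nab hU hX hN hNU hK (contDiffOn_T hU hX hN hNU j y) hz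
      rw [T_succ, ← h1, nab_congr hN (b := fun _ => 0) (fun w hw => ih y w hw) z hz, nab_apply]
      simp
  refine ContinuousLinearMap.ext fun a => ?_
  have ha : a ∈ Sinf X z := by rw [Sinf_of_Sp (hk z hz)]; trivial
  unfold Sinf at ha
  induction ha using Submodule.span_induction with
  | mem a ha =>
    obtain ⟨j, y', rfl⟩ := ha
    exact hT j y' z hz
  | zero => exact map_zero _
  | add a b _ _ iha ihb => rw [map_add, iha, ihb, map_add]
  | smul c a _ ih => rw [map_smul, ih, map_smul]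

theorem clm_eigen {V : Type*} [AddCommGroup V] [TopologicalSpace V] [Module ℝ V]
    [IsTopologicalAddGroup V] [ContinuousConstSMul ℝ V] {Z : Finset ℝ}
    {A : V →L[ℝ] V} (hA : Polynomial.aeval A (muZ Z) = 0) (s : ℝ) (a : V) :
    A ((Polynomial.aeval A (ind Z {s})) a) = s • (Polynomial.aeval A (ind Z {s})) a := by
  have h1 := ind_eigen hA s
  exact congrArg (fun L : V →L[ℝ] V => L a) h1

/-- Eigenfields of an invariant operator over prescribed combinations of the frame. -/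
theorem exists_lift_field {U : Set E} {X : ι → E → E} (hU : IsOpen U)
    (hX : ∀ i, ContDiffOn ℝ ∞ (X i) U) {N : Set (Ph E)} (hN : IsOpen N) (hNU : N ⊆ TU U)
    {K R : Ph E → (Ph E →L[ℝ] Ph E)} {M M' : E → Matrix ι ι ℝ} (hK : Symb X N K M)
    (hR : Symb X N R M') (s : ℝ) (hRK : ∀ z ∈ N, ∀ a, R z (K z a) = s • K z a)
    {y : E → Co E} (hy : ContDiffOn ℝ ∞ y U) :
    ∃ W : Ph E → Ph E, ContDiffOn ℝ ∞ W N ∧
      (∀ z ∈ N, (W z).1 = ∑ i, (∑ j, M z.1 i j * y z.1 (X j z.1)) • X i z.1) ∧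
      ∀ z ∈ N, R z (W z) = s • W z := by
  set a : Ph E → Ph E := fun z => K z ((0 : E), y z.1) with ha
  have hys : ContDiffOn ℝ ∞ (fun z : Ph E => ((0 : E), y z.1)) N :=
    contDiffOn_const.prodMk ((contDiffOn_basic hy).mono hNU)
  have has : ContDiffOn ℝ ∞ a N := hK.smooth.clm_apply hys
  have ha0 : ∀ z ∈ N, (a z).1 = 0 := fun z hz => hK.vert z hz _
  have hRn : ∀ z ∈ N, R z (SubRiem.nab X a z) = s • SubRiem.nab X a z := by
    intro z hz
    rw [← Symb.nab hU hX hN hNU hR has hz, nab_congr hN (fun w hw => hRK w hw _) z hz]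
    have h1 := nab_smul hN (X := X) (f := fun _ => s) contDiffOn_const has z hz
    have h2 : SubRiem.nab X (fun w => s • a w) z =
        fderiv ℝ (fun _ => s) z (XH X z) • a z + s • SubRiem.nab X a z := h1
    rw [fderiv_fun_const] at h2
    simpa using h2
  refine ⟨fun z => - SubRiem.nab X a z, (contDiffOn_nab hU hX hN hNU has).neg, ?_, ?_⟩
  · intro z hz
    rw [Prod.fst_neg, nab_vert_fst hU hX hN hNU has ha0 hz, neg_neg]
    apply Finset.sum_congr rfl
    intro i _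
    rw [hK.hor z hz]
  · intro z hz
    rw [map_neg, hRn z hz, smul_neg]

section

variable {U : Set E} {X : ι → E → E} {S : E → Matrix ι ι ℝ} {Z : Finset ℝ}
  (h : Setup U X S Z) [Nonempty ι]
  {θ : ι → E → Co E} (hθ : ∀ k, ContDiffOn ℝ ∞ (θ k) U)
  (hθX : ∀ x ∈ U, ∀ k j, θ k x (X j x) = if k = j then 1 else 0)
  {N : Set (Ph E)} (hN : IsOpen N) (hNU : N ⊆ TU U) {k₀ : ℕ} (hk : ∀ z ∈ N, Sp X k₀ z = ⊤)
  {Φ : Ph E → Co E} (hΦ : Orb X S N Φ)

include h hN hNU hk hΦ

theorem Setup.mu_opOf {z : Ph E} (hz : z ∈ N) : Polynomial.aeval (opOf Φ z) (muZ Z) = 0 := by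
  have hsymb := Orb.symb h.hU h.hX h.hS h.hSs hN hNU hΦ
  exact Symb.eq_zero h.hU h.hX hN hNU hk (Symb.aeval h.hU h.hX hN hNU hsymb (muZ Z)) h.hμ hz

/-- The shifted one-form. -/
def nu (Φ : Ph E → Co E) (s : ℝ) (z : Ph E) : Co E := Φ z - s • z.2

omit hk in
theorem Setup.nu_smooth (s : ℝ) : ContDiffOn ℝ ∞ (nu Φ s) N :=
  hΦ.smooth.sub (contDiff_snd.contDiffOn.const_smul s)

omit hk in
theorem Setup.dform_nu (s : ℝ) {z : Ph E} (hz : z ∈ N) (a b : Ph E) :
    dform (nu Φ s) z a b = om (opOf Φ z a - s • a) b := by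
  have h1 : ∀ c, fderiv ℝ (nu Φ s) z c = fderiv ℝ Φ z c - s • c.2 := by
    intro c
    have h3 : HasFDerivAt (fun z : Ph E => s • z.2) (s • ContinuousLinearMap.snd ℝ E (Co E)) z :=
      (s • ContinuousLinearMap.snd ℝ E (Co E)).hasFDerivAt
    have h2 : HasFDerivAt (nu Φ s) (fderiv ℝ Φ z - s • ContinuousLinearMap.snd ℝ E (Co E)) z :=
      (diffAt hN hΦ.smooth hz).hasFDerivAt.fun_sub h3
    rw [h2.fderiv]; rfl
  have h4 : om (opOf Φ z a - s • a) b = dform Φ z a b - s * om a b := by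
    rw [map_sub, sub_apply, om_opOf, map_smul, smul_apply, smul_eq_mul]
  rw [h4, om_apply]
  unfold dform
  rw [h1, h1]
  simp only [sub_apply, smul_apply, smul_eq_mul]
  ring

include hθ hθX

theorem Setup.hasLift_YT (s : ℝ) (k : ι) : HasLift N (nu Φ s) (YT X S Z {s} k) := by
  have hsymb := Orb.symb h.hU h.hX h.hS h.hSs hN hNU hΦ
  have hKs := Symb.aeval h.hU h.hX hN hNU hsymb (ind Z {s})
  have hRK : ∀ z ∈ N, ∀ a, opOf Φ z ((Polynomial.aeval (opOf Φ z) (ind Z {s})) a) =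
      s • (Polynomial.aeval (opOf Φ z) (ind Z {s})) a := by
    intro z hz a
    exact clm_eigen (h.mu_opOf hN hNU hk hΦ hz) s a
  obtain ⟨W, hW, hW1, hWR⟩ := exists_lift_field h.hU h.hX hN hNU hKs hsymb s hRK (hθ k)
  refine ⟨W, hW, ?_, ?_, ?_⟩
  · intro z hz
    rw [hW1 z hz]
    unfold YT YY
    apply Finset.sum_congr rfl
    intro i _
    rw [h.PT_symm' {s} (hNU hz) k i]
    congr 1
    simp only [hθX z.1 (hNU hz)]
    simp [PT]
  · intro z hz c
    rw [h.dform_nu hN hNU hΦ s hz, hWR z hz, sub_self, map_zero, zero_apply]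
  · intro z hz
    have hx := hNU hz
    unfold nu
    rw [sub_apply, smul_apply, smul_eq_mul]
    have h1 : Φ z (YT X S Z {s} k z.1) = (PT S Z {s} z.1 *ᵥ (S z.1 *ᵥ momv X z)) k := by
      simp only [YT, YY, map_sum, map_smul, hΦ.hor z hz, smul_eq_mul, Matrix.mulVec,
        dotProduct, momv]
    have h2 : z.2 (YT X S Z {s} k z.1) = (PT S Z {s} z.1 *ᵥ momv X z) k :=
      mom_YY X (PT S Z {s}) k z
    have h3 : PT S Z {s} z.1 * S z.1 = s • PT S Z {s} z.1 := by
      have h4 := ind_eigen (h.hμ z.1 hx) s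
      have h5 : S z.1 * PT S Z {s} z.1 = s • PT S Z {s} z.1 := h4
      have h6 : PT S Z {s} z.1 * S z.1 = (S z.1 * PT S Z {s} z.1)ᵀ := by
        rw [Matrix.transpose_mul, h.PT_symm {s} hx, h.transpose hx]
      rw [h6, h5, Matrix.transpose_smul, h.PT_symm {s} hx]
    rw [h1, h2, Matrix.mulVec_mulVec, h3, Matrix.smul_mulVec]
    simp

theorem Setup.Phi_Br (s : ℝ) {B : E → E} (hB : Br (YT X S Z {s}) B) {z : Ph E} (hz : z ∈ N) :
    Φ z (B z.1) = s * z.2 (B z.1) := by
  obtain ⟨W, _, _, _, h4⟩ := HasLift.Br h.hU hN hNU (h.nu_smooth hN hNU hΦ s)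
    (h.YT_smooth {s}) (h.hasLift_YT hθ hθX hN hNU hk hΦ s) hB
  have := h4 z hz
  unfold nu at this
  rw [sub_apply, smul_apply, smul_eq_mul] at this
  linarith

/-- The Lie hulls of eigenvalue `s` are eigenspaces of the vertical derivative of the
orbital map. -/
theorem Setup.dPhi_Br (s : ℝ) {B : E → E} (hB : Br (YT X S Z {s}) B) {z : Ph E} (hz : z ∈ N)
    (y : Co E) : (fderiv ℝ Φ z ((0 : E), y)) (B z.1) = s * y (B z.1) := by
  have hBs : ContDiffOn ℝ ∞ B U := hB.smooth h.hU (h.YT_smooth {s})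
  have hBd : DifferentiableAt ℝ B z.1 :=
    (hBs.contDiffAt (h.hU.mem_nhds (hNU hz))).differentiableAt (by simp)
  have h1 : (fun w : Ph E => Φ w (B w.1)) =ᶠ[𝓝 z] fun w => s * w.2 (B w.1) :=
    eventually_eq_of_eqOn hN (fun w hw => h.Phi_Br hθ hθX hN hNU hk hΦ s hB hw) hz
  have h2 : HasFDerivAt (fun w : Ph E => Φ w (B w.1))
      ((Φ z).comp ((fderiv ℝ B z.1).comp (ContinuousLinearMap.fst ℝ E (Co E))) +
        (fderiv ℝ Φ z).flip (B z.1)) z :=
    (diffAt hN hΦ.smooth hz).hasFDerivAt.clm_apply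
      (hBd.hasFDerivAt.comp z hasFDerivAt_fst)
  have h3 := (hasFDerivAt_pair hBd).const_mul s
  have h4 := h1.fderiv_eq (𝕜 := ℝ)
  rw [h2.fderiv, h3.fderiv] at h4
  have h5 := congrArg (fun l : Ph E →L[ℝ] ℝ => l ((0 : E), y)) h4
  simpa using h5

/-- The Lie hulls of complementary sets of eigenvalues are independent at good base points. -/
theorem Setup.disjoint_LT {T T' : Finset ℝ} (hT : T ⊆ Z) (hT' : T' ⊆ Z) (hd : Disjoint T T')
    {z : Ph E} (hz : z ∈ N) : Disjoint (LT X S Z T z.1) (LT X S Z T' z.1) := by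
  classical
  set A : Module.End ℝ (Co E) :=
    { toFun := fun y => fderiv ℝ Φ z ((0 : E), y)
      map_add' := fun y y' => by
        rw [← map_add]
        congr 1
        ext <;> simp
      map_smul' := fun c y => by
        rw [RingHom.id_apply, ← map_smul]
        congr 1
        ext <;> simp } with hA
  have hAB : ∀ (s : ℝ) (B : E → E), Br (YT X S Z {s}) B → ∀ (f : Polynomial ℝ) (y : Co E),
      (Polynomial.aeval A f y) (B z.1) = f.eval s * y (B z.1) := by
    intro s B hB f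
    induction f using Polynomial.induction_on' with
    | add p q hp hq =>
      intro y
      rw [map_add, LinearMap.add_apply, add_apply, hp, hq, Polynomial.eval_add]
      ring
    | monomial n c =>
      intro y
      rw [Polynomial.aeval_monomial, ← Algebra.smul_def, LinearMap.smul_apply,
        smul_apply, smul_eq_mul, Polynomial.eval_monomial]
      have hpow : ∀ (n : ℕ) (y : Co E), ((A ^ n) y) (B z.1) = s ^ n * y (B z.1) := by
        intro n
        induction n with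
        | zero => intro y; simp
        | succ n ih =>
          intro y
          rw [pow_succ', Module.End.mul_apply]
          have : (A ((A ^ n) y)) (B z.1) = s * ((A ^ n) y) (B z.1) :=
            h.dPhi_Br hθ hθX hN hNU hk hΦ s hB hz _
          rw [this, ih y]
          ring
      rw [hpow]
      ring
  rw [Submodule.disjoint_def]
  intro v hv hv'
  have e1 : ∀ y : Co E, (Polynomial.aeval A (ind Z T) y) v = y v := by
    intro y
    clear hv'
    unfold LT at hv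
    induction hv using Submodule.span_induction with
    | mem v hv =>
      obtain ⟨B, ⟨t, ht, hB⟩, rfl⟩ := hv
      rw [hAB t B hB, ind_eval (hT ht), if_pos ht, one_mul]
    | zero => simp
    | add a b _ _ iha ihb => rw [map_add, map_add, iha, ihb]
    | smul c a _ ih => rw [map_smul, map_smul, ih]
  have e2 : ∀ y : Co E, (Polynomial.aeval A (ind Z T) y) v = 0 := by
    intro y
    clear hv e1
    unfold LT at hv'
    induction hv' using Submodule.span_induction with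
    | mem v hv =>
      obtain ⟨B, ⟨t, ht, hB⟩, rfl⟩ := hv
      rw [hAB t B hB, ind_eval (hT' ht), if_neg (Finset.disjoint_right.1 hd ht), zero_mul]
    | zero => simp
    | add a b _ _ iha ihb => rw [map_add, iha, ihb, add_zero]
    | smul c a _ ih => rw [map_smul, ih, smul_zero]
  apply eq_zero_of_forall_co
  intro y
  rw [← e1 y, e2 y]

end

section

variable {U : Set E} {X : ι → E → E} {S : E → Matrix ι ι ℝ} {Z : Finset ℝ}
  (h : Setup U X S Z) [Nonempty ι]
  {θ : ι → E → Co E} (hθ : ∀ k, ContDiffOn ℝ ∞ (θ k) U)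
  (hθX : ∀ x ∈ U, ∀ k j, θ k x (X j x) = if k = j then 1 else 0)

include h hθ hθX

/-- Points over which complementary Lie hulls are independent are dense. -/
theorem Setup.exists_disjoint_LT {T T' : Finset ℝ} (hT : T ⊆ Z) (hT' : T' ⊆ Z)
    (hd : Disjoint T T') {W : Set E} (hW : IsOpen W) (hWU : W ⊆ U) (hne : W.Nonempty) :
    ∃ x ∈ W, Disjoint (LT X S Z T x) (LT X S Z T' x) := by
  obtain ⟨x, hx⟩ := hne
  obtain ⟨z, hz, hg⟩ := exists_good h.hU h.hX h.hli h.hgen (isOpen_TU hW)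
    (fun z hz => hWU hz) ⟨(x, 0), hx⟩
  obtain ⟨N, hNU, hN, hzN, Φ, hΦ⟩ := h.hOrb z (hWU hz) hg
  obtain ⟨N', hN'N, hN', hzN', k₀, hk⟩ := ample_nhds h.hU h.hX hN hNU hzN hg.1
  have hΦ' : Orb X S N' Φ :=
    ⟨hΦ.smooth.mono hN'N, fun z hz => hΦ.hor z (hN'N hz), fun z hz => hΦ.der z (hN'N hz)⟩
  exact ⟨z.1, hz, h.disjoint_LT hθ hθX hN' (hN'N.trans hNU) hk hΦ' hT hT' hd hzN'⟩

end

end Pool.Agent.SubRiem
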