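import Mathlib
import Pool.Agent.SubRiem.GeoHam
import Pool.Agent.SubRiem.GeoCurve
import Pool.Agent.SubRiem.Lift

/-!
# From affine equivalence of sub-Riemannian metrics to smooth orbital maps
-/

set_option autoImplicit false
set_option linter.unusedSectionVars false
set_option linter.unusedVariables false

namespace Pool.Agent.SubRiem

open Set Filter Topology VectorField MeasureTheory
open scoped ContDiff Matrix Matrix.Norms.Operator

variable {E : Type*} [NormedAddCommGroup E] [NormedSpace ℝ E] [FiniteDimensional ℝ E]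
  {m : ℕ} {U : Set E} {X : Fin m → E → E} {D : E → Submodule ℝ E}

/-- `ham X` is constant along integral curves of `XH X`. -/
theorem ham_const (hU : IsOpen U) (hX : ∀ i, ContDiffOn ℝ ∞ (X i) U) {δ : ℝ} {ζ : ℝ → Ph E}
    (hζU : ∀ t ∈ Ioo (-δ) δ, ζ t ∈ TU U)
    (hζ : ∀ t ∈ Ioo (-δ) δ, HasDerivAt ζ (XH X (ζ t)) t) (hδ : 0 < δ) :
    ∀ t ∈ Ioo (-δ) δ, ham X (ζ t) = ham X (ζ 0) := by
  intro t ht
  have h0 : (0 : ℝ) ∈ Ioo (-δ) δ := ⟨by linarith, hδ⟩
  have hd : ∀ t ∈ Ioo (-δ) δ, HasDerivAt (fun t => ham X (ζ t)) 0 t := by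
    intro t ht
    have h1 : DifferentiableAt ℝ (ham X) (ζ t) :=
      ((contDiffOn_ham hX).contDiffAt ((isOpen_TU hU).mem_nhds (hζU t ht))).differentiableAt
        (by simp)
    have h2 : HasDerivAt (fun t => ham X (ζ t)) (fderiv ℝ (ham X) (ζ t) (XH X (ζ t))) t :=
      h1.hasFDerivAt.comp_hasDerivAt t (hζ t ht)
    have h3 := om_XH (X := X) (z := ζ t)
      (fun i => differentiableAt_field hU hX (hζU t ht) i) (XH X (ζ t))
    rw [om_self] at h3
    have h4 : fderiv ℝ (ham X) (ζ t) (XH X (ζ t)) = 0 := by linarith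
    rwa [h4] at h2
  exact (convex_Ioo (-δ) δ).is_const_of_fderivWithin_eq_zero
    (𝕜 := ℝ) (f := fun t => ham X (ζ t))
    (fun t ht => (hd t ht).differentiableAt.differentiableWithinAt)
    (fun t ht => by
      rw [fderivWithin_of_isOpen isOpen_Ioo ht]
      have := (hd t ht).hasFDerivAt.fderiv
      rw [this]
      ext
      simp) ht h0

/-- The transported covector along an integral curve of `XH X` whose projection is, after an
affine change of parameter, a `g₂`-geodesic. -/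
theorem exists_transport (hU : IsOpen U) (hX : ∀ i, ContDiffOn ℝ ∞ (X i) U)
    (hli : ∀ x ∈ U, LinearIndependent ℝ fun i => X i x)
    (hD : ∀ x ∈ U, D x = Submodule.span ℝ (range fun i => X i x))
    {g₁ g₂ : E → E → E → ℝ} (hg₁ : IsMetricOn U D g₁) (hg₂ : IsMetricOn U D g₂)
    (horth : ∀ x ∈ U, ∀ i j, g₁ x (X i x) (X j x) = if i = j then 1 else 0)
    {S : E → Matrix (Fin m) (Fin m) ℝ} (hS : ContDiffOn ℝ ∞ S U)
    (hSs : ∀ x ∈ U, ∀ i j, S x i j = S x j i)
    (hSg : ∀ x ∈ U, ∀ i j, S x i j = g₂ x (X i x) (X j x))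
    (haff : GeodesicsAffineSubset D g₁ g₂ U) {z : Ph E} (hz : z ∈ TU U) (hgood : Good X z)
    {N : Set (Ph E)} (hN : IsOpen N) (hNU : N ⊆ TU U) (hzN : z ∈ N) :
    ∃ (J : Set ℝ) (s₀ κ : ℝ) (ζ : ℝ → Ph E) (μ : ℝ → Co E), IsOpen J ∧ s₀ ∈ J ∧ κ ≠ 0 ∧
      ζ s₀ = z ∧ (∀ s ∈ J, ζ s ∈ N) ∧ (∀ s ∈ J, HasDerivAt ζ (κ • XH X (ζ s)) s) ∧
      (∀ s ∈ J, ∀ i, μ s (X i (ζ s).1) = ∑ j, S (ζ s).1 i j * mom X j (ζ s)) ∧
      ∀ s ∈ J, ∃ μ', HasDerivAt μ μ' s ∧ ∀ e, μ' e =
        κ * ((1 / 2) * ∑ i, ∑ j, (fderiv ℝ S (ζ s).1 e) i j *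
        (mom X i (ζ s) * mom X j (ζ s)) -
          ∑ i, mom X i (ζ s) * μ s (fderiv ℝ (X i) (ζ s).1 e)) := by
  have : CompleteSpace (Ph E) := FiniteDimensional.complete ℝ (Ph E)
  -- the integral curve
  have hXH : ContDiffAt ℝ 1 (XH X) z :=
    ((contDiffOn_XH hU hX).contDiffAt ((isOpen_TU hU).mem_nhds hz)).of_le (by
      exact_mod_cast le_top)
  obtain ⟨ξ, hξ0, ε, hε, hξ⟩ :=
    hXH.exists_forall_mem_closedBall_exists_eq_forall_mem_Ioo_hasDerivAt₀ 0
  simp only [zero_sub, zero_add] at hξ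
  have hξc : ContinuousAt ξ 0 := (hξ 0 ⟨by linarith, hε⟩).continuousAt
  have hpre : ∀ᶠ t in 𝓝 (0 : ℝ), ξ t ∈ N := by
    apply hξc.preimage_mem_nhds
    rw [hξ0]
    exact hN.mem_nhds hzN
  obtain ⟨δ', hδ', hδN⟩ := Metric.eventually_nhds_iff_ball.1 hpre
  rw [Real.ball_eq_Ioo] at hδN
  simp only [zero_sub, zero_add] at hδN
  obtain ⟨δ, hδ, hδε, hδδ'⟩ : ∃ δ > 0, δ ≤ ε ∧ δ ≤ δ' := ⟨min ε δ', by positivity,
    min_le_left _ _, min_le_right _ _⟩
  have hξ1 : ∀ t ∈ Ioo (-δ) δ, HasDerivAt ξ (XH X (ξ t)) t := fun t ht =>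
    hξ t ⟨by linarith [ht.1], by linarith [ht.2]⟩
  have hξN : ∀ t ∈ Ioo (-δ) δ, ξ t ∈ N := fun t ht =>
    hδN t ⟨by linarith [ht.1], by linarith [ht.2]⟩
  have hξU : ∀ t ∈ Ioo (-δ) δ, ξ t ∈ TU U := fun t ht => hNU (hξN t ht)
  have hham := ham_const hU hX hξU hξ1 hδ
  -- the geodesic
  set I : Set ℝ := Ioo (-(δ / 2)) (δ / 2) with hI
  have h2I : ∀ t ∈ I, 2 * t ∈ Ioo (-δ) δ := fun t ht => ⟨by linarith [ht.1], by linarith [ht.2]⟩
  have hgeo : IsGeodesic D g₁ U I (fun t => (ξ (2 * t)).1) := by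
    refine ⟨isOpen_Ioo, ordConnected_Ioo, ⟨0, by simp only [hI, mem_Ioo]; constructor <;> linarith⟩,
      fun t => ξ (2 * t), fun t _ => rfl, Or.inl ⟨fun t ht => hξU _ (h2I t ht), ⟨2 * ham X z, ?_, ?_⟩,
      ?_⟩⟩
    · exact mul_ne_zero two_ne_zero hgood.2
    · intro t ht
      rw [hamD_orth hD hg₁ horth (hξU _ (h2I t ht)), hham _ (h2I t ht), hξ0]
    · intro t ht
      refine ⟨_, isHamVec_orth hU hX hD hg₁ horth (hξU _ (h2I t ht)), ?_⟩
      have h1 : HasDerivAt (fun t : ℝ => 2 * t) 2 t := by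
        simpa using (hasDerivAt_id t).const_mul (2 : ℝ)
      exact (hξ1 _ (h2I t ht)).scomp t h1
  obtain ⟨α, β, hα, hJo, -, hJne, η, hη, hcase⟩ := haff I _ hgeo
  set J : Set ℝ := (fun t => α * t + β) ⁻¹' I with hJ
  set ζ : ℝ → Ph E := fun s => ξ (2 * (α * s + β)) with hζdef
  have hζN : ∀ s ∈ J, ζ s ∈ N := fun s hs => hξN _ (h2I _ hs)
  have hζU : ∀ s ∈ J, ζ s ∈ TU U := fun s hs => hNU (hζN s hs)
  have hζd : ∀ s ∈ J, HasDerivAt ζ ((2 * α) • XH X (ζ s)) s := by
    intro s hs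
    have h1 : HasDerivAt (fun s : ℝ => 2 * (α * s + β)) (2 * α) s := by
      have h2 := (((hasDerivAt_id s).const_mul α).add_const β).const_mul (2 : ℝ)
      simpa using h2
    exact (hξ1 _ (h2I _ hs)).scomp s h1
  have hfst : ∀ s ∈ J, (η s).1 = (ζ s).1 := fun s hs => (hη s hs).symm
  have hs₀ : -β / α ∈ J := by
    show α * (-β / α) + β ∈ I
    have h1 : α * (-β / α) + β = 0 := by field_simp; ring
    rw [h1]
    simp only [hI, mem_Ioo]
    constructor <;> linarith
  have hζ0 : ζ (-β / α) = z := by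
    show ξ (2 * (α * (-β / α) + β)) = z
    have h1 : 2 * (α * (-β / α) + β) = 0 := by field_simp; ring
    rw [h1, hξ0]
  have hκ : 2 * α ≠ 0 := mul_ne_zero two_ne_zero hα
  -- velocities
  have hvel : ∀ s ∈ J, ∀ a : Ph E, HasDerivAt η a s → a.1 = (2 * α) • (XH X (ζ s)).1 := by
    intro s hs a ha
    have h1 : HasDerivAt (fun s => (η s).1) a.1 s :=
      (ContinuousLinearMap.fst ℝ E (Co E)).hasFDerivAt.comp_hasDerivAt s ha
    have h2 : HasDerivAt (fun s => (ζ s).1) ((2 * α) • XH X (ζ s)).1 s :=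
      (ContinuousLinearMap.fst ℝ E (Co E)).hasFDerivAt.comp_hasDerivAt s (hζd s hs)
    have h3 : (fun s => (ζ s).1) =ᶠ[𝓝 s] fun s => (η s).1 := by
      filter_upwards [hJo.mem_nhds hs] with t ht
      exact (hfst t ht).symm
    exact (h1.congr_of_eventuallyEq h3).unique h2
  have hcoef : ∀ s ∈ J, ∀ (r : ℝ) (c : Fin m → ℝ),
      r • ∑ i, c i • X i (ζ s).1 = (2 * α) • (XH X (ζ s)).1 →
      ∀ i, r * c i = 2 * α * mom X i (ζ s) := by
    intro s hs r c h i
    have h1 : ∑ i, (r * c i) • X i (ζ s).1 = ∑ i, (2 * α * mom X i (ζ s)) • X i (ζ s).1 := by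
      have h2 : (XH X (ζ s)).1 = ∑ i, mom X i (ζ s) • X i (ζ s).1 := rfl
      rw [h2, Finset.smul_sum, Finset.smul_sum] at h
      simpa only [smul_smul] using h
    exact congrFun ((linearIndependent_iff_injective_fintypeLinearCombination.1
      (hli _ (hζU s hs))) (by
      simpa only [Fintype.linearCombination_apply] using h1)) i
  rcases hcase with hnorm | habn
  · -- normal lift
    obtain ⟨-, -, hn⟩ := hnorm
    refine ⟨J, -β / α, 2 * α, ζ, fun s => α⁻¹ • (η s).2, hJo, hs₀, hκ, hζ0, hζN, hζd, ?_, ?_⟩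
    · intro s hs i
      obtain ⟨a, ha, hda⟩ := hn s hs
      have hηU : η s ∈ TU U := by
        show (η s).1 ∈ U
        rw [hfst s hs]
        exact hζU s hs
      obtain ⟨c, hc1, hc2, hc3⟩ := isHamVec_form hU hX hD hg₂ hS hSg hηU ha
      rw [hfst s hs] at hc1 hc2
      have hc : ∀ i, c i = α * mom X i (ζ s) := by
        intro i
        have h1 := hcoef s hs 2 c (by rw [← hc2, hvel s hs a hda]) i
        linarith
      show α⁻¹ • (η s).2 (X i (ζ s).1) = _
      rw [hc1 i, smul_eq_mul, Finset.mul_sum]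
      apply Finset.sum_congr rfl
      intro j _
      rw [hc j]
      field_simp
    · intro s hs
      obtain ⟨a, ha, hda⟩ := hn s hs
      have hηU : η s ∈ TU U := by
        show (η s).1 ∈ U
        rw [hfst s hs]
        exact hζU s hs
      obtain ⟨c, hc1, hc2, hc3⟩ := isHamVec_form hU hX hD hg₂ hS hSg hηU ha
      rw [hfst s hs] at hc1 hc2 hc3
      have hc : ∀ i, c i = α * mom X i (ζ s) := by
        intro i
        have h1 := hcoef s hs 2 c (by rw [← hc2, hvel s hs a hda]) i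
        linarith
      refine ⟨α⁻¹ • a.2, ?_, ?_⟩
      · have h1 : HasDerivAt (fun s => (η s).2) a.2 s :=
          (ContinuousLinearMap.snd ℝ E (Co E)).hasFDerivAt.comp_hasDerivAt s hda
        exact h1.const_smul α⁻¹
      · intro e
        simp only [smul_apply, smul_eq_mul, hc3 e, hc]
        have h1 : ∑ i, ∑ j, (fderiv ℝ S (ζ s).1 e) i j *
            (α * mom X i (ζ s) * (α * mom X j (ζ s))) =
            α ^ 2 * ∑ i, ∑ j, (fderiv ℝ S (ζ s).1 e) i j * (mom X i (ζ s) * mom X j (ζ s)) := by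
          simp only [Finset.mul_sum]
          apply Finset.sum_congr rfl
          intro i _
          apply Finset.sum_congr rfl
          intro j _
          ring
        have h2 : ∑ i, α * mom X i (ζ s) * (η s).2 (fderiv ℝ (X i) (ζ s).1 e) =
            α * ∑ i, mom X i (ζ s) * (η s).2 (fderiv ℝ (X i) (ζ s).1 e) := by
          simp only [Finset.mul_sum]
          apply Finset.sum_congr rfl
          intro i _
          ring
        have h3 : ∑ i, mom X i (ζ s) * (α⁻¹ * (η s).2 (fderiv ℝ (X i) (ζ s).1 e)) =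
            α⁻¹ * ∑ i, mom X i (ζ s) * (η s).2 (fderiv ℝ (X i) (ζ s).1 e) := by
          simp only [Finset.mul_sum]
          apply Finset.sum_congr rfl
          intro i _
          ring
        rw [h1, h2, h3]
        field_simp
  · -- abnormal lift: impossible
    exfalso
    obtain ⟨hann, -, hac, hae⟩ := habn
    have hμc : ContinuousOn (fun s => (η s).2) J := by
      intro s hs
      obtain ⟨r, hr, hrJ⟩ := Metric.nhds_basis_closedBall.mem_iff.1 (hJo.mem_nhds hs)
      rw [Real.closedBall_eq_Icc] at hrJ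
      have h1 : s - r ∈ J := hrJ ⟨le_refl _, by linarith⟩
      have h2 : s + r ∈ J := hrJ ⟨by linarith, le_refl _⟩
      have h3 := (hac _ h1 _ h2).continuousOn
      rw [uIcc_of_le (by linarith)] at h3
      have h4 : ContinuousAt η s := h3.continuousAt (Icc_mem_nhds (by linarith) (by linarith))
      exact (continuous_snd.continuousAt.comp h4).continuousWithinAt
    have hηann : ∀ s ∈ J, ∀ v ∈ D (ζ s).1, (η s).2 v = 0 := by
      intro s hs v hv
      have h1 := (hann s hs).2.2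
      rw [hfst s hs] at h1
      exact h1 v hv
    have hmain := curve_main hU hX (S := fun _ => (0 : Matrix (Fin m) (Fin m) ℝ))
      contDiffOn_const (fun _ _ _ _ => rfl) hN hNU hJo hκ hζN hζd hμc
      (by
        intro s hs i
        rw [hηann s hs _ (mem_dist hD (hζU s hs) i)]
        simp)
      (by
        filter_upwards [hae] with s hs hsJ
        obtain ⟨a, ha, hda⟩ := hs hsJ
        have hηU : η s ∈ TU U := (hann s hsJ).1
        obtain ⟨c, hc1, hc2⟩ := horizontal_form hU hX hli hD hηU (hann s hsJ).2.2 ha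
        rw [hfst s hsJ] at hc1 hc2
        have hc : ∀ i, c i = 2 * α * mom X i (ζ s) := by
          intro i
          have h1 := hcoef s hsJ 1 c (by rw [one_smul, ← hc1, hvel s hsJ a hda]) i
          linarith
        refine ⟨a.2, (ContinuousLinearMap.snd ℝ E (Co E)).hasFDerivAt.comp_hasDerivAt s hda, ?_⟩
        intro e
        rw [hc2 e, fderiv_fun_const]
        simp only [Pi.zero_apply, zero_apply, Matrix.zero_apply, zero_mul,
          Finset.sum_const_zero, mul_zero, zero_sub, hc, mul_neg, Finset.mul_sum]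
        congr 1
        apply Finset.sum_congr rfl
        intro i _
        ring)
    have h0 : (η (-β / α)).2 = 0 := by
      refine ContinuousLinearMap.ext fun e => ?_
      have he : ((e, 0) : Ph E) ∈ Sinf X z := by rw [hgood.1]; trivial
      have key : ∀ b ∈ Sinf X z, (η (-β / α)).2 b.1 = 0 := by
        intro b hb
        unfold Sinf at hb
        induction hb using Submodule.span_induction with
        | mem b hb =>
          obtain ⟨j, y, rfl⟩ := hb
          have h1 := hmain j y _ hs₀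
          rw [rho_zero_symbol, hζ0] at h1
          exact h1
        | zero => exact map_zero _
        | add a b _ _ iha ihb => rw [Prod.fst_add, map_add, iha, ihb, add_zero]
        | smul c a _ ih => rw [Prod.smul_fst, map_smul, ih, smul_zero]
      exact key _ he
    exact (hann _ hs₀).2.1 h0

/-- **From affine equivalence to orbital maps.** -/
theorem orbNear_of_affine {E : Type*} [NormedAddCommGroup E] [NormedSpace ℝ E]
    [FiniteDimensional ℝ E] {U : Set E} (hU : IsOpen U) {m : ℕ} {X : Fin m → E → E}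
    (hX : ∀ i, ContDiffOn ℝ ∞ (X i) U) (hli : ∀ x ∈ U, LinearIndependent ℝ fun i => X i x)
    {D : E → Submodule ℝ E} (hD : ∀ x ∈ U, D x = Submodule.span ℝ (range fun i => X i x))
    {g₁ g₂ : E → E → E → ℝ} (hg₁ : IsMetricOn U D g₁) (hg₂ : IsMetricOn U D g₂)
    (horth : ∀ x ∈ U, ∀ i j, g₁ x (X i x) (X j x) = if i = j then 1 else 0)
    {S : E → Matrix (Fin m) (Fin m) ℝ} (hS : ContDiffOn ℝ ∞ S U)
    (hSg : ∀ x ∈ U, ∀ i j, S x i j = g₂ x (X i x) (X j x))
    (haff : GeodesicsAffineSubset D g₁ g₂ U) : OrbNear U X S := by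
  have hSs : ∀ x ∈ U, ∀ i j, S x i j = S x j i := by
    intro x hx i j
    rw [hSg x hx, hSg x hx, hg₂.symm x hx _ (mem_dist hD hx i) _ (mem_dist hD hx j)]
  intro z₀ hz₀ hgood
  have hTU := isOpen_TU hU
  obtain ⟨N₁, hN₁U, hN₁, hz₀N₁, k₀, hk⟩ := ample_nhds hU hX hTU le_rfl hz₀ hgood.1
  -- a basis of first components
  obtain ⟨f, hfmem, hfspan, hfli⟩ := Submodule.exists_fun_fin_finrank_span_eq ℝ
    {e : E | ∃ j y, e = (T X j y z₀).1}
  have htop : Submodule.span ℝ {e : E | ∃ j y, e = (T X j y z₀).1} = ⊤ := by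
    rw [eq_top_iff]
    intro e _
    have he : ((e, 0) : Ph E) ∈ Sinf X z₀ := by rw [hgood.1]; trivial
    have key : ∀ b ∈ Sinf X z₀, b.1 ∈ Submodule.span ℝ {e : E | ∃ j y, e = (T X j y z₀).1} := by
      intro b hb
      unfold Sinf at hb
      induction hb using Submodule.span_induction with
      | mem b hb =>
        obtain ⟨j, y, rfl⟩ := hb
        exact Submodule.subset_span ⟨j, y, rfl⟩
      | zero => exact Submodule.zero_mem _
      | add a b _ _ iha ihb => exact Submodule.add_mem _ iha ihb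
      | smul c a _ ih => exact Submodule.smul_mem _ _ ih
    exact key _ he
  choose j y hjy using hfmem
  have hli0 : LinearIndependent ℝ (fun k => (T X (j k) (y k) z₀).1) := by
    have : (fun k => (T X (j k) (y k) z₀).1) = f := funext fun k => (hjy k).symm
    rw [this]; exact hfli
  obtain ⟨N₂, hN₂U, hN₂, hz₀N₂, θ, hθs, hθ⟩ := exists_smooth_dual
    (e := fun k z => (T X (j k) (y k) z).1) hTU
    (fun k => contDiff_fst.comp_contDiffOn (contDiffOn_T hU hX hTU le_rfl (j k) (y k))) hz₀ hli0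
  have hhamc : ContinuousOn (ham X) (TU U) := (contDiffOn_ham hX).continuousOn
  have hO : IsOpen (TU U ∩ ham X ⁻¹' {0}ᶜ) :=
    hhamc.isOpen_inter_preimage hTU isOpen_compl_singleton
  set N : Set (Ph E) := N₁ ∩ N₂ ∩ (TU U ∩ ham X ⁻¹' {0}ᶜ) with hNdef
  have hN : IsOpen N := (hN₁.inter hN₂).inter hO
  have hNU : N ⊆ TU U := fun z hz => hz.2.1
  have hgoodN : ∀ z ∈ N, Good X z := fun z hz => ⟨Sinf_of_Sp (hk z hz.1.1), hz.2.2⟩
  set Φ : Ph E → Co E := fun z => ∑ k, rho X S (j k) (y k) z • θ k z with hΦ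
  have hrec : ∀ z ∈ N, ∀ p : Co E, (∀ k, p (T X (j k) (y k) z).1 = rho X S (j k) (y k) z) →
      Φ z = p := by
    intro z hz p hp
    have hli1 : LinearIndependent ℝ (fun k => (T X (j k) (y k) z).1) :=
      linearIndependent_of_dual' (fun k => θ k z) (hθ z hz.1.2)
    have hspan : Submodule.span ℝ (range fun k => (T X (j k) (y k) z).1) = ⊤ := by
      apply hli1.span_eq_top_of_card_eq_finrank'
      rw [Fintype.card_fin, htop, finrank_top]
    refine ContinuousLinearMap.ext fun e => ?_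
    have he : e ∈ Submodule.span ℝ (range fun k => (T X (j k) (y k) z).1) := by
      rw [hspan]; trivial
    induction he using Submodule.span_induction with
    | mem e he =>
      obtain ⟨k, rfl⟩ := he
      simp only [hΦ, sum_apply, smul_apply, smul_eq_mul, hθ z hz.1.2]
      simp [hp k]
    | zero => rw [map_zero, map_zero]
    | add a b _ _ iha ihb => rw [map_add, map_add, iha, ihb]
    | smul c a _ ih => rw [map_smul, map_smul, ih]
  have hΦs : ContDiffOn ℝ ∞ Φ N := by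
    apply ContDiffOn.sum
    intro k _
    exact (contDiffOn_rho hU hX hS hN hNU (j k) (y k)).smul ((hθs k).mono fun z hz => hz.1.2)
  have hcurve : ∀ z ∈ N, (∀ i, Φ z (X i z.1) = ∑ j, S z.1 i j * mom X j z) ∧
      ∀ e, (fderiv ℝ Φ z (XH X z)) e =
        (1 / 2) * ∑ i, ∑ j, (fderiv ℝ S z.1 e) i j * (mom X i z * mom X j z) -
          ∑ i, mom X i z * Φ z (fderiv ℝ (X i) z.1 e) := by
    intro z hz
    obtain ⟨J, s₀, κ, ζ, μ, hJ, hs₀, hκ, hζ0, hζN, hζd, hhor, hder⟩ :=
      exists_transport hU hX hli hD hg₁ hg₂ horth hS hSs hSg haff (hNU hz) (hgoodN z hz) hN hNU hz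
    have hμc : ContinuousOn μ J := by
      intro s hs
      obtain ⟨μ', hμ', -⟩ := hder s hs
      exact hμ'.continuousAt.continuousWithinAt
    have hmain := curve_main hU hX hS hSs hN hNU hJ hκ hζN hζd hμc hhor
      (Filter.Eventually.of_forall hder)
    have hΦμ : ∀ s ∈ J, Φ (ζ s) = μ s := fun s hs =>
      hrec (ζ s) (hζN s hs) (μ s) fun k => hmain (j k) (y k) s hs
    refine ⟨?_, ?_⟩
    · intro i
      have h1 := hhor s₀ hs₀ i
      rw [← hΦμ s₀ hs₀, hζ0] at h1
      exact h1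
    · intro e
      obtain ⟨μ', hμ', hμe⟩ := hder s₀ hs₀
      have h1 : HasDerivAt (fun s => Φ (ζ s)) (fderiv ℝ Φ (ζ s₀) (κ • XH X (ζ s₀))) s₀ :=
        (diffAt hN hΦs (hζN s₀ hs₀)).hasFDerivAt.comp_hasDerivAt s₀ (hζd s₀ hs₀)
      have h2 : (fun s => Φ (ζ s)) =ᶠ[𝓝 s₀] μ := by
        filter_upwards [hJ.mem_nhds hs₀] with s hs
        exact hΦμ s hs
      have h3 := (hμ'.congr_of_eventuallyEq h2).unique h1
      have h4 := hμe e
      rw [h3, ← hΦμ s₀ hs₀, hζ0, map_smul, smul_apply, smul_eq_mul] at h4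
      exact mul_left_cancel₀ hκ h4
  exact ⟨N, hNU, hN, ⟨⟨hz₀N₁, hz₀N₂⟩, hz₀, hgood.2⟩, Φ,
    ⟨hΦs, fun z hz => (hcurve z hz).1, fun z hz => (hcurve z hz).2⟩⟩

end Pool.Agent.SubRiem
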