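import Mathlib

/-!
Smooth Gram–Schmidt for a smooth family of vector fields and a smooth metric
(package B for MP_134ef0_gt).
-/

set_option autoImplicit false

namespace Pool.Agent.SubRiem

open Set Filter Topology
open scoped ContDiff

/-- PACKAGE B.  Smooth Gram–Schmidt. -/
theorem exists_orthonormal_frame {E : Type*} [NormedAddCommGroup E] [NormedSpace ℝ E]
    [FiniteDimensional ℝ E] {U : Set E} (hU : IsOpen U) {m : ℕ} {X : Fin m → E → E}
    (hX : ∀ i, ContDiffOn ℝ ∞ (X i) U) (hli : ∀ x ∈ U, LinearIndependent ℝ (fun i => X i x))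
    {g : E → (E →L[ℝ] E →L[ℝ] ℝ)} (hg : ContDiffOn ℝ ∞ g U)
    (hsymm : ∀ x ∈ U, ∀ v w, v ∈ Submodule.span ℝ (range fun i => X i x) →
      w ∈ Submodule.span ℝ (range fun i => X i x) → g x v w = g x w v)
    (hpos : ∀ x ∈ U, ∀ v ∈ Submodule.span ℝ (range fun i => X i x), v ≠ 0 → 0 < g x v v) :
    ∃ Y : Fin m → E → E, (∀ i, ContDiffOn ℝ ∞ (Y i) U) ∧
      (∀ x ∈ U, ∀ i j, g x (Y i x) (Y j x) = if i = j then 1 else 0) ∧
      ∀ x ∈ U, Submodule.span ℝ (range fun i => Y i x) =
        Submodule.span ℝ (range fun i => X i x) := by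
  induction m with
  | zero => exact ⟨X, hX, fun x _ i => i.elim0, fun x _ => rfl⟩
  | succ m ih =>
    have hle : ∀ x, Submodule.span ℝ (range fun i : Fin m => X i.castSucc x) ≤
        Submodule.span ℝ (range fun i => X i x) := by
      intro x
      apply Submodule.span_mono
      rintro _ ⟨i, rfl⟩
      exact ⟨i.castSucc, rfl⟩
    have hXl : ∀ x, X (Fin.last m) x ∈ Submodule.span ℝ (range fun i => X i x) :=
      fun x => Submodule.subset_span ⟨Fin.last m, rfl⟩
    have hli' : ∀ x ∈ U, LinearIndependent ℝ (fun i : Fin m => X i.castSucc x) ∧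
        X (Fin.last m) x ∉ Submodule.span ℝ (range fun i : Fin m => X i.castSucc x) := by
      intro x hx
      have h := linearIndependent_finSucc'.1 (hli x hx)
      exact h
    obtain ⟨Y, hYs, hYo, hYsp⟩ := ih (X := fun i => X i.castSucc) (fun i => hX _)
      (fun x hx => (hli' x hx).1)
      (fun x hx v w hv hw => hsymm x hx v w (hle x hv) (hle x hw))
      (fun x hx v hv h0 => hpos x hx v (hle x hv) h0)
    have hYm : ∀ x ∈ U, ∀ i, Y i x ∈ Submodule.span ℝ (range fun i : Fin m => X i.castSucc x) := by
      intro x hx i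
      rw [← hYsp x hx]
      exact Submodule.subset_span ⟨i, rfl⟩
    set Z : E → E := fun x => X (Fin.last m) x -
      ∑ i, (g x (Y i x) (X (Fin.last m) x)) • Y i x with hZ
    have hZs : ContDiffOn ℝ ∞ Z U := by
      apply (hX _).sub
      apply ContDiffOn.sum
      intro i _
      exact ((hg.clm_apply (hYs i)).clm_apply (hX _)).smul (hYs i)
    have hsum : ∀ x ∈ U, ∑ i, (g x (Y i x) (X (Fin.last m) x)) • Y i x ∈
        Submodule.span ℝ (range fun i : Fin m => X i.castSucc x) := fun x hx =>
      Submodule.sum_mem _ fun i _ => Submodule.smul_mem _ _ (hYm x hx i)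
    have hZm : ∀ x ∈ U, Z x ∈ Submodule.span ℝ (range fun i => X i x) := fun x hx =>
      Submodule.sub_mem _ (hXl x) (hle x (hsum x hx))
    have hZ0 : ∀ x ∈ U, Z x ≠ 0 := by
      intro x hx h0
      apply (hli' x hx).2
      have : X (Fin.last m) x = ∑ i, (g x (Y i x) (X (Fin.last m) x)) • Y i x :=
        sub_eq_zero.1 h0
      rw [this]
      exact hsum x hx
    have hZZ : ∀ x ∈ U, 0 < g x (Z x) (Z x) := fun x hx => hpos x hx _ (hZm x hx) (hZ0 x hx)
    have hYZ : ∀ x ∈ U, ∀ j, g x (Y j x) (Z x) = 0 := by
      intro x hx j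
      simp only [hZ, map_sub, map_sum, map_smul, smul_eq_mul]
      simp only [hYo x hx j]
      simp
    have hZY : ∀ x ∈ U, ∀ j, g x (Z x) (Y j x) = 0 := by
      intro x hx j
      rw [hsymm x hx _ _ (hZm x hx) (hle x (hYm x hx j))]
      exact hYZ x hx j
    set r : E → ℝ := fun x => (Real.sqrt (g x (Z x) (Z x)))⁻¹ with hr
    have hrs : ContDiffOn ℝ ∞ r U := by
      apply ContDiffOn.inv
      · apply ContDiffOn.sqrt ((hg.clm_apply hZs).clm_apply hZs)
        intro x hx
        exact (hZZ x hx).ne'
      · intro x hx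
        exact (Real.sqrt_pos.2 (hZZ x hx)).ne'
    have hr0 : ∀ x ∈ U, r x ≠ 0 := fun x hx =>
      inv_ne_zero (Real.sqrt_pos.2 (hZZ x hx)).ne'
    refine ⟨Fin.snoc (α := fun _ => E → E) Y (fun x => r x • Z x), ?_, ?_, ?_⟩
    · intro i
      refine Fin.lastCases ?_ (fun i => ?_) i
      · simp only [Fin.snoc_last]
        exact hrs.smul hZs
      · simp only [Fin.snoc_castSucc]
        exact hYs i
    · intro x hx i j
      refine Fin.lastCases ?_ (fun i => ?_) i
      · refine Fin.lastCases ?_ (fun j => ?_) j
        · simp only [Fin.snoc_last, map_smul, smul_apply, smul_eq_mul,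
            if_true]
          have h1 := Real.mul_self_sqrt (hZZ x hx).le
          have h2 := (Real.sqrt_pos.2 (hZZ x hx)).ne'
          simp only [hr]
          field_simp
          rw [sq, h1]
        · simp only [Fin.snoc_last, Fin.snoc_castSucc, map_smul, smul_apply,
            smul_eq_mul, hZY x hx j, mul_zero]
          rw [if_neg (Fin.castSucc_lt_last j).ne']
      · refine Fin.lastCases ?_ (fun j => ?_) j
        · simp only [Fin.snoc_last, Fin.snoc_castSucc, map_smul, smul_eq_mul, hYZ x hx i, mul_zero]
          rw [if_neg (Fin.castSucc_lt_last i).ne]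
        · simp only [Fin.snoc_castSucc, hYo x hx i j, Fin.castSucc_inj]
    · intro x hx
      apply le_antisymm
      · rw [Submodule.span_le]
        rintro _ ⟨i, rfl⟩
        refine Fin.lastCases ?_ (fun i => ?_) i
        · simp only [Fin.snoc_last, SetLike.mem_coe]
          exact Submodule.smul_mem _ _ (hZm x hx)
        · simp only [Fin.snoc_castSucc, SetLike.mem_coe]
          exact hle x (hYm x hx i)
      · rw [Submodule.span_le]
        have hY' : Submodule.span ℝ (range fun i => Y i x) ≤ Submodule.span ℝ
            (range fun i => (Fin.snoc (α := fun _ => E → E) Y (fun x => r x • Z x) :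
              Fin (m + 1) → E → E) i x) := by
          apply Submodule.span_mono
          rintro _ ⟨i, rfl⟩
          exact ⟨i.castSucc, by simp only [Fin.snoc_castSucc]⟩
        rintro _ ⟨i, rfl⟩
        refine Fin.lastCases ?_ (fun i => ?_) i
        · simp only [SetLike.mem_coe]
          have h1 : X (Fin.last m) x = Z x + ∑ i, (g x (Y i x) (X (Fin.last m) x)) • Y i x := by
            simp only [hZ, sub_add_cancel]
          rw [h1]
          apply Submodule.add_mem
          · have h2 : Z x = (r x)⁻¹ • (r x • Z x) := by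
              rw [smul_smul, inv_mul_cancel₀ (hr0 x hx), one_smul]
            rw [h2]
            apply Submodule.smul_mem
            apply Submodule.subset_span
            exact ⟨Fin.last m, by simp only [Fin.snoc_last]⟩
          · apply hY'
            rw [hYsp x hx]
            exact hsum x hx
        · simp only [SetLike.mem_coe]
          apply hY'
          rw [hYsp x hx]
          exact Submodule.subset_span ⟨i, rfl⟩

end Pool.Agent.SubRiem
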