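import Mathlib
import Pool.Agent.SubRiem.Lift

/-!
# Complementary spans of smooth fields have locally constant rank
-/

set_option autoImplicit false
set_option linter.unusedSectionVars false
set_option linter.unusedVariables false

namespace Pool.Agent.SubRiem

open Set Filter Topology VectorField
open scoped ContDiff

variable {E : Type*} [NormedAddCommGroup E] [NormedSpace ℝ E] [FiniteDimensional ℝ E]

/-- The span of the values at `x` of the fields satisfying `G`. -/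
def spG (G : (E → E) → Prop) (x : E) : Submodule ℝ E := Submodule.span ℝ {v | ∃ B, G B ∧ v = B x}

section

variable {U : Set E} (hU : IsOpen U) {G : (E → E) → Prop}
  (hG : ∀ B, G B → ContDiffOn ℝ ∞ B U)

include hU hG

theorem exists_frame {x₀ : E} (hx₀ : x₀ ∈ U) :
    ∃ W ⊆ U, IsOpen W ∧ x₀ ∈ W ∧ ∃ (B : Fin (Module.finrank ℝ (spG G x₀)) → E → E)
      (L : Fin (Module.finrank ℝ (spG G x₀)) → E → (E →L[ℝ] ℝ)),
      (∀ k, G (B k)) ∧ (∀ k, ContDiffOn ℝ ∞ (L k) W) ∧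
        ∀ x ∈ W, ∀ k j, L k x (B j x) = if k = j then 1 else 0 := by
  obtain ⟨f, hfmem, hfspan, hfli⟩ := Submodule.exists_fun_fin_finrank_span_eq ℝ
    {v | ∃ B, G B ∧ v = B x₀}
  choose B hB hfB using hfmem
  have hli0 : LinearIndependent ℝ (fun k => B k x₀) := by
    have : (fun k => B k x₀) = f := funext fun k => (hfB k).symm
    rw [this]; exact hfli
  obtain ⟨W, hWU, hW, hx₀W, L, hLs, hL⟩ := exists_smooth_dual (e := B) hU
    (fun k => hG _ (hB k)) hx₀ hli0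
  exact ⟨W, hWU, hW, hx₀W, B, L, hB, hLs, hL⟩

theorem finrank_le_near {x₀ : E} (hx₀ : x₀ ∈ U) :
    ∃ W ⊆ U, IsOpen W ∧ x₀ ∈ W ∧ ∀ x ∈ W,
      Module.finrank ℝ (spG G x₀) ≤ Module.finrank ℝ (spG G x) := by
  obtain ⟨W, hWU, hW, hx₀W, B, L, hB, _, hL⟩ := exists_frame hU hG hx₀
  refine ⟨W, hWU, hW, hx₀W, fun x hx => ?_⟩
  have h1 : LinearIndependent ℝ (fun k => B k x) :=
    linearIndependent_of_dual' (fun k => L k x) (hL x hx)
  have h2 : Submodule.span ℝ (range fun k => B k x) ≤ spG G x := by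
    rw [Submodule.span_le]
    rintro _ ⟨k, rfl⟩
    exact Submodule.subset_span ⟨B k, hB k, rfl⟩
  have h3 := Submodule.finrank_mono h2
  rw [finrank_span_eq_card h1, Fintype.card_fin] at h3
  exact h3

end

/-- Two complementary families of fields: local frames with smooth dual functionals. -/
theorem exists_complementary_frames {U : Set E} (hU : IsOpen U) {G₁ G₂ : (E → E) → Prop}
    (hG₁ : ∀ B, G₁ B → ContDiffOn ℝ ∞ B U) (hG₂ : ∀ B, G₂ B → ContDiffOn ℝ ∞ B U)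
    (hsup : ∀ x ∈ U, spG G₁ x ⊔ spG G₂ x = ⊤)
    (hdense : ∀ W ⊆ U, IsOpen W → W.Nonempty → ∃ x ∈ W, Disjoint (spG G₁ x) (spG G₂ x))
    {x₀ : E} (hx₀ : x₀ ∈ U) :
    ∃ W ⊆ U, IsOpen W ∧ x₀ ∈ W ∧ (∀ x ∈ W, IsCompl (spG G₁ x) (spG G₂ x)) ∧
      (∃ (B : Fin (Module.finrank ℝ (spG G₁ x₀)) → E → E)
        (L : Fin (Module.finrank ℝ (spG G₁ x₀)) → E → (E →L[ℝ] ℝ)),
        (∀ k, G₁ (B k)) ∧ (∀ k, ContDiffOn ℝ ∞ (L k) W) ∧
        (∀ x ∈ W, ∀ k j, L k x (B j x) = if k = j then 1 else 0) ∧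
        ∀ x ∈ W, Submodule.span ℝ (range fun k => B k x) = spG G₁ x) ∧
      (∃ (B : Fin (Module.finrank ℝ (spG G₂ x₀)) → E → E)
        (L : Fin (Module.finrank ℝ (spG G₂ x₀)) → E → (E →L[ℝ] ℝ)),
        (∀ k, G₂ (B k)) ∧ (∀ k, ContDiffOn ℝ ∞ (L k) W) ∧
        (∀ x ∈ W, ∀ k j, L k x (B j x) = if k = j then 1 else 0) ∧
        ∀ x ∈ W, Submodule.span ℝ (range fun k => B k x) = spG G₂ x) := by
  have hge : ∀ x ∈ U, Module.finrank ℝ E ≤
      Module.finrank ℝ (spG G₁ x) + Module.finrank ℝ (spG G₂ x) := by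
    intro x hx
    have h1 := Submodule.finrank_sup_add_finrank_inf_eq (spG G₁ x) (spG G₂ x)
    rw [hsup x hx, finrank_top] at h1
    omega
  have heq : ∀ x ∈ U, Module.finrank ℝ (spG G₁ x) + Module.finrank ℝ (spG G₂ x) =
      Module.finrank ℝ E := by
    intro x hx
    apply le_antisymm _ (hge x hx)
    obtain ⟨W₁, hW₁U, hW₁, hx₁, hf₁⟩ := finrank_le_near hU hG₁ hx
    obtain ⟨W₂, hW₂U, hW₂, hx₂, hf₂⟩ := finrank_le_near hU hG₂ hx
    obtain ⟨y, hy, hdis⟩ := hdense (W₁ ∩ W₂) (inter_subset_left.trans hW₁U) (hW₁.inter hW₂)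
      ⟨x, hx₁, hx₂⟩
    have h1 := hf₁ y hy.1
    have h2 := hf₂ y hy.2
    have h3 := Submodule.finrank_sup_add_finrank_inf_eq (spG G₁ y) (spG G₂ y)
    rw [hdis.eq_bot, finrank_bot, add_zero] at h3
    have h4 := Submodule.finrank_le (spG G₁ y ⊔ spG G₂ y)
    omega
  have hcompl : ∀ x ∈ U, IsCompl (spG G₁ x) (spG G₂ x) := by
    intro x hx
    refine ⟨?_, codisjoint_iff.2 (hsup x hx)⟩
    rw [disjoint_iff]
    have h1 := Submodule.finrank_sup_add_finrank_inf_eq (spG G₁ x) (spG G₂ x)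
    rw [hsup x hx, finrank_top, heq x hx] at h1
    have h2 : Module.finrank ℝ (spG G₁ x ⊓ spG G₂ x : Submodule ℝ E) = 0 := by omega
    exact Submodule.finrank_eq_zero.1 h2
  obtain ⟨W₁, hW₁U, hW₁, hx₁, B₁, L₁, hB₁, hLs₁, hL₁⟩ := exists_frame hU hG₁ hx₀
  obtain ⟨W₂, hW₂U, hW₂, hx₂, B₂, L₂, hB₂, hLs₂, hL₂⟩ := exists_frame hU hG₂ hx₀
  have hspan : ∀ {G : (E → E) → Prop} {n : ℕ} {B : Fin n → E → E}
      {L : Fin n → E → (E →L[ℝ] ℝ)} {x : E}, (∀ k, G (B k)) →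
      (∀ k j, L k x (B j x) = if k = j then 1 else 0) → n = Module.finrank ℝ (spG G x) →
      Submodule.span ℝ (range fun k => B k x) = spG G x := by
    intro G n B L x hB hL hn
    have h1 : LinearIndependent ℝ (fun k => B k x) :=
      linearIndependent_of_dual' (fun k => L k x) hL
    apply Submodule.eq_of_le_of_finrank_eq
    · rw [Submodule.span_le]
      rintro _ ⟨k, rfl⟩
      exact Submodule.subset_span ⟨B k, hB k, rfl⟩
    · rw [finrank_span_eq_card h1, Fintype.card_fin, hn]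
  have hle : ∀ {G : (E → E) → Prop} {n : ℕ} {B : Fin n → E → E}
      {L : Fin n → E → (E →L[ℝ] ℝ)} {x : E}, (∀ k, G (B k)) →
      (∀ k j, L k x (B j x) = if k = j then 1 else 0) → n ≤ Module.finrank ℝ (spG G x) := by
    intro G n B L x hB hL
    have h1 : LinearIndependent ℝ (fun k => B k x) :=
      linearIndependent_of_dual' (fun k => L k x) hL
    have h2 : Submodule.span ℝ (range fun k => B k x) ≤ spG G x := by
      rw [Submodule.span_le]
      rintro _ ⟨k, rfl⟩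
      exact Submodule.subset_span ⟨B k, hB k, rfl⟩
    have h3 := Submodule.finrank_mono h2
    rw [finrank_span_eq_card h1, Fintype.card_fin] at h3
    exact h3
  have hrk : ∀ x ∈ W₁ ∩ W₂, Module.finrank ℝ (spG G₁ x₀) = Module.finrank ℝ (spG G₁ x) ∧
      Module.finrank ℝ (spG G₂ x₀) = Module.finrank ℝ (spG G₂ x) := by
    intro x hx
    have h1 := hle hB₁ (hL₁ x hx.1)
    have h2 := hle hB₂ (hL₂ x hx.2)
    have h3 := heq x (hW₁U hx.1)
    have h4 := heq x₀ hx₀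
    omega
  refine ⟨W₁ ∩ W₂, inter_subset_left.trans hW₁U, hW₁.inter hW₂, ⟨hx₁, hx₂⟩,
    fun x hx => hcompl x (hW₁U hx.1), ⟨B₁, L₁, hB₁, fun k => (hLs₁ k).mono inter_subset_left,
      fun x hx => hL₁ x hx.1, fun x hx => hspan hB₁ (hL₁ x hx.1) (hrk x hx).1⟩,
    ⟨B₂, L₂, hB₂, fun k => (hLs₂ k).mono inter_subset_right,
      fun x hx => hL₂ x hx.2, fun x hx => hspan hB₂ (hL₂ x hx.2) (hrk x hx).2⟩⟩

/-- If the ranks of two families add up to a constant, the first has local frames. -/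
theorem exists_frame_of_sum {U : Set E} (hU : IsOpen U) {G₁ G₂ : (E → E) → Prop}
    (hG₁ : ∀ B, G₁ B → ContDiffOn ℝ ∞ B U) (hG₂ : ∀ B, G₂ B → ContDiffOn ℝ ∞ B U) {n : ℕ}
    (hsum : ∀ x ∈ U, Module.finrank ℝ (spG G₁ x) + Module.finrank ℝ (spG G₂ x) = n)
    {x₀ : E} (hx₀ : x₀ ∈ U) :
    ∃ W ⊆ U, IsOpen W ∧ x₀ ∈ W ∧ ∃ (r : ℕ) (B : Fin r → E → E), (∀ k, G₁ (B k)) ∧
      (∀ x ∈ W, LinearIndependent ℝ fun k => B k x) ∧
      ∀ x ∈ W, Submodule.span ℝ (range fun k => B k x) = spG G₁ x := by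
  obtain ⟨W₁, hW₁U, hW₁, hx₁, B₁, L₁, hB₁, hLs₁, hL₁⟩ := exists_frame hU hG₁ hx₀
  obtain ⟨W₂, hW₂U, hW₂, hx₂, hf₂⟩ := finrank_le_near hU hG₂ hx₀
  have hli : ∀ x ∈ W₁, LinearIndependent ℝ fun k => B₁ k x := fun x hx =>
    linearIndependent_of_dual' (fun k => L₁ k x) (hL₁ x hx)
  refine ⟨W₁ ∩ W₂, inter_subset_left.trans hW₁U, hW₁.inter hW₂, ⟨hx₁, hx₂⟩, _, B₁, hB₁,
    fun x hx => hli x hx.1, fun x hx => ?_⟩
  have hle : Submodule.span ℝ (range fun k => B₁ k x) ≤ spG G₁ x := by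
    rw [Submodule.span_le]
    rintro _ ⟨k, rfl⟩
    exact Submodule.subset_span ⟨B₁ k, hB₁ k, rfl⟩
  apply Submodule.eq_of_le_of_finrank_eq hle
  have h1 := Submodule.finrank_mono hle
  rw [finrank_span_eq_card (hli x hx.1), Fintype.card_fin] at h1 ⊢
  have h2 := hf₂ x hx.2
  have h3 := hsum x (hW₁U hx.1)
  have h4 := hsum x₀ hx₀
  omega

end Pool.Agent.SubRiem
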