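import Mathlib
import Pool.Agent.SubRiem.Rank
import Pool.Agent.SubRiem.Defs

/-!
# The factor of a product chart
-/

set_option autoImplicit false
set_option linter.unusedSectionVars false
set_option linter.unusedVariables false

namespace Pool.Agent.SubRiem

open Set Filter Topology VectorField
open scoped ContDiff Matrix Matrix.Norms.Operator

variable {E F F' : Type*} [NormedAddCommGroup E] [NormedSpace ℝ E] [FiniteDimensional ℝ E]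
  [NormedAddCommGroup F] [NormedSpace ℝ F] [FiniteDimensional ℝ F]
  [NormedAddCommGroup F'] [NormedSpace ℝ F'] [FiniteDimensional ℝ F']

/-- Product chart data. -/
structure PChart (V : Set E) (Ω : Set F) (Ω' : Set F') (ψ : E → F) (ψ' : E → F')
    (τ : F → F' → E) : Prop where
  hV : IsOpen V
  hΩ : IsOpen Ω
  hΩ' : IsOpen Ω'
  cΩ : Convex ℝ Ω
  cΩ' : Convex ℝ Ω'
  sψ : ContDiffOn ℝ ∞ ψ V
  sψ' : ContDiffOn ℝ ∞ ψ' V
  sτ : ContDiffOn ℝ ∞ (fun y : F × F' => τ y.1 y.2) (Ω ×ˢ Ω')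
  mψ : ∀ x ∈ V, ψ x ∈ Ω
  mψ' : ∀ x ∈ V, ψ' x ∈ Ω'
  mτ : ∀ y ∈ Ω, ∀ y' ∈ Ω', τ y y' ∈ V
  ψτ : ∀ y ∈ Ω, ∀ y' ∈ Ω', ψ (τ y y') = y
  ψ'τ : ∀ y ∈ Ω, ∀ y' ∈ Ω', ψ' (τ y y') = y'
  τψ : ∀ x ∈ V, τ (ψ x) (ψ' x) = x

/-- The same data with the factors exchanged. -/
theorem PChart.swap {V : Set E} {Ω : Set F} {Ω' : Set F'} {ψ : E → F} {ψ' : E → F'}
    {τ : F → F' → E} (h : PChart V Ω Ω' ψ ψ' τ) :
    PChart V Ω' Ω ψ' ψ (fun y' y => τ y y') where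
  hV := h.hV
  hΩ := h.hΩ'
  hΩ' := h.hΩ
  cΩ := h.cΩ'
  cΩ' := h.cΩ
  sψ := h.sψ'
  sψ' := h.sψ
  sτ := by
    have h1 : ContDiffOn ℝ ∞ (fun y : F' × F => (y.2, y.1)) (Ω' ×ˢ Ω) :=
      (contDiff_snd.prodMk contDiff_fst).contDiffOn
    exact h.sτ.comp h1 (fun y hy => ⟨hy.2, hy.1⟩)
  mψ := h.mψ'
  mψ' := h.mψ
  mτ := fun y' hy' y hy => h.mτ y hy y' hy'
  ψτ := fun y' hy' y hy => h.ψ'τ y hy y' hy'
  ψ'τ := fun y' hy' y hy => h.ψτ y hy y' hy'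
  τψ := h.τψ

section chart

variable {V : Set E} {Ω : Set F} {Ω' : Set F'} {ψ : E → F} {ψ' : E → F'}
  {τ : F → F' → E} (c : PChart V Ω Ω' ψ ψ' τ)

include c

theorem PChart.dψ {x : E} (hx : x ∈ V) : DifferentiableAt ℝ ψ x :=
  (c.sψ.contDiffAt (c.hV.mem_nhds hx)).differentiableAt (by simp)

theorem PChart.dψ' {x : E} (hx : x ∈ V) : DifferentiableAt ℝ ψ' x :=
  (c.sψ'.contDiffAt (c.hV.mem_nhds hx)).differentiableAt (by simp)

theorem PChart.sσ {y' : F'} (hy' : y' ∈ Ω') : ContDiffOn ℝ ∞ (fun y => τ y y') Ω := by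
  have h1 : ContDiffOn ℝ ∞ (fun y : F => (y, y')) Ω :=
    (contDiff_id.prodMk contDiff_const).contDiffOn
  exact c.sτ.comp h1 (fun y hy => ⟨hy, hy'⟩)

theorem PChart.sσ' {y : F} (hy : y ∈ Ω) : ContDiffOn ℝ ∞ (fun y' => τ y y') Ω' :=
  c.swap.sσ hy

theorem PChart.dσ {y : F} (hy : y ∈ Ω) {y' : F'} (hy' : y' ∈ Ω') :
    DifferentiableAt ℝ (fun y => τ y y') y :=
  ((c.sσ hy').contDiffAt (c.hΩ.mem_nhds hy)).differentiableAt (by simp)

theorem PChart.dσ' {y : F} (hy : y ∈ Ω) {y' : F'} (hy' : y' ∈ Ω') :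
    DifferentiableAt ℝ (fun y' => τ y y') y' := c.swap.dσ hy' hy

theorem PChart.Dψσ {y : F} (hy : y ∈ Ω) {y' : F'} (hy' : y' ∈ Ω') (w : F) :
    fderiv ℝ ψ (τ y y') (fderiv ℝ (fun y => τ y y') y w) = w := by
  have h1 := (c.dψ (c.mτ y hy y' hy')).hasFDerivAt.comp y (c.dσ hy hy').hasFDerivAt
  have h2 : (ψ ∘ fun y => τ y y') =ᶠ[𝓝 y] id := by
    filter_upwards [c.hΩ.mem_nhds hy] with y₁ hy₁
    exact c.ψτ y₁ hy₁ y' hy'
  have h3 := (h1.congr_of_eventuallyEq h2.symm).unique (hasFDerivAt_id y)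
  exact congrArg (fun l : F →L[ℝ] F => l w) h3

theorem PChart.Dψ'σ {y : F} (hy : y ∈ Ω) {y' : F'} (hy' : y' ∈ Ω') (w : F) :
    fderiv ℝ ψ' (τ y y') (fderiv ℝ (fun y => τ y y') y w) = 0 := by
  have h1 := (c.dψ' (c.mτ y hy y' hy')).hasFDerivAt.comp y (c.dσ hy hy').hasFDerivAt
  have h2 : (ψ' ∘ fun y => τ y y') =ᶠ[𝓝 y] fun _ => y' := by
    filter_upwards [c.hΩ.mem_nhds hy] with y₁ hy₁
    exact c.ψ'τ y₁ hy₁ y' hy'
  have h3 := (h1.congr_of_eventuallyEq h2.symm).unique (hasFDerivAt_const y' y)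
  exact congrArg (fun l : F →L[ℝ] F' => l w) h3

theorem PChart.inj {x : E} (hx : x ∈ V) {v : E} (h1 : fderiv ℝ ψ x v = 0)
    (h2 : fderiv ℝ ψ' x v = 0) : v = 0 := by
  have h3 : HasFDerivAt (fun x => (ψ x, ψ' x)) ((fderiv ℝ ψ x).prod (fderiv ℝ ψ' x)) x :=
    (c.dψ hx).hasFDerivAt.prodMk (c.dψ' hx).hasFDerivAt
  have h4 : DifferentiableAt ℝ (fun y : F × F' => τ y.1 y.2) (ψ x, ψ' x) :=
    (c.sτ.contDiffAt ((c.hΩ.prod c.hΩ').mem_nhds ⟨c.mψ x hx, c.mψ' x hx⟩)).differentiableAt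
      (by simp)
  have h5 := h4.hasFDerivAt.comp x h3
  have h6 : ((fun y : F × F' => τ y.1 y.2) ∘ fun x => (ψ x, ψ' x)) =ᶠ[𝓝 x] id := by
    filter_upwards [c.hV.mem_nhds hx] with x₁ hx₁
    exact c.τψ x₁ hx₁
  have h7 := (h5.congr_of_eventuallyEq h6.symm).unique (hasFDerivAt_id x)
  have h8 := congrArg (fun l : E →L[ℝ] E => l v) h7
  simp only [ContinuousLinearMap.comp_apply, ContinuousLinearMap.prod_apply, h1, h2] at h8
  rw [← Prod.zero_eq_mk, map_zero] at h8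
  exact h8.symm

/-- Functions with vanishing derivative along the fibres of `ψ` are constant on fibres. -/
theorem PChart.fibre_const {G : E → ℝ} (hG : ∀ x ∈ V, DifferentiableAt ℝ G x)
    (h0 : ∀ x ∈ V, ∀ u, fderiv ℝ ψ x u = 0 → fderiv ℝ G x u = 0) {y : F} (hy : y ∈ Ω)
    {y' y'' : F'} (hy' : y' ∈ Ω') (hy'' : y'' ∈ Ω') : G (τ y y') = G (τ y y'') := by
  have hd : ∀ a ∈ Ω', HasFDerivAt (fun a => G (τ y a))
      ((fderiv ℝ G (τ y a)).comp (fderiv ℝ (fun a => τ y a) a)) a := fun a ha =>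
    (hG _ (c.mτ y hy a ha)).hasFDerivAt.comp a (c.dσ' hy ha).hasFDerivAt
  apply IsOpen.is_const_of_fderiv_eq_zero (𝕜 := ℝ) (f := fun a => G (τ y a)) c.hΩ'
    c.cΩ'.isPreconnected (fun a ha => (hd a ha).differentiableAt.differentiableWithinAt) _ hy' hy''
  intro a ha
  rw [(hd a ha).fderiv]
  ext w
  exact h0 _ (c.mτ y hy a ha) _ (c.swap.Dψ'σ ha hy w)

end chart

section linalg

variable {ι : Type*} [Fintype ι]

theorem polar_of_sq {a b : ι → F} (hab : ∀ η : F →L[ℝ] ℝ, ∑ i, (η (a i)) ^ 2 = ∑ i, (η (b i)) ^ 2)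
    (η ξ : F →L[ℝ] ℝ) : ∑ i, η (a i) * ξ (a i) = ∑ i, η (b i) * ξ (b i) := by
  have h1 := hab (η + ξ)
  have h2 := hab η
  have h3 := hab ξ
  have e : ∀ c : ι → F, ∑ i, ((η + ξ) (c i)) ^ 2 =
      ∑ i, (η (c i)) ^ 2 + ∑ i, (ξ (c i)) ^ 2 + 2 * ∑ i, η (c i) * ξ (c i) := by
    intro c
    rw [Finset.mul_sum, ← Finset.sum_add_distrib, ← Finset.sum_add_distrib]
    apply Finset.sum_congr rfl
    intro i _
    rw [add_apply]; ring
  rw [e, e] at h1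
  linarith

theorem kills_of_sq {a b : ι → F} (hab : ∀ η : F →L[ℝ] ℝ, ∑ i, (η (a i)) ^ 2 = ∑ i, (η (b i)) ^ 2)
    {η : F →L[ℝ] ℝ} (h : ∀ i, η (a i) = 0) (i : ι) : η (b i) = 0 := by
  have h1 := hab η
  simp only [h, ne_eq, OfNat.ofNat_ne_zero, not_false_eq_true, zero_pow,
    Finset.sum_const_zero] at h1
  have h2 := (Finset.sum_eq_zero_iff_of_nonneg (fun i _ => sq_nonneg (η (b i)))).1 h1.symm i
    (Finset.mem_univ i)
  exact pow_eq_zero_iff two_ne_zero |>.1 h2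

theorem span_eq_of_sq {a b : ι → F}
    (hab : ∀ η : F →L[ℝ] ℝ, ∑ i, (η (a i)) ^ 2 = ∑ i, (η (b i)) ^ 2) :
    Submodule.span ℝ (range a) = Submodule.span ℝ (range b) := by
  apply le_antisymm
  · rw [Submodule.span_le]
    rintro _ ⟨i, rfl⟩
    apply mem_of_forall_co
    intro p hp
    exact kills_of_sq (fun η => (hab η).symm)
      (fun j => hp _ (Submodule.subset_span ⟨j, rfl⟩)) i
  · rw [Submodule.span_le]
    rintro _ ⟨i, rfl⟩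
    apply mem_of_forall_co
    intro p hp
    exact kills_of_sq hab (fun j => hp _ (Submodule.subset_span ⟨j, rfl⟩)) i

end linalg

end Pool.Agent.SubRiem
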