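import Mathlib
import Pool.Agent.SubRiem.Factor

/-!
# Product charts from the inverse function theorem
-/

set_option autoImplicit false
set_option linter.unusedSectionVars false

namespace Pool.Agent.SubRiem

open Set Filter Topology
open scoped ContDiff

variable {E F F' : Type*} [NormedAddCommGroup E] [NormedSpace ℝ E] [FiniteDimensional ℝ E]
  [NormedAddCommGroup F] [NormedSpace ℝ F] [FiniteDimensional ℝ F]
  [NormedAddCommGroup F'] [NormedSpace ℝ F'] [FiniteDimensional ℝ F']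

theorem exists_pchart {W : Set E} (hW : IsOpen W) {x₀ : E} (hx₀ : x₀ ∈ W) {ψ : E → F}
    {ψ' : E → F'} (hψ : ContDiffOn ℝ ∞ ψ W) (hψ' : ContDiffOn ℝ ∞ ψ' W)
    (A : E ≃L[ℝ] (F × F'))
    (hA : HasFDerivAt (fun x => (ψ x, ψ' x)) (A : E →L[ℝ] (F × F')) x₀) :
    ∃ (Q : OpenPartialHomeomorph E (F × F')) (Ω : Set F) (Ω' : Set F'),
      x₀ ∈ Q.source ∧ Q.source ⊆ W ∧ (∀ x, Q x = (ψ x, ψ' x)) ∧ Q.target = Ω ×ˢ Ω' ∧
      IsConnected Ω ∧ IsConnected Ω' ∧ ContDiffOn ℝ ∞ Q.symm Q.target ∧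
      PChart Q.source Ω Ω' ψ ψ' (fun y y' => Q.symm (y, y')) := by
  have : CompleteSpace E := FiniteDimensional.complete ℝ E
  set Ψ : E → F × F' := fun x => (ψ x, ψ' x) with hΨ
  have hΨs : ContDiffOn ℝ ∞ Ψ W := hψ.prodMk hψ'
  have hΨat : ∀ x ∈ W, ContDiffAt ℝ ∞ Ψ x := fun x hx => hΨs.contDiffAt (hW.mem_nhds hx)
  have hinf : (∞ : WithTop ℕ∞) ≠ 0 := by simp
  set R : OpenPartialHomeomorph E (F × F') :=
    ContDiffAt.toOpenPartialHomeomorph Ψ (hΨat x₀ hx₀) hA hinf with hR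
  have hRc : ∀ x, R x = Ψ x := fun x => by
    rw [hR, ContDiffAt.toOpenPartialHomeomorph_coe]
  have hx₀R : x₀ ∈ R.source := ContDiffAt.mem_toOpenPartialHomeomorph_source _ hA hinf
  -- points with invertible derivative
  have hfs : ContDiffOn ℝ ∞ (fderiv ℝ Ψ) W := hΨs.fderiv_of_isOpen hW (by simp)
  set W₀ : Set E := W ∩ (fderiv ℝ Ψ) ⁻¹' (range ContinuousLinearEquiv.toContinuousLinearMap)
    with hW₀
  have hW₀o : IsOpen W₀ :=
    hfs.continuousOn.isOpen_inter_preimage hW ContinuousLinearEquiv.isOpen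
  have hx₀W₀ : x₀ ∈ W₀ := ⟨hx₀, ⟨A, by rw [hA.fderiv]⟩⟩
  set O : Set (F × F') := R.target ∩ R.symm ⁻¹' W₀ with hO
  have hOo : IsOpen O := R.isOpen_inter_preimage_symm hW₀o
  have hO₀ : R x₀ ∈ O := ⟨R.map_source hx₀R, by
    show R.symm (R x₀) ∈ W₀
    rw [R.left_inv hx₀R]; exact hx₀W₀⟩
  obtain ⟨r, hr, hball⟩ := Metric.isOpen_iff.1 hOo _ hO₀
  set Ω := Metric.ball (R x₀).1 r with hΩ
  set Ω' := Metric.ball (R x₀).2 r with hΩ'
  have hprod : Ω ×ˢ Ω' ⊆ O := by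
    rw [hΩ, hΩ', ball_prod_same]
    exact hball
  have hΩo : IsOpen Ω := Metric.isOpen_ball
  have hΩ'o : IsOpen Ω' := Metric.isOpen_ball
  set Q : OpenPartialHomeomorph E (F × F') := (R.symm.restr (Ω ×ˢ Ω')).symm with hQ
  have hQt : Q.target = Ω ×ˢ Ω' := by
    show (R.symm.restr (Ω ×ˢ Ω')).source = _
    rw [OpenPartialHomeomorph.restr_source, (hΩo.prod hΩ'o).interior_eq]
    exact inter_eq_right.2 (fun y hy => (hprod hy).1)
  have hQs : Q.source = R.source ∩ R ⁻¹' (Ω ×ˢ Ω') := by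
    show (R.symm.restr (Ω ×ˢ Ω')).target = _
    rw [OpenPartialHomeomorph.restr_target, (hΩo.prod hΩ'o).interior_eq]
    rfl
  have hQc : ∀ x, Q x = Ψ x := fun x => hRc x
  have hQsymm : ∀ y, Q.symm y = R.symm y := fun y => rfl
  have hsub : Q.source ⊆ W₀ := by
    intro x hx
    rw [hQs] at hx
    have h1 := (hprod hx.2).2
    have h2 : R.symm (R x) = x := R.left_inv hx.1
    have h3 : R.symm (R x) ∈ W₀ := h1
    rwa [h2] at h3
  have hQW : Q.source ⊆ W := fun x hx => (hsub hx).1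
  have hsymm : ContDiffOn ℝ ∞ Q.symm Q.target := by
    intro y hy
    have hys : Q.symm y ∈ Q.source := Q.map_target hy
    obtain ⟨B, hB⟩ := (hsub hys).2
    have h1 : HasFDerivAt Q (B : E →L[ℝ] (F × F')) (Q.symm y) := by
      have h2 : HasFDerivAt Ψ (fderiv ℝ Ψ (Q.symm y)) (Q.symm y) :=
        ((hΨat _ (hQW hys)).differentiableAt hinf).hasFDerivAt
      rw [← hB] at h2
      exact h2.congr_of_eventuallyEq (Filter.Eventually.of_forall hQc)
    have h3 : ContDiffAt ℝ ∞ Q (Q.symm y) :=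
      (hΨat _ (hQW hys)).congr_of_eventuallyEq (Filter.Eventually.of_forall hQc)
    exact (Q.contDiffAt_symm hy h1 h3).contDiffWithinAt
  have hx₀Q : x₀ ∈ Q.source := by
    rw [hQs]
    refine ⟨hx₀R, ?_⟩
    show R x₀ ∈ Ω ×ˢ Ω'
    exact ⟨Metric.mem_ball_self hr, Metric.mem_ball_self hr⟩
  refine ⟨Q, Ω, Ω', hx₀Q, hQW, hQc, hQt, ?_, ?_, hsymm, ?_⟩
  · exact ⟨⟨_, Metric.mem_ball_self hr⟩, (convex_ball _ _).isPreconnected⟩
  · exact ⟨⟨_, Metric.mem_ball_self hr⟩, (convex_ball _ _).isPreconnected⟩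
  · have hmem : ∀ x ∈ Q.source, ψ x ∈ Ω ∧ ψ' x ∈ Ω' := by
      intro x hx
      have h1 := Q.map_source hx
      rw [hQt, hQc] at h1
      exact h1
    have hinv : ∀ y ∈ Ω, ∀ y' ∈ Ω', (y, y') ∈ Q.target := by
      intro y hy y' hy'
      rw [hQt]; exact ⟨hy, hy'⟩
    have hright : ∀ y ∈ Ω, ∀ y' ∈ Ω', (ψ (Q.symm (y, y')), ψ' (Q.symm (y, y'))) = (y, y') := by
      intro y hy y' hy'
      have h1 := Q.right_inv (hinv y hy y' hy')
      rw [hQc] at h1
      exact h1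
    exact
      { hV := Q.open_source
        hΩ := hΩo
        hΩ' := hΩ'o
        cΩ := convex_ball _ _
        cΩ' := convex_ball _ _
        sψ := hψ.mono hQW
        sψ' := hψ'.mono hQW
        sτ := by rw [← hQt]; exact hsymm
        mψ := fun x hx => (hmem x hx).1
        mψ' := fun x hx => (hmem x hx).2
        mτ := fun y hy y' hy' => Q.map_target (hinv y hy y' hy')
        ψτ := fun y hy y' hy' => congrArg Prod.fst (hright y hy y' hy')
        ψ'τ := fun y hy y' hy' => congrArg Prod.snd (hright y hy y' hy')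
        τψ := fun x hx => by
          have h1 := Q.left_inv hx
          rw [hQc] at h1
          exact h1 }

end Pool.Agent.SubRiem
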