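import Mathlib
import Pool.Agent.SubRiem.Defs

/-!
# The bracket flag
-/

set_option autoImplicit false

namespace Pool.Agent.SubRiem

open Set Filter Topology VectorField
open scoped ContDiff

variable {E : Type*} [NormedAddCommGroup E] [NormedSpace ℝ E]

theorem flag_mono {D : E → Submodule ℝ E} {U : Set E} : Monotone (flag D U) :=
  monotone_nat_of_le_succ fun _ => le_sup_left

theorem secs_le_flag {D : E → Submodule ℝ E} {U : Set E} (j : ℕ) : secs D U ≤ flag D U j :=
  flag_mono (Nat.zero_le j)

theorem flag_congr {D : E → Submodule ℝ E} {U : Set E} {j : ℕ} {V W : E → E}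
    (hV : V ∈ flag D U j) (h : ∀ x ∈ U, W x = V x) : W ∈ flag D U j := by
  have h1 : W - V ∈ secs D U := by
    refine ⟨?_, ?_⟩
    · exact contDiffOn_const.congr (fun x hx => show (W - V) x = 0 by simp [h x hx])
    · intro x hx
      show W x - V x ∈ D x
      rw [h x hx, sub_self]
      exact (D x).zero_mem
  have h2 : W = (W - V) + V := by abel
  rw [h2]
  exact (flag D U j).add_mem (secs_le_flag j h1) hV

theorem flag_bracket {D : E → Submodule ℝ E} {U : Set E} {j : ℕ} {X V : E → E}
    (hX : X ∈ secs D U) (hV : V ∈ flag D U j) : lieBracket ℝ X V ∈ flag D U (j + 1) :=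
  (le_sup_right : _ ≤ flag D U (j + 1)) (Submodule.subset_span ⟨X, hX, V, hV, rfl⟩)

/-- Evaluation at a point. -/
def evalL (q : E) : (E → E) →ₗ[ℝ] E := LinearMap.proj q

/-- A criterion for the bracket-generating condition at a point. -/
theorem exists_flag_top [FiniteDimensional ℝ E] {D : E → Submodule ℝ E} {U : Set E} {q : E}
    (h : Submodule.span ℝ {v | ∃ j, ∃ V ∈ flag D U j, V q = v} = ⊤) :
    ∃ j, ∀ v : E, ∃ V ∈ flag D U j, V q = v := by
  set f : ℕ →o Submodule ℝ E :=
    ⟨fun j => (flag D U j).map (evalL q), fun i j hij => Submodule.map_mono (flag_mono hij)⟩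
    with hf
  obtain ⟨n, hn⟩ := monotone_stabilizes_iff_noetherian.2
    (inferInstance : IsNoetherian ℝ E) f
  have htop : f n = ⊤ := by
    rw [eq_top_iff, ← h, Submodule.span_le]
    rintro _ ⟨j, V, hV, rfl⟩
    have h1 : V q ∈ f j := ⟨V, hV, rfl⟩
    rcases le_total j n with hjn | hnj
    · exact f.monotone hjn h1
    · rw [hn j hnj]; exact h1
  refine ⟨n, fun v => ?_⟩
  have hv : v ∈ f n := by rw [htop]; trivial
  obtain ⟨V, hV, hVq⟩ := hv
  exact ⟨V, hV, hVq⟩

end Pool.Agent.SubRiem
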