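import Mathlib
import Pool.Agent.SubRiem.Factor
import Pool.Agent.SubRiem.Flag

/-!
# The factor structure in a product chart
-/

set_option autoImplicit false
set_option linter.unusedSectionVars false
set_option linter.unusedVariables false

namespace Pool.Agent.SubRiem

open Set Filter Topology VectorField
open scoped ContDiff Matrix Matrix.Norms.Operator

variable {E F F' : Type*} [NormedAddCommGroup E] [NormedSpace ℝ E] [FiniteDimensional ℝ E]
  [NormedAddCommGroup F] [NormedSpace ℝ F] [FiniteDimensional ℝ F]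
  [NormedAddCommGroup F'] [NormedSpace ℝ F'] [FiniteDimensional ℝ F']
  {ι : Type*} [Fintype ι] [DecidableEq ι]

/-- The spectral distribution. -/
def DT (X : ι → E → E) (S : E → Matrix ι ι ℝ) (Z T : Finset ℝ) (x : E) : Submodule ℝ E :=
  Submodule.span ℝ (range fun i => YT X S Z T i x)

section

variable {U : Set E} {X : ι → E → E} {S : E → Matrix ι ι ℝ} {Z : Finset ℝ}
  (h : Setup U X S Z) [Nonempty ι]

include h

theorem Setup.YT_sum (T : Finset ℝ) (i : ι) {x : E} (hx : x ∈ U) :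
    YT X S Z T i x = ∑ t ∈ T, YT X S Z {t} i x := by
  have h1 : ∑ t ∈ T, YT X S Z {t} i x = ∑ j, (∑ t ∈ T, PT S Z {t} x) i j • X j x := by
    simp only [YT, YY, Matrix.sum_apply, Finset.sum_smul]
    rw [Finset.sum_comm]
  have h2 : ∑ t ∈ T, PT S Z {t} x = PT S Z T x := ind_sum (h.hμ x hx) T
  rw [h1, h2]
  rfl

theorem Setup.DT_le_LT (T : Finset ℝ) {x : E} (hx : x ∈ U) : DT X S Z T x ≤ LT X S Z T x := by
  unfold DT
  rw [Submodule.span_le]
  rintro _ ⟨i, rfl⟩
  show YT X S Z T i x ∈ LT X S Z T x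
  rw [h.YT_sum T i hx]
  apply Submodule.sum_mem
  intro t ht
  exact Submodule.subset_span ⟨_, ⟨t, ht, Br.base i⟩, rfl⟩

theorem Setup.YT_mem_DT {T T' : Finset ℝ} (hT : T ⊆ T') (i : ι) {x : E} (hx : x ∈ U) :
    YT X S Z T i x ∈ DT X S Z T' x := by
  rw [h.YT_sub hT i hx]
  apply Submodule.sum_mem
  intro l _
  exact Submodule.smul_mem _ _ (Submodule.subset_span ⟨l, rfl⟩)

variable {θ : ι → E → Co E} (hθ : ∀ k, ContDiffOn ℝ ∞ (θ k) U)
  (hθX : ∀ x ∈ U, ∀ k j, θ k x (X j x) = if k = j then 1 else 0)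

include hθ hθX

theorem Setup.sup_LT {T T' : Finset ℝ} (hZ : T ∪ T' = Z) {x : E} (hx : x ∈ U) :
    LT X S Z T x ⊔ LT X S Z T' x = ⊤ := by
  rw [eq_top_iff, ← h.LT_univ hθ hθX hx]
  conv_lhs => rw [← hZ]
  have := h.LT_union T T' x
  convert this using 2

theorem Setup.theta_YT (T : Finset ℝ) {x : E} (hx : x ∈ U) (k j : ι) :
    θ k x (YT X S Z T j x) = PT S Z T x j k := by
  simp [YT, YY, hθX x hx]

theorem Setup.theta_DT (T : Finset ℝ) {x : E} (hx : x ∈ U) {v : E} (hv : v ∈ DT X S Z T x) :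
    PT S Z T x *ᵥ (fun k => θ k x v) = fun k => θ k x v := by
  funext k
  conv_rhs => rw [h.coframe hθ hθX T hx hv]
  rw [map_sum]
  simp only [map_smul, h.theta_YT hθ hθX T hx, smul_eq_mul, Matrix.mulVec, dotProduct]
  apply Finset.sum_congr rfl
  intro j _
  rw [h.PT_symm' T hx k j]
  ring

/-- The ranks of complementary spectral distributions add up. -/
theorem Setup.finrank_DT {T T' : Finset ℝ} (hd : Disjoint T T') (hZ : T ∪ T' = Z) {x : E}
    (hx : x ∈ U) : Module.finrank ℝ (DT X S Z T x) + Module.finrank ℝ (DT X S Z T' x) =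
      Fintype.card ι := by
  have hinf : DT X S Z T x ⊓ DT X S Z T' x = ⊥ := by
    rw [eq_bot_iff]
    rintro v ⟨hv, hv'⟩
    have h1 := h.theta_DT hθ hθX T hx hv
    have h2 := h.theta_DT hθ hθX T' hx hv'
    have h3 : (fun k => θ k x v) = 0 := by
      rw [← h1, ← h2, Matrix.mulVec_mulVec, h.PT_mul T T' hx,
        Finset.disjoint_iff_inter_eq_empty.1 hd, h.PT_empty hx, Matrix.zero_mulVec]
    have h4 := h.coframe hθ hθX T hx hv
    rw [h4]
    have h5 : ∀ k, θ k x v = 0 := fun k => congrFun h3 k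
    simp [h5]
  have hsup : DT X S Z T x ⊔ DT X S Z T' x = Submodule.span ℝ (range fun i => X i x) := by
    apply le_antisymm
    · apply sup_le
      · unfold DT
        rw [Submodule.span_le]
        rintro _ ⟨i, rfl⟩
        exact Submodule.sum_mem _ fun j _ =>
          Submodule.smul_mem _ _ (Submodule.subset_span ⟨j, rfl⟩)
      · unfold DT
        rw [Submodule.span_le]
        rintro _ ⟨i, rfl⟩
        exact Submodule.sum_mem _ fun j _ =>
          Submodule.smul_mem _ _ (Submodule.subset_span ⟨j, rfl⟩)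
    · rw [Submodule.span_le]
      rintro _ ⟨i, rfl⟩
      have h1 : X i x = YT X S Z T i x + YT X S Z T' i x := by
        have h2 := h.YT_add hd i hx
        have h3 := h.YT_univ i hx
        rw [← h2, ← h3]
        congr 1
        exact hZ.symm
      show X i x ∈ _
      rw [h1]
      exact Submodule.add_mem _ (Submodule.mem_sup_left (Submodule.subset_span ⟨i, rfl⟩))
        (Submodule.mem_sup_right (Submodule.subset_span ⟨i, rfl⟩))
  have h1 := Submodule.finrank_sup_add_finrank_inf_eq (DT X S Z T x) (DT X S Z T' x)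
  rw [hinf, finrank_bot, add_zero, hsup, finrank_span_eq_card (h.hli x hx)] at h1
  exact h1.symm

theorem Setup.DT_frame {T T' : Finset ℝ} (hd : Disjoint T T') (hZ : T ∪ T' = Z) {x₀ : E}
    (hx₀ : x₀ ∈ U) : ∃ W ⊆ U, IsOpen W ∧ x₀ ∈ W ∧ ∃ (r : ℕ) (k : Fin r → ι),
      (∀ x ∈ W, LinearIndependent ℝ fun l => YT X S Z T (k l) x) ∧
      ∀ x ∈ W, Submodule.span ℝ (range fun l => YT X S Z T (k l) x) = DT X S Z T x := by
  have hsp : ∀ (T : Finset ℝ) (x : E), spG (fun B => ∃ i, B = YT X S Z T i) x = DT X S Z T x := by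
    intro T x
    unfold spG DT
    congr 1
    ext v
    constructor
    · rintro ⟨B, ⟨i, rfl⟩, rfl⟩; exact ⟨i, rfl⟩
    · rintro ⟨i, rfl⟩; exact ⟨_, ⟨i, rfl⟩, rfl⟩
  obtain ⟨W, hWU, hW, hxW, r, B, hB, hli, hspan⟩ := exists_frame_of_sum h.hU
    (G₁ := fun B => ∃ i, B = YT X S Z T i) (G₂ := fun B => ∃ i, B = YT X S Z T' i)
    (by rintro B ⟨i, rfl⟩; exact h.YT_smooth T i)
    (by rintro B ⟨i, rfl⟩; exact h.YT_smooth T' i) (n := Fintype.card ι)
    (fun x hx => by rw [hsp, hsp]; exact h.finrank_DT hθ hθX hd hZ hx) hx₀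
  choose k hk using hB
  refine ⟨W, hWU, hW, hxW, r, k, ?_, ?_⟩
  · intro x hx
    have := hli x hx
    simpa only [hk] using this
  · intro x hx
    have := hspan x hx
    rw [hsp] at this
    simpa only [hk] using this

end

section factor

variable {U : Set E} {X : ι → E → E} {S : E → Matrix ι ι ℝ} {Z : Finset ℝ}
  (h : Setup U X S Z) [Nonempty ι]
  {θ : ι → E → Co E} (hθ : ∀ k, ContDiffOn ℝ ∞ (θ k) U)
  (hθX : ∀ x ∈ U, ∀ k j, θ k x (X j x) = if k = j then 1 else 0)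
  {V : Set E} {Ω : Set F} {Ω' : Set F'} {ψ : E → F} {ψ' : E → F'}
  {τ : F → F' → E} (c : PChart V Ω Ω' ψ ψ' τ) (hVU : V ⊆ U)
  {T T' : Finset ℝ} (hd : Disjoint T T') (hZ : T ∪ T' = Z)
  (hk : ∀ x ∈ V, ∀ v ∈ LT X S Z T' x, fderiv ℝ ψ x v = 0)
  (hk' : ∀ x ∈ V, ∀ v ∈ LT X S Z T x, fderiv ℝ ψ' x v = 0)

include h hθ hθX c hVU hZ hk hk'

theorem ker_psi {x : E} (hx : x ∈ V) {v : E} (hv : fderiv ℝ ψ x v = 0) :
    v ∈ LT X S Z T' x := by
  have h1 : v ∈ LT X S Z T x ⊔ LT X S Z T' x := by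
    rw [h.sup_LT hθ hθX hZ (hVU hx)]; trivial
  obtain ⟨v₁, hv₁, v₂, hv₂, rfl⟩ := Submodule.mem_sup.1 h1
  rw [map_add, hk x hx v₂ hv₂, add_zero] at hv
  rw [c.inj hx hv (hk' x hx v₁ hv₁), zero_add]
  exact hv₂

theorem ker_psi' {x : E} (hx : x ∈ V) {v : E} (hv : fderiv ℝ ψ' x v = 0) :
    v ∈ LT X S Z T x := by
  have h1 : v ∈ LT X S Z T x ⊔ LT X S Z T' x := by
    rw [h.sup_LT hθ hθX hZ (hVU hx)]; trivial
  obtain ⟨v₁, hv₁, v₂, hv₂, rfl⟩ := Submodule.mem_sup.1 h1
  rw [map_add, hk' x hx v₁ hv₁, zero_add] at hv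
  rw [c.inj hx (hk x hx v₂ hv₂) hv, add_zero]
  exact hv₁

/-- The cometric of the spectral distribution is constant along the fibres. -/
theorem quad_deriv (η : F →L[ℝ] ℝ) {x : E} (hx : x ∈ V) {u : E} (hu : fderiv ℝ ψ x u = 0) :
    fderiv ℝ (fun x => ∑ i, (η (fderiv ℝ ψ x (YT X S Z T i x))) ^ 2) x u = 0 := by
  have hfs : ContDiffOn ℝ ∞ (fderiv ℝ ψ) V := contDiffOn_fderiv_of_smooth c.hV c.sψ
  have hYs : ∀ (T : Finset ℝ) i, ContDiffOn ℝ ∞ (YT X S Z T i) V :=
    fun T i => (h.YT_smooth T i).mono hVU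
  have has : ∀ i, ContDiffOn ℝ ∞ (fun x => η (fderiv ℝ ψ x (YT X S Z T i x))) V := fun i =>
    η.contDiff.comp_contDiffOn (hfs.clm_apply (hYs T i))
  have hGs : ContDiffOn ℝ ∞ (fun x => ∑ i, (η (fderiv ℝ ψ x (YT X S Z T i x))) ^ 2) V := by
    apply ContDiffOn.sum
    intro i _
    exact (has i).pow 2
  have hdiff : ∀ {f : E → ℝ}, ContDiffOn ℝ ∞ f V → ∀ {x}, x ∈ V → DifferentiableAt ℝ f x :=
    fun {f} hf {x} hx => (hf.contDiffAt (c.hV.mem_nhds hx)).differentiableAt (by simp)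
  have key : ∀ t ∈ T', ∀ x ∈ V, ∀ j,
      fderiv ℝ (fun x => ∑ i, (η (fderiv ℝ ψ x (YT X S Z T i x))) ^ 2) x
        (YT X S Z {t} j x) = 0 := by
    intro t ht x hx j
    have hdf : DifferentiableAt ℝ (fderiv ℝ ψ) x :=
      (hfs.contDiffAt (c.hV.mem_nhds hx)).differentiableAt (by simp)
    have hdY : ∀ (T : Finset ℝ) i, DifferentiableAt ℝ (YT X S Z T i) x := fun T i =>
      ((hYs T i).contDiffAt (c.hV.mem_nhds hx)).differentiableAt (by simp)
    have hzero : ∀ x ∈ V, fderiv ℝ ψ x (YT X S Z {t} j x) = 0 := fun x hx =>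
      hk x hx _ (Submodule.subset_span ⟨_, ⟨t, ht, Br.base j⟩, rfl⟩)
    -- derivative of the vanishing function
    have h1 : ∀ v, fderiv ℝ (fderiv ℝ ψ) x v (YT X S Z {t} j x) +
        fderiv ℝ ψ x (fderiv ℝ (YT X S Z {t} j) x v) = 0 := by
      intro v
      have h2 : (fun x => fderiv ℝ ψ x (YT X S Z {t} j x)) =ᶠ[𝓝 x] fun _ => (0 : F) := by
        filter_upwards [c.hV.mem_nhds hx] with y hy
        exact hzero y hy
      have h3 := h2.fderiv_eq (𝕜 := ℝ)
      rw [fderiv_clm_apply hdf (hdY {t} j)] at h3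
      have h4 := congrArg (fun l : E →L[ℝ] F => l v) h3
      simp only [add_apply, ContinuousLinearMap.comp_apply, ContinuousLinearMap.flip_apply]
        at h4
      rw [add_comm, h4]
      simp
    have hsym : ∀ a b, fderiv ℝ (fderiv ℝ ψ) x a b = fderiv ℝ (fderiv ℝ ψ) x b a := by
      have h : IsSymmSndFDerivAt ℝ ψ x := (c.sψ.contDiffAt (c.hV.mem_nhds hx)).isSymmSndFDerivAt
        (by rw [minSmoothness_of_isRCLikeNormedField]; exact ENat.LEInfty.out)
      exact fun a b => h a b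
    have h2 : ∀ i, fderiv ℝ (fun x => η (fderiv ℝ ψ x (YT X S Z T i x))) x
        (YT X S Z {t} j x) =
        - η (fderiv ℝ ψ x (lieBracket ℝ (YT X S Z T i) (YT X S Z {t} j) x)) := by
      intro i
      have h3 : HasFDerivAt (fun x => η (fderiv ℝ ψ x (YT X S Z T i x)))
          (η.comp ((fderiv ℝ ψ x).comp (fderiv ℝ (YT X S Z T i) x) +
            (fderiv ℝ (fderiv ℝ ψ) x).flip (YT X S Z T i x))) x :=
        η.hasFDerivAt.comp x (hdf.hasFDerivAt.clm_apply (hdY T i).hasFDerivAt)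
      rw [h3.fderiv]
      simp only [add_apply, ContinuousLinearMap.comp_apply, ContinuousLinearMap.flip_apply]
      unfold lieBracket
      rw [map_sub, map_sub, map_add, hsym]
      have h4 := h1 (YT X S Z T i x)
      have h5 := congrArg η h4
      rw [map_add, map_zero] at h5
      linarith
    have h3 : HasFDerivAt (fun x => ∑ i, (η (fderiv ℝ ψ x (YT X S Z T i x))) ^ 2)
        (∑ i, ((2 : ℕ) • (η (fderiv ℝ ψ x (YT X S Z T i x))) ^ 1) •
          fderiv ℝ (fun x => η (fderiv ℝ ψ x (YT X S Z T i x))) x) x := by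
      apply HasFDerivAt.fun_sum
      intro i _
      exact (hdiff (has i) hx).hasFDerivAt.pow 2
    rw [h3.fderiv]
    simp only [sum_apply, smul_apply, h2, pow_one, nsmul_eq_mul, smul_eq_mul]
    have h4 := h.kill T {t} (hVU hx) (p := η.comp (fderiv ℝ ψ x)) (fun j => by
      rw [ContinuousLinearMap.comp_apply,
        hk x hx _ (Submodule.subset_span ⟨_, ⟨t, ht, Br.base j⟩, rfl⟩), map_zero]) j
    simp only [ContinuousLinearMap.comp_apply] at h4
    have h5 : ∑ i, ((2 : ℕ) : ℝ) * η (fderiv ℝ ψ x (YT X S Z T i x)) *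
        -η (fderiv ℝ ψ x (lieBracket ℝ (YT X S Z T i) (YT X S Z {t} j) x)) =
        (-2) * ∑ i, η (fderiv ℝ ψ x (YT X S Z T i x)) *
          η (fderiv ℝ ψ x (lieBracket ℝ (YT X S Z T i) (YT X S Z {t} j) x)) := by
      rw [Finset.mul_sum]
      apply Finset.sum_congr rfl
      intro i _
      push_cast
      ring
    rw [h5, h4, mul_zero]
  have hu' := ker_psi h hθ hθX c hVU hZ hk hk' hx hu
  clear hu
  unfold LT at hu'
  induction hu' using Submodule.span_induction with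
  | mem v hv =>
    obtain ⟨B, ⟨t, ht, hB⟩, rfl⟩ := hv
    exact fderiv_Br_eq_zero h.hU (h.YT_smooth {t}) c.hV hVU hGs (key t ht) hB x hx
  | zero => exact map_zero _
  | add a b _ _ iha ihb => rw [map_add, iha, ihb, add_zero]
  | smul r a _ ih => rw [map_smul, ih, smul_zero]

end factor

end Pool.Agent.SubRiem
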