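import Mathlib
import Pool.Agent.SubRiem.Factor2

/-!
# The factor structure in a product chart, continued
-/

set_option autoImplicit false
set_option linter.unusedSectionVars false
set_option linter.unusedVariables false

namespace Pool.Agent.SubRiem

open Set Filter Topology VectorField
open scoped ContDiff Matrix Matrix.Norms.Operator

variable {E F F' : Type*} [NormedAddCommGroup E] [NormedSpace ℝ E] [FiniteDimensional ℝ E]
  [NormedAddCommGroup F] [NormedSpace ℝ F] [FiniteDimensional ℝ F]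
  [NormedAddCommGroup F'] [NormedSpace ℝ F'] [FiniteDimensional ℝ F']
  {ι : Type*} [Fintype ι] [DecidableEq ι]

/-- The pushforward of a field along the slice `y' = y₀`. -/
noncomputable def push (ψ : E → F) (τ : F → F' → E) (y₀ : F') (B : E → E) (y : F) : F :=
  fderiv ℝ ψ (τ y y₀) (B (τ y y₀))

/-- The factor distribution. -/
noncomputable def facD (X : ι → E → E) (S : E → Matrix ι ι ℝ) (Z T : Finset ℝ) (ψ : E → F)
    (τ : F → F' → E) (y₀ : F') (y : F) : Submodule ℝ F :=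
  Submodule.span ℝ (range fun i => push ψ τ y₀ (YT X S Z T i) y)

/-- The factor metric. -/
noncomputable def facG (θ : ι → E → Co E) (τ : F → F' → E) (y₀ : F') (y v w : F) : ℝ :=
  ∑ k, θ k (τ y y₀) (fderiv ℝ (fun y => τ y y₀) y v) *
    θ k (τ y y₀) (fderiv ℝ (fun y => τ y y₀) y w)

section factor

variable {U : Set E} {X : ι → E → E} {S : E → Matrix ι ι ℝ} {Z : Finset ℝ}
  (h : Setup U X S Z) [Nonempty ι]
  {θ : ι → E → Co E} (hθ : ∀ k, ContDiffOn ℝ ∞ (θ k) U)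
  (hθX : ∀ x ∈ U, ∀ k j, θ k x (X j x) = if k = j then 1 else 0)
  {V : Set E} {Ω : Set F} {Ω' : Set F'} {ψ : E → F} {ψ' : E → F'}
  {τ : F → F' → E} (c : PChart V Ω Ω' ψ ψ' τ) (hVU : V ⊆ U)
  {T T' : Finset ℝ} (hd : Disjoint T T') (hZ : T ∪ T' = Z)
  (hk : ∀ x ∈ V, ∀ v ∈ LT X S Z T' x, fderiv ℝ ψ x v = 0)
  (hk' : ∀ x ∈ V, ∀ v ∈ LT X S Z T x, fderiv ℝ ψ' x v = 0)
  {y₀ : F'} (hy₀ : y₀ ∈ Ω')

include h hθ hθX c hVU hZ hk hk'

/-- Equality of the cometrics at points with the same first coordinate. -/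
theorem cometric_eq (η : F →L[ℝ] ℝ) {x : E} (hx : x ∈ V) (hy₀ : y₀ ∈ Ω') :
    ∑ i, (η (fderiv ℝ ψ x (YT X S Z T i x))) ^ 2 =
      ∑ i, (η (push ψ τ y₀ (YT X S Z T i) (ψ x))) ^ 2 := by
  have hfs : ContDiffOn ℝ ∞ (fderiv ℝ ψ) V := contDiffOn_fderiv_of_smooth c.hV c.sψ
  have hGs : ContDiffOn ℝ ∞ (fun x => ∑ i, (η (fderiv ℝ ψ x (YT X S Z T i x))) ^ 2) V := by
    apply ContDiffOn.sum
    intro i _
    exact (η.contDiff.comp_contDiffOn (hfs.clm_apply ((h.YT_smooth T i).mono hVU))).pow 2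
  have h1 := c.fibre_const (G := fun x => ∑ i, (η (fderiv ℝ ψ x (YT X S Z T i x))) ^ 2)
    (fun x hx => (hGs.contDiffAt (c.hV.mem_nhds hx)).differentiableAt (by simp))
    (fun x hx u hu => quad_deriv h hθ hθX c hVU hZ hk hk' η hx hu)
    (c.mψ x hx) (c.mψ' x hx) hy₀
  simp only [c.τψ x hx] at h1
  exact h1

theorem facD_eq {x : E} (hx : x ∈ V) (hy₀ : y₀ ∈ Ω') :
    facD X S Z T ψ τ y₀ (ψ x) =
      Submodule.span ℝ (range fun i => fderiv ℝ ψ x (YT X S Z T i x)) :=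
  span_eq_of_sq (fun η => (cometric_eq h hθ hθX c hVU hZ hk hk' η hx hy₀).symm)

theorem facD_eq_map {x : E} (hx : x ∈ V) (hy₀ : y₀ ∈ Ω') :
    facD X S Z T ψ τ y₀ (ψ x) = (DT X S Z T x).map (fderiv ℝ ψ x).toLinearMap := by
  rw [facD_eq h hθ hθX c hVU hZ hk hk' hx hy₀]
  unfold DT
  rw [Submodule.map_span, ← range_comp]
  rfl

/-- On the slice, `Dσ ∘ Dψ` is the identity on the Lie hull. -/
theorem dσ_dψ {y : F} (hy : y ∈ Ω) (hy₀ : y₀ ∈ Ω') {w : E} (hw : w ∈ LT X S Z T (τ y y₀)) :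
    fderiv ℝ (fun y => τ y y₀) y (fderiv ℝ ψ (τ y y₀) w) = w := by
  have hx := c.mτ y hy y₀ hy₀
  rw [← sub_eq_zero]
  apply c.inj hx
  · rw [map_sub, c.Dψσ hy hy₀, sub_self]
  · rw [map_sub, c.Dψ'σ hy hy₀, hk' _ hx w hw, sub_zero]

/-- The factor metric computes the metric of the spectral distribution. -/
theorem facG_eq {x : E} (hx : x ∈ V) (hy₀ : y₀ ∈ Ω') {w : E} (hw : w ∈ DT X S Z T x) :
    facG θ τ y₀ (ψ x) (fderiv ℝ ψ x w) (fderiv ℝ ψ x w) = ∑ k, (θ k x w) ^ 2 := by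
  have hxU := hVU hx
  set y := ψ x with hy
  have hyΩ : y ∈ Ω := c.mψ x hx
  set x' := τ y y₀ with hx'
  have hx'V : x' ∈ V := c.mτ y hyΩ y₀ hy₀
  have hx'U := hVU hx'V
  set a : ι → F := fun i => fderiv ℝ ψ x (YT X S Z T i x) with ha
  set b : ι → F := fun i => push ψ τ y₀ (YT X S Z T i) y with hb
  have hab : ∀ η : F →L[ℝ] ℝ, ∑ i, (η (a i)) ^ 2 = ∑ i, (η (b i)) ^ 2 := fun η =>
    cometric_eq h hθ hθX c hVU hZ hk hk' η hx hy₀
  -- injectivity on the spectral distribution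
  set L : DT X S Z T x →ₗ[ℝ] F := (fderiv ℝ ψ x).toLinearMap.comp (DT X S Z T x).subtype with hL
  have hLinj : LinearMap.ker L = ⊥ := by
    rw [LinearMap.ker_eq_bot']
    rintro ⟨v, hv⟩ hv0
    have h1 : fderiv ℝ ψ x v = 0 := hv0
    have h2 := c.inj hx h1 (hk' x hx v (h.DT_le_LT T hxU hv))
    exact Subtype.ext h2
  obtain ⟨G, hG⟩ := LinearMap.exists_leftInverse_of_injective L hLinj
  set p : Co E := ∑ i, θ i x w • θ i x with hp
  set η : F →L[ℝ] ℝ := LinearMap.toContinuousLinearMap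
    ((p.toLinearMap.comp (DT X S Z T x).subtype).comp G) with hη
  have hηψ : ∀ v ∈ DT X S Z T x, η (fderiv ℝ ψ x v) = p v := by
    intro v hv
    have h1 := congrArg (fun l : DT X S Z T x →ₗ[ℝ] DT X S Z T x => l ⟨v, hv⟩) hG
    have h2 : G (fderiv ℝ ψ x v) = ⟨v, hv⟩ := h1
    show p ((G (fderiv ℝ ψ x v) : DT X S Z T x) : E) = p v
    rw [h2]
  have hpY : ∀ i, p (YT X S Z T i x) = θ i x w := by
    intro i
    have h1 : p (YT X S Z T i x) = (PT S Z T x *ᵥ fun k => θ k x w) i := by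
      simp only [hp, sum_apply, smul_apply, smul_eq_mul, h.theta_YT hθ hθX T hxU,
        Matrix.mulVec, dotProduct]
      apply Finset.sum_congr rfl
      intro k _
      ring
    rw [h1, h.theta_DT hθ hθX T hxU hw]
  have hηa : ∀ i, η (a i) = θ i x w := fun i => by
    rw [ha]
    simp only
    rw [hηψ _ (Submodule.subset_span ⟨i, rfl⟩), hpY]
  -- equality of the combinations
  have hcomb : ∑ i, η (a i) • a i = ∑ i, η (b i) • b i := by
    rw [← sub_eq_zero]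
    apply eq_zero_of_forall_co
    intro ξ
    rw [map_sub, map_sum, map_sum]
    simp only [map_smul, smul_eq_mul]
    rw [polar_of_sq hab η ξ, sub_self]
  have hw1 : fderiv ℝ ψ x w = ∑ i, η (a i) • a i := by
    conv_lhs => rw [h.coframe hθ hθX T hxU hw]
    rw [map_sum]
    apply Finset.sum_congr rfl
    intro i _
    rw [map_smul, hηa]
  set w' : E := ∑ i, η (b i) • YT X S Z T i x' with hw'
  have hw'D : w' ∈ DT X S Z T x' := Submodule.sum_mem _ fun i _ =>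
    Submodule.smul_mem _ _ (Submodule.subset_span ⟨i, rfl⟩)
  have hw2 : fderiv ℝ ψ x w = fderiv ℝ ψ x' w' := by
    rw [hw1, hcomb, hw', map_sum]
    simp only [map_smul, hb, push, hx']
  have hσ : fderiv ℝ (fun y => τ y y₀) y (fderiv ℝ ψ x w) = w' := by
    rw [hw2]
    exact dσ_dψ h hθ hθX c hVU hZ hk hk' hyΩ hy₀ (h.DT_le_LT T hx'U hw'D)
  have hθw' : ∀ k, θ k x' w' = η (b k) := by
    intro k
    have h1 : (fun i => η (b i)) =
        PT S Z T x' *ᵥ (fun i => (η.comp (fderiv ℝ ψ x')) (X i x')) := by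
      funext i
      exact h.co_YT T (η.comp (fderiv ℝ ψ x')) i
    have h2 : PT S Z T x' *ᵥ (fun i => η (b i)) = fun i => η (b i) := by
      rw [h1, Matrix.mulVec_mulVec, h.PT_idem T hx'U]
    have h3 := congrFun h2 k
    rw [← h3, hw', map_sum]
    simp only [map_smul, h.theta_YT hθ hθX T hx'U, smul_eq_mul, Matrix.mulVec, dotProduct]
    apply Finset.sum_congr rfl
    intro i _
    rw [h.PT_symm' T hx'U k i]
    ring
  have h1 : facG θ τ y₀ y (fderiv ℝ ψ x w) (fderiv ℝ ψ x w) = ∑ k, (θ k x' w') ^ 2 := by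
    unfold facG
    rw [hσ]
    apply Finset.sum_congr rfl
    intro k _
    rw [sq]
  rw [h1]
  simp only [hθw']
  rw [← hab η]
  simp only [hηa]

include hy₀

theorem facD_map_slice {y : F} (hy : y ∈ Ω) :
    facD X S Z T ψ τ y₀ y = (DT X S Z T (τ y y₀)).map (fderiv ℝ ψ (τ y y₀)).toLinearMap := by
  have h1 := facD_eq_map h hθ hθX c hVU hZ hk hk' (c.mτ y hy y₀ hy₀) hy₀
  rw [c.ψτ y hy y₀ hy₀] at h1
  exact h1

theorem push_smooth {B : E → E} (hB : ContDiffOn ℝ ∞ B V) :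
    ContDiffOn ℝ ∞ (push ψ τ y₀ B) Ω := by
  have hfs : ContDiffOn ℝ ∞ (fderiv ℝ ψ) V := contDiffOn_fderiv_of_smooth c.hV c.sψ
  exact (hfs.clm_apply hB).comp (c.sσ hy₀) (fun y hy => c.mτ y hy y₀ hy₀)

theorem facD_distribution (hd : Disjoint T T') :
    IsSmoothDistribution Ω (facD X S Z T ψ τ y₀) := by
  intro y hy
  have hx := c.mτ y hy y₀ hy₀
  obtain ⟨W, hWU, hW, hxW, r, k, hli, hspan⟩ := h.DT_frame hθ hθX hd hZ (hVU hx)
  have hcont := (c.sσ hy₀).continuousOn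
  refine ⟨Ω ∩ (fun y => τ y y₀) ⁻¹' W, inter_subset_left, hcont.isOpen_inter_preimage c.hΩ hW,
    ⟨hy, hxW⟩, r, fun l => push ψ τ y₀ (YT X S Z T (k l)), ?_, ?_, ?_⟩
  · intro l
    exact (push_smooth h hθ hθX c hVU hZ hk hk' hy₀ ((h.YT_smooth T (k l)).mono hVU)).mono
      inter_subset_left
  · intro y₁ hy₁
    have h1 := hli _ hy₁.2
    have h2 : (fun l => YT X S Z T (k l) (τ y₁ y₀)) =
        (fderiv ℝ (fun y => τ y y₀) y₁).toLinearMap ∘
          fun l => push ψ τ y₀ (YT X S Z T (k l)) y₁ := by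
      funext l
      exact (dσ_dψ h hθ hθX c hVU hZ hk hk' hy₁.1 hy₀ (h.DT_le_LT T
        (hVU (c.mτ y₁ hy₁.1 y₀ hy₀)) (Submodule.subset_span ⟨k l, rfl⟩))).symm
    rw [h2] at h1
    exact LinearIndependent.of_comp _ h1
  · intro y₁ hy₁
    rw [facD_map_slice h hθ hθX c hVU hZ hk hk' hy₀ hy₁.1, ← hspan _ hy₁.2,
      Submodule.map_span, ← range_comp]
    rfl

theorem facG_metric : IsMetricOn Ω (facD X S Z T ψ τ y₀) (facG θ τ y₀) := by
  refine ⟨?_, ?_, ?_, ?_, ?_⟩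
  · intro y hy u _ v _ w _
    simp only [facG, map_add, add_mul, Finset.sum_add_distrib]
  · intro y hy r v _ w _
    simp only [facG, map_smul, smul_eq_mul, Finset.mul_sum, mul_assoc]
  · intro y hy v _ w _
    unfold facG
    apply Finset.sum_congr rfl
    intro k _
    ring
  · intro y hy v hv hv0
    have hx := c.mτ y hy y₀ hy₀
    rw [facD_map_slice h hθ hθX c hVU hZ hk hk' hy₀ hy] at hv
    obtain ⟨w, hw, rfl⟩ := hv
    have h1 : facG θ τ y₀ y (fderiv ℝ ψ (τ y y₀) w) (fderiv ℝ ψ (τ y y₀) w) =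
        ∑ k, (θ k (τ y y₀) w) ^ 2 := by
      unfold facG
      rw [dσ_dψ h hθ hθX c hVU hZ hk hk' hy hy₀ (h.DT_le_LT T (hVU hx) hw)]
      apply Finset.sum_congr rfl
      intro k _
      ring
    show 0 < facG θ τ y₀ y (fderiv ℝ ψ (τ y y₀) w) (fderiv ℝ ψ (τ y y₀) w)
    rw [h1]
    apply lt_of_le_of_ne (Finset.sum_nonneg fun k _ => sq_nonneg _)
    intro h0
    have h2 := (Finset.sum_eq_zero_iff_of_nonneg (fun k _ => sq_nonneg _)).1 h0.symm
    have h3 : ∀ k, θ k (τ y y₀) w = 0 := fun k =>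
      pow_eq_zero_iff two_ne_zero |>.1 (h2 k (Finset.mem_univ k))
    have h4 := h.coframe hθ hθX T (hVU hx) hw
    simp only [h3, zero_smul, Finset.sum_const_zero] at h4
    apply hv0
    rw [h4]
    exact map_zero _
  · intro O hO hOo A hA B hB
    unfold facG
    apply ContDiffOn.sum
    intro k _
    have h1 : ContDiffOn ℝ ∞ (fun y => θ k (τ y y₀)) O :=
      (hθ k).comp ((c.sσ hy₀).mono hO) (fun y hy => hVU (c.mτ y (hO hy) y₀ hy₀))
    have h2 : ContDiffOn ℝ ∞ (fderiv ℝ (fun y => τ y y₀)) O :=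
      (contDiffOn_fderiv_of_smooth c.hΩ (c.sσ hy₀)).mono hO
    exact (h1.clm_apply (h2.clm_apply hA.1)).mul (h1.clm_apply (h2.clm_apply hB.1))

/-- Pushing forward along the slice commutes with brackets. -/
theorem push_bracket {B C : E → E} (hB : ContDiffOn ℝ ∞ B V) (hC : ContDiffOn ℝ ∞ C V)
    (hB' : ∀ x ∈ V, B x ∈ LT X S Z T x) (hC' : ∀ x ∈ V, C x ∈ LT X S Z T x) {y : F}
    (hy : y ∈ Ω) : lieBracket ℝ (push ψ τ y₀ B) (push ψ τ y₀ C) y =
      push ψ τ y₀ (lieBracket ℝ B C) y := by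
  have hx := c.mτ y hy y₀ hy₀
  set σ : F → E := fun y => τ y y₀ with hσ
  have hσs : ContDiffOn ℝ ∞ σ Ω := c.sσ hy₀
  have hdσ : DifferentiableAt ℝ (fderiv ℝ σ) y :=
    ((contDiffOn_fderiv_of_smooth c.hΩ hσs).contDiffAt (c.hΩ.mem_nhds hy)).differentiableAt
      (by simp)
  have hrel : ∀ {B : E → E}, (∀ x ∈ V, B x ∈ LT X S Z T x) → ∀ y ∈ Ω,
      fderiv ℝ σ y (push ψ τ y₀ B y) = B (σ y) := by
    intro B hB' y hy
    exact dσ_dψ h hθ hθX c hVU hZ hk hk' hy hy₀ (hB' _ (c.mτ y hy y₀ hy₀))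
  have hder : ∀ {B : E → E}, ContDiffOn ℝ ∞ B V → (∀ x ∈ V, B x ∈ LT X S Z T x) → ∀ w : F,
      fderiv ℝ (fderiv ℝ σ) y w (push ψ τ y₀ B y) +
        fderiv ℝ σ y (fderiv ℝ (push ψ τ y₀ B) y w) = fderiv ℝ B (σ y) (fderiv ℝ σ y w) := by
    intro B hB hB' w
    have hdB : DifferentiableAt ℝ B (σ y) :=
      (hB.contDiffAt (c.hV.mem_nhds hx)).differentiableAt (by simp)
    have hdp : DifferentiableAt ℝ (push ψ τ y₀ B) y :=
      ((push_smooth h hθ hθX c hVU hZ hk hk' hy₀ hB).contDiffAt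
        (c.hΩ.mem_nhds hy)).differentiableAt (by simp)
    have h1 : (fun y => fderiv ℝ σ y (push ψ τ y₀ B y)) =ᶠ[𝓝 y] fun y => B (σ y) := by
      filter_upwards [c.hΩ.mem_nhds hy] with y₁ hy₁
      exact hrel hB' y₁ hy₁
    have h2 := hdσ.hasFDerivAt.clm_apply hdp.hasFDerivAt
    have h3 := hdB.hasFDerivAt.comp y (c.dσ hy hy₀).hasFDerivAt
    have h4 := (h2.congr_of_eventuallyEq h1.symm).unique h3
    have h5 := congrArg (fun l : F →L[ℝ] E => l w) h4
    simp only [add_apply, ContinuousLinearMap.comp_apply, ContinuousLinearMap.flip_apply] at h5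
    rw [add_comm]
    exact h5
  have e1 := hder hC hC' (push ψ τ y₀ B y)
  have e2 := hder hB hB' (push ψ τ y₀ C y)
  rw [hrel hB' y hy] at e1
  rw [hrel hC' y hy] at e2
  have hsym : fderiv ℝ (fderiv ℝ σ) y (push ψ τ y₀ B y) (push ψ τ y₀ C y) =
      fderiv ℝ (fderiv ℝ σ) y (push ψ τ y₀ C y) (push ψ τ y₀ B y) := by
    have h : IsSymmSndFDerivAt ℝ σ y := (hσs.contDiffAt (c.hΩ.mem_nhds hy)).isSymmSndFDerivAt
      (by rw [minSmoothness_of_isRCLikeNormedField]; exact ENat.LEInfty.out)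
    exact h _ _
  have e3 : fderiv ℝ σ y (lieBracket ℝ (push ψ τ y₀ B) (push ψ τ y₀ C) y) =
      lieBracket ℝ B C (σ y) := by
    unfold lieBracket
    rw [map_sub, ← e1, ← e2, hsym]
    abel
  have e4 := congrArg (fderiv ℝ ψ (σ y)) e3
  rw [c.Dψσ hy hy₀] at e4
  exact e4

theorem facD_bracketGenerating : IsBracketGenerating Ω (facD X S Z T ψ τ y₀) := by
  intro y hy
  refine ⟨Ω, Subset.rfl, c.hΩ, hy, exists_flag_top ?_⟩
  have hLT : ∀ {t : ℝ}, t ∈ T → ∀ {B : E → E}, Br (YT X S Z {t}) B → ∀ x ∈ V,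
      B x ∈ LT X S Z T x := fun ht B hB x _ => Submodule.subset_span ⟨B, ⟨_, ht, hB⟩, rfl⟩
  have hflag : ∀ t ∈ T, ∀ B, Br (YT X S Z {t}) B →
      ∃ j, push ψ τ y₀ B ∈ flag (facD X S Z T ψ τ y₀) Ω j := by
    intro t ht B hB
    have hsec : ∀ i, push ψ τ y₀ (YT X S Z {t} i) ∈ secs (facD X S Z T ψ τ y₀) Ω := by
      intro i
      refine ⟨push_smooth h hθ hθX c hVU hZ hk hk' hy₀ ((h.YT_smooth {t} i).mono hVU), ?_⟩
      intro y₁ hy₁
      rw [facD_map_slice h hθ hθX c hVU hZ hk hk' hy₀ hy₁]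
      exact ⟨_, h.YT_mem_DT (Finset.singleton_subset_iff.2 ht) i
        (hVU (c.mτ y₁ hy₁ y₀ hy₀)), rfl⟩
    induction hB with
    | base i => exact ⟨0, hsec i⟩
    | step i B hB ih =>
      obtain ⟨j, hj⟩ := ih
      refine ⟨j + 1, flag_congr (flag_bracket (hsec i) hj) ?_⟩
      intro y₁ hy₁
      exact (push_bracket h hθ hθX c hVU hZ hk hk' hy₀ ((h.YT_smooth {t} i).mono hVU)
        ((hB.smooth h.hU (h.YT_smooth {t})).mono hVU) (hLT ht (Br.base i)) (hLT ht hB) hy₁).symm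
  rw [eq_top_iff]
  intro v _
  have hx := c.mτ y hy y₀ hy₀
  set u := fderiv ℝ (fun y => τ y y₀) y v with hu
  have huL : u ∈ LT X S Z T (τ y y₀) :=
    ker_psi' h hθ hθX c hVU hZ hk hk' hx (c.Dψ'σ hy hy₀ v)
  have hvu : v = fderiv ℝ ψ (τ y y₀) u := (c.Dψσ hy hy₀ v).symm
  rw [hvu]
  clear_value u
  clear hu hvu
  unfold LT at huL
  induction huL using Submodule.span_induction with
  | mem u hu =>
    obtain ⟨B, ⟨t, ht, hB⟩, rfl⟩ := hu
    obtain ⟨j, hj⟩ := hflag t ht B hB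
    exact Submodule.subset_span ⟨j, _, hj, rfl⟩
  | zero => rw [map_zero]; exact Submodule.zero_mem _
  | add a b _ _ iha ihb => rw [map_add]; exact Submodule.add_mem _ iha ihb
  | smul r a _ ih => rw [map_smul]; exact Submodule.smul_mem _ _ ih

/-- The factor is a sub-Riemannian structure. -/
theorem factor_isSubRiemannian (hd : Disjoint T T') :
    IsSubRiemannian Ω (facD X S Z T ψ τ y₀) (facG θ τ y₀) where
  isOpen := c.hΩ
  distribution := facD_distribution h hθ hθX c hVU hZ hk hk' hy₀ hd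
  bracketGenerating := facD_bracketGenerating h hθ hθX c hVU hZ hk hk' hy₀
  metric := facG_metric h hθ hθX c hVU hZ hk hk' hy₀

theorem facD_ne_bot (hP : ∀ x ∈ V, PT S Z T x ≠ 0) {y : F} (hy : y ∈ Ω) :
    facD X S Z T ψ τ y₀ y ≠ ⊥ := by
  have hx := c.mτ y hy y₀ hy₀
  intro h0
  apply hP _ hx
  have hY : ∀ i, YT X S Z T i (τ y y₀) = 0 := by
    intro i
    have h1 : push ψ τ y₀ (YT X S Z T i) y ∈ facD X S Z T ψ τ y₀ y :=
      Submodule.subset_span ⟨i, rfl⟩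
    rw [h0, Submodule.mem_bot] at h1
    have h2 := dσ_dψ h hθ hθX c hVU hZ hk hk' hy hy₀ (w := YT X S Z T i (τ y y₀))
      (h.DT_le_LT T (hVU hx) (Submodule.subset_span ⟨i, rfl⟩))
    have h3 : fderiv ℝ ψ (τ y y₀) (YT X S Z T i (τ y y₀)) = 0 := h1
    rw [h3, map_zero] at h2
    exact h2.symm
  ext i j
  have h1 := h.theta_YT hθ hθX T (hVU hx) j i
  rw [hY i, map_zero] at h1
  exact h1.symm

end factor

end Pool.Agent.SubRiem
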