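import Mathlib

set_option autoImplicit false

namespace Pool.Agent.SubRiem

open Set Filter Topology
open scoped ContDiff

section Nemytskii

variable {K : Type*} [TopologicalSpace K] [CompactSpace K]

/-- Pointwise application of a continuous family of operators to a continuous function. -/
noncomputable def appCLM {X Y : Type*} [NormedAddCommGroup X] [NormedSpace ℝ X]
    [NormedAddCommGroup Y] [NormedSpace ℝ Y] :
    C(K, X →L[ℝ] Y) →L[ℝ] C(K, X) →L[ℝ] C(K, Y) :=
  LinearMap.mkContinuous₂
    (LinearMap.mk₂ ℝ (fun (A : C(K, X →L[ℝ] Y)) (η : C(K, X)) =>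
        (⟨fun t => A t (η t), A.continuous.clm_apply η.continuous⟩ : C(K, Y)))
      (fun A B η => by ext t; simp) (fun r A η => by ext t; simp)
      (fun A η ξ => by ext t; simp) (fun r A η => by ext t; simp)) 1
    (fun A η => by
      rw [one_mul]
      refine (ContinuousMap.norm_le _ (by positivity)).2 fun t => ?_
      exact (A t).le_of_opNorm_le_of_le (A.norm_coe_le_norm t) (η.norm_coe_le_norm t))

@[simp] theorem appCLM_apply {X Y : Type*} [NormedAddCommGroup X] [NormedSpace ℝ X]
    [NormedAddCommGroup Y] [NormedSpace ℝ Y] (A : C(K, X →L[ℝ] Y)) (η : C(K, X)) (t : K) :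
    appCLM A η t = A t (η t) := rfl

theorem hasFDerivAt_nemytskii {X Y : Type*} [NormedAddCommGroup X] [NormedSpace ℝ X]
    [NormedAddCommGroup Y] [NormedSpace ℝ Y] (g : C(X, Y)) (dg : C(X, X →L[ℝ] Y))
    (hg : ∀ x, HasFDerivAt g (dg x) x) (φ : C(K, X)) :
    HasFDerivAt (fun φ : C(K, X) => g.comp φ) (appCLM (dg.comp φ)) φ := by
  rw [hasFDerivAt_iff_isLittleO, Asymptotics.isLittleO_iff]
  intro ε hε
  have hc : Continuous (fun φ : C(K, X) => dg.comp φ) := ContinuousMap.continuous_postcomp dg
  have hb := hc.continuousAt.preimage_mem_nhds (x := φ) (Metric.ball_mem_nhds (dg.comp φ) hε)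
  obtain ⟨δ, hδ, hball⟩ := Metric.mem_nhds_iff.1 hb
  filter_upwards [Metric.ball_mem_nhds φ hδ] with ψ hψ
  refine (ContinuousMap.norm_le _ (by positivity)).2 fun t => ?_
  have hseg : ∀ z ∈ segment ℝ (φ t) (ψ t), ‖fderiv ℝ g z - dg (φ t)‖ ≤ ε := by
    intro z hz
    obtain ⟨a, b, ha, hb, hab, rfl⟩ := hz
    have hmem : a • φ + b • ψ ∈ Metric.ball φ δ :=
      (convex_ball φ δ) (Metric.mem_ball_self hδ) hψ ha hb hab
    have h1 := hball hmem
    have h2 : dist ((dg.comp (a • φ + b • ψ)) t) ((dg.comp φ) t) < ε :=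
      (ContinuousMap.dist_apply_le_dist t).trans_lt h1
    rw [(hg _).fderiv]
    rw [dist_eq_norm] at h2
    exact h2.le
  have h3 := Convex.norm_image_sub_le_of_norm_fderiv_le' (𝕜 := ℝ) (f := g)
    (φ := dg (φ t)) (C := ε) (s := segment ℝ (φ t) (ψ t)) (x := φ t) (y := ψ t)
    (fun z _ => (hg z).differentiableAt) hseg (convex_segment _ _)
    (left_mem_segment _ _ _) (right_mem_segment _ _ _)
  refine (le_trans (le_of_eq ?_) h3).trans ?_
  · simp
  · refine mul_le_mul_of_nonneg_left ?_ hε.le
    exact (ψ - φ).norm_coe_le_norm t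

universe u

theorem contDiff_nemytskii_nat {X : Type u} [NormedAddCommGroup X] [NormedSpace ℝ X] (n : ℕ) :
    ∀ {Y : Type u} [NormedAddCommGroup Y] [NormedSpace ℝ Y] (g : C(X, Y)),
      ContDiff ℝ n g → ContDiff ℝ n (fun φ : C(K, X) => g.comp φ) := by
  induction n with
  | zero =>
    intro Y _ _ g _
    exact contDiff_zero.2 (ContinuousMap.continuous_postcomp g)
  | succ n ih =>
    intro Y _ _ g hg
    have hg : ContDiff ℝ ((n : WithTop ℕ∞) + 1) g := by exact_mod_cast hg
    have hd : ContDiff ℝ n (fderiv ℝ g) := (contDiff_succ_iff_fderiv.1 hg).2.2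
    have hdiff : Differentiable ℝ g := (contDiff_succ_iff_fderiv.1 hg).1
    let dg : C(X, X →L[ℝ] Y) := ⟨fderiv ℝ g, hd.continuous⟩
    have h1 := ih dg hd
    have h3 : ContDiff ℝ n (fun A : C(K, X →L[ℝ] Y) => appCLM (K := K) (X := X) (Y := Y) A) :=
      ContinuousLinearMap.contDiff (𝕜 := ℝ) (E := C(K, X →L[ℝ] Y))
        (F := C(K, X) →L[ℝ] C(K, Y)) (appCLM (K := K) (X := X) (Y := Y))
    have h2 : ContDiff ℝ n (fun φ : C(K, X) => appCLM (K := K) (dg.comp φ)) :=
      h3.comp h1
    exact (contDiff_succ_iff_hasFDerivAt (n := n)).2 ⟨_, h2, fun φ =>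
      hasFDerivAt_nemytskii g dg (fun x => (hdiff x).hasFDerivAt) φ⟩

theorem contDiff_nemytskii {X Y : Type u} [NormedAddCommGroup X] [NormedSpace ℝ X]
    [NormedAddCommGroup Y] [NormedSpace ℝ Y] (g : C(X, Y)) (hg : ContDiff ℝ ∞ g) :
    ContDiff ℝ ∞ (fun φ : C(K, X) => g.comp φ) :=
  contDiff_infty.2 fun n => contDiff_nemytskii_nat n g (hg.of_le (by exact_mod_cast le_top))

/-- Constant functions, as a continuous linear map. -/
noncomputable def constL {X : Type*} [NormedAddCommGroup X] [NormedSpace ℝ X] :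
    X →L[ℝ] C(K, X) :=
  LinearMap.mkContinuous
    { toFun := fun v => ContinuousMap.const K v
      map_add' := fun v w => by ext t; simp
      map_smul' := fun r v => by ext t; simp } 1
    (fun v => by
      rw [one_mul]
      exact (ContinuousMap.norm_le _ (norm_nonneg v)).2 fun t => le_rfl)

@[simp] theorem constL_apply {X : Type*} [NormedAddCommGroup X] [NormedSpace ℝ X]
    (v : X) (t : K) : constL v t = v := rfl

end Nemytskii

section Radial

variable {H C : Type*} [NormedAddCommGroup H] [NormedSpace ℝ H]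
  [NormedAddCommGroup C] [NormedSpace ℝ C]

/-- The curve `s ↦ ((1 - s) h, φ s)`, linear in `(h, φ)`. -/
noncomputable def rayL : (H × C(unitInterval, C)) →L[ℝ] C(unitInterval, H × C) :=
  LinearMap.mkContinuous
    { toFun := fun z => ⟨fun s => ((1 - (s : ℝ)) • z.1, z.2 s), by fun_prop⟩
      map_add' := fun v w => by ext t <;> simp
      map_smul' := fun r v => by
        ext t
        · simp [smul_smul, mul_comm]
        · simp } 1
    (fun z => by
      rw [one_mul]
      refine (ContinuousMap.norm_le _ (norm_nonneg z)).2 fun s => ?_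
      refine (Prod.norm_def _).le.trans (max_le ?_ ?_)
      · have h1 : ‖(1 - (s : ℝ))‖ ≤ 1 := by
          rw [Real.norm_eq_abs, abs_le]
          exact ⟨by linarith [s.2.1, s.2.2], by linarith [s.2.1, s.2.2]⟩
        calc ‖(1 - (s : ℝ)) • z.1‖ = ‖(1 - (s : ℝ))‖ * ‖z.1‖ := norm_smul _ _
          _ ≤ 1 * ‖z.1‖ := mul_le_mul_of_nonneg_right h1 (norm_nonneg _)
          _ = ‖z.1‖ := one_mul _
          _ ≤ ‖z‖ := norm_fst_le z
      · exact (z.2.norm_coe_le_norm s).trans (norm_snd_le z))

@[simp] theorem rayL_apply (z : H × C(unitInterval, C)) (s : unitInterval) :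
    rayL z s = ((1 - (s : ℝ)) • z.1, z.2 s) := rfl

omit [NormedSpace ℝ C] in
theorem continuous_ext (u : C(unitInterval, C)) :
    Continuous (IccExtend (zero_le_one' ℝ) u) := u.continuous.Icc_extend'

/-- The primitive vanishing at `0`. -/
noncomputable def primL : C(unitInterval, C) →L[ℝ] C(unitInterval, C) :=
  LinearMap.mkContinuous
    { toFun := fun u => ⟨fun t => ∫ s in (0 : ℝ)..(t : ℝ), IccExtend (zero_le_one' ℝ) u s, by
        have h := intervalIntegral.continuous_primitive (μ := MeasureTheory.volume)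
          (fun a b => (continuous_ext u).intervalIntegrable a b) (0 : ℝ)
        exact h.comp continuous_subtype_val⟩
      map_add' := fun u v => by
        ext t
        have h1 : IccExtend (zero_le_one' ℝ) (u + v) =
            fun s => IccExtend (zero_le_one' ℝ) u s + IccExtend (zero_le_one' ℝ) v s := rfl
        simp only [ContinuousMap.coe_mk, ContinuousMap.add_apply]
        rw [h1, intervalIntegral.integral_add ((continuous_ext u).intervalIntegrable _ _)
          ((continuous_ext v).intervalIntegrable _ _)]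
      map_smul' := fun r u => by
        ext t
        have h1 : IccExtend (zero_le_one' ℝ) (r • u) =
            fun s => r • IccExtend (zero_le_one' ℝ) u s := rfl
        simp only [ContinuousMap.coe_mk, ContinuousMap.smul_apply, RingHom.id_apply]
        rw [h1, intervalIntegral.integral_smul] } 1
    (fun u => by
      rw [one_mul]
      refine (ContinuousMap.norm_le _ (norm_nonneg u)).2 fun t => ?_
      have h1 := intervalIntegral.norm_integral_le_of_norm_le_const (a := (0 : ℝ)) (b := (t : ℝ))
        (f := IccExtend (zero_le_one' ℝ) u) (C := ‖u‖) (fun s _ => u.norm_coe_le_norm _)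
      refine h1.trans ?_
      have h2 : |(t : ℝ) - 0| ≤ 1 := by
        rw [sub_zero, abs_le]
        exact ⟨by linarith [t.2.1], t.2.2⟩
      calc ‖u‖ * |(t : ℝ) - 0| ≤ ‖u‖ * 1 := mul_le_mul_of_nonneg_left h2 (norm_nonneg u)
        _ = ‖u‖ := mul_one _)

theorem primL_apply (u : C(unitInterval, C)) (t : unitInterval) :
    primL u t = ∫ s in (0 : ℝ)..(t : ℝ), IccExtend (zero_le_one' ℝ) u s := rfl

/-- The operator whose zeros are the solutions of the radial equation. -/
noncomputable def radialOp (g : C(H × C, H →L[ℝ] C)) (z : (H × C) × C(unitInterval, C)) :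
    C(unitInterval, C) :=
  z.2 - constL z.1.2 + primL (appCLM (g.comp (rayL (z.1.1, z.2))) (constL z.1.1))

/-- The projection `((h, c), φ) ↦ (h, φ)`. -/
noncomputable def projL : ((H × C) × C(unitInterval, C)) →L[ℝ] (H × C(unitInterval, C)) :=
  ((ContinuousLinearMap.fst ℝ H C).comp
    (ContinuousLinearMap.fst ℝ (H × C) C(unitInterval, C))).prod
    (ContinuousLinearMap.snd ℝ (H × C) C(unitInterval, C))

theorem contDiff_radialOp (g : C(H × C, H →L[ℝ] C)) (hg : ContDiff ℝ ∞ g) :
    ContDiff ℝ ∞ (radialOp g) := by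
  have h1 : ContDiff ℝ ∞ (fun z : (H × C) × C(unitInterval, C) => rayL (projL z)) :=
    (rayL (H := H) (C := C)).contDiff.comp (projL (H := H) (C := C)).contDiff
  have h2 : ContDiff ℝ ∞ (fun z : (H × C) × C(unitInterval, C) => g.comp (rayL (projL z))) :=
    (contDiff_nemytskii (K := unitInterval) g hg).comp h1
  have h3 : ContDiff ℝ ∞ (fun A : C(unitInterval, H →L[ℝ] C) => appCLM A) :=
    ContinuousLinearMap.contDiff (𝕜 := ℝ) (E := C(unitInterval, H →L[ℝ] C))
        (F := C(unitInterval, H) →L[ℝ] C(unitInterval, C)) appCLM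
  have h4 : ContDiff ℝ ∞ (fun z : (H × C) × C(unitInterval, C) =>
      (constL z.1.1 : C(unitInterval, H))) :=
    (constL (K := unitInterval) (X := H)).contDiff.comp (contDiff_fst.comp contDiff_fst)
  have h5 : ContDiff ℝ ∞ (fun z : (H × C) × C(unitInterval, C) =>
      (constL z.1.2 : C(unitInterval, C))) :=
    (constL (K := unitInterval) (X := C)).contDiff.comp (contDiff_snd.comp contDiff_fst)
  exact (contDiff_snd.sub h5).add
    ((primL (C := C)).contDiff.comp ((h3.comp h2).clm_apply h4))

/-- The derivative of `radialOp`. -/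
noncomputable def radialDer (g : C(H × C, H →L[ℝ] C)) (dg : C(H × C, (H × C) →L[ℝ] (H →L[ℝ] C)))
    (z : (H × C) × C(unitInterval, C)) :
    ((H × C) × C(unitInterval, C)) →L[ℝ] C(unitInterval, C) :=
  ContinuousLinearMap.snd ℝ (H × C) C(unitInterval, C) -
    (constL (K := unitInterval) (X := C)).comp ((ContinuousLinearMap.snd ℝ H C).comp
      (ContinuousLinearMap.fst ℝ (H × C) C(unitInterval, C))) +
    (primL (C := C)).comp
      ((appCLM (g.comp (rayL (projL z)))).comp ((constL (K := unitInterval) (X := H)).comp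
        ((ContinuousLinearMap.fst ℝ H C).comp
          (ContinuousLinearMap.fst ℝ (H × C) C(unitInterval, C)))) +
      ((appCLM (K := unitInterval) (X := H) (Y := C)).comp
        ((appCLM (dg.comp (rayL (projL z)))).comp
          ((rayL (H := H) (C := C)).comp projL))).flip (constL z.1.1))

theorem hasFDerivAt_radialOp (g : C(H × C, H →L[ℝ] C))
    (dg : C(H × C, (H × C) →L[ℝ] (H →L[ℝ] C))) (hg : ∀ x, HasFDerivAt g (dg x) x)
    (z : (H × C) × C(unitInterval, C)) :
    HasFDerivAt (radialOp g) (radialDer g dg z) z := by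
  have h1 : HasFDerivAt (fun z : (H × C) × C(unitInterval, C) => rayL (projL z))
      ((rayL (H := H) (C := C)).comp projL) z :=
    ((rayL (H := H) (C := C)).comp projL).hasFDerivAt
  have h2 : HasFDerivAt (fun z : (H × C) × C(unitInterval, C) => g.comp (rayL (projL z)))
      ((appCLM (dg.comp (rayL (projL z)))).comp ((rayL (H := H) (C := C)).comp projL)) z :=
    (hasFDerivAt_nemytskii (K := unitInterval) g dg hg _).comp z h1
  have h3a : ∀ A : C(unitInterval, H →L[ℝ] C),
      HasFDerivAt (fun A : C(unitInterval, H →L[ℝ] C) => appCLM A) (appCLM (Y := C)) A :=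
    fun A => ContinuousLinearMap.hasFDerivAt (𝕜 := ℝ) (E := C(unitInterval, H →L[ℝ] C))
        (F := C(unitInterval, H) →L[ℝ] C(unitInterval, C)) appCLM
  have h3 : HasFDerivAt (fun z : (H × C) × C(unitInterval, C) =>
      appCLM (g.comp (rayL (projL z))))
      ((appCLM (K := unitInterval) (X := H) (Y := C)).comp
        ((appCLM (dg.comp (rayL (projL z)))).comp
          ((rayL (H := H) (C := C)).comp projL))) z := by
    have h3b := HasFDerivAt.comp (𝕜 := ℝ) (E := (H × C) × C(unitInterval, C))
      (F := C(unitInterval, H →L[ℝ] C)) (G := C(unitInterval, H) →L[ℝ] C(unitInterval, C))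
      (g := fun A : C(unitInterval, H →L[ℝ] C) => appCLM A)
      (f := fun z : (H × C) × C(unitInterval, C) => g.comp (rayL (projL z))) z (h3a _) h2
    exact h3b.congr_fderiv (ContinuousLinearMap.ext fun _ => rfl)
  have h4 : HasFDerivAt (fun z : (H × C) × C(unitInterval, C) =>
      (constL z.1.1 : C(unitInterval, H)))
      ((constL (K := unitInterval) (X := H)).comp
        ((ContinuousLinearMap.fst ℝ H C).comp
          (ContinuousLinearMap.fst ℝ (H × C) C(unitInterval, C)))) z :=
    ((constL (K := unitInterval) (X := H)).comp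
        ((ContinuousLinearMap.fst ℝ H C).comp
          (ContinuousLinearMap.fst ℝ (H × C) C(unitInterval, C)))).hasFDerivAt
  have h5 : HasFDerivAt (fun z : (H × C) × C(unitInterval, C) =>
      (constL z.1.2 : C(unitInterval, C)))
      ((constL (K := unitInterval) (X := C)).comp
        ((ContinuousLinearMap.snd ℝ H C).comp
          (ContinuousLinearMap.fst ℝ (H × C) C(unitInterval, C)))) z :=
    ((constL (K := unitInterval) (X := C)).comp
        ((ContinuousLinearMap.snd ℝ H C).comp
          (ContinuousLinearMap.fst ℝ (H × C) C(unitInterval, C)))).hasFDerivAt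
  exact (hasFDerivAt_snd.sub h5).add
    ((primL (C := C)).hasFDerivAt.comp z (h3.clm_apply h4))

theorem radialDer_apply (g : C(H × C, H →L[ℝ] C))
    (dg : C(H × C, (H × C) →L[ℝ] (H →L[ℝ] C)))
    (z : (H × C) × C(unitInterval, C)) (v : H) (c : C) (η : C(unitInterval, C)) :
    radialDer g dg z ((v, c), η) = η - constL c +
      primL (appCLM (g.comp (rayL (projL z))) (constL v) +
        appCLM (appCLM (dg.comp (rayL (projL z))) (rayL (v, η))) (constL z.1.1)) := rfl

end Radial

end Pool.Agent.SubRiem
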