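import Mathlib
import Pool.Agent.SubRiem.RadialOp

set_option autoImplicit false

namespace Pool.Agent.SubRiem

open Set Filter Topology
open scoped ContDiff

section ODE

variable {H C : Type*} [NormedAddCommGroup H] [NormedSpace ℝ H]
  [NormedAddCommGroup C] [NormedSpace ℝ C] [CompleteSpace C]

/-- The linearised radial equation has only the expected solution. -/
theorem radial_linear_end (g : C(H × C, H →L[ℝ] C))
    (dg : C(H × C, (H × C) →L[ℝ] (H →L[ℝ] C))) (hg : ∀ x, HasFDerivAt g (dg x) x)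
    (h v : H) (c : C) (φ η : C(unitInterval, C))
    (hφ : radialOp g ((h, c), φ) = 0)
    (hη : radialDer g dg ((h, c), φ) ((v, g (h, c) v), η) = 0)
    (hint : ∀ s : unitInterval,
      (dg ((1 - (s : ℝ)) • h, φ s) (h, g ((1 - (s : ℝ)) • h, φ s) h)) v =
      (dg ((1 - (s : ℝ)) • h, φ s) (v, g ((1 - (s : ℝ)) • h, φ s) v)) h) :
    η 1 = 0 := by
  rw [radialDer_apply] at hη
  set u1 : C(unitInterval, C) := appCLM (g.comp (rayL (h, φ))) (constL h) with hu1
  set u2 : C(unitInterval, C) := appCLM (g.comp (rayL (h, φ))) (constL v) +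
        appCLM (appCLM (dg.comp (rayL (h, φ))) (rayL (v, η))) (constL h) with hu2
  have e1 : φ - constL c + primL u1 = 0 := hφ
  have e2 : η - constL (g (h, c) v) + primL u2 = 0 := hη
  set q1 : ℝ → C := IccExtend (zero_le_one' ℝ) u1 with hq1
  set q2 : ℝ → C := IccExtend (zero_le_one' ℝ) u2 with hq2
  have cq1 : Continuous q1 := continuous_ext u1
  have cq2 : Continuous q2 := continuous_ext u2
  let φg : ℝ → C := fun t => c - ∫ s in (0 : ℝ)..t, q1 s
  let ηg : ℝ → C := fun t => g (h, c) v - ∫ s in (0 : ℝ)..t, q2 s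
  have dφ : ∀ t, HasDerivAt φg (-q1 t) t := by
    intro t
    have h1 := intervalIntegral.integral_hasDerivAt_right
      (cq1.intervalIntegrable (μ := MeasureTheory.volume) 0 t)
      (cq1.stronglyMeasurableAtFilter _ _) cq1.continuousAt
    simpa using h1.const_sub c
  have dη : ∀ t, HasDerivAt ηg (-q2 t) t := by
    intro t
    have h1 := intervalIntegral.integral_hasDerivAt_right
      (cq2.intervalIntegrable (μ := MeasureTheory.volume) 0 t)
      (cq2.stronglyMeasurableAtFilter _ _) cq2.continuousAt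
    simpa using h1.const_sub (g (h, c) v)
  have eφ : ∀ t : unitInterval, φ t = φg t := by
    intro t
    have h1 := congrArg (fun w : C(unitInterval, C) => w t) e1
    simp only [ContinuousMap.add_apply, ContinuousMap.sub_apply, constL_apply, primL_apply,
      ContinuousMap.zero_apply] at h1
    have h2 : φ t = c - ∫ s in (0 : ℝ)..(t : ℝ), IccExtend (zero_le_one' ℝ) u1 s := by
      have h3 := congrArg (fun w => w + (c - ∫ s in (0 : ℝ)..(t : ℝ),
        IccExtend (zero_le_one' ℝ) u1 s)) h1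
      simpa using h3
    exact h2
  have eη : ∀ t : unitInterval, η t = ηg t := by
    intro t
    have h1 := congrArg (fun w : C(unitInterval, C) => w t) e2
    simp only [ContinuousMap.add_apply, ContinuousMap.sub_apply, constL_apply, primL_apply,
      ContinuousMap.zero_apply] at h1
    have h2 : η t = g (h, c) v - ∫ s in (0 : ℝ)..(t : ℝ), IccExtend (zero_le_one' ℝ) u2 s := by
      have h3 := congrArg (fun w => w + (g (h, c) v - ∫ s in (0 : ℝ)..(t : ℝ),
        IccExtend (zero_le_one' ℝ) u2 s)) h1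
      simpa using h3
    exact h2
  let p : ℝ → H × C := fun t => ((1 - t) • h, φg t)
  have v1 : ∀ t ∈ Icc (0 : ℝ) 1, q1 t = g (p t) h := by
    intro t ht
    rw [hq1, IccExtend_of_mem _ _ ht, hu1, appCLM_apply]
    simp [p, ← eφ ⟨t, ht⟩]
  have v2 : ∀ t ∈ Icc (0 : ℝ) 1, q2 t = g (p t) v + (dg (p t) ((1 - t) • v, ηg t)) h := by
    intro t ht
    rw [hq2, IccExtend_of_mem _ _ ht, hu2, ContinuousMap.add_apply, appCLM_apply, appCLM_apply,
      appCLM_apply]
    simp [p, ← eφ ⟨t, ht⟩, ← eη ⟨t, ht⟩]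
  have dp : ∀ t, HasDerivAt p (-h, -q1 t) t := by
    intro t
    have h1 : HasDerivAt (fun t : ℝ => (1 - t) • h) (-h) t := by
      have h2 := ((hasDerivAt_id t).const_sub (1 : ℝ)).smul_const h
      simpa using h2
    exact h1.prodMk (dφ t)
  let G : ℝ → C := fun t => g (p t) v
  have dG : ∀ t, HasDerivAt G ((dg (p t) (-h, -q1 t)) v) t := by
    intro t
    have h1 : HasDerivAt (fun t => g (p t)) (dg (p t) (-h, -q1 t)) t :=
      (hg (p t)).comp_hasDerivAt t (dp t)
    have h2 := h1.clm_apply (hasDerivAt_const t v)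
    simpa using h2
  let w : ℝ → C := fun t => ηg t - (1 - t) • G t
  have dw : ∀ t ∈ Icc (0 : ℝ) 1, HasDerivAt w (-(dg (p t) (0, w t)) h) t := by
    intro t ht
    have h1 : HasDerivAt (fun t : ℝ => (1 - t) • G t)
        ((1 - t) • (dg (p t) (-h, -q1 t)) v + (-1 : ℝ) • G t) t := by
      have h2 := ((hasDerivAt_id t).const_sub (1 : ℝ)).smul (dG t)
      exact h2.congr_deriv (by simp)
    have h3 := (dη t).sub h1
    refine h3.congr_deriv ?_
    have h4 := hint ⟨t, ht⟩
    simp only [eφ ⟨t, ht⟩] at h4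
    change (dg (p t) (h, g (p t) h)) v = (dg (p t) (v, g (p t) v)) h at h4
    rw [v2 t ht, v1 t ht]
    have h5 : (-h, -(g (p t)) h) = -((h, g (p t) h) : H × C) := rfl
    have h6 : ((0 : H), w t) = ((1 - t) • v, ηg t) - (1 - t) • ((v, g (p t) v) : H × C) := by
      ext
      · simp
      · simp [w, G]
    rw [h5, h6, map_neg, map_sub, map_smul, neg_apply, h4, sub_apply, smul_apply]
    simp only [G]
    module
  have cw : Continuous w := by
    have hG : Continuous G := continuous_iff_continuousAt.2 fun t => (dG t).continuousAt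
    have hη' : Continuous ηg := continuous_iff_continuousAt.2 fun t => (dη t).continuousAt
    exact hη'.sub ((continuous_const.sub continuous_id).smul hG)
  have cp : Continuous p := continuous_iff_continuousAt.2 fun t => (dp t).continuousAt
  have cdg : ContinuousOn (fun t => dg (p t)) (Icc (0 : ℝ) 1) :=
    (dg.continuous.comp cp).continuousOn
  obtain ⟨M, hM⟩ := (isCompact_Icc (a := (0 : ℝ)) (b := 1)).exists_bound_of_continuousOn
    (f := fun t => dg (p t)) cdg
  have hw0 : w 0 = 0 := by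
    simp [w, G, ηg, p, φg]
  have hw1 := eq_zero_of_abs_deriv_le_mul_abs_self_of_eq_zero_right (f := w)
    (f' := fun t => -(dg (p t) (0, w t)) h) (K := M * ‖h‖) (a := 0) (b := 1)
    cw.continuousOn (fun t ht => (dw t ⟨ht.1, ht.2.le⟩).hasDerivWithinAt) hw0 (by
      intro t ht
      rw [norm_neg]
      have h1 := (dg (p t) (0, w t)).le_opNorm h
      have h2 := (dg (p t)).le_opNorm (0, w t)
      have h3 : ‖((0 : H), w t)‖ = ‖w t‖ := by simp [Prod.norm_def]
      have h4 := hM t ⟨ht.1, ht.2.le⟩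
      rw [h3] at h2
      calc ‖(dg (p t) (0, w t)) h‖ ≤ ‖dg (p t) (0, w t)‖ * ‖h‖ := h1
        _ ≤ (‖dg (p t)‖ * ‖w t‖) * ‖h‖ := mul_le_mul_of_nonneg_right h2 (norm_nonneg h)
        _ ≤ (M * ‖w t‖) * ‖h‖ := by gcongr
        _ = M * ‖h‖ * ‖w t‖ := by ring) 1 ⟨zero_le_one, le_rfl⟩
  have h7 := eη 1
  have h8 : w 1 = ηg 1 := by simp [w]
  rw [h7]
  have h9 : ((1 : unitInterval) : ℝ) = 1 := rfl
  rw [h9, ← h8, hw1]

end ODE

section Global

variable {H C : Type*} [NormedAddCommGroup H] [NormedSpace ℝ H] [CompleteSpace H]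
  [NormedAddCommGroup C] [NormedSpace ℝ C] [CompleteSpace C]

theorem frobenius_global (g : C(H × C, H →L[ℝ] C)) (hg : ContDiff ℝ ∞ g) {r : ℝ} (hr : 0 < r)
    (hint : ∀ x ∈ Metric.ball (0 : H × C) r, ∀ h₁ h₂ : H,
      (fderiv ℝ g x (h₁, g x h₁)) h₂ = (fderiv ℝ g x (h₂, g x h₂)) h₁) :
    ∃ O' ⊆ Metric.ball (0 : H × C) r, IsOpen O' ∧ (0 : H × C) ∈ O' ∧ ∃ ψ : H × C → C,
      ContDiffOn ℝ ∞ ψ O' ∧
      (∀ c : C, ((0 : H), c) ∈ O' → ψ (0, c) = c) ∧
      ∀ x ∈ O', ∀ v : H, fderiv ℝ ψ x (v, g x v) = 0 := by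
  have hdiff : Differentiable ℝ g := hg.differentiable (by simp)
  have hdc : Continuous (fderiv ℝ g) := hg.continuous_fderiv (by simp)
  let dg : C(H × C, (H × C) →L[ℝ] (H →L[ℝ] C)) := ⟨fderiv ℝ g, hdc⟩
  have hdg : ∀ x, HasFDerivAt g (dg x) x := fun x => (hdiff x).hasFDerivAt
  set f : (H × C) × C(unitInterval, C) → C(unitInterval, C) := radialOp g with hf
  have cdf : ContDiff ℝ ∞ f := contDiff_radialOp g hg
  have hfd : ∀ z, fderiv ℝ f z = radialDer g dg z := fun z =>
    (hasFDerivAt_radialOp g dg hdg z).fderiv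
  have hinr : ∀ z : (H × C) × C(unitInterval, C), z.1.1 = 0 →
      fderiv ℝ f z ∘L .inr ℝ (H × C) C(unitInterval, C) =
        (ContinuousLinearEquiv.refl ℝ C(unitInterval, C) :
          C(unitInterval, C) →L[ℝ] C(unitInterval, C)) := by
    intro z hz
    rw [hfd]
    ext η t
    change radialDer g dg z ((0, 0), η) t = η t
    rw [radialDer_apply, hz]
    have h0 : (constL (0 : H) : C(unitInterval, H)) = 0 := map_zero _
    have h1 : (constL (0 : C) : C(unitInterval, C)) = 0 := map_zero _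
    rw [h0, h1, map_zero, map_zero, add_zero, map_zero, add_zero, sub_zero]
  have pn : (∞ : WithTop ℕ∞) ≠ 0 := by simp
  have if0 : (fderiv ℝ f 0 ∘L .inr ℝ (H × C) C(unitInterval, C)).IsInvertible :=
    ⟨_, (hinr 0 rfl).symm⟩
  have c0 : ContDiffAt ℝ ∞ f 0 := cdf.contDiffAt
  set Φ : H × C → C(unitInterval, C) := c0.implicitFunction pn if0 with hΦ
  have f0 : f 0 = 0 := by
    have h0 : (constL (0 : H) : C(unitInterval, H)) = 0 := map_zero _
    have h1 : (constL (0 : C) : C(unitInterval, C)) = 0 := map_zero _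
    change (0 : C(unitInterval, C)) - constL (0 : C) + primL (appCLM _ (constL (0 : H))) = 0
    rw [h0, h1, map_zero, map_zero, add_zero, sub_zero]
  have ha : ∀ᶠ x in 𝓝 (0 : H × C), f (x, Φ x) = 0 := by
    have := c0.eventually_apply_implicitFunction pn if0
    rwa [f0] at this
  have hb : Φ 0 = 0 := c0.implicitFunction_apply_self pn if0
  have hc : ContDiffAt ℝ ∞ Φ 0 := c0.contDiffAt_implicitFunction pn if0
  have hc1 : ∀ᶠ x in 𝓝 (0 : H × C), ContDiffAt ℝ 1 Φ x :=
    (hc.of_le (by exact_mod_cast le_top)).eventually (by simp)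
  have hd : Tendsto (fun x : H × C => (x, Φ x)) (𝓝 0) (𝓝 0) := by
    have h1 : ContinuousAt (fun x : H × C => (x, Φ x)) 0 :=
      continuousAt_id.prodMk hc.continuousAt
    have h2 := h1.tendsto
    rw [hb] at h2
    exact h2
  have he : ∀ᶠ z in 𝓝 (0 : (H × C) × C(unitInterval, C)),
      (fderiv ℝ f z ∘L .inr ℝ (H × C) C(unitInterval, C)).IsInvertible := by
    have h1 : Continuous (fun z : (H × C) × C(unitInterval, C) =>
        fderiv ℝ f z ∘L .inr ℝ (H × C) C(unitInterval, C)) :=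
      (cdf.continuous_fderiv (by simp)).clm_comp continuous_const
    have h2 := ContinuousLinearEquiv.nhds (ContinuousLinearEquiv.refl ℝ C(unitInterval, C))
    rw [← hinr 0 rfl] at h2
    filter_upwards [h1.continuousAt.preimage_mem_nhds h2] with z hz
    obtain ⟨e, he⟩ := hz
    exact ⟨e, he⟩
  have hsmall : ∀ᶠ x in 𝓝 (0 : H × C), (x, Φ x) ∈
      Metric.ball (0 : (H × C) × C(unitInterval, C)) r :=
    hd.eventually (Metric.ball_mem_nhds _ hr)
  have hall := (ha.eventually_nhds.and hc1).and ((hd.eventually he).and hsmall)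
  obtain ⟨O', hO', hO'o, h0O'⟩ := eventually_nhds_iff.1 hall
  have hx1 : ∀ x ∈ O', ∀ᶠ y in 𝓝 x, f (y, Φ y) = 0 := fun x hx => (hO' x hx).1.1
  have hx2 : ∀ x ∈ O', ContinuousAt Φ x := fun x hx => (hO' x hx).1.2.continuousAt
  have hx3 : ∀ x ∈ O',
      (fderiv ℝ f (x, Φ x) ∘L .inr ℝ (H × C) C(unitInterval, C)).IsInvertible :=
    fun x hx => (hO' x hx).2.1
  have hx4 : ∀ x ∈ O', ‖x‖ < r ∧ ‖Φ x‖ < r := by
    intro x hx
    have h1 := (hO' x hx).2.2
    rw [mem_ball_zero_iff, Prod.norm_def] at h1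
    exact max_lt_iff.1 h1
  have hsm : ∀ x ∈ O', ContDiffAt ℝ ∞ Φ x := by
    intro x hx
    have cx : ContDiffAt ℝ ∞ f (x, Φ x) := cdf.contDiffAt
    have h1 := cx.eventually_apply_eq_iff_implicitFunction pn (hx3 x hx)
    have h2 : Tendsto (fun y : H × C => (y, Φ y)) (𝓝 x) (𝓝 (x, Φ x)) :=
      (continuousAt_id.prodMk (hx2 x hx)).tendsto
    have h3 := h2.eventually h1
    have h4 : Φ =ᶠ[𝓝 x] cx.implicitFunction pn (hx3 x hx) := by
      filter_upwards [h3, hx1 x hx] with y hy hy0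
      rw [hy0, (hx1 x hx).self_of_nhds] at hy
      exact (hy.1 rfl).symm
    exact (cx.contDiffAt_implicitFunction pn (hx3 x hx)).congr_of_eventuallyEq h4
  refine ⟨O', fun x hx => mem_ball_zero_iff.2 (hx4 x hx).1, hO'o, h0O', fun x => Φ x 1, ?_, ?_, ?_⟩
  · intro x hx
    exact ((ContinuousMap.evalCLM ℝ (1 : unitInterval)).contDiff.contDiffAt.comp x
      (hsm x hx)).contDiffWithinAt
  · intro c hc'
    have h1 := (hx1 _ hc').self_of_nhds
    have h0 : (constL (0 : H) : C(unitInterval, H)) = 0 := map_zero _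
    change Φ (0, c) - constL c + primL (appCLM _ (constL (0 : H))) = 0 at h1
    rw [h0, map_zero, map_zero, add_zero, sub_eq_zero] at h1
    change Φ (0, c) 1 = c
    rw [h1]
    rfl
  · intro x hx v
    have hΦd : HasFDerivAt Φ (fderiv ℝ Φ x) x :=
      ((hsm x hx).differentiableAt (by simp)).hasFDerivAt
    have hψd : HasFDerivAt (fun x => Φ x 1)
        ((ContinuousMap.evalCLM ℝ (1 : unitInterval)).comp (fderiv ℝ Φ x)) x := by
      have he1 : HasFDerivAt (fun φ : C(unitInterval, C) => φ 1)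
          (ContinuousMap.evalCLM ℝ (1 : unitInterval)) (Φ x) :=
        ContinuousLinearMap.hasFDerivAt (E := C(unitInterval, C)) (F := C)
          (ContinuousMap.evalCLM ℝ (1 : unitInterval))
      exact he1.comp x hΦd
    rw [hψd.fderiv]
    change (fderiv ℝ Φ x (v, g x v)) 1 = 0
    have h1 : HasFDerivAt (fun y => f (y, Φ y))
        ((radialDer g dg (x, Φ x)).comp ((ContinuousLinearMap.id ℝ (H × C)).prod
          (fderiv ℝ Φ x))) x :=
      HasFDerivAt.comp (g := f) (f := fun y : H × C => (y, Φ y)) x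
        (hasFDerivAt_radialOp g dg hdg (x, Φ x)) ((hasFDerivAt_id x).prodMk hΦd)
    have h2 : HasFDerivAt (fun y => f (y, Φ y))
        (0 : (H × C) →L[ℝ] C(unitInterval, C)) x :=
      (hasFDerivAt_const (0 : C(unitInterval, C)) x).congr_of_eventuallyEq (hx1 x hx)
    have h3 := h1.unique h2
    have h4 : radialDer g dg (x, Φ x) ((v, g x v), fderiv ℝ Φ x (v, g x v)) = 0 := by
      have := congrArg (fun L : (H × C) →L[ℝ] C(unitInterval, C) => L (v, g x v)) h3
      exact this
    refine radial_linear_end g dg hdg x.1 v x.2 (Φ x) _ (hx1 x hx).self_of_nhds h4 ?_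
    intro s
    refine hint _ ?_ _ _
    rw [mem_ball_zero_iff, Prod.norm_def]
    refine max_lt ?_ ?_
    · have h5 : ‖(1 - (s : ℝ))‖ ≤ 1 := by
        rw [Real.norm_eq_abs, abs_le]
        exact ⟨by linarith [s.2.1, s.2.2], by linarith [s.2.1, s.2.2]⟩
      calc ‖(1 - (s : ℝ)) • x.1‖ = ‖(1 - (s : ℝ))‖ * ‖x.1‖ := norm_smul _ _
        _ ≤ 1 * ‖x.1‖ := mul_le_mul_of_nonneg_right h5 (norm_nonneg _)
        _ = ‖x.1‖ := one_mul _
        _ ≤ ‖x‖ := norm_fst_le x
        _ < r := (hx4 x hx).1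
    · exact ((Φ x).norm_coe_le_norm s).trans_lt (hx4 x hx).2

end Global

/-- Local Frobenius theorem for a distribution `{(v, f x v)}` given as a graph. -/
theorem frobenius_graph {H C : Type*} [NormedAddCommGroup H] [NormedSpace ℝ H]
    [FiniteDimensional ℝ H] [NormedAddCommGroup C] [NormedSpace ℝ C] [FiniteDimensional ℝ C]
    {O : Set (H × C)} (hO : IsOpen O) (h0 : (0 : H × C) ∈ O)
    {f : H × C → (H →L[ℝ] C)} (hf : ContDiffOn ℝ ∞ f O)
    (hint : ∀ x ∈ O, ∀ h₁ h₂ : H,
      (fderiv ℝ f x (h₁, f x h₁)) h₂ = (fderiv ℝ f x (h₂, f x h₂)) h₁) :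
    ∃ O' ⊆ O, IsOpen O' ∧ (0 : H × C) ∈ O' ∧ ∃ ψ : H × C → C, ContDiffOn ℝ ∞ ψ O' ∧
      (∀ c : C, ((0 : H), c) ∈ O' → ψ (0, c) = c) ∧
      ∀ x ∈ O', ∀ v : H, fderiv ℝ ψ x (v, f x v) = 0 := by
  have : CompleteSpace H := FiniteDimensional.complete ℝ H
  have : CompleteSpace C := FiniteDimensional.complete ℝ C
  obtain ⟨R, hR, hRO⟩ := Metric.isOpen_iff.1 hO 0 h0
  let b : ContDiffBump (0 : H × C) :=
    { rIn := R / 3, rOut := R / 2, rIn_pos := by positivity, rIn_lt_rOut := by linarith }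
  have hb1 : b.rIn = R / 3 := rfl
  have hb2 : b.rOut = R / 2 := rfl
  have hgs : ContDiff ℝ ∞ (fun x => b x • f x) := by
    rw [contDiff_iff_contDiffAt]
    intro x
    by_cases hx : x ∈ Metric.ball (0 : H × C) R
    · exact b.contDiff.contDiffAt.smul (hf.contDiffAt (hO.mem_nhds (hRO hx)))
    · have hx' : R / 2 < ‖x‖ := by
        rw [mem_ball_zero_iff, not_lt] at hx
        linarith
      have h1 : (fun x => b x • f x) =ᶠ[𝓝 x] fun _ => 0 := by
        filter_upwards [(isOpen_lt continuous_const continuous_norm).mem_nhds hx'] with y hy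
        have h2 : b y = 0 := b.zero_of_le_dist (by rw [hb2, dist_zero_right]; exact le_of_lt hy)
        rw [h2, zero_smul]
      exact contDiffAt_const.congr_of_eventuallyEq h1
  let g : C(H × C, H →L[ℝ] C) := ⟨fun x => b x • f x, hgs.continuous⟩
  have hgf : ∀ x ∈ Metric.ball (0 : H × C) (R / 3), g x = f x := by
    intro x hx
    change b x • f x = f x
    rw [b.one_of_mem_closedBall (Metric.ball_subset_closedBall hx), one_smul]
  have hball : Metric.ball (0 : H × C) (R / 3) ⊆ O :=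
    (Metric.ball_subset_ball (by linarith)).trans hRO
  have hgd : ∀ x ∈ Metric.ball (0 : H × C) (R / 3), fderiv ℝ g x = fderiv ℝ f x := by
    intro x hx
    refine Filter.EventuallyEq.fderiv_eq ?_
    filter_upwards [Metric.isOpen_ball.mem_nhds hx] with y hy using hgf y hy
  obtain ⟨O', hO'1, hO'2, hO'3, ψ, hψ1, hψ2, hψ3⟩ := frobenius_global g hgs
    (r := R / 3) (by positivity) (fun x hx h₁ h₂ => by
      rw [hgd x hx, hgf x hx]
      exact hint x (hball hx) h₁ h₂)
  refine ⟨O', hO'1.trans hball, hO'2, hO'3, ψ, hψ1, hψ2, fun x hx v => ?_⟩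
  have := hψ3 x hx v
  rwa [hgf x (hO'1 hx)] at this

end Pool.Agent.SubRiem
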