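import Mathlib
import Pool.Agent.SubRiem.BracketCalc
import Pool.Agent.SubRiem.Ample
import Pool.Agent.SubRiem.FrobeniusGraph

/-!
# Frobenius theorem for a distribution with a smooth frame
-/

set_option autoImplicit false

namespace Pool.Agent.SubRiem

open Set Filter Topology VectorField
open scoped ContDiff Matrix Matrix.Norms.Operator

theorem fderiv_comp_gen {E F G : Type*} [NormedAddCommGroup E] [NormedSpace ℝ E]
    [NormedAddCommGroup F] [NormedSpace ℝ F] [NormedAddCommGroup G] [NormedSpace ℝ G]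
    {g : F → G} {f : E → F} {f' : E →L[ℝ] F} (x : E) (hg : DifferentiableAt ℝ g (f x))
    (hf : HasFDerivAt f f' x) : fderiv ℝ (g ∘ f) x = (fderiv ℝ g (f x)).comp f' :=
  (hg.hasFDerivAt.comp x hf).fderiv

theorem frobenius_dist {E : Type*} [NormedAddCommGroup E] [NormedSpace ℝ E]
    [FiniteDimensional ℝ E] {W : Set E} (hW : IsOpen W) {x₀ : E} (hx₀ : x₀ ∈ W) {k : ℕ}
    {B : Fin k → E → E} {L : Fin k → E → (E →L[ℝ] ℝ)}
    (hB : ∀ i, ContDiffOn ℝ ∞ (B i) W) (hL : ∀ i, ContDiffOn ℝ ∞ (L i) W)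
    (hLB : ∀ x ∈ W, ∀ i j, L i x (B j x) = if i = j then 1 else 0)
    (hinv : ∀ x ∈ W, ∀ i j,
      lieBracket ℝ (B i) (B j) x ∈ Submodule.span ℝ (range fun k => B k x))
    {C : Submodule ℝ E} (hC : IsCompl (Submodule.span ℝ (range fun k => B k x₀)) C) :
    ∃ W' ⊆ W, IsOpen W' ∧ x₀ ∈ W' ∧ ∃ ψ : E → C, ContDiffOn ℝ ∞ ψ W' ∧
      (∀ x ∈ W', ∀ k, fderiv ℝ ψ x (B k x) = 0) ∧ ∀ c : C, fderiv ℝ ψ x₀ (c : E) = c := by
  classical
  have hli : LinearIndependent ℝ fun i => B i x₀ :=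
    linearIndependent_of_dual' (fun i => L i x₀) (hLB x₀ hx₀)
  -- the adapted coordinates
  set lin : (Fin k → ℝ) × C →ₗ[ℝ] E :=
    (Fintype.linearCombination ℝ (fun i => B i x₀)).coprod C.subtype with hlindef
  have hlin : ∀ z, lin z = ∑ i, z.1 i • B i x₀ + (z.2 : E) := by
    intro z
    rw [hlindef, LinearMap.coprod_apply, Fintype.linearCombination_apply, Submodule.subtype_apply]
  have hsum_mem : ∀ h : Fin k → ℝ,
      ∑ i, h i • B i x₀ ∈ Submodule.span ℝ (range fun k => B k x₀) := fun h =>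
    Submodule.sum_mem _ fun i _ => Submodule.smul_mem _ _ (Submodule.subset_span ⟨i, rfl⟩)
  have hbij : Function.Bijective lin := by
    constructor
    · rw [← LinearMap.ker_eq_bot, LinearMap.ker_eq_bot']
      rintro ⟨h, c⟩ hz
      rw [hlin] at hz
      simp only at hz
      have h1 : ∑ i, h i • B i x₀ = -(c : E) := eq_neg_of_add_eq_zero_left hz
      have h2 : ∑ i, h i • B i x₀ ∈ C := by rw [h1]; exact C.neg_mem c.2
      have h3 : ∑ i, h i • B i x₀ = 0 :=
        Submodule.disjoint_def.1 hC.disjoint _ (hsum_mem h) h2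
      have h4 : h = 0 := by
        ext i
        exact Fintype.linearIndependent_iff.1 hli h h3 i
      have h5 : c = 0 := by
        rw [h3] at h1
        exact Subtype.ext (by simpa using h1.symm)
      rw [h4, h5]; rfl
    · intro e
      obtain ⟨s, hs, c, hc, hsc⟩ := Submodule.mem_sup.1
        (show e ∈ Submodule.span ℝ (range fun k => B k x₀) ⊔ C by
          rw [hC.sup_eq_top]; exact Submodule.mem_top)
      obtain ⟨h, hh⟩ := (Submodule.mem_span_range_iff_exists_fun ℝ).1 hs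
      exact ⟨(h, ⟨c, hc⟩), by rw [hlin, ← hsc, ← hh]⟩
  set A : ((Fin k → ℝ) × C) ≃L[ℝ] E := (LinearEquiv.ofBijective lin hbij).toContinuousLinearEquiv
    with hAdef
  have hA : ∀ z, A z = ∑ i, z.1 i • B i x₀ + (z.2 : E) := fun z => hlin z
  -- the frame as a linear map
  set M : E → ((Fin k → ℝ) →L[ℝ] E) := fun x =>
    ∑ j, (ContinuousLinearMap.proj (R := ℝ) (φ := fun _ : Fin k => ℝ) j).smulRight (B j x) with hM
  have hMapply : ∀ x h, M x h = ∑ j, h j • B j x := by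
    intro x h
    simp only [hM, sum_apply, ContinuousLinearMap.smulRight_apply, ContinuousLinearMap.proj_apply]
  have hMs : ContDiffOn ℝ ∞ M W := by
    apply ContDiffOn.sum
    intro j _
    exact ContDiffOn.smulRight contDiffOn_const (hB j)
  set πH : E →L[ℝ] (Fin k → ℝ) :=
    (ContinuousLinearMap.fst ℝ (Fin k → ℝ) C).comp (A.symm : E →L[ℝ] ((Fin k → ℝ) × C)) with hπH
  set πC : E →L[ℝ] C :=
    (ContinuousLinearMap.snd ℝ (Fin k → ℝ) C).comp (A.symm : E →L[ℝ] ((Fin k → ℝ) × C)) with hπC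
  have hπHC : ∀ e, A (πH e, πC e) = e := by
    intro e
    have : (πH e, πC e) = A.symm e := rfl
    rw [this, A.apply_symm_apply]
  set Q : E → ((Fin k → ℝ) →L[ℝ] (Fin k → ℝ)) := fun x => πH.comp (M x) with hQ
  have hQs : ContDiffOn ℝ ∞ Q W := contDiffOn_const.clm_comp hMs
  have hQ0 : Q x₀ = 1 := by
    ext1 h
    have h1 : M x₀ h = A (h, 0) := by rw [hMapply, hA]; simp
    show πH (M x₀ h) = h
    rw [h1]
    show (A.symm (A (h, 0))).1 = h
    rw [A.symm_apply_apply]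
  set N : Set E := W ∩ Q ⁻¹' {A | IsUnit A} with hN
  have hNo : IsOpen N := hQs.continuousOn.isOpen_inter_preimage hW Units.isOpen
  have hNW : N ⊆ W := inter_subset_left
  have hx₀N : x₀ ∈ N := ⟨hx₀, by show IsUnit (Q x₀); rw [hQ0]; exact isUnit_one⟩
  set R : E → ((Fin k → ℝ) →L[ℝ] (Fin k → ℝ)) := fun x => Ring.inverse (Q x) with hR
  have hRs : ContDiffOn ℝ ∞ R N := by
    rintro x ⟨hxW, u, hu⟩
    have h1 : ContDiffAt ℝ ∞ Q x := hQs.contDiffAt (hW.mem_nhds hxW)
    have h3 : ContDiffAt ℝ ∞ Ring.inverse (Q x) := hu ▸ contDiffAt_ringInverse ℝ u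
    exact (h3.comp x h1).contDiffWithinAt
  have hQR : ∀ x ∈ N, ∀ h, Q x (R x h) = h := by
    intro x hx h
    have h2 := Ring.mul_inverse_cancel (Q x) hx.2
    exact congrArg (fun A : (Fin k → ℝ) →L[ℝ] (Fin k → ℝ) => A h) h2
  have hRQ : ∀ x ∈ N, ∀ h, R x (Q x h) = h := by
    intro x hx h
    have h2 := Ring.inverse_mul_cancel (Q x) hx.2
    exact congrArg (fun A : (Fin k → ℝ) →L[ℝ] (Fin k → ℝ) => A h) h2
  set f : E → ((Fin k → ℝ) →L[ℝ] C) := fun x => πC.comp ((M x).comp (R x)) with hf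
  have hfs : ContDiffOn ℝ ∞ f N :=
    contDiffOn_const.clm_comp ((hMs.mono hNW).clm_comp hRs)
  -- the adapted frame
  set V : (Fin k → ℝ) → E → E := fun h x => A (h, f x h) with hV
  have hVM : ∀ x ∈ N, ∀ h, V h x = M x (R x h) := by
    intro x hx h
    have h1 : πH (M x (R x h)) = h := hQR x hx h
    have h2 : πC (M x (R x h)) = f x h := rfl
    rw [← hπHC (M x (R x h)), h1, h2]
  set G : (E → E) → Prop := fun Z => ∃ i, Z = B i with hG
  have hGs : ∀ Z, G Z → ContDiffOn ℝ ∞ Z N := by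
    rintro Z ⟨i, rfl⟩
    exact (hB i).mono hNW
  have hVMd : ∀ h, Md N G (V h) := by
    intro h
    have h1 : Md N G (fun x => ∑ j, (R x h) j • B j x) := by
      apply Md.sum
      intro j _
      apply Md.smul
      · have h2 : ContDiffOn ℝ ∞ (fun x => R x h) N := hRs.clm_apply contDiffOn_const
        exact (contDiffOn_pi.1 h2) j
      · exact Md.base _ ⟨j, rfl⟩
    refine Md.congr _ _ ?_ h1
    intro x hx
    rw [hVM x hx, hMapply]
  have hBB : ∀ i j, Md N G (lieBracket ℝ (B i) (B j)) := by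
    intro i j
    have h1 : Md N G (fun x => ∑ l, (L l x (lieBracket ℝ (B i) (B j) x)) • B l x) := by
      apply Md.sum
      intro l _
      apply Md.smul
      · exact ((hL l).mono hNW).clm_apply
          (contDiffOn_lieBracket hNo ((hB i).mono hNW) ((hB j).mono hNW))
      · exact Md.base _ ⟨l, rfl⟩
    refine Md.congr _ _ ?_ h1
    intro x hx
    obtain ⟨c, hc⟩ := (Submodule.mem_span_range_iff_exists_fun ℝ).1 (hinv x (hNW hx) i j)
    have h2 : ∀ l, L l x (lieBracket ℝ (B i) (B j) x) = c l := by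
      intro l
      rw [← hc, map_sum]
      simp only [map_smul, hLB x (hNW hx), smul_eq_mul, mul_ite, mul_one, mul_zero,
        Finset.sum_ite_eq, Finset.mem_univ, if_true]
    simp only [h2]
    exact hc.symm
  have hVV : ∀ h₁ h₂, Md N G (lieBracket ℝ (V h₁) (V h₂)) := by
    intro h₁ h₂
    apply Md.bracket hNo hGs (Md.smooth hGs (hVMd h₁)) _ (hVMd h₂)
    rintro Z ⟨j, rfl⟩
    apply Md.bracket_left' hNo hGs ((hB j).mono hNW) (fun Z hZ => Md.base Z hZ) _ (hVMd h₁)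
    rintro Z ⟨i, rfl⟩
    exact hBB i j
  have hVd : ∀ x ∈ N, ∀ h v, fderiv ℝ (V h) x v = A (0, (fderiv ℝ f x v) h) := by
    intro x hx h v
    have h1 : HasFDerivAt f (fderiv ℝ f x) x :=
      ((hfs.contDiffAt (hNo.mem_nhds hx)).differentiableAt (by simp)).hasFDerivAt
    have h2 : HasFDerivAt (fun x => f x h) ((ContinuousLinearMap.apply ℝ C h).comp
        (fderiv ℝ f x)) x := (ContinuousLinearMap.apply ℝ C h).hasFDerivAt.comp x h1
    have h3 : HasFDerivAt (fun x => ((h : Fin k → ℝ), f x h))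
        ((0 : E →L[ℝ] (Fin k → ℝ)).prod ((ContinuousLinearMap.apply ℝ C h).comp
        (fderiv ℝ f x))) x := (hasFDerivAt_const h x).prodMk h2
    have h4 : HasFDerivAt (V h) ((A : ((Fin k → ℝ) × C) →L[ℝ] E).comp
        ((0 : E →L[ℝ] (Fin k → ℝ)).prod ((ContinuousLinearMap.apply ℝ C h).comp
        (fderiv ℝ f x)))) x :=
      (A : ((Fin k → ℝ) × C) →L[ℝ] E).hasFDerivAt.comp x h3
    rw [h4.fderiv]
    rfl
  have hint : ∀ x ∈ N, ∀ h₁ h₂, (fderiv ℝ f x (V h₁ x)) h₂ = (fderiv ℝ f x (V h₂ x)) h₁ := by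
    intro x hx h₁ h₂
    have h1 := Md.mem_span (hVV h₁ h₂) hx
    have h2 : {v | ∃ Z, G Z ∧ v = Z x} = range (fun j => B j x) := by
      ext v
      constructor
      · rintro ⟨Z, ⟨i, rfl⟩, rfl⟩
        exact ⟨i, rfl⟩
      · rintro ⟨i, rfl⟩
        exact ⟨B i, ⟨i, rfl⟩, rfl⟩
    rw [h2] at h1
    obtain ⟨c, hc⟩ := (Submodule.mem_span_range_iff_exists_fun ℝ).1 h1
    have h3 : lieBracket ℝ (V h₁) (V h₂) x =
        A (0, (fderiv ℝ f x (V h₁ x)) h₂ - (fderiv ℝ f x (V h₂ x)) h₁) := by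
      unfold lieBracket
      rw [hVd x hx, hVd x hx, ← map_sub, Prod.mk_sub_mk, sub_zero]
    have h4 : M x c = lieBracket ℝ (V h₁) (V h₂) x := by rw [hMapply]; exact hc
    have h5 : Q x c = 0 := by
      show (A.symm (M x c)).1 = 0
      rw [h4, h3, A.symm_apply_apply]
    have h6 : c = 0 := by rw [← hRQ x hx c, h5, map_zero]
    have h7 : lieBracket ℝ (V h₁) (V h₂) x = 0 := by rw [← h4, h6, map_zero]
    rw [h3] at h7
    have h8 : ((0 : Fin k → ℝ), (fderiv ℝ f x (V h₁ x)) h₂ - (fderiv ℝ f x (V h₂ x)) h₁) = 0 :=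
      A.injective (by rw [h7, map_zero])
    exact sub_eq_zero.1 (congrArg Prod.snd h8)
  -- transport to the model
  set T : ((Fin k → ℝ) × C) → E := fun z => x₀ + A z with hT
  have hTs : ContDiff ℝ ∞ T := contDiff_const.add A.contDiff
  have hTd : ∀ z, HasFDerivAt T (A : ((Fin k → ℝ) × C) →L[ℝ] E) z := fun z =>
    (A.hasFDerivAt (x := z)).const_add x₀
  set O : Set ((Fin k → ℝ) × C) := T ⁻¹' N with hO
  have hOo : IsOpen O := hNo.preimage hTs.continuous
  have hT0 : T 0 = x₀ := by simp [hT]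
  obtain ⟨O', hO'O, hO'o, h0O', ψ, hψs, hψ0, hψV⟩ := frobenius_graph (O := O) hOo
    (by show T 0 ∈ N; rw [hT0]; exact hx₀N) (f := f ∘ T) (hfs.comp hTs.contDiffOn fun z hz => hz)
    (by
      intro z hz h₁ h₂
      have h1 : DifferentiableAt ℝ f (T z) :=
        (hfs.contDiffAt (hNo.mem_nhds hz)).differentiableAt (by simp)
      rw [fderiv_comp_gen z h1 (hTd z)]
      exact hint (T z) hz h₁ h₂)
  set S : E → ((Fin k → ℝ) × C) := fun x => A.symm (x - x₀) with hS
  have hSs : ContDiff ℝ ∞ S := A.symm.contDiff.comp (contDiff_id.sub contDiff_const)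
  have hSd : ∀ x, HasFDerivAt S (A.symm : E →L[ℝ] ((Fin k → ℝ) × C)) x := by
    intro x
    have h1 : HasFDerivAt (fun x : E => x - x₀) (ContinuousLinearMap.id ℝ E) x :=
      (hasFDerivAt_id x).sub_const x₀
    exact (A.symm : E →L[ℝ] ((Fin k → ℝ) × C)).hasFDerivAt.comp x h1
  have hTS : ∀ x, T (S x) = x := by
    intro x
    show x₀ + A (A.symm (x - x₀)) = x
    rw [A.apply_symm_apply]; abel
  have hS0 : S x₀ = 0 := by simp [hS]
  have hmem : ∀ x, S x ∈ O' → x ∈ N := by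
    intro x hx
    have := hO'O hx
    rw [hO, mem_preimage, hTS] at this
    exact this
  have hψd : ∀ x, S x ∈ O' → ∀ v, fderiv ℝ (fun x => ψ (S x)) x v = fderiv ℝ ψ (S x) (A.symm v) := by
    intro x hx v
    have h1 : HasFDerivAt ψ (fderiv ℝ ψ (S x)) (S x) :=
      ((hψs.contDiffAt (hO'o.mem_nhds hx)).differentiableAt (by simp)).hasFDerivAt
    have h2 : HasFDerivAt (fun x => ψ (S x)) _ x := h1.comp x (hSd x)
    rw [h2.fderiv]
    rfl
  refine ⟨S ⁻¹' O', fun x hx => hNW (hmem x hx), hO'o.preimage hSs.continuous,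
    by show S x₀ ∈ O'; rw [hS0]; exact h0O', fun x => ψ (S x),
    hψs.comp hSs.contDiffOn fun x hx => hx, ?_, ?_⟩
  · intro x hx j
    rw [hψd x hx]
    have hxN := hmem x hx
    have h1 : M x (Pi.single j 1) = B j x := by
      rw [hMapply, Finset.sum_eq_single j]
      · simp
      · intro b _ hb
        rw [Pi.single_eq_of_ne hb, zero_smul]
      · simp
    have h2 : V (Q x (Pi.single j 1)) x = B j x := by
      rw [hVM x hxN, hRQ x hxN, h1]
    have h3 : A.symm (B j x) = (Q x (Pi.single j 1), f x (Q x (Pi.single j 1))) := by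
      rw [← h2]
      show A.symm (A _) = _
      rw [A.symm_apply_apply]
    rw [h3]
    have h4 := hψV (S x) hx (Q x (Pi.single j 1))
    rw [Function.comp_apply, hTS] at h4
    exact h4
  · intro c
    rw [hψd x₀ (by rw [hS0]; exact h0O'), hS0]
    have h1 : A.symm (c : E) = ((0 : Fin k → ℝ), c) := by
      rw [ContinuousLinearEquiv.symm_apply_eq, hA]
      simp
    rw [h1]
    have h2 : HasFDerivAt ψ (fderiv ℝ ψ 0) 0 :=
      ((hψs.contDiffAt (hO'o.mem_nhds h0O')).differentiableAt (by simp)).hasFDerivAt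
    have h3 : HasDerivAt (fun t : ℝ => ((0 : Fin k → ℝ), t • c)) ((0 : Fin k → ℝ), c) 0 := by
      have h4 : HasDerivAt (fun t : ℝ => t • c) ((1 : ℝ) • c) 0 := (hasDerivAt_id 0).smul_const c
      rw [one_smul] at h4
      exact (hasDerivAt_const (0 : ℝ) (0 : Fin k → ℝ)).prodMk h4
    have h5 : ((0 : Fin k → ℝ), (0 : ℝ) • c) = 0 := by simp
    have h2' : HasFDerivAt ψ (fderiv ℝ ψ 0) ((fun t : ℝ => ((0 : Fin k → ℝ), t • c)) 0) := by
      simpa only [h5] using h2
    have h6 : HasDerivAt (fun t : ℝ => ψ ((0 : Fin k → ℝ), t • c))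
        (fderiv ℝ ψ 0 ((0 : Fin k → ℝ), c)) 0 := h2'.comp_hasDerivAt 0 h3
    have h7 : (fun t : ℝ => ψ ((0 : Fin k → ℝ), t • c)) =ᶠ[𝓝 0] fun t => t • c := by
      have h8 : ContinuousAt (fun t : ℝ => ((0 : Fin k → ℝ), t • c)) 0 := h3.continuousAt
      have h9 : O' ∈ 𝓝 ((fun t : ℝ => ((0 : Fin k → ℝ), t • c)) 0) := by
        simp only [h5]
        exact hO'o.mem_nhds h0O'
      filter_upwards [h8.preimage_mem_nhds h9] with t ht using hψ0 _ ht
    have h10 : HasDerivAt (fun t : ℝ => t • c) (fderiv ℝ ψ 0 ((0 : Fin k → ℝ), c)) 0 :=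
      h6.congr_of_eventuallyEq h7.symm
    have h11 : HasDerivAt (fun t : ℝ => t • c) ((1 : ℝ) • c) 0 := (hasDerivAt_id 0).smul_const c
    rw [one_smul] at h11
    exact h10.unique h11

end Pool.Agent.SubRiem
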