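import Mathlib
import Pool.Agent.SubRiem.Factor3
import Pool.Agent.SubRiem.Chart
import Pool.Agent.SubRiem.FrobDist

/-!
# The product decomposition
-/

set_option autoImplicit false
set_option linter.unusedSectionVars false
set_option linter.unusedVariables false

namespace Pool.Agent.SubRiem

open Set Filter Topology VectorField
open scoped ContDiff Matrix Matrix.Norms.Operator

variable {E : Type*} [NormedAddCommGroup E] [NormedSpace ℝ E] [FiniteDimensional ℝ E]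
  {ι : Type*} [Fintype ι] [DecidableEq ι]

section metric

variable {U : Set E} {D : E → Submodule ℝ E} {g : E → E → E → ℝ} (hg : IsMetricOn U D g)

include hg

theorem metric_zero_left {x : E} (hx : x ∈ U) {w : E} (hw : w ∈ D x) : g x 0 w = 0 := by
  have := hg.smul_left x hx 0 0 (D x).zero_mem w hw
  simpa using this

theorem metric_sum_left {x : E} (hx : x ∈ U) {κ : Type*} (s : Finset κ) (c : κ → ℝ) {v : κ → E}
    (hv : ∀ k, v k ∈ D x) {w : E} (hw : w ∈ D x) :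
    g x (∑ k ∈ s, c k • v k) w = ∑ k ∈ s, c k * g x (v k) w := by
  classical
  induction s using Finset.induction_on with
  | empty => simpa using metric_zero_left hg hx hw
  | insert k s hk ih =>
    rw [Finset.sum_insert hk, Finset.sum_insert hk, hg.add_left x hx _
      ((D x).smul_mem _ (hv k)) _ ((D x).sum_mem fun i _ => (D x).smul_mem _ (hv i)) w hw,
      hg.smul_left x hx _ _ (hv k) w hw, ih]

theorem metric_sum_sum {x : E} (hx : x ∈ U) {κ : Type*} (s : Finset κ) (c d : κ → ℝ) {v : κ → E}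
    (hv : ∀ k, v k ∈ D x) :
    g x (∑ k ∈ s, c k • v k) (∑ k ∈ s, d k • v k) =
      ∑ k ∈ s, ∑ l ∈ s, c k * (d l * g x (v k) (v l)) := by
  have hmem : ∀ c : κ → ℝ, ∑ k ∈ s, c k • v k ∈ D x := fun c =>
    (D x).sum_mem fun i _ => (D x).smul_mem _ (hv i)
  rw [metric_sum_left hg hx s c hv (hmem d)]
  apply Finset.sum_congr rfl
  intro k _
  rw [hg.symm x hx _ (hv k) _ (hmem d), metric_sum_left hg hx s d hv (hv k), Finset.mul_sum]
  apply Finset.sum_congr rfl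
  intro l _
  rw [hg.symm x hx _ (hv l) _ (hv k)]

/-- The metric in an orthonormal frame. -/
theorem metric_orthonormal {x : E} (hx : x ∈ U) {X : ι → E} (hX : ∀ i, X i ∈ D x)
    (horth : ∀ i j, g x (X i) (X j) = if i = j then 1 else 0) (c : ι → ℝ) :
    g x (∑ k, c k • X k) (∑ k, c k • X k) = ∑ k, (c k) ^ 2 := by
  rw [metric_sum_sum hg hx Finset.univ c c hX]
  apply Finset.sum_congr rfl
  intro k _
  simp only [horth, mul_ite, mul_one, mul_zero, Finset.sum_ite_eq, Finset.mem_univ, if_true]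
  ring

end metric

/-- **Splitting theorem**: a sub-Riemannian structure with spectral data is a local product. -/
theorem product_of_setup {U : Set E} {X : ι → E → E} {S : E → Matrix ι ι ℝ} {Z : Finset ℝ}
    (h : Setup U X S Z) [Nonempty ι]
    {θ : ι → E → Co E} (hθ : ∀ k, ContDiffOn ℝ ∞ (θ k) U)
    (hθX : ∀ x ∈ U, ∀ k j, θ k x (X j x) = if k = j then 1 else 0)
    {D : E → Submodule ℝ E} (hD : ∀ x ∈ U, D x = Submodule.span ℝ (range fun i => X i x))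
    {g : E → E → E → ℝ} (hg : IsMetricOn U D g)
    (horth : ∀ x ∈ U, ∀ i j, g x (X i x) (X j x) = if i = j then 1 else 0)
    {Ω₀ : Set E} (hUΩ : U ⊆ Ω₀) {q₀ : E} (hq₀ : q₀ ∈ U)
    {T T' : Finset ℝ} (hd : Disjoint T T') (hZ : T ∪ T' = Z)
    (hP : PT S Z T q₀ ≠ 0) (hP' : PT S Z T' q₀ ≠ 0) : IsProductNear Ω₀ D g q₀ := by
  have hTZ : T ⊆ Z := by rw [← hZ]; exact Finset.subset_union_left
  have hT'Z : T' ⊆ Z := by rw [← hZ]; exact Finset.subset_union_right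
  -- complementary frames
  obtain ⟨W, hWU, hW, hqW, hcompl, ⟨B₁, L₁, hB₁, hL₁s, hL₁, hs₁⟩, ⟨B₂, L₂, hB₂, hL₂s, hL₂, hs₂⟩⟩ :=
    exists_complementary_frames h.hU (G₁ := GT X S Z T) (G₂ := GT X S Z T')
      (fun B hB => h.GT_smooth hB) (fun B hB => h.GT_smooth hB)
      (fun x hx => h.sup_LT hθ hθX hZ hx)
      (fun W hWU hW hne => h.exists_disjoint_LT hθ hθX hTZ hT'Z hd hW hWU hne) hq₀
  have hs₁' : ∀ x ∈ W, Submodule.span ℝ (range fun k => B₁ k x) = LT X S Z T x := hs₁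
  have hs₂' : ∀ x ∈ W, Submodule.span ℝ (range fun k => B₂ k x) = LT X S Z T' x := hs₂
  have hc' : ∀ x ∈ W, IsCompl (LT X S Z T x) (LT X S Z T' x) := hcompl
  have hinv₁ : ∀ x ∈ W, ∀ i j, lieBracket ℝ (B₁ i) (B₁ j) x ∈
      Submodule.span ℝ (range fun k => B₁ k x) := by
    intro x hx i j
    rw [hs₁' x hx]
    exact (h.involutive hθ hθX (hB₁ i) (Md.base _ (hB₁ j))).mem_span (hWU hx)
  have hinv₂ : ∀ x ∈ W, ∀ i j, lieBracket ℝ (B₂ i) (B₂ j) x ∈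
      Submodule.span ℝ (range fun k => B₂ k x) := by
    intro x hx i j
    rw [hs₂' x hx]
    exact (h.involutive hθ hθX (hB₂ i) (Md.base _ (hB₂ j))).mem_span (hWU hx)
  -- Frobenius
  obtain ⟨W₂, hW₂W, hW₂, hqW₂, ψ₂, hψ₂s, hψ₂k, hψ₂q⟩ := frobenius_dist hW hqW
    (fun i => (h.GT_smooth (hB₁ i)).mono hWU) hL₁s hL₁ hinv₁
    (C := LT X S Z T' q₀) (by rw [hs₁' q₀ hqW]; exact hc' q₀ hqW)
  obtain ⟨W₁, hW₁W, hW₁, hqW₁, ψ₁, hψ₁s, hψ₁k, hψ₁q⟩ := frobenius_dist hW hqW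
    (fun i => (h.GT_smooth (hB₂ i)).mono hWU) hL₂s hL₂ hinv₂
    (C := LT X S Z T q₀) (by rw [hs₂' q₀ hqW]; exact (hc' q₀ hqW).symm)
  set e₁ : LT X S Z T q₀ ≃L[ℝ]
    EuclideanSpace ℝ (Fin (Module.finrank ℝ (LT X S Z T q₀))) := toEuclidean with he₁
  set e₂ : LT X S Z T' q₀ ≃L[ℝ]
    EuclideanSpace ℝ (Fin (Module.finrank ℝ (LT X S Z T' q₀))) := toEuclidean with he₂
  set ψ : E → EuclideanSpace ℝ (Fin (Module.finrank ℝ (LT X S Z T q₀))) :=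
    fun x => e₁ (ψ₁ x) with hψ
  set ψ' : E → EuclideanSpace ℝ (Fin (Module.finrank ℝ (LT X S Z T' q₀))) :=
    fun x => e₂ (ψ₂ x) with hψ'
  -- common domain
  have hcont : ∀ T : Finset ℝ, ContinuousOn (PT S Z T) U := fun T => (h.PT_smooth T).continuousOn
  set W₀ : Set E := (W₁ ∩ W₂) ∩ ((U ∩ PT S Z T ⁻¹' {0}ᶜ) ∩ (U ∩ PT S Z T' ⁻¹' {0}ᶜ)) with hW₀
  have hW₀o : IsOpen W₀ := (hW₁.inter hW₂).inter
    (((hcont T).isOpen_inter_preimage h.hU isOpen_compl_singleton).inter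
      ((hcont T').isOpen_inter_preimage h.hU isOpen_compl_singleton))
  have hqW₀ : q₀ ∈ W₀ := ⟨⟨hqW₁, hqW₂⟩, ⟨hq₀, hP⟩, ⟨hq₀, hP'⟩⟩
  have hψs : ContDiffOn ℝ ∞ ψ W₀ :=
    e₁.contDiff.comp_contDiffOn (hψ₁s.mono fun x hx => hx.1.1)
  have hψ's : ContDiffOn ℝ ∞ ψ' W₀ :=
    e₂.contDiff.comp_contDiffOn (hψ₂s.mono fun x hx => hx.1.2)
  have hdψ₁ : ∀ x ∈ W₀, DifferentiableAt ℝ ψ₁ x := fun x hx =>
    (hψ₁s.contDiffAt (hW₁.mem_nhds hx.1.1)).differentiableAt (by simp)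
  have hdψ₂ : ∀ x ∈ W₀, DifferentiableAt ℝ ψ₂ x := fun x hx =>
    (hψ₂s.contDiffAt (hW₂.mem_nhds hx.1.2)).differentiableAt (by simp)
  have hfψ : ∀ x ∈ W₀, ∀ v, fderiv ℝ ψ x v = e₁ (fderiv ℝ ψ₁ x v) := by
    intro x hx v
    have h1 : HasFDerivAt ψ (e₁.toContinuousLinearMap.comp (fderiv ℝ ψ₁ x)) x :=
      e₁.hasFDerivAt.comp x (hdψ₁ x hx).hasFDerivAt
    rw [h1.fderiv]; rfl
  have hfψ' : ∀ x ∈ W₀, ∀ v, fderiv ℝ ψ' x v = e₂ (fderiv ℝ ψ₂ x v) := by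
    intro x hx v
    have h1 : HasFDerivAt ψ' (e₂.toContinuousLinearMap.comp (fderiv ℝ ψ₂ x)) x :=
      e₂.hasFDerivAt.comp x (hdψ₂ x hx).hasFDerivAt
    rw [h1.fderiv]; rfl
  have hk₁ : ∀ x ∈ W₀, ∀ v ∈ LT X S Z T' x, fderiv ℝ ψ₁ x v = 0 := by
    intro x hx v hv
    rw [← hs₂' x (hW₁W hx.1.1)] at hv
    induction hv using Submodule.span_induction with
    | mem v hv => obtain ⟨k, rfl⟩ := hv; exact hψ₁k x hx.1.1 k
    | zero => exact map_zero _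
    | add a b _ _ iha ihb => rw [map_add, iha, ihb, add_zero]
    | smul r a _ ih => rw [map_smul, ih, smul_zero]
  have hk₂ : ∀ x ∈ W₀, ∀ v ∈ LT X S Z T x, fderiv ℝ ψ₂ x v = 0 := by
    intro x hx v hv
    rw [← hs₁' x (hW₂W hx.1.2)] at hv
    induction hv using Submodule.span_induction with
    | mem v hv => obtain ⟨k, rfl⟩ := hv; exact hψ₂k x hx.1.2 k
    | zero => exact map_zero _
    | add a b _ _ iha ihb => rw [map_add, iha, ihb, add_zero]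
    | smul r a _ ih => rw [map_smul, ih, smul_zero]
  have hk : ∀ x ∈ W₀, ∀ v ∈ LT X S Z T' x, fderiv ℝ ψ x v = 0 := fun x hx v hv => by
    rw [hfψ x hx, hk₁ x hx v hv, map_zero]
  have hk' : ∀ x ∈ W₀, ∀ v ∈ LT X S Z T x, fderiv ℝ ψ' x v = 0 := fun x hx v hv => by
    rw [hfψ' x hx, hk₂ x hx v hv, map_zero]
  -- the derivative at `q₀`
  set A₀ : (LT X S Z T q₀ × LT X S Z T' q₀) ≃ₗ[ℝ] E :=
    Submodule.prodEquivOfIsCompl _ _ (hc' q₀ hqW) with hA₀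
  set A : E ≃L[ℝ] (EuclideanSpace ℝ (Fin (Module.finrank ℝ (LT X S Z T q₀))) ×
      EuclideanSpace ℝ (Fin (Module.finrank ℝ (LT X S Z T' q₀)))) :=
    (A₀.symm.toContinuousLinearEquiv).trans (e₁.prodCongr e₂) with hA
  have hAd : HasFDerivAt (fun x => (ψ x, ψ' x)) (A : E →L[ℝ] _) q₀ := by
    have h1 : HasFDerivAt (fun x => (ψ x, ψ' x))
        ((fderiv ℝ ψ q₀).prod (fderiv ℝ ψ' q₀)) q₀ :=
      ((hψs.contDiffAt (hW₀o.mem_nhds hqW₀)).differentiableAt (by simp)).hasFDerivAt.prodMk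
        ((hψ's.contDiffAt (hW₀o.mem_nhds hqW₀)).differentiableAt (by simp)).hasFDerivAt
    refine h1.congr_fderiv ?_
    refine ContinuousLinearMap.ext fun v => ?_
    obtain ⟨⟨a, b⟩, rfl⟩ := A₀.surjective v
    have h2 : A (A₀ (a, b)) = (e₁ a, e₂ b) := by
      show (e₁.prodCongr e₂) (A₀.symm (A₀ (a, b))) = _
      rw [LinearEquiv.symm_apply_apply]
      rfl
    have h3 : A₀ (a, b) = (a : E) + (b : E) := by
      rw [hA₀, Submodule.coe_prodEquivOfIsCompl']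
    show (fderiv ℝ ψ q₀ (A₀ (a, b)), fderiv ℝ ψ' q₀ (A₀ (a, b))) = A (A₀ (a, b))
    rw [h2, h3, map_add, map_add, hk q₀ hqW₀ _ b.2, hk' q₀ hqW₀ _ a.2, add_zero, zero_add,
      hfψ q₀ hqW₀, hfψ' q₀ hqW₀, hψ₁q, hψ₂q]
  obtain ⟨Q, Ω, Ω', hqQ, hQW, hQc, hQt, hΩc, hΩ'c, hQsymm, c⟩ :=
    exists_pchart hW₀o hqW₀ hψs hψ's A hAd
  have hVU : Q.source ⊆ U := fun x hx => (hQW hx).2.1.1
  have hkV : ∀ x ∈ Q.source, ∀ v ∈ LT X S Z T' x, fderiv ℝ ψ x v = 0 :=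
    fun x hx => hk x (hQW hx)
  have hkV' : ∀ x ∈ Q.source, ∀ v ∈ LT X S Z T x, fderiv ℝ ψ' x v = 0 :=
    fun x hx => hk' x (hQW hx)
  have hZ' : T' ∪ T = Z := by rw [Finset.union_comm]; exact hZ
  obtain ⟨y₁, hy₁⟩ := hΩc.1
  obtain ⟨y₂, hy₂⟩ := hΩ'c.1
  set τ : EuclideanSpace ℝ (Fin (Module.finrank ℝ (LT X S Z T q₀))) →
    EuclideanSpace ℝ (Fin (Module.finrank ℝ (LT X S Z T' q₀))) → E :=
    fun y y' => Q.symm (y, y') with hτ
  set τ' : EuclideanSpace ℝ (Fin (Module.finrank ℝ (LT X S Z T' q₀))) →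
    EuclideanSpace ℝ (Fin (Module.finrank ℝ (LT X S Z T q₀))) → E :=
    fun y' y => Q.symm (y, y') with hτ'
  have c' : PChart Q.source Ω' Ω ψ' ψ τ' := c.swap
  have hpos : ∀ T : Finset ℝ, PT S Z T q₀ ≠ 0 →
      0 < Module.finrank ℝ (LT X S Z T q₀) := by
    intro T hT
    rw [Nat.pos_iff_ne_zero]
    intro h0
    have h1 : LT X S Z T q₀ = ⊥ := Submodule.finrank_eq_zero.1 h0
    apply hT
    ext i j
    have h2 : YT X S Z T i q₀ ∈ LT X S Z T q₀ :=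
      h.DT_le_LT T hq₀ (Submodule.subset_span ⟨i, rfl⟩)
    rw [h1, Submodule.mem_bot] at h2
    have h3 := h.theta_YT hθ hθX T hq₀ j i
    rw [h2, map_zero] at h3
    exact h3.symm
  -- decomposition of horizontal vectors
  have hdec : ∀ x ∈ U, ∀ v ∈ D x, ∃ v₁ ∈ DT X S Z T x, ∃ v₂ ∈ DT X S Z T' x, v = v₁ + v₂ := by
    intro x hx v hv
    rw [hD x hx] at hv
    induction hv using Submodule.span_induction with
    | mem v hv =>
      obtain ⟨i, rfl⟩ := hv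
      refine ⟨_, Submodule.subset_span ⟨i, rfl⟩, _, Submodule.subset_span ⟨i, rfl⟩, ?_⟩
      have h2 := h.YT_add hd i hx
      have h3 := h.YT_univ i hx
      show X i x = YT X S Z T i x + YT X S Z T' i x
      rw [← h2, ← h3]
      congr 1
      exact hZ.symm
    | zero => exact ⟨0, Submodule.zero_mem _, 0, Submodule.zero_mem _, by simp⟩
    | add a b _ _ iha ihb =>
      obtain ⟨a₁, ha₁, a₂, ha₂, rfl⟩ := iha
      obtain ⟨b₁, hb₁, b₂, hb₂, rfl⟩ := ihb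
      exact ⟨a₁ + b₁, Submodule.add_mem _ ha₁ hb₁, a₂ + b₂, Submodule.add_mem _ ha₂ hb₂, by abel⟩
    | smul r a _ ih =>
      obtain ⟨a₁, ha₁, a₂, ha₂, rfl⟩ := ih
      exact ⟨r • a₁, Submodule.smul_mem _ _ ha₁, r • a₂, Submodule.smul_mem _ _ ha₂,
        by rw [smul_add]⟩
  have hDTD : ∀ (T : Finset ℝ), ∀ x ∈ U, DT X S Z T x ≤ D x := by
    intro T x hx
    rw [hD x hx]
    unfold DT
    rw [Submodule.span_le]
    rintro _ ⟨i, rfl⟩
    exact Submodule.sum_mem _ fun j _ => Submodule.smul_mem _ _ (Submodule.subset_span ⟨j, rfl⟩)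
  have hgθ : ∀ x ∈ U, ∀ v ∈ D x, g x v v = ∑ k, (θ k x v) ^ 2 := by
    intro x hx v hv
    have h1 : v = ∑ k, θ k x v • X k x := by
      have hv' : v ∈ DT X S Z Z x := by
        rw [hD x hx] at hv
        refine (Submodule.span_le.2 ?_) hv
        rintro _ ⟨i, rfl⟩
        have := h.YT_univ i hx
        show X i x ∈ DT X S Z Z x
        rw [← this]
        exact Submodule.subset_span ⟨i, rfl⟩
      have h2 := h.coframe hθ hθX Z hx hv'
      conv_lhs => rw [h2]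
      apply Finset.sum_congr rfl
      intro k _
      rw [h.YT_univ k hx]
    have h2 := metric_orthonormal hg hx (X := fun i => X i x)
      (fun i => by rw [hD x hx]; exact Submodule.subset_span ⟨i, rfl⟩) (horth x hx)
      (fun k => θ k x v)
    rw [← h1] at h2
    exact h2
  have hfQ : ∀ x ∈ Q.source, ∀ v, fderiv ℝ Q x v = (fderiv ℝ ψ x v, fderiv ℝ ψ' x v) := by
    intro x hx v
    have h1 : HasFDerivAt (fun x => (ψ x, ψ' x))
        ((fderiv ℝ ψ x).prod (fderiv ℝ ψ' x)) x :=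
      (c.dψ hx).hasFDerivAt.prodMk (c.dψ' hx).hasFDerivAt
    have h2 : HasFDerivAt Q ((fderiv ℝ ψ x).prod (fderiv ℝ ψ' x)) x :=
      h1.congr_of_eventuallyEq (Filter.Eventually.of_forall hQc)
    rw [h2.fderiv]; rfl
  refine ⟨_, _, Ω, Ω', facD X S Z T ψ τ y₂, facD X S Z T' ψ' τ' y₁,
    facG θ τ y₂, facG θ τ' y₁, Q,
    ⟨hpos T hP, hΩc, factor_isSubRiemannian h hθ hθX c hVU hZ hkV hkV' hy₂ hd,
      fun y hy => facD_ne_bot h hθ hθX c hVU hZ hkV hkV' hy₂ (fun x hx => (hQW hx).2.1.2) hy⟩,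
    ⟨hpos T' hP', hΩ'c, factor_isSubRiemannian h hθ hθX c' hVU hZ' hkV' hkV hy₁ hd.symm,
      fun y hy => facD_ne_bot h hθ hθX c' hVU hZ' hkV' hkV hy₁ (fun x hx => (hQW hx).2.2.2) hy⟩,
    hqQ, ⟨hVU.trans hUΩ, hQt, ?_, hQsymm⟩, fun x hx v v₁ v₂ hv₁₂ => ?_⟩
  · have h1 : ContDiffOn ℝ ∞ (fun x => (ψ x, ψ' x)) Q.source := c.sψ.prodMk c.sψ'
    exact h1.congr (fun x _ => hQc x)
  unfold HasComponents at hv₁₂
  rw [hfQ x hx v, Prod.mk.injEq] at hv₁₂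
  obtain ⟨rfl, rfl⟩ := hv₁₂
  refine ⟨?_, ?_⟩
  · rw [hQc x]
    show v ∈ D x ↔ fderiv ℝ ψ x v ∈ facD X S Z T ψ τ y₂ (ψ x) ∧
      fderiv ℝ ψ' x v ∈ facD X S Z T' ψ' τ' y₁ (ψ' x)
    rw [facD_eq_map h hθ hθX c hVU hZ hkV hkV' hx hy₂,
      facD_eq_map h hθ hθX c' hVU hZ' hkV' hkV hx hy₁]
    constructor
    · intro hv
      obtain ⟨v₁, hv₁, v₂, hv₂, rfl⟩ := hdec x (hVU hx) v hv
      constructor
      · refine ⟨v₁, hv₁, ?_⟩
        show fderiv ℝ ψ x v₁ = fderiv ℝ ψ x (v₁ + v₂)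
        rw [map_add, hkV x hx v₂ (h.DT_le_LT T' (hVU hx) hv₂), add_zero]
      · refine ⟨v₂, hv₂, ?_⟩
        show fderiv ℝ ψ' x v₂ = fderiv ℝ ψ' x (v₁ + v₂)
        rw [map_add, hkV' x hx v₁ (h.DT_le_LT T (hVU hx) hv₁), zero_add]
    · rintro ⟨⟨w₁, hw₁, he1⟩, ⟨w₂, hw₂, he2⟩⟩
      have he1' : fderiv ℝ ψ x w₁ = fderiv ℝ ψ x v := he1
      have he2' : fderiv ℝ ψ' x w₂ = fderiv ℝ ψ' x v := he2
      have h1 : v - (w₁ + w₂) = 0 := by
        apply c.inj hx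
        · rw [map_sub, map_add, hkV x hx w₂ (h.DT_le_LT T' (hVU hx) hw₂), add_zero, he1',
            sub_self]
        · rw [map_sub, map_add, hkV' x hx w₁ (h.DT_le_LT T (hVU hx) hw₁), zero_add, he2',
            sub_self]
      rw [sub_eq_zero.1 h1]
      exact Submodule.add_mem _ (hDTD T x (hVU hx) hw₁) (hDTD T' x (hVU hx) hw₂)
  · intro hv
    rw [hQc x]
    show g x v v = facG θ τ y₂ (ψ x) (fderiv ℝ ψ x v) (fderiv ℝ ψ x v) +
      facG θ τ' y₁ (ψ' x) (fderiv ℝ ψ' x v) (fderiv ℝ ψ' x v)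
    rw [hgθ x (hVU hx) v hv]
    obtain ⟨v₁, hv₁, v₂, hv₂, rfl⟩ := hdec x (hVU hx) v hv
    have h1 : fderiv ℝ ψ x (v₁ + v₂) = fderiv ℝ ψ x v₁ := by
      rw [map_add, hkV x hx v₂ (h.DT_le_LT T' (hVU hx) hv₂), add_zero]
    have h2 : fderiv ℝ ψ' x (v₁ + v₂) = fderiv ℝ ψ' x v₂ := by
      rw [map_add, hkV' x hx v₁ (h.DT_le_LT T (hVU hx) hv₁), zero_add]
    rw [h1, h2, facG_eq h hθ hθX c hVU hZ hkV hkV' hx hy₂ hv₁,
      facG_eq h hθ hθX c' hVU hZ' hkV' hkV hx hy₁ hv₂]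
    have h3 := h.theta_DT hθ hθX T (hVU hx) hv₁
    have h4 := h.theta_DT hθ hθX T' (hVU hx) hv₂
    have h5 : (fun k => θ k x v₁) ⬝ᵥ (fun k => θ k x v₂) = 0 := by
      rw [← h3, ← h4, ← Matrix.dotProduct_transpose_mulVec, h.PT_symm T' (hVU hx),
        Matrix.mulVec_mulVec, h.PT_mul T' T (hVU hx),
        Finset.disjoint_iff_inter_eq_empty.1 hd.symm, h.PT_empty (hVU hx), Matrix.zero_mulVec,
        dotProduct_zero]
    have h6 : ∑ k, θ k x v₁ * θ k x v₂ = 0 := h5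
    have h7 : ∑ k, (θ k x (v₁ + v₂)) ^ 2 = ∑ k, (θ k x v₁) ^ 2 + ∑ k, (θ k x v₂) ^ 2 +
        2 * ∑ k, θ k x v₁ * θ k x v₂ := by
      rw [Finset.mul_sum, ← Finset.sum_add_distrib, ← Finset.sum_add_distrib]
      apply Finset.sum_congr rfl
      intro k _
      rw [map_add]; ring
    rw [h7, h6]
    ring

end Pool.Agent.SubRiem
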