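import Mathlib
import Pool.Agent.SubRiem.Product
import Pool.Agent.SubRiem.GramSchmidt

/-!
# Orthonormal local frames and the bracket-generating condition
-/

set_option autoImplicit false
set_option linter.unusedSectionVars false
set_option linter.unusedVariables false

namespace Pool.Agent.SubRiem

open Set Filter Topology VectorField
open scoped ContDiff Matrix Matrix.Norms.Operator

variable {E : Type*} [NormedAddCommGroup E] [NormedSpace ℝ E] [FiniteDimensional ℝ E]

/-- Restriction of a metric. -/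
theorem IsMetricOn.mono {U V : Set E} {D : E → Submodule ℝ E} {g : E → E → E → ℝ}
    (h : IsMetricOn U D g) (hVU : V ⊆ U) : IsMetricOn V D g where
  add_left x hx := h.add_left x (hVU hx)
  smul_left x hx := h.smul_left x (hVU hx)
  symm x hx := h.symm x (hVU hx)
  pos x hx := h.pos x (hVU hx)
  smooth O hO := h.smooth O (hO.trans hVU)

theorem secs_mono {D : E → Submodule ℝ E} {U V : Set E} (hVU : V ⊆ U) {X : E → E}
    (hX : X ∈ secs D U) : X ∈ secs D V :=
  ⟨hX.1.mono hVU, fun x hx => hX.2 x (hVU hx)⟩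

theorem frame_mem_secs {D : E → Submodule ℝ E} {U : Set E} {m : ℕ} {X : Fin m → E → E}
    (hX : ∀ i, ContDiffOn ℝ ∞ (X i) U)
    (hD : ∀ x ∈ U, D x = Submodule.span ℝ (range fun i => X i x)) (i : Fin m) :
    X i ∈ secs D U :=
  ⟨hX i, fun x hx => by rw [hD x hx]; exact Submodule.subset_span ⟨i, rfl⟩⟩

/-- Expansion of a horizontal vector in a frame with dual functionals. -/
theorem expand_frame {m : ℕ} {X : Fin m → E} {θ : Fin m → Co E}
    (hθ : ∀ k j, θ k (X j) = if k = j then 1 else 0) {v : E}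
    (hv : v ∈ Submodule.span ℝ (range X)) : v = ∑ k, θ k v • X k := by
  induction hv using Submodule.span_induction with
  | mem v hv =>
    obtain ⟨j, rfl⟩ := hv
    simp [hθ]
  | zero => simp
  | add v w _ _ ihv ihw =>
    simp only [map_add, add_smul, Finset.sum_add_distrib]
    rw [← ihv, ← ihw]
  | smul c v _ ih =>
    simp only [map_smul, smul_assoc, ← Finset.smul_sum]
    rw [← ih]

/-- Local orthonormal frames with smooth dual functionals. -/
theorem exists_local_frame {Ω : Set E} {D : E → Submodule ℝ E} {g : E → E → E → ℝ}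
    (hdist : IsSmoothDistribution Ω D) (hg : IsMetricOn Ω D g) {q : E} (hq : q ∈ Ω) :
    ∃ U ⊆ Ω, IsOpen U ∧ q ∈ U ∧ ∃ (m : ℕ) (X : Fin m → E → E) (θ : Fin m → E → Co E),
      (∀ i, ContDiffOn ℝ ∞ (X i) U) ∧ (∀ i, ContDiffOn ℝ ∞ (θ i) U) ∧
      (∀ x ∈ U, ∀ k j, θ k x (X j x) = if k = j then 1 else 0) ∧
      (∀ x ∈ U, D x = Submodule.span ℝ (range fun i => X i x)) ∧
      ∀ x ∈ U, ∀ i j, g x (X i x) (X j x) = if i = j then 1 else 0 := by
  obtain ⟨U₁, hU₁Ω, hU₁, hqU₁, m, X, hX, hli, hD⟩ := hdist q hq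
  obtain ⟨U₂, hU₂U₁, hU₂, hqU₂, θ, hθs, hθ⟩ := exists_smooth_dual (e := X) hU₁ hX hqU₁ (hli q hqU₁)
  have hU₂Ω := hU₂U₁.trans hU₁Ω
  -- the smooth extension of the metric
  set G : E → (E →L[ℝ] E →L[ℝ] ℝ) := fun x =>
    ∑ i, ∑ j, (g x (X i x) (X j x) • θ i x).smulRight (θ j x) with hG
  have hsec : ∀ i, X i ∈ secs D U₂ := fun i => secs_mono hU₂U₁ (frame_mem_secs hX hD i)
  have hGs : ContDiffOn ℝ ∞ G U₂ := by
    apply ContDiffOn.sum
    intro i _
    apply ContDiffOn.sum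
    intro j _
    exact ((hg.smooth U₂ hU₂Ω hU₂ _ (hsec i) _ (hsec j)).smul (hθs i)).smulRight (hθs j)
  have hGg : ∀ x ∈ U₂, ∀ v ∈ D x, ∀ w ∈ D x, G x v w = g x v w := by
    intro x hx v hv w hw
    have hXD : ∀ i, X i x ∈ D x := fun i => (hsec i).2 x hx
    have hv' : v = ∑ k, θ k x v • X k x :=
      expand_frame (hθ x hx) (by rw [← hD x (hU₂U₁ hx)]; exact hv)
    have hw' : w = ∑ k, θ k x w • X k x :=
      expand_frame (hθ x hx) (by rw [← hD x (hU₂U₁ hx)]; exact hw)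
    have h1 := metric_sum_sum hg (hU₂Ω hx) Finset.univ (fun k => θ k x v) (fun k => θ k x w) hXD
    rw [← hv', ← hw'] at h1
    rw [h1]
    simp only [hG, sum_apply, smul_apply, ContinuousLinearMap.smulRight_apply, smul_eq_mul]
    apply Finset.sum_congr rfl
    intro i _
    apply Finset.sum_congr rfl
    intro j _
    ring
  have hDs : ∀ x ∈ U₂, ∀ v, v ∈ Submodule.span ℝ (range fun i => X i x) ↔ v ∈ D x := by
    intro x hx v
    rw [hD x (hU₂U₁ hx)]
  obtain ⟨Y, hY, hYo, hYs⟩ := exists_orthonormal_frame hU₂ (X := X)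
    (fun i => (hX i).mono hU₂U₁) (fun x hx => hli x (hU₂U₁ hx)) hGs
    (fun x hx v w hv hw => by
      rw [hDs x hx] at hv hw
      rw [hGg x hx v hv w hw, hGg x hx w hw v hv, hg.symm x (hU₂Ω hx) v hv w hw])
    (fun x hx v hv hv0 => by
      rw [hDs x hx] at hv
      rw [hGg x hx v hv v hv]
      exact hg.pos x (hU₂Ω hx) v hv hv0)
  have hYD : ∀ x ∈ U₂, D x = Submodule.span ℝ (range fun i => Y i x) := fun x hx => by
    rw [hYs x hx]; exact hD x (hU₂U₁ hx)
  have hYm : ∀ x ∈ U₂, ∀ i, Y i x ∈ D x := fun x hx i => by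
    rw [hYD x hx]; exact Submodule.subset_span ⟨i, rfl⟩
  have hYli : LinearIndependent ℝ (fun i => Y i q) := by
    rw [Fintype.linearIndependent_iff]
    intro c hc i
    have h1 := metric_sum_left hg (hU₂Ω hqU₂) Finset.univ c (v := fun i => Y i q)
      (hYm q hqU₂) (hYm q hqU₂ i)
    rw [hc, metric_zero_left hg (hU₂Ω hqU₂) (hYm q hqU₂ i)] at h1
    have h2 : ∀ k, g q (Y k q) (Y i q) = if k = i then 1 else 0 := fun k => by
      rw [← hGg q hqU₂ _ (hYm q hqU₂ k) _ (hYm q hqU₂ i)]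
      exact hYo q hqU₂ k i
    simp only [h2, mul_ite, mul_one, mul_zero, Finset.sum_ite_eq', Finset.mem_univ,
      if_true] at h1
    exact h1.symm
  obtain ⟨U₃, hU₃U₂, hU₃, hqU₃, η, hηs, hη⟩ := exists_smooth_dual (e := Y) hU₂ hY hqU₂ hYli
  refine ⟨U₃, hU₃U₂.trans hU₂Ω, hU₃, hqU₃, m, Y, η, fun i => (hY i).mono hU₃U₂, hηs, hη,
    fun x hx => hYD x (hU₃U₂ hx), ?_⟩
  intro x hx i j
  rw [← hGg x (hU₃U₂ hx) _ (hYm x (hU₃U₂ hx) i) _ (hYm x (hU₃U₂ hx) j)]
  exact hYo x (hU₃U₂ hx) i j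

/-- The frame generates if the distribution does. -/
theorem span_Br_of_bracketGenerating {Ω U : Set E} {D : E → Submodule ℝ E}
    (hbg : IsBracketGenerating Ω D) (hUΩ : U ⊆ Ω) (hU : IsOpen U) {m : ℕ}
    {X : Fin m → E → E} {θ : Fin m → E → Co E} (hX : ∀ i, ContDiffOn ℝ ∞ (X i) U)
    (hθ : ∀ i, ContDiffOn ℝ ∞ (θ i) U)
    (hθX : ∀ x ∈ U, ∀ k j, θ k x (X j x) = if k = j then 1 else 0)
    (hD : ∀ x ∈ U, D x = Submodule.span ℝ (range fun i => X i x)) :
    ∀ x ∈ U, Submodule.span ℝ {v | ∃ B, Br X B ∧ v = B x} = ⊤ := by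
  intro x hx
  obtain ⟨V, hVΩ, hV, hxV, j, hj⟩ := hbg x (hUΩ hx)
  set O : Set E := V ∩ U with hO
  have hOo : IsOpen O := hV.inter hU
  have hxO : x ∈ O := ⟨hxV, hx⟩
  have hBrs : ∀ B, Br X B → ContDiffOn ℝ ∞ B O := fun B hB =>
    (hB.smooth hU hX).mono inter_subset_right
  have hsecG : ∀ A ∈ secs D V, Md O (fun B => ∃ k, B = X k) A := by
    intro A hA
    have h1 : Md O (fun B => ∃ k, B = X k) (fun x => ∑ k, θ k x (A x) • X k x) := by
      apply Md.sum
      intro k _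
      exact Md.smul (fun x => θ k x (A x)) (X k)
        (((hθ k).mono inter_subset_right).clm_apply (hA.1.mono inter_subset_left))
        (Md.base _ ⟨k, rfl⟩)
    refine Md.congr _ _ ?_ h1
    intro y hy
    exact expand_frame (hθX y hy.2) (by rw [← hD y hy.2]; exact hA.2 y hy.1)
  have hsec : ∀ A ∈ secs D V, Md O (Br X) A := fun A hA => (hsecG A hA).mono (by
    rintro B ⟨k, rfl⟩; exact Md.base _ (Br.base k))
  have hflag : ∀ j, ∀ A ∈ flag D V j, Md O (Br X) A := by
    intro j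
    induction j with
    | zero => exact hsec
    | succ j ih =>
      intro A hA
      obtain ⟨A₁, hA₁, A₂, hA₂, rfl⟩ := Submodule.mem_sup.1 hA
      refine Md.add _ _ (ih A₁ hA₁) ?_
      clear hA
      induction hA₂ using Submodule.span_induction with
      | mem A hA =>
        obtain ⟨P, hP, Q, hQ, rfl⟩ := hA
        have hQs : ContDiffOn ℝ ∞ Q O := Md.smooth hBrs (ih Q hQ)
        apply Md.bracket_left' hOo (G := fun B => ∃ k, B = X k) _ hQs _ _ (hsecG P hP)
        · rintro B ⟨k, rfl⟩; exact (hX k).mono inter_subset_right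
        · rintro B ⟨k, rfl⟩; exact Md.base _ (Br.base k)
        · rintro B ⟨k, rfl⟩
          exact Md.bracket hOo hBrs ((hX k).mono inter_subset_right)
            (fun B hB => Md.base _ (Br.step k B hB)) (ih Q hQ)
      | zero => exact Md.zero
      | add P Q _ _ ihP ihQ => exact Md.add _ _ ihP ihQ
      | smul r P _ ihP => exact Md.smul (fun _ => r) P contDiffOn_const ihP
  rw [eq_top_iff]
  intro v _
  obtain ⟨A, hA, rfl⟩ := hj v
  exact (hflag j A hA).mem_span hxO

end Pool.Agent.SubRiem
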