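import Mathlib
import Pool.Agent.SubRiem.LocalFrame
import Pool.Agent.SubRiem.Geodesic

/-!
# The sub-Riemannian Eisenhart theorem
-/

set_option autoImplicit false
set_option linter.unusedSectionVars false
set_option linter.unusedVariables false

namespace Pool.Agent.SubRiem

open Set Filter Topology VectorField
open scoped ContDiff Matrix Matrix.Norms.Operator

variable {E : Type*} [NormedAddCommGroup E] [NormedSpace ℝ E] [FiniteDimensional ℝ E]

theorem contDiffOn_of_entries {m : ℕ} {U : Set E} {S : E → Matrix (Fin m) (Fin m) ℝ}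
    (h : ∀ i j, ContDiffOn ℝ ∞ (fun x => S x i j) U) : ContDiffOn ℝ ∞ S U := by
  have h1 : ∀ x, S x = ∑ i, ∑ j, S x i j • Matrix.single i j (1 : ℝ) := by
    intro x
    conv_lhs => rw [Matrix.matrix_eq_sum_single (S x)]
    apply Finset.sum_congr rfl
    intro i _
    apply Finset.sum_congr rfl
    intro j _
    rw [Matrix.smul_single, smul_eq_mul, mul_one]
  have h2 : ContDiffOn ℝ ∞ (fun x => ∑ i, ∑ j, S x i j • Matrix.single i j (1 : ℝ)) U := by
    apply ContDiffOn.sum
    intro i _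
    apply ContDiffOn.sum
    intro j _
    exact (h i j).smul contDiffOn_const
  exact h2.congr (fun x _ => h1 x)

/-- Restriction of the affine equivalence to a smaller open set. -/
theorem GeodesicsAffineSubset.mono {D : E → Submodule ℝ E} {g₁ g₂ : E → E → E → ℝ}
    {U V : Set E} (h : GeodesicsAffineSubset D g₁ g₂ U) (hVU : V ⊆ U) :
    GeodesicsAffineSubset D g₁ g₂ V := by
  intro I γ hγ
  obtain ⟨hI, hIc, hIn, z, hzγ, hz⟩ := hγ
  have hV : ∀ t ∈ I, γ t ∈ V := by
    intro t ht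
    rw [hzγ t ht]
    rcases hz with hz | hz
    · exact hz.1 t ht
    · exact (hz.1 t ht).1
  have hγU : IsGeodesic D g₁ U I γ := by
    refine ⟨hI, hIc, hIn, z, hzγ, ?_⟩
    rcases hz with hz | hz
    · exact Or.inl ⟨fun t ht => hVU (hz.1 t ht), hz.2⟩
    · exact Or.inr ⟨fun t ht => ⟨hVU (hz.1 t ht).1, (hz.1 t ht).2⟩, hz.2⟩
  obtain ⟨α, β, hα, hJ, hJc, hJn, w, hwγ, hw⟩ := h I γ hγU
  refine ⟨α, β, hα, hJ, hJc, hJn, w, hwγ, ?_⟩
  have hwV : ∀ t ∈ (fun t => α * t + β) ⁻¹' I, (w t).1 ∈ V := by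
    intro t ht
    rw [← hwγ t ht]
    exact hV _ ht
  rcases hw with hw | hw
  · exact Or.inl ⟨hwV, hw.2⟩
  · exact Or.inr ⟨fun t ht => ⟨hwV t ht, (hw.1 t ht).2⟩, hw.2⟩

/-- The pointwise proportionality relation. -/
def PropAt (D : E → Submodule ℝ E) (g₁ g₂ : E → E → E → ℝ) (c : ℝ) (x : E) : Prop :=
  ∀ v ∈ D x, ∀ w ∈ D x, g₂ x v w = c * g₁ x v w

/-- Local data near a point. -/
structure LData (U : Set E) (D : E → Submodule ℝ E) (g₁ g₂ : E → E → E → ℝ) (m : ℕ)
    (X : Fin m → E → E) (θ : Fin m → E → Co E) (S : E → Matrix (Fin m) (Fin m) ℝ) : Prop where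
  hU : IsOpen U
  conn : IsPreconnected U
  hX : ∀ i, ContDiffOn ℝ ∞ (X i) U
  hθ : ∀ i, ContDiffOn ℝ ∞ (θ i) U
  hθX : ∀ x ∈ U, ∀ k j, θ k x (X j x) = if k = j then 1 else 0
  hD : ∀ x ∈ U, D x = Submodule.span ℝ (range fun i => X i x)
  horth : ∀ x ∈ U, ∀ i j, g₁ x (X i x) (X j x) = if i = j then 1 else 0
  hgen : ∀ x ∈ U, Submodule.span ℝ {v | ∃ B, Br X B ∧ v = B x} = ⊤
  hS : ContDiffOn ℝ ∞ S U
  hSg : ∀ x ∈ U, ∀ i j, S x i j = g₂ x (X i x) (X j x)
  hg₁ : IsMetricOn U D g₁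
  hg₂ : IsMetricOn U D g₂
  hOrb : OrbNear U X S

section ldata

variable {U : Set E} {D : E → Submodule ℝ E} {g₁ g₂ : E → E → E → ℝ} {m : ℕ}
  {X : Fin m → E → E} {θ : Fin m → E → Co E} {S : E → Matrix (Fin m) (Fin m) ℝ}
  (h : LData U D g₁ g₂ m X θ S)

include h

theorem LData.hli : ∀ x ∈ U, LinearIndependent ℝ (fun i => X i x) := fun x hx =>
  linearIndependent_of_dual' (fun k => θ k x) (h.hθX x hx)

theorem LData.mem (i : Fin m) {x : E} (hx : x ∈ U) : X i x ∈ D x := by
  rw [h.hD x hx]; exact Submodule.subset_span ⟨i, rfl⟩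

theorem LData.hSs : ∀ x ∈ U, ∀ i j, S x i j = S x j i := fun x hx i j => by
  rw [h.hSg x hx, h.hSg x hx, h.hg₂.symm x hx _ (h.mem i hx) _ (h.mem j hx)]

theorem LData.propAt_iff {c : ℝ} {x : E} (hx : x ∈ U) :
    PropAt D g₁ g₂ c x ↔ S x = c • (1 : Matrix (Fin m) (Fin m) ℝ) := by
  constructor
  · intro hp
    ext i j
    rw [h.hSg x hx, hp _ (h.mem i hx) _ (h.mem j hx), h.horth x hx]
    simp [Matrix.one_apply]
  · intro hS v hv w hw
    have hv' : v = ∑ k, θ k x v • X k x :=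
      expand_frame (h.hθX x hx) (by rw [← h.hD x hx]; exact hv)
    have hw' : w = ∑ k, θ k x w • X k x :=
      expand_frame (h.hθX x hx) (by rw [← h.hD x hx]; exact hw)
    have h1 := metric_sum_sum h.hg₁ hx Finset.univ (fun k => θ k x v) (fun k => θ k x w)
      (v := fun k => X k x) (fun k => h.mem k hx)
    have h2 := metric_sum_sum h.hg₂ hx Finset.univ (fun k => θ k x v) (fun k => θ k x w)
      (v := fun k => X k x) (fun k => h.mem k hx)
    rw [← hv', ← hw'] at h1 h2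
    rw [h1, h2, Finset.mul_sum]
    apply Finset.sum_congr rfl
    intro k _
    rw [Finset.mul_sum]
    apply Finset.sum_congr rfl
    intro l _
    rw [← h.hSg x hx, h.horth x hx, hS, Matrix.smul_apply, Matrix.one_apply, smul_eq_mul]
    ring

theorem LData.hQ [Nonempty (Fin m)] : ∀ f : Polynomial ℝ, ∀ z ∈ TU U,
    fderiv ℝ (quad X fun x => Polynomial.aeval (S x) f) z (XH X z) = 0 :=
  quad_firstIntegral h.hU h.hX h.hli h.hgen h.hS h.hSs h.hOrb

/-- Proportionality at one point propagates. -/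
theorem LData.propagate [Nonempty (Fin m)] {c : ℝ} {x y : E} (hx : x ∈ U) (hy : y ∈ U)
    (hp : PropAt D g₁ g₂ c x) : PropAt D g₁ g₂ c y := by
  rw [h.propAt_iff hx] at hp
  rw [h.propAt_iff hy]
  have hSy : (S y)ᵀ = S y := by
    ext i j
    rw [Matrix.transpose_apply]
    exact (h.hSs y hy i j).symm
  set f : Polynomial ℝ := Polynomial.X - Polynomial.C c with hf
  have hfe : ∀ x, Polynomial.aeval (S x) f = S x - c • (1 : Matrix (Fin m) (Fin m) ℝ) := by
    intro x
    rw [hf, map_sub, Polynomial.aeval_X, Polynomial.aeval_C, Algebra.algebraMap_eq_smul_one]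
  have h1 := trace_const h.hU h.hX h.hli h.hS h.hSs h.hgen h.hQ h.conn (f * f) hx hy
  rw [map_mul, map_mul, hfe x, hp, sub_self, zero_mul, Matrix.trace_zero] at h1
  set A := Polynomial.aeval (S y) f with hA
  have hAs : Aᵀ = A := aeval_symm hSy _
  have h3 : ∑ j, ∑ i, A i j * A i j = 0 := by
    have h2 : (Aᵀ * A).trace = 0 := by rw [hAs, ← h1]
    rw [← h2]
    simp only [Matrix.trace, Matrix.diag_apply, Matrix.mul_apply, Matrix.transpose_apply]
  have hA0 : A = 0 := by
    ext i j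
    have h4 := (Finset.sum_eq_zero_iff_of_nonneg (fun j _ => Finset.sum_nonneg
      fun i _ => mul_self_nonneg (A i j))).1 h3 j (Finset.mem_univ j)
    have h5 := (Finset.sum_eq_zero_iff_of_nonneg (fun i _ => mul_self_nonneg (A i j))).1 h4 i
      (Finset.mem_univ i)
    exact mul_self_eq_zero.1 h5
  rw [hfe y] at hA
  rw [hA] at hA0
  exact sub_eq_zero.1 hA0

end ldata

/-- Local data exist near every point. -/
theorem exists_ldata {Ω U : Set E} {D : E → Submodule ℝ E} {g₁ g₂ : E → E → E → ℝ}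
    (hM : IsSubRiemannian Ω D g₁) (hU : IsOpen U) (hUΩ : U ⊆ Ω) (hg₂ : IsMetricOn U D g₂)
    (haff : GeodesicsAffineSubset D g₁ g₂ U) {q : E} (hq : q ∈ U) :
    ∃ V ⊆ U, q ∈ V ∧ ∃ (m : ℕ) (X : Fin m → E → E) (θ : Fin m → E → Co E)
      (S : E → Matrix (Fin m) (Fin m) ℝ), LData V D g₁ g₂ m X θ S := by
  obtain ⟨W, hWΩ, hW, hqW, m, X, θ, hX, hθ, hθX, hD, horth⟩ :=
    exists_local_frame hM.distribution hM.metric (hUΩ hq)
  obtain ⟨r, hr, hball⟩ := Metric.isOpen_iff.1 (hW.inter hU) q ⟨hqW, hq⟩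
  set V := Metric.ball q r with hV
  have hVW : V ⊆ W := fun x hx => (hball hx).1
  have hVU : V ⊆ U := fun x hx => (hball hx).2
  have hVo : IsOpen V := Metric.isOpen_ball
  set S : E → Matrix (Fin m) (Fin m) ℝ := fun x => Matrix.of fun i j => g₂ x (X i x) (X j x)
    with hS
  have hXV : ∀ i, ContDiffOn ℝ ∞ (X i) V := fun i => (hX i).mono hVW
  have hDV : ∀ x ∈ V, D x = Submodule.span ℝ (range fun i => X i x) := fun x hx =>
    hD x (hVW hx)
  have hg₁V := hM.metric.mono (hVU.trans hUΩ)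
  have hg₂V := hg₂.mono hVU
  have hSs : ContDiffOn ℝ ∞ S V := contDiffOn_of_entries fun i j =>
    hg₂V.smooth V Subset.rfl hVo _ (frame_mem_secs hXV hDV i) _ (frame_mem_secs hXV hDV j)
  have hli : ∀ x ∈ V, LinearIndependent ℝ (fun i => X i x) := fun x hx =>
    linearIndependent_of_dual' (fun k => θ k x) (hθX x (hVW hx))
  refine ⟨V, hVU, Metric.mem_ball_self hr, m, X, θ, S, ?_⟩
  exact
    { hU := hVo
      conn := (convex_ball q r).isPreconnected
      hX := hXV
      hθ := fun i => (hθ i).mono hVW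
      hθX := fun x hx => hθX x (hVW hx)
      hD := hDV
      horth := fun x hx => horth x (hVW hx)
      hgen := span_Br_of_bracketGenerating hM.bracketGenerating (hVU.trans hUΩ) hVo hXV
        (fun i => (hθ i).mono hVW) (fun x hx => hθX x (hVW hx)) hDV
      hS := hSs
      hSg := fun x _ i j => rfl
      hg₁ := hg₁V
      hg₂ := hg₂V
      hOrb := orbNear_of_affine hVo hXV hli hDV hg₁V hg₂V (fun x hx => horth x (hVW hx)) hSs
        (fun x _ i j => rfl) (haff.mono hVU) }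

/-- **The sub-Riemannian Eisenhart theorem.** -/
theorem eisenhart {Ω U : Set E} {D : E → Submodule ℝ E} {g₁ g₂ : E → E → E → ℝ}
    (hM : IsSubRiemannian Ω D g₁) (hU : IsOpen U) (hconn : IsPreconnected U) (hUΩ : U ⊆ Ω)
    (hg₂ : IsMetricOn U D g₂) (haff : GeodesicsAffineSubset D g₁ g₂ U)
    (hnp : ¬ ConstantlyProportionalOn D g₁ g₂ U) {q₀ : E} (hq₀ : q₀ ∈ U) :
    IsProductNear Ω D g₁ q₀ := by
  -- positive rank
  have hpos : ∀ q ∈ U, ∀ (V : Set E) (m : ℕ) (X : Fin m → E → E) (θ : Fin m → E → Co E)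
      (S : E → Matrix (Fin m) (Fin m) ℝ), q ∈ V → LData V D g₁ g₂ m X θ S → 0 < m := by
    intro q hq V m X θ S hqV h
    rcases Nat.eq_zero_or_pos m with h0 | h0
    · exfalso
      subst h0
      apply hnp
      have hB : ∀ B, ¬ Br X B := by
        intro B hB
        induction hB with
        | base i => exact i.elim0
        | step i B hB ih => exact ih
      have h1 := h.hgen q hqV
      have h2 : {v | ∃ B, Br X B ∧ v = B q} = ∅ := by
        ext v
        simp only [mem_ofPred_eq, mem_empty_iff_false, iff_false]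
        rintro ⟨B, hB', _⟩
        exact hB B hB'
      rw [h2, Submodule.span_empty] at h1
      have hE : ∀ v : E, v = 0 := fun v => by
        have : v ∈ (⊤ : Submodule ℝ E) := trivial
        rw [← h1, Submodule.mem_bot] at this
        exact this
      refine ⟨1, one_pos, fun x hx v hv w hw => ?_⟩
      rw [hE v, metric_zero_left hg₂ hx hw, metric_zero_left hM.metric (hUΩ hx) hw, mul_zero]
    · exact h0
  -- global propagation
  have hglob : ∀ c : ℝ, ∀ x ∈ U, ∀ y ∈ U, PropAt D g₁ g₂ c x → PropAt D g₁ g₂ c y := by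
    intro c x hx y hy
    have key := hconn.induction₂ (fun x y => PropAt D g₁ g₂ c x ↔ PropAt D g₁ g₂ c y)
      (fun x hx => by
        obtain ⟨V, hVU, hxV, m, X, θ, S, h⟩ := exists_ldata hM hU hUΩ hg₂ haff hx
        have hm := hpos x hx V m X θ S hxV h
        have : Nonempty (Fin m) := ⟨⟨0, hm⟩⟩
        have hVx : V ∈ 𝓝[U] x := mem_nhdsWithin_of_mem_nhds (h.hU.mem_nhds hxV)
        filter_upwards [hVx] with y hyV
        exact ⟨fun hp => h.propagate hxV hyV hp, fun hp => h.propagate hyV hxV hp⟩)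
      (fun _ _ _ _ _ _ h1 h2 => h1.trans h2) (fun _ _ _ _ h1 => h1.symm) hx hy
    exact key.1
  obtain ⟨V, hVU, hqV, m, X, θ, S, h⟩ := exists_ldata hM hU hUΩ hg₂ haff hq₀
  have hm := hpos q₀ hq₀ V m X θ S hqV h
  have hne : Nonempty (Fin m) := ⟨⟨0, hm⟩⟩
  have hSq : (S q₀)ᵀ = S q₀ := by
    ext i j
    rw [Matrix.transpose_apply]
    exact (h.hSs q₀ hqV i j).symm
  obtain ⟨Z, hZ⟩ := minpoly_eq_prod hSq
  have hμ : ∀ x ∈ V, Polynomial.aeval (S x) (muZ Z) = 0 := by
    intro x hx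
    have := aeval_minpoly_eq_zero h.hU h.hX h.hli h.hS h.hSs h.hgen h.hQ h.conn hqV hx
    rw [hZ] at this
    exact this
  have hset : Setup V X S Z := ⟨h.hU, h.hX, h.hli, h.hgen, h.hS, h.hSs, h.hOrb, hμ⟩
  -- nonvanishing of the projections
  have hPne : ∀ T : Finset ℝ, ∀ t ∈ T, t ∈ Z → PT S Z T q₀ ≠ 0 := by
    intro T t ht htZ h0
    have h1 : muZ Z ∣ ind Z T := by
      have h2 := minpoly.dvd ℝ (S q₀) h0
      rw [hZ] at h2
      exact h2
    obtain ⟨r, hr⟩ := h1
    have h2 := ind_eval (T := T) htZ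
    rw [hr, Polynomial.eval_mul, if_pos ht] at h2
    have h3 : (muZ Z).eval t = 0 := by
      unfold muZ
      rw [Polynomial.eval_prod]
      exact Finset.prod_eq_zero htZ (by simp)
    rw [h3, zero_mul] at h2
    exact zero_ne_one h2
  -- at least one eigenvalue
  have hZne : Z.Nonempty := by
    rw [Finset.nonempty_iff_ne_empty]
    intro h0
    have hint : IsIntegral ℝ (S q₀) := Algebra.IsIntegral.isIntegral (S q₀)
    have h1 := minpoly.aeval ℝ (S q₀)
    rw [hZ, h0, Finset.prod_empty, map_one] at h1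
    exact one_ne_zero h1
  obtain ⟨s, hs⟩ := hZne
  by_cases hcard : ∃ t ∈ Z, t ≠ s
  · obtain ⟨t, ht, hts⟩ := hcard
    have hd : Disjoint ({s} : Finset ℝ) (Z.erase s) := by
      rw [Finset.disjoint_singleton_left]
      exact Finset.notMem_erase s Z
    have hU' : ({s} : Finset ℝ) ∪ Z.erase s = Z := by
      ext a
      simp only [Finset.mem_union, Finset.mem_singleton, Finset.mem_erase]
      constructor
      · rintro (rfl | h1)
        · exact hs
        · exact h1.2
      · intro ha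
        by_cases h1 : a = s
        · exact Or.inl h1
        · exact Or.inr ⟨h1, ha⟩
    exact product_of_setup hset h.hθ h.hθX h.hD h.hg₁ h.horth (hVU.trans hUΩ) hqV hd hU'
      (hPne {s} s (Finset.mem_singleton_self s) hs)
      (hPne (Z.erase s) t (Finset.mem_erase.2 ⟨hts, ht⟩) ht)
  · exfalso
    push Not at hcard
    have hZs : Z = {s} := by
      ext a
      rw [Finset.mem_singleton]
      exact ⟨fun ha => hcard a ha, fun ha => ha ▸ hs⟩
    have h1 := minpoly.aeval ℝ (S q₀)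
    rw [hZ, hZs, Finset.prod_singleton, map_sub, Polynomial.aeval_X, Polynomial.aeval_C,
      Algebra.algebraMap_eq_smul_one] at h1
    have hp : PropAt D g₁ g₂ s q₀ := (h.propAt_iff hqV).2 (sub_eq_zero.1 h1)
    apply hnp
    refine ⟨s, ?_, fun x hx v hv w hw => hglob s q₀ hq₀ x hx hp v hv w hw⟩
    have i₀ : Fin m := ⟨0, hm⟩
    have h2 := hp _ (h.mem i₀ hqV) _ (h.mem i₀ hqV)
    rw [h.horth q₀ hqV, if_pos rfl, mul_one] at h2
    rw [← h2]
    apply h.hg₂.pos q₀ hqV _ (h.mem i₀ hqV)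
    exact (h.hli q₀ hqV).ne_zero i₀

end Pool.Agent.SubRiem
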